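import Pool.Agent.Lib.MP_bd80ac_an.Defs

set_option autoImplicit false

namespace Pool.Agent.Lib.MP_bd80ac_an

open MeasureTheory Set Filter Topology
open scoped Real ENNReal RealInnerProductSpace

variable {E : Type*} [NormedAddCommGroup E] [InnerProductSpace ℝ E] [FiniteDimensional ℝ E]
  [MeasurableSpace E] [BorelSpace E]

omit [MeasurableSpace E] [BorelSpace E] in
theorem one_le_dm [Nontrivial E] : 1 ≤ dm E := by
  unfold dm
  have h : 0 < Module.finrank ℝ E := Module.finrank_pos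
  exact_mod_cast h

omit [FiniteDimensional ℝ E] in
theorem measurable_nn (α : ℝ) : Measurable (nn α : E → ℝ≥0∞) := by
  unfold nn
  exact ENNReal.measurable_ofReal.comp ((measurable_norm.pow_const _).const_mul _)

omit [FiniteDimensional ℝ E] in
theorem measurable_gg (α : ℝ) : Measurable (gg α : E → ℝ≥0∞) := by
  unfold gg
  exact ENNReal.measurable_ofReal.comp ((measurable_norm.const_add 1).pow_const _)

theorem lint_gg_ne_top {α : ℝ} (h0 : 0 < α) : ∫⁻ y : E, gg α y ≠ ∞ := by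
  unfold gg
  refine (finite_integral_one_add_norm (μ := (volume : Measure E)) (r := dm E + α) ?_).ne
  unfold dm
  linarith

theorem lint_scale (h : E → ℝ≥0∞) (b : E) {c : ℝ} (hc : c ≠ 0) :
    ∫⁻ w, h (b - c • w) = ENNReal.ofReal (|c| ^ (-dm E)) * ∫⁻ w, h w := by
  have h1 : ∫⁻ w, h (b - c • w) = ∫⁻ w, h (b - w) ∂(Measure.map (c • ·) (volume : Measure E)) := by
    have := lintegral_map_equiv (μ := (volume : Measure E)) (fun w => h (b - w))
      (Homeomorph.smulOfNeZero c hc).toMeasurableEquiv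
    exact this.symm
  rw [h1, Measure.map_addHaar_smul _ hc, lintegral_smul_measure, lintegral_sub_left_eq_self,
    smul_eq_mul]
  congr 2
  rw [abs_inv, abs_pow, Real.rpow_neg (abs_nonneg c), dm, Real.rpow_natCast]

theorem ba_tail_one {γ : ℝ} (hγ : 0 < γ) :
    ∫⁻ w in {w : E | 1 ≤ ‖w‖}, ENNReal.ofReal (‖w‖ ^ (-(dm E + γ))) ≠ ∞ := by
  have hs : 0 ≤ dm E + γ := by
    have : 0 ≤ dm E := Nat.cast_nonneg _
    linarith
  have hm : MeasurableSet {w : E | 1 ≤ ‖w‖} := measurableSet_le measurable_const measurable_norm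
  have h1 : ∫⁻ w in {w : E | 1 ≤ ‖w‖}, ENNReal.ofReal (‖w‖ ^ (-(dm E + γ))) ≤
      ∫⁻ w in {w : E | 1 ≤ ‖w‖}, ENNReal.ofReal (2 ^ (dm E + γ)) * gg γ w := by
    refine setLIntegral_mono' hm fun w hw => ?_
    have hw1 : 1 ≤ ‖w‖ := hw
    unfold gg
    rw [← ENNReal.ofReal_mul (by positivity)]
    refine ENNReal.ofReal_le_ofReal ?_
    have e : (2 : ℝ) ^ (dm E + γ) * (1 + ‖w‖) ^ (-(dm E + γ)) =
        ((1 + ‖w‖) / 2) ^ (-(dm E + γ)) := by
      rw [Real.div_rpow (by positivity) (by positivity), Real.rpow_neg (by norm_num : (0:ℝ) ≤ 2),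
        div_inv_eq_mul, mul_comm]
    rw [e]
    exact Real.rpow_le_rpow_of_nonpos (by positivity) (by linarith) (by linarith)
  refine ne_top_of_le_ne_top ?_ (h1.trans (setLIntegral_le_lintegral _ _))
  rw [lintegral_const_mul' _ _ ENNReal.ofReal_ne_top]
  exact ENNReal.mul_ne_top ENNReal.ofReal_ne_top (lint_gg_ne_top hγ)

theorem tail_pow [Nontrivial E] {γ : ℝ} (hγ : 0 < γ) : ∃ C : ℝ, 0 ≤ C ∧ ∀ r : ℝ, 0 < r →
    ∫⁻ w in {w : E | r ≤ ‖w‖}, ENNReal.ofReal (‖w‖ ^ (-(dm E + γ))) ≤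
      ENNReal.ofReal (C * r ^ (-γ)) := by
  set I := ∫⁻ w in {w : E | 1 ≤ ‖w‖}, ENNReal.ofReal (‖w‖ ^ (-(dm E + γ))) with hI
  have hItop : I ≠ ∞ := ba_tail_one hγ
  refine ⟨I.toReal, ENNReal.toReal_nonneg, fun r hr => le_of_eq ?_⟩
  have hm : ∀ r : ℝ, MeasurableSet {w : E | r ≤ ‖w‖} := fun r =>
    measurableSet_le measurable_const measurable_norm
  set h : E → ℝ≥0∞ := indicator {w : E | 1 ≤ ‖w‖}
    fun w => ENNReal.ofReal (‖w‖ ^ (-(dm E + γ))) with hh
  have hc : (-r⁻¹) ≠ 0 := neg_ne_zero.mpr (inv_ne_zero hr.ne')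
  have key := lint_scale h 0 hc
  have hI' : ∫⁻ w, h w = I := by rw [hh, lintegral_indicator (hm 1)]
  have hpt : ∀ w : E, indicator {w : E | r ≤ ‖w‖}
      (fun w => ENNReal.ofReal (‖w‖ ^ (-(dm E + γ)))) w =
      ENNReal.ofReal (r ^ (-(dm E + γ))) * h (0 - (-r⁻¹) • w) := by
    intro w
    have hn : ‖(0 : E) - (-r⁻¹) • w‖ = ‖w‖ / r := by
      rw [zero_sub, norm_neg, norm_smul, norm_neg, norm_inv, Real.norm_eq_abs, abs_of_pos hr,
        div_eq_inv_mul]
    by_cases hw : r ≤ ‖w‖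
    · have hw1 : (0 : E) - (-r⁻¹) • w ∈ {w : E | 1 ≤ ‖w‖} := by
        rw [mem_ofPred_eq, hn, le_div_iff₀ hr, one_mul]
        exact hw
      rw [indicator_of_mem (show w ∈ {w : E | r ≤ ‖w‖} from hw), hh, indicator_of_mem hw1, hn,
        ← ENNReal.ofReal_mul (by positivity), ← Real.mul_rpow hr.le (by positivity),
        mul_div_cancel₀ _ hr.ne']
    · have hw1 : (0 : E) - (-r⁻¹) • w ∉ {w : E | 1 ≤ ‖w‖} := by
        rw [mem_ofPred_eq, hn, le_div_iff₀ hr, one_mul]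
        exact hw
      rw [indicator_of_notMem (show w ∉ {w : E | r ≤ ‖w‖} from hw), hh, indicator_of_notMem hw1,
        mul_zero]
  rw [← lintegral_indicator (hm r)]
  simp_rw [hpt]
  rw [lintegral_const_mul' _ _ ENNReal.ofReal_ne_top, key, hI', ← mul_assoc,
    ← ENNReal.ofReal_mul (by positivity), abs_neg, abs_inv, abs_of_pos hr,
    Real.inv_rpow hr.le, ← Real.rpow_neg hr.le, ← Real.rpow_add hr,
    ENNReal.ofReal_mul ENNReal.toReal_nonneg, ENNReal.ofReal_toReal hItop, mul_comm]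
  congr 3
  ring

theorem small_pow [Nontrivial E] {γ : ℝ} (hγ : 0 < γ) :
    ∫⁻ w in {w : E | ‖w‖ < 1}, ENNReal.ofReal (‖w‖ ^ (γ - dm E)) ≠ ∞ := by
  have hd : 1 ≤ Module.finrank ℝ E := Module.finrank_pos
  have h : IntegrableOn (fun w : E => ‖w‖ ^ (γ - dm E)) (Metric.ball 0 1) volume := by
    refine integrableOn_ball_of_norm_le_rpow hd (C := 1) (α := dm E - γ) ?_ ?_ ?_
    · unfold dm
      linarith
    · refine Eventually.of_forall fun x => ?_
      rw [Real.norm_eq_abs, abs_of_nonneg (by positivity), one_mul, neg_sub]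
    · exact (measurable_norm.pow_const _).aestronglyMeasurable
  have e : {w : E | ‖w‖ < 1} = Metric.ball 0 1 := by
    ext w
    simp
  rw [e]
  exact h.lintegral_lt_top.ne

theorem integrable_exp_neg {W : Type*} [NormedAddCommGroup W] [NormedSpace ℝ W]
    [FiniteDimensional ℝ W] [MeasurableSpace W] [BorelSpace W] (μ : Measure W)
    [μ.IsAddHaarMeasure] {b α : ℝ} (hb : 0 < b) (h0 : 0 < α) :
    Integrable (fun w : W => Real.exp (-(b * ‖w‖ ^ α))) μ := by
  rcases subsingleton_or_nontrivial W with hW | hW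
  · have : (fun w : W => Real.exp (-(b * ‖w‖ ^ α))) =
        fun _ => Real.exp (-(b * ‖(0 : W)‖ ^ α)) := by
      funext w
      rw [Subsingleton.elim w 0]
    rw [this]
    have : Finite W := Finite.of_subsingleton
    have : IsFiniteMeasure μ := inferInstance
    exact integrable_const _
  · rw [integrable_fun_norm_addHaar μ (f := fun t : ℝ => Real.exp (-(b * t ^ α)))]
    have hs : (-1 : ℝ) < ((Module.finrank ℝ W - 1 : ℕ) : ℝ) := by
      have : (0 : ℝ) ≤ ((Module.finrank ℝ W - 1 : ℕ) : ℝ) := Nat.cast_nonneg _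
      linarith
    refine (integrableOn_rpow_mul_exp_neg_mul_rpow hs h0 hb).congr_fun (fun x _ => ?_)
      measurableSet_Ioi
    simp only [Real.rpow_natCast, smul_eq_mul, neg_mul]

omit [FiniteDimensional ℝ E] [MeasurableSpace E] [BorelSpace E] in
theorem phi_nonneg (α : ℝ) {T : ℝ} (hT : 0 ≤ T) (ψ ξ : E) : 0 ≤ Phi α T ψ ξ := by
  unfold Phi
  exact intervalIntegral.integral_nonneg hT fun τ _ => by positivity

omit [FiniteDimensional ℝ E] [MeasurableSpace E] [BorelSpace E] in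
theorem ba_cont {α : ℝ} (h0 : 0 < α) (ψ ξ : E) : Continuous fun τ : ℝ => ‖ξ + τ • ψ‖ ^ α :=
  (by fun_prop : Continuous fun τ : ℝ => ‖ξ + τ • ψ‖).rpow_const fun _ => Or.inr h0.le

omit [FiniteDimensional ℝ E] [MeasurableSpace E] [BorelSpace E] in
theorem phi_lower {α T : ℝ} (h0 : 0 < α) (hT : 0 < T) :
    ∃ b : ℝ, 0 < b ∧ ∀ ψ ξ : E, b * ‖(ψ, ξ)‖ ^ α ≤ Phi α T ψ ξ := by
  have hK : 0 < 3 / T + 2 := by positivity
  refine ⟨T / 3 * (3 / T + 2) ^ (-α), by positivity, fun ψ ξ => ?_⟩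
  set g : ℝ → ℝ := fun τ => ‖ξ + τ • ψ‖ ^ α with hg
  have hgc : Continuous g := ba_cont h0 ψ ξ
  have hgi : ∀ a b : ℝ, IntervalIntegrable g volume a b := fun a b => hgc.intervalIntegrable a b
  have hg0 : ∀ τ, 0 ≤ g τ := fun τ => by positivity
  have hsplit : Phi α T ψ ξ = (∫ τ in (0 : ℝ)..T / 3, g τ) + (∫ τ in T / 3..2 * T / 3, g τ) +
      ∫ τ in 2 * T / 3..T, g τ := by
    rw [intervalIntegral.integral_add_adjacent_intervals (hgi _ _) (hgi _ _),
      intervalIntegral.integral_add_adjacent_intervals (hgi _ _) (hgi _ _)]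
    rfl
  have hmid : 0 ≤ ∫ τ in T / 3..2 * T / 3, g τ :=
    intervalIntegral.integral_nonneg (by linarith) fun τ _ => hg0 τ
  have hlast : ∫ τ in 2 * T / 3..T, g τ = ∫ τ in (0 : ℝ)..T / 3, g (τ + 2 * T / 3) := by
    rw [intervalIntegral.integral_comp_add_right g]
    congr 1
    · ring
    · ring
  have hgc2 : Continuous fun τ => g (τ + 2 * T / 3) := hgc.comp (by fun_prop)
  have hpt : ∀ τ ∈ Icc (0 : ℝ) (T / 3),
      (3 / T + 2) ^ (-α) * ‖(ψ, ξ)‖ ^ α ≤ g τ + g (τ + 2 * T / 3) := by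
    intro τ hτ
    set a := ξ + τ • ψ with ha
    set b := ξ + (τ + 2 * T / 3) • ψ with hb
    set M := max ‖a‖ ‖b‖ with hM
    have haM : ‖a‖ ≤ M := le_max_left _ _
    have hbM : ‖b‖ ≤ M := le_max_right _ _
    have hM0 : 0 ≤ M := (norm_nonneg a).trans haM
    have hd : b - a = (2 * T / 3) • ψ := by
      rw [ha, hb, add_smul]
      abel
    have h1 : 2 * T / 3 * ‖ψ‖ ≤ 2 * M := by
      have := norm_sub_le b a
      rw [hd, norm_smul, Real.norm_eq_abs, abs_of_pos (by positivity)] at this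
      linarith
    have hψ : ‖ψ‖ ≤ 3 / T * M := by
      rw [div_mul_eq_mul_div, le_div_iff₀ hT]
      linarith
    have hξ : ‖ξ‖ ≤ 2 * M := by
      have e : ξ = a - τ • ψ := by rw [ha]; abel
      have h2 := norm_sub_le a (τ • ψ)
      rw [← e, norm_smul, Real.norm_eq_abs, abs_of_nonneg hτ.1] at h2
      have h3 : τ * ‖ψ‖ ≤ T / 3 * ‖ψ‖ := mul_le_mul_of_nonneg_right hτ.2 (norm_nonneg _)
      linarith
    have hN : ‖(ψ, ξ)‖ ≤ (3 / T + 2) * M := by
      rw [Prod.norm_def]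
      have h4 : 0 ≤ 3 / T * M := by positivity
      refine max_le ?_ ?_
      · show ‖ψ‖ ≤ _
        linarith
      · show ‖ξ‖ ≤ _
        linarith
    have h5 : (3 / T + 2) ^ (-α) * ‖(ψ, ξ)‖ ^ α ≤ M ^ α := by
      have h6 : ‖(ψ, ξ)‖ ^ α ≤ ((3 / T + 2) * M) ^ α :=
        Real.rpow_le_rpow (norm_nonneg _) hN h0.le
      rw [Real.mul_rpow hK.le hM0] at h6
      rw [Real.rpow_neg hK.le, inv_mul_le_iff₀ (by positivity)]
      exact h6
    refine h5.trans ?_
    have ea : g τ = ‖a‖ ^ α := rfl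
    have eb : g (τ + 2 * T / 3) = ‖b‖ ^ α := rfl
    have pa := hg0 τ
    have pb := hg0 (τ + 2 * T / 3)
    rcases max_choice ‖a‖ ‖b‖ with h | h
    · rw [hM, h]
      linarith
    · rw [hM, h]
      linarith
  have hint := intervalIntegral.integral_mono_on (μ := volume) (by linarith : (0 : ℝ) ≤ T / 3)
    (intervalIntegrable_const (c := (3 / T + 2) ^ (-α) * ‖(ψ, ξ)‖ ^ α))
    ((hgi 0 (T / 3)).add (hgc2.intervalIntegrable 0 (T / 3))) hpt
  rw [intervalIntegral.integral_add (hgi _ _) (hgc2.intervalIntegrable _ _),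
    intervalIntegral.integral_const, smul_eq_mul, sub_zero] at hint
  rw [hsplit, hlast, mul_assoc]
  linarith

omit [FiniteDimensional ℝ E] [MeasurableSpace E] [BorelSpace E] in
theorem continuous_phi {α : ℝ} (h0 : 0 < α) (T : ℝ) :
    Continuous fun ζ : E × E => Phi α T ζ.1 ζ.2 := by
  unfold Phi
  refine intervalIntegral.continuous_parametric_intervalIntegral_of_continuous'
    (f := fun (ζ : E × E) (τ : ℝ) => ‖ζ.2 + τ • ζ.1‖ ^ α) ?_ _ _
  exact (by fun_prop : Continuous fun p : (E × E) × ℝ => ‖p.1.2 + p.2 • p.1.1‖).rpow_const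
    fun _ => Or.inr h0.le

theorem integrable_exp_phi {α T : ℝ} (h0 : 0 < α) (hT : 0 < T) :
    Integrable fun ζ : E × E => Real.exp (-Phi α T ζ.1 ζ.2) := by
  obtain ⟨b, hb, hle⟩ := phi_lower (E := E) h0 hT
  have : (volume : Measure (E × E)).IsAddHaarMeasure := by
    rw [Measure.volume_eq_prod]
    infer_instance
  refine (integrable_exp_neg (volume : Measure (E × E)) hb h0).mono' ?_ ?_
  · exact (Real.continuous_exp.comp (continuous_phi h0 T).neg).aestronglyMeasurable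
  · refine Eventually.of_forall fun ζ => ?_
    rw [Real.norm_eq_abs, abs_of_pos (Real.exp_pos _)]
    exact Real.exp_le_exp.mpr (neg_le_neg (hle ζ.1 ζ.2))

theorem continuous_mm {α : ℝ} (h0 : 0 < α) (T : ℝ) : Continuous (mm α T) := by
  unfold mm
  refine intervalIntegral.continuous_parametric_intervalIntegral_of_continuous'
    (f := fun (τ : ℝ) (σ : ℝ) => |σ - τ| ^ α) ?_ _ _
  exact (by fun_prop : Continuous fun p : ℝ × ℝ => |p.2 - p.1|).rpow_const
    fun _ => Or.inr h0.le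

theorem mm_pos {α T : ℝ} (h0 : 0 < α) (hT : 0 < T) (τ : ℝ) : 0 < mm α T τ := by
  unfold mm
  have hc : Continuous fun σ : ℝ => |σ - τ| ^ α :=
    (by fun_prop : Continuous fun σ : ℝ => |σ - τ|).rpow_const fun _ => Or.inr h0.le
  refine intervalIntegral.integral_pos hT hc.continuousOn (fun x _ => by positivity) ?_
  by_cases h : τ = 0
  · refine ⟨T, ⟨hT.le, le_rfl⟩, Real.rpow_pos_of_pos (abs_pos.mpr ?_) _⟩
    rw [h, sub_zero]
    exact hT.ne'
  · refine ⟨0, ⟨le_rfl, hT.le⟩, Real.rpow_pos_of_pos (abs_pos.mpr ?_) _⟩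
    rw [zero_sub]
    exact neg_ne_zero.mpr h

theorem stab_scale {α m : ℝ} (h0 : 0 < α) (hm : 0 < m) (y : E) :
    stab α m y = m ^ (-(dm E / α)) * stab α 1 (m ^ (-(1 / α)) • y) := by
  unfold stab FR
  set s : ℝ := m ^ (-(1 / α)) with hs
  have hs0 : 0 < s := Real.rpow_pos_of_pos hm _
  have key := Measure.integral_comp_smul (volume : Measure E)
    (fun ζ : E => Real.cos ⟪y, ζ⟫ * Real.exp (-(m * ‖ζ‖ ^ α))) s
  have hsa : m * s ^ α = 1 := by
    rw [hs, ← Real.rpow_mul hm.le, neg_mul, one_div_mul_cancel h0.ne', Real.rpow_neg_one,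
      mul_inv_cancel₀ hm.ne']
  have hpt : ∀ x : E, Real.cos ⟪y, s • x⟫ * Real.exp (-(m * ‖s • x‖ ^ α)) =
      Real.cos ⟪s • y, x⟫ * Real.exp (-(1 * ‖x‖ ^ α)) := by
    intro x
    rw [real_inner_smul_right, real_inner_smul_left, norm_smul, Real.norm_eq_abs, abs_of_pos hs0,
      Real.mul_rpow hs0.le (norm_nonneg _), ← mul_assoc, hsa]
  simp_rw [hpt] at key
  have hsn : m ^ (-(dm E / α)) = s ^ Module.finrank ℝ E := by
    rw [hs, ← Real.rpow_natCast, ← Real.rpow_mul hm.le, dm]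
    congr 1
    ring
  rw [key, hsn, abs_of_pos (by positivity), smul_eq_mul]
  field_simp

end Pool.Agent.Lib.MP_bd80ac_an
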