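import Pool.Agent.Lib.MP_bd80ac_an.Defs

set_option autoImplicit false

namespace Pool.Agent.Lib.MP_bd80ac_an

open MeasureTheory Set Filter Topology
open scoped Real ENNReal RealInnerProductSpace

variable {E : Type*} [NormedAddCommGroup E] [InnerProductSpace ℝ E] [FiniteDimensional ℝ E]
  [MeasurableSpace E] [BorelSpace E]

theorem cs_cont_cos (z : E) : Continuous fun ζ : E => Real.cos ⟪z, ζ⟫ :=
  Real.continuous_cos.comp (continuous_const.inner continuous_id)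

theorem cs_cont_cos' (ζ : E) : Continuous fun y : E => Real.cos ⟪y, ζ⟫ :=
  Real.continuous_cos.comp (continuous_id.inner continuous_const)

theorem cs_cont_sin' (ζ : E) : Continuous fun y : E => Real.sin ⟪y, ζ⟫ :=
  Real.continuous_sin.comp (continuous_id.inner continuous_const)

theorem cs_norm_cos (x : ℝ) : ‖Real.cos x‖ ≤ 1 := by
  rw [Real.norm_eq_abs]; exact Real.abs_cos_le_one x

theorem cs_norm_sin (x : ℝ) : ‖Real.sin x‖ ≤ 1 := by
  rw [Real.norm_eq_abs]; exact Real.abs_sin_le_one x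

theorem cs_int_cos (φ : E → ℝ) (hφ : Integrable φ) (z : E) :
    Integrable fun ζ : E => Real.cos ⟪z, ζ⟫ * φ ζ :=
  hφ.bdd_mul (c := 1) (cs_cont_cos z).aestronglyMeasurable
    (Eventually.of_forall fun _ => cs_norm_cos _)

theorem continuous_FR (φ : E → ℝ) (hφ : Integrable φ) : Continuous (FR φ) := by
  unfold FR
  refine continuous_const.mul ?_
  refine continuous_of_dominated (bound := fun ζ => ‖φ ζ‖)
    (fun z => (cs_int_cos φ hφ z).aestronglyMeasurable) (fun z => Eventually.of_forall fun ζ => ?_)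
    hφ.norm (Eventually.of_forall fun ζ => ?_)
  · rw [norm_mul]
    exact mul_le_of_le_one_left (norm_nonneg _) (cs_norm_cos _)
  · exact (cs_cont_cos' ζ).mul continuous_const

theorem cs_c_pos : (0 : ℝ) < ((2 * π) ^ Module.finrank ℝ E)⁻¹ := by
  have := Real.pi_pos
  positivity

theorem cs_norm_FR (φ : E → ℝ) (hφ : Integrable φ) (z : E) :
    ‖FR φ z‖ ≤ ((2 * π) ^ Module.finrank ℝ E)⁻¹ * ∫ ζ, ‖φ ζ‖ := by
  unfold FR
  rw [norm_mul, Real.norm_of_nonneg (cs_c_pos (E := E)).le]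
  refine mul_le_mul_of_nonneg_left ?_ (cs_c_pos (E := E)).le
  refine norm_integral_le_of_norm_le hφ.norm (Eventually.of_forall fun ζ => ?_)
  rw [norm_mul]
  exact mul_le_of_le_one_left (norm_nonneg _) (cs_norm_cos _)

theorem cs_int_cos_meas (κ : Measure E) [IsFiniteMeasure κ] (ζ : E) :
    Integrable (fun y : E => Real.cos ⟪y, ζ⟫) κ :=
  Integrable.of_bound (cs_cont_cos' ζ).aestronglyMeasurable 1
    (Eventually.of_forall fun _ => cs_norm_cos _)

theorem cs_int_sin_meas (κ : Measure E) [IsFiniteMeasure κ] (ζ : E) :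
    Integrable (fun y : E => Real.sin ⟪y, ζ⟫) κ :=
  Integrable.of_bound (cs_cont_sin' ζ).aestronglyMeasurable 1
    (Eventually.of_forall fun _ => cs_norm_sin _)

theorem cs_K_cont (κ : Measure E) [IsFiniteMeasure κ] :
    Continuous fun ζ : E => ∫ y, Real.cos ⟪y, ζ⟫ ∂κ :=
  continuous_of_dominated (bound := fun _ => (1 : ℝ))
    (fun ζ => (cs_cont_cos' ζ).aestronglyMeasurable)
    (fun _ => Eventually.of_forall fun _ => cs_norm_cos _) (integrable_const _)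
    (Eventually.of_forall fun y => cs_cont_cos y)

theorem cs_K_norm (κ : Measure E) [IsFiniteMeasure κ] (ζ : E) :
    ‖∫ y, Real.cos ⟪y, ζ⟫ ∂κ‖ ≤ κ.real univ := by
  have h := norm_integral_le_of_norm_le_const (μ := κ) (f := fun y : E => Real.cos ⟪y, ζ⟫) (C := 1)
    (Eventually.of_forall fun _ => cs_norm_cos _)
  rwa [one_mul] at h

theorem cs_sin_zero (κ : Measure E) (hsym : MeasurePreserving (fun y : E => -y) κ κ) (ζ : E) :
    ∫ y, Real.sin ⟪y, ζ⟫ ∂κ = 0 := by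
  have hemb : MeasurableEmbedding (fun y : E => -y) := (MeasurableEquiv.neg E).measurableEmbedding
  have h := hsym.integral_comp hemb (fun y : E => Real.sin ⟪y, ζ⟫)
  simp only [inner_neg_left, Real.sin_neg, integral_neg] at h
  linarith

theorem cs_conv (κ : Measure E) [IsFiniteMeasure κ]
    (hsym : MeasurePreserving (fun y : E => -y) κ κ) (ψ : E → ℝ) (hψ : Integrable ψ) (z : E) :
    ∫ y, FR ψ (z - y) ∂κ = FR (fun ζ => ψ ζ * ∫ y, Real.cos ⟪y, ζ⟫ ∂κ) z := by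
  unfold FR
  rw [integral_const_mul]
  congr 1
  have hcont : Continuous fun q : E × E => Real.cos ⟪z - q.1, q.2⟫ :=
    Real.continuous_cos.comp ((continuous_const.sub continuous_fst).inner continuous_snd)
  have hint : Integrable (Function.uncurry fun (y : E) (ζ : E) => Real.cos ⟪z - y, ζ⟫ * ψ ζ)
      (κ.prod volume) :=
    (hψ.comp_snd κ).bdd_mul (c := 1) hcont.aestronglyMeasurable
      (Eventually.of_forall fun _ => cs_norm_cos _)
  rw [integral_integral_swap hint]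
  refine integral_congr_ae (Eventually.of_forall fun ζ => ?_)
  have h1 : ∀ y : E, Real.cos ⟪z - y, ζ⟫ * ψ ζ =
      (Real.cos ⟪z, ζ⟫ * ψ ζ) * Real.cos ⟪y, ζ⟫ + (Real.sin ⟪z, ζ⟫ * ψ ζ) * Real.sin ⟪y, ζ⟫ := by
    intro y
    rw [inner_sub_left, Real.cos_sub]; ring
  simp only [h1]
  rw [integral_add ((cs_int_cos_meas κ ζ).const_mul _) ((cs_int_sin_meas κ ζ).const_mul _),
    integral_const_mul, integral_const_mul, cs_sin_zero κ hsym ζ]
  ring

theorem cs_int_pow (κ : Measure E) [IsFiniteMeasure κ] (φ : E → ℝ) (hφ : Integrable φ) (j : ℕ) :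
    Integrable fun ζ => φ ζ * (∫ y, Real.cos ⟪y, ζ⟫ ∂κ) ^ j :=
  hφ.mul_bdd (c := κ.real univ ^ j) ((cs_K_cont κ).pow j).aestronglyMeasurable
    (Eventually.of_forall fun ζ => by
      rw [norm_pow]; exact pow_le_pow_left₀ (norm_nonneg _) (cs_K_norm κ ζ) j)

/-- The terms of the compound Poisson series. -/
noncomputable def csU (κ : Measure E) (φ : E → ℝ) (j : ℕ) (z : E) : ℝ :=
  FR (fun ζ => φ ζ * (∫ y, Real.cos ⟪y, ζ⟫ ∂κ) ^ j) z

theorem cs_U_zero (κ : Measure E) (φ : E → ℝ) (z : E) : csU κ φ 0 z = FR φ z := by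
  simp only [csU, pow_zero, mul_one]

theorem cs_U_cont (κ : Measure E) [IsFiniteMeasure κ] (φ : E → ℝ) (hφ : Integrable φ) (j : ℕ) :
    Continuous (csU κ φ j) :=
  continuous_FR _ (cs_int_pow κ φ hφ j)

theorem cs_U_succ (κ : Measure E) [IsFiniteMeasure κ]
    (hsym : MeasurePreserving (fun y : E => -y) κ κ) (φ : E → ℝ) (hφ : Integrable φ) (j : ℕ)
    (z : E) : csU κ φ (j + 1) z = ∫ y, csU κ φ j (z - y) ∂κ := by
  unfold csU
  rw [cs_conv κ hsym _ (cs_int_pow κ φ hφ j)]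
  simp only [pow_succ, mul_assoc]

theorem cs_U_int (κ : Measure E) [IsFiniteMeasure κ] (φ : E → ℝ) (hφ : Integrable φ) (j : ℕ)
    (z : E) : Integrable (fun y => csU κ φ j (z - y)) κ :=
  Integrable.of_bound
    ((cs_U_cont κ φ hφ j).comp (continuous_const.sub continuous_id)).aestronglyMeasurable _
    (Eventually.of_forall fun y => cs_norm_FR _ (cs_int_pow κ φ hφ j) (z - y))

theorem cs_U_nonneg (κ : Measure E) [IsFiniteMeasure κ]
    (hsym : MeasurePreserving (fun y : E => -y) κ κ) (φ : E → ℝ) (hφ : Integrable φ)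
    (hpos : ∀ z, 0 ≤ FR φ z) (j : ℕ) : ∀ z, 0 ≤ csU κ φ j z := by
  induction j with
  | zero => intro z; rw [cs_U_zero]; exact hpos z
  | succ j ih =>
    intro z
    rw [cs_U_succ κ hsym φ hφ j z]
    exact integral_nonneg fun y => ih _

theorem cs_S_term (κ : Measure E) [IsFiniteMeasure κ]
    (hsym : MeasurePreserving (fun y : E => -y) κ κ) (φ : E → ℝ) (hφ : Integrable φ)
    (hpos : ∀ z, 0 ≤ FR φ z) (j : ℕ) (c : ℝ) (hc : 0 ≤ c) (z : E) :
    ∫⁻ y, ENNReal.ofReal (c * csU κ φ j (z - y)) ∂κ = ENNReal.ofReal (c * csU κ φ (j + 1) z) := by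
  rw [cs_U_succ κ hsym φ hφ j z, ← integral_const_mul,
    ofReal_integral_eq_lintegral_ofReal ((cs_U_int κ φ hφ j z).const_mul c)
      (Eventually.of_forall fun y => mul_nonneg hc (cs_U_nonneg κ hsym φ hφ hpos j _))]

theorem cs_hasSum (κ : Measure E) [IsFiniteMeasure κ] (φ : E → ℝ) (hφ : Integrable φ) (z : E) :
    HasSum (fun j : ℕ => ((j.factorial : ℝ))⁻¹ * csU κ φ j z)
      (FR (fun ζ => φ ζ * Real.exp (∫ y, Real.cos ⟪y, ζ⟫ ∂κ)) z) := by
  set K : E → ℝ := fun ζ => ∫ y, Real.cos ⟪y, ζ⟫ ∂κ with hK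
  have hF : ∀ j : ℕ, Integrable fun ζ : E =>
      ((j.factorial : ℝ))⁻¹ * (Real.cos ⟪z, ζ⟫ * (φ ζ * K ζ ^ j)) := fun j =>
    (cs_int_cos _ (cs_int_pow κ φ hφ j) z).const_mul _
  have hsum : Summable fun j : ℕ =>
      ∫ ζ : E, ‖((j.factorial : ℝ))⁻¹ * (Real.cos ⟪z, ζ⟫ * (φ ζ * K ζ ^ j))‖ := by
    refine Summable.of_nonneg_of_le (fun j => integral_nonneg fun _ => norm_nonneg _) (fun j => ?_)
      ((Real.summable_pow_div_factorial (κ.real univ)).mul_right (∫ ζ, ‖φ ζ‖))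
    rw [← integral_const_mul]
    refine integral_mono (hF j).norm (hφ.norm.const_mul _) fun ζ => ?_
    have h1 : ‖K ζ ^ j‖ ≤ κ.real univ ^ j := by
      rw [norm_pow]; exact pow_le_pow_left₀ (norm_nonneg _) (cs_K_norm κ ζ) j
    have h2 : (0 : ℝ) ≤ ((j.factorial : ℝ))⁻¹ := by positivity
    have h3 : ‖Real.cos ⟪z, ζ⟫ * (φ ζ * K ζ ^ j)‖ ≤ ‖φ ζ‖ * κ.real univ ^ j := by
      rw [norm_mul, norm_mul]
      exact (mul_le_of_le_one_left (by positivity) (cs_norm_cos _)).trans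
        (mul_le_mul_of_nonneg_left h1 (norm_nonneg _))
    show ‖((j.factorial : ℝ))⁻¹ * (Real.cos ⟪z, ζ⟫ * (φ ζ * K ζ ^ j))‖ ≤
      κ.real univ ^ j / (j.factorial : ℝ) * ‖φ ζ‖
    rw [norm_mul, Real.norm_of_nonneg h2]
    calc ((j.factorial : ℝ))⁻¹ * ‖Real.cos ⟪z, ζ⟫ * (φ ζ * K ζ ^ j)‖
        ≤ ((j.factorial : ℝ))⁻¹ * (‖φ ζ‖ * κ.real univ ^ j) := mul_le_mul_of_nonneg_left h3 h2
      _ = κ.real univ ^ j / (j.factorial : ℝ) * ‖φ ζ‖ := by ring
  have h := hasSum_integral_of_summable_integral_norm hF hsum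
  have hpt : ∀ ζ : E, ∑' j : ℕ, ((j.factorial : ℝ))⁻¹ * (Real.cos ⟪z, ζ⟫ * (φ ζ * K ζ ^ j)) =
      Real.cos ⟪z, ζ⟫ * (φ ζ * Real.exp (K ζ)) := by
    intro ζ
    have h0 := (NormedSpace.expSeries_div_hasSum_exp (K ζ)).mul_left (Real.cos ⟪z, ζ⟫ * φ ζ)
    rw [← Real.exp_eq_exp_ℝ] at h0
    have h1 : (fun j : ℕ => ((j.factorial : ℝ))⁻¹ * (Real.cos ⟪z, ζ⟫ * (φ ζ * K ζ ^ j))) =
        fun j : ℕ => Real.cos ⟪z, ζ⟫ * φ ζ * (K ζ ^ j / (j.factorial : ℝ)) := by
      funext j; ring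
    rw [h1, h0.tsum_eq]; ring
  simp only [hpt] at h
  have h2 := h.mul_left (((2 * π) ^ Module.finrank ℝ E)⁻¹ : ℝ)
  have h3 : (fun j : ℕ => ((j.factorial : ℝ))⁻¹ * csU κ φ j z) = fun j : ℕ =>
      (((2 * π) ^ Module.finrank ℝ E)⁻¹ : ℝ) *
        ∫ ζ : E, ((j.factorial : ℝ))⁻¹ * (Real.cos ⟪z, ζ⟫ * (φ ζ * K ζ ^ j)) := by
    funext j
    rw [integral_const_mul]
    unfold csU FR
    ring
  rw [h3]
  exact h2

theorem cs_S_tsum (κ : Measure E) [IsFiniteMeasure κ]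
    (hsym : MeasurePreserving (fun y : E => -y) κ κ) (φ : E → ℝ) (hφ : Integrable φ)
    (hpos : ∀ z, 0 ≤ FR φ z) (m : ℕ) (z : E) :
    ∫⁻ y, ∑' j : ℕ, ENNReal.ofReal (((j.factorial : ℝ))⁻¹ * csU κ φ (j + m) (z - y)) ∂κ =
      ∑' j : ℕ, ENNReal.ofReal (((j.factorial : ℝ))⁻¹ * csU κ φ (j + (m + 1)) z) := by
  rw [lintegral_tsum]
  · refine tsum_congr fun j => ?_
    exact cs_S_term κ hsym φ hφ hpos (j + m) _ (by positivity) z
  · intro j
    exact (ENNReal.measurable_ofReal.comp (continuous_const.mul ((cs_U_cont κ φ hφ (j + m)).comp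
      (continuous_const.sub continuous_id))).measurable).aemeasurable

/-- The compound Poisson series. -/
theorem core_series (κ : Measure E) [IsFiniteMeasure κ]
    (hsym : MeasurePreserving (fun y : E => -y) κ κ) (φ : E → ℝ) (hφ : Integrable φ)
    (hpos : ∀ z, 0 ≤ FR φ z) (f p : E → ℝ≥0∞) (S : (E → ℝ≥0∞) → E → ℝ≥0∞)
    (hf : f = fun z => ENNReal.ofReal (FR φ z))
    (hp : p = fun z =>
      ENNReal.ofReal (FR (fun ζ => φ ζ * Real.exp (∫ y, Real.cos ⟪y, ζ⟫ ∂κ)) z))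
    (hS : S = fun g z => ∫⁻ y, g (z - y) ∂κ) (z : E) :
    0 ≤ FR (fun ζ => φ ζ * Real.exp (∫ y, Real.cos ⟪y, ζ⟫ ∂κ)) z ∧
      f z ≤ p z ∧ S f z ≤ p z ∧ S (S f) z ≤ 2 * p z ∧ p z ≤ f z + S p z ∧
      2 * p z ≤ 2 * f z + 2 * S f z + S (S p) z := by
  have hU := cs_U_nonneg κ hsym φ hφ hpos
  have hterm : ∀ (j m : ℕ) (w : E), 0 ≤ ((j.factorial : ℝ))⁻¹ * csU κ φ m w := fun j m w =>
    mul_nonneg (by positivity) (hU m w)
  have hp0 : p = fun w => ∑' j : ℕ,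
      ENNReal.ofReal (((j.factorial : ℝ))⁻¹ * csU κ φ (j + 0) w) := by
    rw [hp]
    funext w
    rw [← (cs_hasSum κ φ hφ w).tsum_eq,
      ENNReal.ofReal_tsum_of_nonneg (fun j => hterm j j w) (cs_hasSum κ φ hφ w).summable]
    rfl
  have hp1 : S p = fun w => ∑' j : ℕ,
      ENNReal.ofReal (((j.factorial : ℝ))⁻¹ * csU κ φ (j + 1) w) := by
    rw [hS, hp0]
    funext w
    exact cs_S_tsum κ hsym φ hφ hpos 0 w
  have hp2 : S (S p) = fun w => ∑' j : ℕ,
      ENNReal.ofReal (((j.factorial : ℝ))⁻¹ * csU κ φ (j + 2) w) := by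
    rw [hp1, hS]
    funext w
    exact cs_S_tsum κ hsym φ hφ hpos 1 w
  have hf0 : f = fun w => ENNReal.ofReal (1 * csU κ φ 0 w) := by
    rw [hf]; funext w; rw [one_mul, cs_U_zero]
  have hf1 : S f = fun w => ENNReal.ofReal (1 * csU κ φ 1 w) := by
    rw [hS, hf0]; funext w
    exact cs_S_term κ hsym φ hφ hpos 0 1 zero_le_one w
  have hf2 : S (S f) = fun w => ENNReal.ofReal (1 * csU κ φ 2 w) := by
    rw [hf1, hS]; funext w
    exact cs_S_term κ hsym φ hφ hpos 1 1 zero_le_one w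
  set a : ℕ → ℝ≥0∞ := fun j => ENNReal.ofReal (((j.factorial : ℝ))⁻¹ * csU κ φ j z) with ha
  have hpz : p z = ∑' j, a j := by rw [hp0]; rfl
  have ha0 : f z = a 0 := by rw [hf0]; simp [ha]
  have ha1 : S f z = a 1 := by rw [hf1]; simp [ha]
  have ha2 : S (S f) z = 2 * a 2 := by
    rw [hf2]
    have h2 : (2 : ℝ≥0∞) = ENNReal.ofReal 2 := by simp
    simp only [ha]
    rw [h2, ← ENNReal.ofReal_mul (by norm_num)]
    congr 1
    norm_num [Nat.factorial]
    ring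
  have hsplit : ∑' j, a j = a 0 + ∑' j, a (j + 1) := tsum_eq_zero_add' ENNReal.summable
  have hsplit2 : ∑' j, a (j + 1) = a 1 + ∑' j, a (j + 2) :=
    tsum_eq_zero_add' (f := fun j => a (j + 1)) ENNReal.summable
  refine ⟨(cs_hasSum κ φ hφ z).nonneg fun j => hterm j j z, ?_, ?_, ?_, ?_, ?_⟩
  · rw [ha0, hpz]; exact ENNReal.le_tsum 0
  · rw [ha1, hpz]; exact ENNReal.le_tsum 1
  · rw [ha2, hpz]; exact mul_le_mul_right (ENNReal.le_tsum 2) 2
  · rw [hpz, hsplit, ha0, hp1]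
    refine add_le_add le_rfl (ENNReal.tsum_le_tsum fun j => ?_)
    refine ENNReal.ofReal_le_ofReal (mul_le_mul_of_nonneg_right ?_ (hU _ _))
    refine inv_anti₀ (by positivity) ?_
    exact_mod_cast Nat.factorial_le (Nat.le_succ j)
  · rw [hpz, hsplit, hsplit2, ha0, ha1, hp2, mul_add, mul_add, ← add_assoc,
      ← ENNReal.tsum_mul_left]
    refine add_le_add le_rfl (ENNReal.tsum_le_tsum fun j => ?_)
    have h2 : (2 : ℝ≥0∞) = ENNReal.ofReal 2 := by simp
    simp only [ha]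
    rw [h2, ← ENNReal.ofReal_mul (by norm_num), ← mul_assoc]
    refine ENNReal.ofReal_le_ofReal (mul_le_mul_of_nonneg_right ?_ (hU _ _))
    have h3 : (2 : ℝ) * (j.factorial : ℝ) ≤ ((j + 2).factorial : ℝ) := by
      have h4 : 2 * j.factorial ≤ (j + 2).factorial := by
        rw [Nat.factorial_succ (j + 1)]
        exact Nat.mul_le_mul (by omega) (Nat.factorial_le (Nat.le_succ j))
      exact_mod_cast h4
    have h5 : (0 : ℝ) < (j.factorial : ℝ) := by positivity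
    have h6 : (0 : ℝ) < ((j + 2).factorial : ℝ) := by positivity
    rw [← div_eq_mul_inv, ← one_div, div_le_div_iff₀ h6 h5]
    linarith

end Pool.Agent.Lib.MP_bd80ac_an
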