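import Pool.Agent.Lib.MP_bd80ac_an.CoreB
import Pool.Agent.Lib.MP_bd80ac_an.CoreS

set_option autoImplicit false

namespace Pool.Agent.Lib.MP_bd80ac_an

open MeasureTheory Set Filter Topology
open scoped Real ENNReal RealInnerProductSpace

variable {E : Type*} [NormedAddCommGroup E] [InnerProductSpace ℝ E] [FiniteDimensional ℝ E]
  [MeasurableSpace E] [BorelSpace E]

theorem co_exp_sq (x : ℝ) : Real.exp x - 1 - x ≤ x ^ 2 * Real.exp |x| := by
  have h1 : Real.exp x - 1 ≤ x * Real.exp x := by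
    have h := Real.add_one_le_exp (-x)
    have h2 : Real.exp (-x) * Real.exp x = 1 := by rw [← Real.exp_add]; simp
    have h3 := Real.exp_pos x
    nlinarith
  have h4 := Real.add_one_le_exp x
  rcases le_total 0 x with hx | hx
  · rw [abs_of_nonneg hx]
    nlinarith
  · have h5 : 1 ≤ Real.exp |x| := Real.one_le_exp (abs_nonneg x)
    have h6 : Real.exp x - 1 - x ≤ x ^ 2 := by nlinarith
    nlinarith [sq_nonneg x]

theorem co_exp_abs (x : ℝ) : Real.exp x - 1 - x ≤ Real.exp |x| := by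
  rcases le_total 0 x with hx | hx
  · rw [abs_of_nonneg hx]; linarith
  · rw [abs_of_nonpos hx]
    have h1 := Real.add_one_le_exp (-x)
    have h2 : Real.exp x ≤ 1 := Real.exp_le_one_iff.mpr hx
    linarith

theorem co_log_div {r : ℝ} (hr : 1 ≤ r) : Real.log r / r ≤ 1 := by
  have h0 : 0 < r := by linarith
  rw [div_le_one h0]
  linarith [Real.log_le_sub_one_of_pos h0]

theorem co_log_mul {r t : ℝ} (ht : 1 ≤ t) (htr : t ≤ r) : Real.log r / r * t ≤ 1 + Real.log t := by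
  have ht0 : 0 < t := by linarith
  have hr0 : 0 < r := by linarith
  have h1 : Real.log (r / t) ≤ r / t - 1 := Real.log_le_sub_one_of_pos (div_pos hr0 ht0)
  rw [Real.log_div hr0.ne' ht0.ne'] at h1
  have h2 : 0 ≤ Real.log t := Real.log_nonneg ht
  have h3 : t * Real.log r ≤ t * Real.log t + r - t := by
    have h4 := mul_le_mul_of_nonneg_left h1 ht0.le
    have h5 : t * (r / t - 1) = r - t := by field_simp
    rw [h5] at h4
    linarith
  rw [div_mul_eq_mul_div, div_le_iff₀ hr0]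
  nlinarith

theorem co_tilt {γ r t x : ℝ} (hγ : 0 < γ) (hr : 1 ≤ r) (ht : 0 < t) (htr : t < r)
    (hx : |x| ≤ γ * (Real.log r / r * t)) :
    Real.exp x - 1 - x ≤ Real.exp γ * (γ ^ 2 * (if t < 1 then t ^ 2 else 0) +
      (if 1 ≤ t then t ^ γ else 0)) := by
  by_cases h1 : t < 1
  · rw [if_pos h1, if_neg (not_le.mpr h1), add_zero]
    have h2 : Real.log r / r * t ≤ t := mul_le_of_le_one_left ht.le (co_log_div hr)
    have h3 : |x| ≤ γ * t := hx.trans (mul_le_mul_of_nonneg_left h2 hγ.le)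
    have h4 : |x| ≤ γ := h3.trans (mul_le_of_le_one_right hγ.le h1.le)
    have h5 : x ^ 2 ≤ γ ^ 2 * t ^ 2 := by
      rw [← sq_abs x, ← mul_pow]
      exact pow_le_pow_left₀ (abs_nonneg x) h3 2
    calc Real.exp x - 1 - x ≤ x ^ 2 * Real.exp |x| := co_exp_sq x
      _ ≤ (γ ^ 2 * t ^ 2) * Real.exp γ :=
        mul_le_mul h5 (Real.exp_le_exp.mpr h4) (Real.exp_pos _).le (by positivity)
      _ = Real.exp γ * (γ ^ 2 * t ^ 2) := by ring
  · have h1' : 1 ≤ t := not_lt.mp h1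
    rw [if_neg h1, if_pos h1', mul_zero, zero_add]
    have h2 : |x| ≤ γ * (1 + Real.log t) :=
      hx.trans (mul_le_mul_of_nonneg_left (co_log_mul h1' htr.le) hγ.le)
    calc Real.exp x - 1 - x ≤ Real.exp |x| := co_exp_abs x
      _ ≤ Real.exp (γ * (1 + Real.log t)) := Real.exp_le_exp.mpr h2
      _ = Real.exp γ * t ^ γ := by
        rw [Real.rpow_def_of_pos ht, ← Real.exp_add]
        congr 1; ring

theorem co_sym_restrict (ν : Measure E) (hsym : MeasurePreserving (fun y : E => -y) ν ν)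
    (s : Set E) (hs : MeasurableSet s) (hss : ∀ y, -y ∈ s ↔ y ∈ s) :
    MeasurePreserving (fun y : E => -y) (ν.restrict s) (ν.restrict s) := by
  have h := hsym.restrict_preimage hs
  have h2 : (fun y : E => -y) ⁻¹' s = s := by
    ext y; exact hss y
  rwa [h2] at h

theorem co_int_ite (ν : Measure E) (s : Set E) [DecidablePred (· ∈ s)] (hs : MeasurableSet s)
    (g : E → ℝ) (hg : Measurable g) (hg0 : ∀ y ∈ s, 0 ≤ g y)
    (hfin : ∫⁻ y in s, ENNReal.ofReal (g y) ∂ν ≠ ∞) :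
    Integrable (fun y => if y ∈ s then g y else 0) ν := by
  have h1 : IntegrableOn g s ν :=
    (lintegral_ofReal_ne_top_iff_integrable hg.aestronglyMeasurable
      ((ae_restrict_iff' hs).mpr (Eventually.of_forall hg0))).mp hfin
  have h2 := (integrable_indicator_iff hs).mpr h1
  have h3 : s.indicator g = fun y => if y ∈ s then g y else 0 := by
    funext y; exact Set.indicator_apply s g y
  rwa [h3] at h2

/-- Decomposition of a symmetric infinitely divisible density into small and large jumps. -/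
theorem levy_facts (ν : Measure E) [SFinite ν] (sz : E → ℝ) (hsz : Measurable sz)
    (hsym : MeasurePreserving (fun y : E => -y) ν ν) (hszsym : ∀ y, sz (-y) = sz y)
    (L : ℝ) (hL : 0 < L) (hnorm : ∀ᵐ y ∂ν, 0 < sz y ∧ ‖y‖ ≤ L * sz y)
    (hfin : ∀ r, 0 < r → ν {y | r ≤ sz y} ≠ ∞) (γ : ℝ) (hγ : 0 < γ)
    (hbig : ∫⁻ y in {y | 1 ≤ sz y}, ENNReal.ofReal (sz y ^ γ) ∂ν ≠ ∞)
    (hsmall : ∫⁻ y in {y | sz y < 1}, ENNReal.ofReal (sz y ^ 2) ∂ν ≠ ∞)
    (Ψ : E → ℝ) (hΨ0 : ∀ ζ, 0 ≤ Ψ ζ)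
    (hΨ : ∀ ζ, ENNReal.ofReal (Ψ ζ) = ∫⁻ y, ENNReal.ofReal (1 - Real.cos ⟪y, ζ⟫) ∂ν)
    (hint : Integrable fun ζ => Real.exp (-Ψ ζ)) :
    (∀ z, 0 ≤ FR (fun ζ => Real.exp (-Ψ ζ)) z) ∧
      ∃ (P : ℝ → E → ℝ≥0∞) (A a : ℝ),
        Dec (fun r f z => ∫⁻ y in {y | r ≤ sz y}, f (z - y) ∂ν)
          (fun z => ENNReal.ofReal (FR (fun ζ => Real.exp (-Ψ ζ)) z)) P A a := by
  classical
  have hmge : ∀ r : ℝ, MeasurableSet {y : E | r ≤ sz y} := fun r =>
    measurableSet_le measurable_const hsz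
  have hmlt : ∀ r : ℝ, MeasurableSet {y : E | sz y < r} := fun r =>
    measurableSet_lt hsz measurable_const
  have hcompl : ∀ r : ℝ, ({y : E | r ≤ sz y})ᶜ = {y : E | sz y < r} := fun r => by
    ext y; simp
  -- the two integrable majorants
  have hG : Integrable (fun y => if sz y < 1 then sz y ^ 2 else 0) ν :=
    co_int_ite ν {y | sz y < 1} (hmlt 1) (fun y => sz y ^ 2) (hsz.pow_const 2)
      (fun y _ => sq_nonneg _) hsmall
  have hH : Integrable (fun y => if 1 ≤ sz y then sz y ^ γ else 0) ν :=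
    co_int_ite ν {y | 1 ≤ sz y} (hmge 1) (fun y => sz y ^ γ) (hsz.pow_const γ)
      (fun y hy => Real.rpow_nonneg (zero_le_one.trans hy) _) hbig
  have hG0 : ∀ y, 0 ≤ (if sz y < 1 then sz y ^ 2 else 0) := fun y => by
    split_ifs
    · exact sq_nonneg _
    · exact le_rfl
  have hH0 : ∀ y, 0 ≤ (if 1 ≤ sz y then sz y ^ γ else 0) := fun y => by
    split_ifs with h
    · exact Real.rpow_nonneg (zero_le_one.trans h) _
    · exact le_rfl
  have h1cos0 : ∀ (ζ y : E), 0 ≤ 1 - Real.cos ⟪y, ζ⟫ := fun ζ y =>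
    sub_nonneg.mpr (Real.cos_le_one _)
  have h1cosI : ∀ ζ : E, Integrable (fun y : E => 1 - Real.cos ⟪y, ζ⟫) ν := fun ζ => by
    refine (lintegral_ofReal_ne_top_iff_integrable (f := fun y : E => 1 - Real.cos ⟪y, ζ⟫)
      (continuous_const.sub (cs_cont_cos' ζ)).aestronglyMeasurable
      (Eventually.of_forall fun y => h1cos0 ζ y)).mp ?_
    rw [← hΨ ζ]; exact ENNReal.ofReal_ne_top
  have hΨeq : ∀ ζ : E, Ψ ζ = ∫ y, (1 - Real.cos ⟪y, ζ⟫) ∂ν := fun ζ => by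
    have h := ofReal_integral_eq_lintegral_ofReal (h1cosI ζ)
      (Eventually.of_forall fun y => h1cos0 ζ y)
    rw [← hΨ ζ] at h
    exact ((ENNReal.ofReal_eq_ofReal_iff (integral_nonneg fun y => h1cos0 ζ y) (hΨ0 ζ)).mp h).symm
  set lam : ℝ → ℝ := fun r => ν.real {y | r ≤ sz y} with hlam
  set K : ℝ → E → ℝ := fun r ζ => ∫ y in {y | r ≤ sz y}, Real.cos ⟪y, ζ⟫ ∂ν with hK
  set Ψ' : ℝ → E → ℝ := fun r ζ => ∫ y in {y | sz y < r}, (1 - Real.cos ⟪y, ζ⟫) ∂ν with hΨ'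
  set φ : ℝ → E → ℝ := fun r ζ => Real.exp (-lam r) * Real.exp (-Ψ' r ζ) with hφ
  have hfinm : ∀ r : ℝ, 1 ≤ r → IsFiniteMeasure (ν.restrict {y | r ≤ sz y}) := fun r hr =>
    ⟨by rw [Measure.restrict_apply_univ]; exact (hfin r (by linarith)).lt_top⟩
  have hsplit : ∀ r : ℝ, 1 ≤ r → ∀ ζ, Ψ ζ = lam r - K r ζ + Ψ' r ζ := by
    intro r hr ζ
    haveI := hfinm r hr
    rw [hΨeq ζ, ← integral_add_compl (hmge r) (h1cosI ζ), hcompl r,
      integral_sub (integrable_const _) (cs_int_cos_meas _ ζ)]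
    simp [hlam, hK, hΨ']
  have hKnorm : ∀ r : ℝ, 1 ≤ r → ∀ ζ, |K r ζ| ≤ lam r := by
    intro r hr ζ
    haveI := hfinm r hr
    have h := cs_K_norm (ν.restrict {y | r ≤ sz y}) ζ
    rw [measureReal_restrict_apply_univ, Real.norm_eq_abs] at h
    exact h
  have hlam1 : ∀ r : ℝ, 1 ≤ r → lam r ≤ lam 1 := fun r hr =>
    measureReal_mono (fun y hy => hr.trans hy) (hfin 1 one_pos)
  have hφeq : ∀ r : ℝ, 1 ≤ r → ∀ ζ, φ r ζ = Real.exp (-Ψ ζ) * Real.exp (-K r ζ) := by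
    intro r hr ζ
    simp only [hφ]
    rw [← Real.exp_add, ← Real.exp_add, hsplit r hr ζ]
    congr 1; ring
  have hφK : ∀ r : ℝ, 1 ≤ r → (fun ζ => φ r ζ * Real.exp (K r ζ)) = fun ζ => Real.exp (-Ψ ζ) := by
    intro r hr
    funext ζ
    rw [hφeq r hr ζ, mul_assoc, ← Real.exp_add]
    simp
  have hφle : ∀ r : ℝ, 1 ≤ r → ∀ ζ, φ r ζ ≤ Real.exp (lam 1) * Real.exp (-Ψ ζ) := by
    intro r hr ζ
    rw [hφeq r hr ζ, mul_comm]
    refine mul_le_mul_of_nonneg_right (Real.exp_le_exp.mpr ?_) (Real.exp_pos _).le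
    have h1 := hKnorm r hr ζ
    have h2 := hlam1 r hr
    have h3 := neg_abs_le (K r ζ)
    linarith
  have hφint : ∀ r : ℝ, 1 ≤ r → Integrable (φ r) := by
    intro r hr
    haveI := hfinm r hr
    have h1 : φ r = fun ζ => Real.exp (-Ψ ζ) * Real.exp (-K r ζ) := funext (hφeq r hr)
    rw [h1]
    refine hint.mul_bdd (c := Real.exp (lam r))
      (Real.continuous_exp.comp (cs_K_cont (ν.restrict {y | r ≤ sz y})).neg).aestronglyMeasurable
      (Eventually.of_forall fun ζ => ?_)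
    rw [Real.norm_of_nonneg (Real.exp_pos _).le]
    refine Real.exp_le_exp.mpr ?_
    have h1 := hKnorm r hr ζ
    have h3 := neg_abs_le (K r ζ)
    linarith
  have hΨ'int : ∀ r : ℝ, 1 ≤ r → Integrable fun ζ => Real.exp (-Ψ' r ζ) := by
    intro r hr
    have h1 : (fun ζ => Real.exp (-Ψ' r ζ)) = fun ζ => Real.exp (lam r) * φ r ζ := by
      funext ζ
      simp only [hφ]
      rw [← mul_assoc, ← Real.exp_add]
      simp
    rw [h1]
    exact (hφint r hr).const_mul _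
  have hnorm' : ∀ r : ℝ, ∀ᵐ y ∂(ν.restrict {y | sz y < r}),
      (0 < sz y ∧ ‖y‖ ≤ L * sz y) ∧ sz y < r := fun r =>
    (ae_restrict_of_ae hnorm).and (ae_restrict_mem (hmlt r))
  -- the bound from positivity and tilting
  have hcore : ∀ r : ℝ, 1 ≤ r → ∀ θ z : E,
      0 ≤ ∫ ζ : E, Real.cos ⟪z, ζ⟫ * Real.exp (-Ψ' r ζ) ∧
      Real.exp ⟪θ, z⟫ * ∫ ζ : E, Real.cos ⟪z, ζ⟫ * Real.exp (-Ψ' r ζ) ≤
        Real.exp (∫ y in {y | sz y < r}, (Real.exp ⟪θ, y⟫ - 1 - ⟪θ, y⟫) ∂ν) *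
          ∫ ζ : E, Real.exp (-Ψ' r ζ) := by
    intro r hr θ z
    refine core_bound (ν.restrict {y | sz y < r})
      (co_sym_restrict ν hsym _ (hmlt r) fun y => by simp [hszsym y])
      (fun k : ℕ => {y | 1 / ((k : ℝ) + 1) ≤ sz y}) (fun k => hmge _) ?_
      (fun k y => by simp [hszsym y]) (fun k => ?_) ?_ (L * r) ?_ ?_ (hΨ'int r hr) θ z
    · intro k m hkm y hy
      have h1 : 1 / ((m : ℝ) + 1) ≤ 1 / ((k : ℝ) + 1) := Nat.one_div_le_one_div hkm
      exact h1.trans hy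
    · refine ne_top_of_le_ne_top (hfin (1 / ((k : ℝ) + 1)) Nat.one_div_pos_of_nat) ?_
      exact Measure.restrict_le_self _
    · filter_upwards [hnorm' r] with y hy
      obtain ⟨k, hk⟩ := exists_nat_one_div_lt hy.1.1
      exact ⟨k, hk.le⟩
    · filter_upwards [hnorm' r] with y hy
      exact hy.1.2.trans (mul_le_mul_of_nonneg_left hy.2.le hL.le)
    · refine Integrable.mono'
        (((hG.add (hH.const_mul (r ^ 2))).const_mul (L ^ 2)).restrict (s := {y | sz y < r}))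
        (continuous_norm.pow 2).aestronglyMeasurable ?_
      filter_upwards [hnorm' r] with y hy
      rw [Real.norm_of_nonneg (sq_nonneg _)]
      have h1 : ‖y‖ ^ 2 ≤ L ^ 2 * sz y ^ 2 := by
        rw [← mul_pow]; exact pow_le_pow_left₀ (norm_nonneg _) hy.1.2 2
      refine h1.trans (mul_le_mul_of_nonneg_left ?_ (sq_nonneg L))
      show sz y ^ 2 ≤ (if sz y < 1 then sz y ^ 2 else 0) +
        r ^ 2 * (if 1 ≤ sz y then sz y ^ γ else 0)
      by_cases h2 : sz y < 1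
      · rw [if_pos h2, if_neg (not_le.mpr h2)]; simp
      · have h3 : 1 ≤ sz y := not_lt.mp h2
        rw [if_neg h2, if_pos h3, zero_add]
        have h4 : 1 ≤ sz y ^ γ := Real.one_le_rpow h3 hγ.le
        have h5 : sz y ^ 2 ≤ r ^ 2 := pow_le_pow_left₀ hy.1.1.le hy.2.le 2
        exact h5.trans (le_mul_of_one_le_right (sq_nonneg r) h4)
  have hFRφ : ∀ (r : ℝ) (z : E), FR (φ r) z = ((2 * π) ^ Module.finrank ℝ E)⁻¹ *
      (Real.exp (-lam r) * ∫ ζ : E, Real.cos ⟪z, ζ⟫ * Real.exp (-Ψ' r ζ)) := by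
    intro r z
    unfold FR
    rw [← integral_const_mul (Real.exp (-lam r))]
    congr 2
    funext ζ
    simp only [hφ]
    ring
  have hFRpos : ∀ r : ℝ, 1 ≤ r → ∀ z, 0 ≤ FR (φ r) z := by
    intro r hr z
    rw [hFRφ]
    exact mul_nonneg (cs_c_pos (E := E)).le (mul_nonneg (Real.exp_pos _).le (hcore r hr 0 z).1)
  have hser : ∀ r : ℝ, 1 ≤ r → ∀ z : E, _ := fun r hr z => by
    haveI := hfinm r hr
    have h := core_series (ν.restrict {y | r ≤ sz y})
      (co_sym_restrict ν hsym _ (hmge r) fun y => by simp [hszsym y]) (φ r) (hφint r hr)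
      (hFRpos r hr) (fun z => ENNReal.ofReal (FR (φ r) z))
      (fun z => ENNReal.ofReal (FR (fun ζ => Real.exp (-Ψ ζ)) z))
      (fun g z => ∫⁻ y in {y | r ≤ sz y}, g (z - y) ∂ν) rfl
      (by rw [← hφK r hr]) rfl z
    exact h
  set M : ℝ := ∫ y, Real.exp γ * (γ ^ 2 * (if sz y < 1 then sz y ^ 2 else 0) +
      (if 1 ≤ sz y then sz y ^ γ else 0)) ∂ν with hM
  have hMint : Integrable (fun y => Real.exp γ * (γ ^ 2 * (if sz y < 1 then sz y ^ 2 else 0) +
      (if 1 ≤ sz y then sz y ^ γ else 0))) ν :=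
    ((hG.const_mul (γ ^ 2)).add hH).const_mul _
  have hI0 : 0 ≤ ∫ ζ : E, Real.exp (-Ψ ζ) := integral_nonneg fun ζ => (Real.exp_pos _).le
  refine ⟨fun z => ?_, fun r z => ENNReal.ofReal (FR (φ r) z),
    ((2 * π) ^ Module.finrank ℝ E)⁻¹ * (Real.exp M * (Real.exp (lam 1) * ∫ ζ : E, Real.exp (-Ψ ζ))),
    γ / L, ?_⟩
  · have h := (hser 1 le_rfl z).1
    have h2 := hφK 1 le_rfl
    simp only [hK] at h2
    rwa [h2] at h
  refine ⟨div_pos hγ hL, mul_nonneg (cs_c_pos (E := E)).le (by positivity),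
    fun r hr => ENNReal.measurable_ofReal.comp (continuous_FR _ (hφint r hr)).measurable,
    fun r hr z => (hser r hr z).2.1, fun r hr z => (hser r hr z).2.2.1,
    fun r hr z => (hser r hr z).2.2.2.1, fun r hr z => (hser r hr z).2.2.2.2.1,
    fun r hr z => (hser r hr z).2.2.2.2.2, fun r hr z => ENNReal.ofReal_le_ofReal ?_⟩
  have hr0 : 0 < r := by linarith
  have hlog : 0 ≤ Real.log r := Real.log_nonneg hr
  set c : ℝ := γ / L * (Real.log r / r) with hc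
  have hc0 : 0 ≤ c := by positivity
  set θ : E := (c / ‖z‖) • z with hθ
  have hθz : ⟪θ, z⟫ = c * ‖z‖ := by
    rw [hθ, real_inner_smul_left, real_inner_self_eq_norm_sq]
    by_cases hz : ‖z‖ = 0
    · simp [hz]
    · field_simp
  have hθn : ‖θ‖ ≤ c := by
    rw [hθ, norm_smul, Real.norm_of_nonneg (by positivity)]
    by_cases hz : ‖z‖ = 0
    · simp [hz, hc0]
    · rw [div_mul_cancel₀ _ hz]
  have hMθ : ∫ y in {y | sz y < r}, (Real.exp ⟪θ, y⟫ - 1 - ⟪θ, y⟫) ∂ν ≤ M := by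
    refine le_trans (integral_mono_of_nonneg (Eventually.of_forall fun y => ?_)
      (hMint.restrict (s := {y | sz y < r})) ?_)
      (setIntegral_le_integral hMint (Eventually.of_forall fun y => ?_))
    · have h := Real.add_one_le_exp ⟪θ, y⟫
      show (0 : ℝ) ≤ Real.exp ⟪θ, y⟫ - 1 - ⟪θ, y⟫
      linarith
    · filter_upwards [hnorm' r] with y hy
      refine co_tilt hγ hr hy.1.1 hy.2 ?_
      calc |⟪θ, y⟫| ≤ ‖θ‖ * ‖y‖ := abs_real_inner_le_norm θ y
        _ ≤ c * (L * sz y) := mul_le_mul hθn hy.1.2 (norm_nonneg _) hc0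
        _ = γ * (Real.log r / r * sz y) := by rw [hc]; field_simp
    · exact mul_nonneg (Real.exp_pos _).le
        (add_nonneg (mul_nonneg (sq_nonneg _) (hG0 y)) (hH0 y))
  have hpow : r ^ (-(γ / L * ‖z‖ / r)) = Real.exp (-⟪θ, z⟫) := by
    rw [Real.rpow_def_of_pos hr0, hθz, hc]
    congr 1; ring
  have hJ : Real.exp (-lam r) * ∫ ζ : E, Real.exp (-Ψ' r ζ) ≤
      Real.exp (lam 1) * ∫ ζ : E, Real.exp (-Ψ ζ) := by
    rw [← integral_const_mul, ← integral_const_mul]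
    exact integral_mono (hφint r hr) (hint.const_mul _) (hφle r hr)
  have hJ0 : 0 ≤ ∫ ζ : E, Real.exp (-Ψ' r ζ) := integral_nonneg fun ζ => (Real.exp_pos _).le
  have hb := (hcore r hr θ z).2
  have hb2 : ∫ ζ : E, Real.cos ⟪z, ζ⟫ * Real.exp (-Ψ' r ζ) ≤
      Real.exp (-⟪θ, z⟫) * (Real.exp M * ∫ ζ : E, Real.exp (-Ψ' r ζ)) := by
    have h1 : Real.exp ⟪θ, z⟫ * ∫ ζ : E, Real.cos ⟪z, ζ⟫ * Real.exp (-Ψ' r ζ) ≤
        Real.exp M * ∫ ζ : E, Real.exp (-Ψ' r ζ) :=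
      hb.trans (mul_le_mul_of_nonneg_right (Real.exp_le_exp.mpr hMθ) hJ0)
    have h2 := mul_le_mul_of_nonneg_left h1 (Real.exp_pos (-⟪θ, z⟫)).le
    rwa [← mul_assoc, ← Real.exp_add, neg_add_cancel, Real.exp_zero, one_mul] at h2
  rw [hFRφ, hpow, mul_assoc]
  refine mul_le_mul_of_nonneg_left ?_ (cs_c_pos (E := E)).le
  calc Real.exp (-lam r) * ∫ ζ : E, Real.cos ⟪z, ζ⟫ * Real.exp (-Ψ' r ζ)
      ≤ Real.exp (-lam r) * (Real.exp (-⟪θ, z⟫) * (Real.exp M * ∫ ζ : E, Real.exp (-Ψ' r ζ))) :=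
        mul_le_mul_of_nonneg_left hb2 (Real.exp_pos _).le
    _ = (Real.exp M * (Real.exp (-lam r) * ∫ ζ : E, Real.exp (-Ψ' r ζ))) * Real.exp (-⟪θ, z⟫) := by
        ring
    _ ≤ (Real.exp M * (Real.exp (lam 1) * ∫ ζ : E, Real.exp (-Ψ ζ))) * Real.exp (-⟪θ, z⟫) :=
        mul_le_mul_of_nonneg_right (mul_le_mul_of_nonneg_left hJ (Real.exp_pos _).le)
          (Real.exp_pos _).le

end Pool.Agent.Lib.MP_bd80ac_an
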