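import Pool.Agent.Lib.MP_bd80ac_an.Defs

set_option autoImplicit false

namespace Pool.Agent.Lib.MP_bd80ac_an

open MeasureTheory Set Filter Topology
open scoped Real ENNReal RealInnerProductSpace

variable {E : Type*} [NormedAddCommGroup E] [InnerProductSpace ℝ E] [FiniteDimensional ℝ E]
  [MeasurableSpace E] [BorelSpace E]

/-- The character. -/
noncomputable def cb_e (z ζ : E) : ℂ := Complex.exp (Complex.I * (⟪z, ζ⟫ : ℝ))

/-- The complex transform. -/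
noncomputable def cb_FI (φ : E → ℂ) (z : E) : ℂ := ∫ ζ, cb_e z ζ * φ ζ

/-- The transform of the tilted measure. -/
noncomputable def cb_L (ν : Measure E) (θ ζ : E) : ℂ :=
  ∫ y, cb_e (-y) ζ * (Real.exp ⟪θ, y⟫ : ℝ) ∂ν

/-- The modulated Gaussian. -/
noncomputable def cb_g (ε : ℝ) (θ ζ : E) : ℂ :=
  (Real.exp (ε * ‖θ‖ ^ 2) * Real.exp (-ε * ‖ζ‖ ^ 2) : ℝ) * cb_e (-((2 * ε) • θ)) ζ

/-- The iterated convolutions of a Gaussian with `ν`. -/
noncomputable def cb_u (ν : Measure E) (ε : ℝ) : ℕ → E → ℝ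
  | 0 => fun z => (π / ε) ^ (Module.finrank ℝ E / 2 : ℝ) * Real.exp (-‖z‖ ^ 2 / (4 * ε))
  | j + 1 => fun z => ∫ y, cb_u ν ε j (z - y) ∂ν

omit [FiniteDimensional ℝ E] [MeasurableSpace E] [BorelSpace E] in
theorem cb_norm_e (z ζ : E) : ‖cb_e z ζ‖ = 1 := by
  rw [cb_e, mul_comm, Complex.norm_exp_ofReal_mul_I]

omit [FiniteDimensional ℝ E] [MeasurableSpace E] [BorelSpace E] in
theorem cb_e_add (z w ζ : E) : cb_e (z + w) ζ = cb_e z ζ * cb_e w ζ := by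
  simp only [cb_e, inner_add_left, ← Complex.exp_add]
  push_cast
  ring_nf

omit [FiniteDimensional ℝ E] [MeasurableSpace E] [BorelSpace E] in
theorem cb_e_re (z ζ : E) : (cb_e z ζ).re = Real.cos ⟪z, ζ⟫ := by
  rw [cb_e, mul_comm, Complex.exp_ofReal_mul_I_re]

omit [FiniteDimensional ℝ E] [MeasurableSpace E] [BorelSpace E] in
theorem cb_e_im (z ζ : E) : (cb_e z ζ).im = Real.sin ⟪z, ζ⟫ := by
  rw [cb_e, mul_comm, Complex.exp_ofReal_mul_I_im]

omit [FiniteDimensional ℝ E] [MeasurableSpace E] [BorelSpace E] in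
theorem cb_cont_e : Continuous fun p : E × E => cb_e p.1 p.2 := by
  unfold cb_e
  fun_prop

omit [FiniteDimensional ℝ E] [BorelSpace E] in
theorem cb_u_nonneg (ν : Measure E) {ε : ℝ} (hε : 0 < ε) (j : ℕ) : ∀ z, 0 ≤ cb_u ν ε j z := by
  induction j with
  | zero =>
    intro z
    simp only [cb_u]
    positivity
  | succ j ih => exact fun z => integral_nonneg fun y => ih _

theorem cb_gauss_int {ε : ℝ} (hε : 0 < ε) : Integrable fun ζ : E => Real.exp (-ε * ‖ζ‖ ^ 2) := by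
  have h := (GaussianFourier.integrable_cexp_neg_mul_sq_norm_add (V := E) (b := (ε : ℂ))
    (by simpa using hε) 0 0).norm
  refine h.congr (Eventually.of_forall fun ζ => ?_)
  simp only [zero_mul, add_zero, Complex.norm_exp]
  congr 1
  norm_cast

omit [FiniteDimensional ℝ E] [MeasurableSpace E] [BorelSpace E] in
theorem cb_norm_g (ε : ℝ) (θ ζ : E) :
    ‖cb_g ε θ ζ‖ = Real.exp (ε * ‖θ‖ ^ 2) * Real.exp (-ε * ‖ζ‖ ^ 2) := by
  rw [cb_g, norm_mul, cb_norm_e, mul_one, Complex.norm_real, Real.norm_of_nonneg (by positivity)]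

theorem cb_g_int {ε : ℝ} (hε : 0 < ε) (θ : E) : Integrable (cb_g ε θ) := by
  have hc : Continuous (cb_g ε θ) := by
    unfold cb_g cb_e
    fun_prop
  refine ((cb_gauss_int hε).const_mul (Real.exp (ε * ‖θ‖ ^ 2))).mono' hc.aestronglyMeasurable
    (Eventually.of_forall fun ζ => (cb_norm_g ε θ ζ).le)

theorem cb_FI_g (ν : Measure E) {ε : ℝ} (hε : 0 < ε) (θ z : E) :
    cb_FI (cb_g ε θ) z = (Real.exp ⟪θ, z⟫ * cb_u ν ε 0 z : ℝ) := by
  have h := GaussianFourier.integral_cexp_neg_mul_sq_norm_add (V := E) (b := (ε : ℂ))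
    (by simpa using hε) Complex.I (z - (2 * ε) • θ)
  have e1 : ∀ ζ, cb_e z ζ * cb_g ε θ ζ = (Real.exp (ε * ‖θ‖ ^ 2) : ℝ) *
      Complex.exp (-(ε : ℂ) * (‖ζ‖ : ℂ) ^ 2 + Complex.I * (⟪z - (2 * ε) • θ, ζ⟫ : ℝ)) := by
    intro ζ
    rw [cb_g, mul_left_comm, ← cb_e_add, ← sub_eq_add_neg, Complex.exp_add, cb_e]
    push_cast
    ring
  have e2 : ‖z - (2 * ε) • θ‖ ^ 2 = ‖z‖ ^ 2 - 4 * ε * ⟪θ, z⟫ + 4 * ε ^ 2 * ‖θ‖ ^ 2 := by
    rw [norm_sub_sq_real, inner_smul_right, norm_smul, mul_pow, Real.norm_eq_abs, sq_abs,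
      real_inner_comm]
    ring
  have e3 : ((π : ℂ) / ε) ^ ((Module.finrank ℝ E : ℂ) / 2) =
      (((π / ε) ^ (Module.finrank ℝ E / 2 : ℝ) : ℝ) : ℂ) := by
    rw [Complex.ofReal_cpow (by positivity)]
    push_cast
    rfl
  have e4 : Complex.I ^ 2 * (‖z - (2 * ε) • θ‖ : ℂ) ^ 2 / (4 * ε) =
      ((⟪θ, z⟫ + -‖z‖ ^ 2 / (4 * ε) - ε * ‖θ‖ ^ 2 : ℝ) : ℂ) := by
    rw [Complex.I_sq, ← Complex.ofReal_pow, e2]
    have : (ε : ℂ) ≠ 0 := by exact_mod_cast hε.ne'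
    push_cast
    field_simp
    ring
  unfold cb_FI
  simp only [e1]
  rw [integral_const_mul, h, e3, e4, ← Complex.ofReal_exp, ← Complex.ofReal_mul,
    ← Complex.ofReal_mul, cb_u, Real.exp_sub, Real.exp_add]
  congr 1
  field_simp

theorem cb_L_meas (ν : Measure E) [SFinite ν] (θ : E) : StronglyMeasurable (cb_L ν θ) := by
  have hc : Continuous fun p : E × E => cb_e (-p.1) p.2 * (Real.exp ⟪θ, p.1⟫ : ℝ) := by
    unfold cb_e
    fun_prop
  exact hc.stronglyMeasurable.integral_prod_left'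

omit [FiniteDimensional ℝ E] [BorelSpace E] in
theorem cb_norm_L (ν : Measure E) (θ ζ : E) : ‖cb_L ν θ ζ‖ ≤ ∫ y, Real.exp ⟪θ, y⟫ ∂ν := by
  refine (norm_integral_le_integral_norm _).trans (le_of_eq ?_)
  congr 1
  funext y
  rw [norm_mul, cb_norm_e, one_mul, Complex.norm_real, Real.norm_of_nonneg (Real.exp_pos _).le]

theorem cb_fubini (ν : Measure E) [SFinite ν] {θ : E}
    (hb : Integrable (fun y => Real.exp ⟪θ, y⟫) ν) {φ : E → ℂ} (hφ : Integrable φ) (z : E) :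
    cb_FI (fun ζ => φ ζ * cb_L ν θ ζ) z =
      ∫ y, cb_FI φ (z - y) * (Real.exp ⟪θ, y⟫ : ℝ) ∂ν := by
  have hc : Continuous fun p : E × E => cb_e (z - p.1) p.2 := by
    unfold cb_e
    fun_prop
  have hi : Integrable (Function.uncurry fun y ζ : E =>
      cb_e (z - y) ζ * (((Real.exp ⟪θ, y⟫ : ℝ) : ℂ) * φ ζ)) (ν.prod volume) :=
    (hb.ofReal.mul_prod hφ).bdd_mul (c := 1) hc.aestronglyMeasurable
      (Eventually.of_forall fun p => (cb_norm_e _ _).le)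
  have h := integral_integral_swap hi
  unfold cb_FI cb_L
  calc _ = ∫ ζ, ∫ y, cb_e (z - y) ζ * (((Real.exp ⟪θ, y⟫ : ℝ) : ℂ) * φ ζ) ∂ν := by
        congr 1
        funext ζ
        rw [← mul_assoc, ← integral_const_mul]
        congr 1
        funext y
        rw [sub_eq_add_neg, cb_e_add]
        ring
    _ = _ := by
        rw [← h]
        congr 1
        funext y
        rw [← integral_mul_const]
        congr 1
        funext ζ
        ring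

theorem cb_int_pow {φ L : E → ℂ} (hφ : Integrable φ) (hL : StronglyMeasurable L) {C : ℝ}
    (hC : ∀ ζ, ‖L ζ‖ ≤ C) (j : ℕ) : Integrable fun ζ => φ ζ * L ζ ^ j :=
  hφ.mul_bdd (c := C ^ j) (hL.pow j).aestronglyMeasurable (Eventually.of_forall fun ζ => by
    rw [norm_pow]
    exact pow_le_pow_left₀ (norm_nonneg _) (hC ζ) j)

theorem cb_FI_pow (ν : Measure E) [SFinite ν] {ε : ℝ} (hε : 0 < ε) {θ : E}
    (hb : Integrable (fun y => Real.exp ⟪θ, y⟫) ν) (j : ℕ) : ∀ z,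
    cb_FI (fun ζ => cb_g ε θ ζ * cb_L ν θ ζ ^ j) z = (Real.exp ⟪θ, z⟫ * cb_u ν ε j z : ℝ) := by
  induction j with
  | zero =>
    intro z
    simp only [pow_zero, mul_one]
    exact cb_FI_g ν hε θ z
  | succ j ih =>
    intro z
    simp only [pow_succ, ← mul_assoc]
    rw [cb_fubini ν hb (cb_int_pow (cb_g_int hε θ) (cb_L_meas ν θ) (cb_norm_L ν θ) j) z]
    simp only [ih, ← Complex.ofReal_mul]
    rw [integral_complex_ofReal, cb_u, ← integral_const_mul]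
    congr 2
    funext y
    rw [inner_sub_right, Real.exp_sub]
    field_simp

theorem cb_hasSum {φ L : E → ℂ} (hφ : Integrable φ) (hL : StronglyMeasurable L) {C : ℝ}
    (hC : ∀ ζ, ‖L ζ‖ ≤ C) (z : E) :
    HasSum (fun j : ℕ => cb_FI (fun ζ => φ ζ * L ζ ^ j) z / (j.factorial : ℂ))
      (cb_FI (fun ζ => φ ζ * Complex.exp (L ζ)) z) := by
  have hc : Continuous fun ζ : E => cb_e z ζ := by
    unfold cb_e
    fun_prop
  have hi : ∀ j : ℕ, Integrable fun ζ => cb_e z ζ * (φ ζ * L ζ ^ j) / (j.factorial : ℂ) :=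
    fun j => ((cb_int_pow hφ hL hC j).bdd_mul (c := 1) hc.aestronglyMeasurable
      (Eventually.of_forall fun p => (cb_norm_e _ _).le)).div_const _
  have hs : Summable fun j : ℕ => ∫ ζ, ‖cb_e z ζ * (φ ζ * L ζ ^ j) / (j.factorial : ℂ)‖ := by
    refine Summable.of_nonneg_of_le (fun j => integral_nonneg fun ζ => norm_nonneg _)
      (fun j => ?_) ((Real.summable_pow_div_factorial C).mul_left (∫ ζ, ‖φ ζ‖))
    rw [← integral_mul_const]
    refine integral_mono (hi j).norm (hφ.norm.mul_const _) fun ζ => ?_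
    simp only [norm_div, norm_mul, cb_norm_e, one_mul, norm_pow, Complex.norm_natCast]
    rw [mul_div_assoc]
    gcongr
    exact hC ζ
  have h := hasSum_integral_of_summable_integral_norm hi hs
  have e : ∀ ζ, ∑' j : ℕ, cb_e z ζ * (φ ζ * L ζ ^ j) / (j.factorial : ℂ) =
      cb_e z ζ * (φ ζ * Complex.exp (L ζ)) := by
    intro ζ
    have h1 := ((NormedSpace.expSeries_div_hasSum_exp (L ζ)).mul_left (φ ζ)).mul_left (cb_e z ζ)
    rw [← Complex.exp_eq_exp_ℂ] at h1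
    rw [← h1.tsum_eq]
    congr 1
    funext j
    ring
  simp only [e, integral_div] at h
  exact h

omit [InnerProductSpace ℝ E] [FiniteDimensional ℝ E] in
theorem cb_odd {ν : Measure E} (hsym : MeasurePreserving (fun y : E => -y) ν ν) {f : E → ℝ}
    (hf : ∀ y, f (-y) = -f y) : ∫ y, f y ∂ν = 0 := by
  have h := hsym.integral_comp (Homeomorph.neg E).measurableEmbedding f
  simp only [hf, integral_neg] at h
  linarith

omit [FiniteDimensional ℝ E] [MeasurableSpace E] [BorelSpace E] in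
theorem cb_abs_inner {θ y : E} {R : ℝ} (h : ‖y‖ ≤ R) : |⟪θ, y⟫| ≤ ‖θ‖ * R :=
  (abs_real_inner_le_norm θ y).trans (mul_le_mul_of_nonneg_left h (norm_nonneg _))

theorem cb_int_exp (ν : Measure E) [IsFiniteMeasure ν] {R : ℝ} (hR : ∀ᵐ y ∂ν, ‖y‖ ≤ R) (θ : E) :
    Integrable (fun y => Real.exp ⟪θ, y⟫) ν := by
  refine Integrable.of_bound (by fun_prop) (Real.exp (‖θ‖ * R)) (hR.mono fun y hy => ?_)
  rw [Real.norm_of_nonneg (Real.exp_pos _).le]
  exact Real.exp_le_exp.2 ((le_abs_self _).trans (cb_abs_inner hy))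

omit [FiniteDimensional ℝ E] in
theorem cb_int_L (ν : Measure E) {θ : E} (hb : Integrable (fun y => Real.exp ⟪θ, y⟫) ν) (ζ : E) :
    Integrable (fun y => cb_e (-y) ζ * (Real.exp ⟪θ, y⟫ : ℝ)) ν := by
  have hc : Continuous fun y : E => cb_e (-y) ζ := by
    unfold cb_e
    fun_prop
  exact hb.ofReal.bdd_mul (c := 1) hc.aestronglyMeasurable
    (Eventually.of_forall fun p => (cb_norm_e _ _).le)

omit [FiniteDimensional ℝ E] in
theorem cb_re_L (ν : Measure E) {θ : E} (hb : Integrable (fun y => Real.exp ⟪θ, y⟫) ν) (ζ : E) :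
    (cb_L ν θ ζ).re = ∫ y, Real.cos ⟪y, ζ⟫ * Real.exp ⟪θ, y⟫ ∂ν := by
  have h := integral_re (cb_int_L ν hb ζ)
  simp only [RCLike.re_to_complex, Complex.re_mul_ofReal, cb_e_re, inner_neg_left,
    Real.cos_neg] at h
  exact h.symm

theorem cb_int_cos (ν : Measure E) [IsFiniteMeasure ν] (ζ : E) :
    Integrable (fun y => Real.cos ⟪y, ζ⟫) ν :=
  Integrable.of_bound (by fun_prop) 1 (Eventually.of_forall fun _ => Real.abs_cos_le_one _)

theorem cb_L_zero (ν : Measure E) [IsFiniteMeasure ν]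
    (hsym : MeasurePreserving (fun y : E => -y) ν ν) (ζ : E) :
    cb_L ν 0 ζ = (ν.real univ - ∫ y, (1 - Real.cos ⟪y, ζ⟫) ∂ν : ℝ) := by
  have hb : Integrable (fun y : E => Real.exp ⟪(0 : E), y⟫) ν := by simp
  apply Complex.ext
  · rw [cb_re_L ν hb, Complex.ofReal_re, integral_sub (integrable_const _) (cb_int_cos ν ζ)]
    simp
  · have h := integral_im (cb_int_L ν hb ζ)
    simp only [RCLike.im_to_complex, Complex.im_mul_ofReal, cb_e_im] at h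
    rw [Complex.ofReal_im, cb_L, ← h]
    apply cb_odd hsym
    intro y
    simp

theorem cb_re_L_le (ν : Measure E) [IsFiniteMeasure ν]
    (hsym : MeasurePreserving (fun y : E => -y) ν ν) {R : ℝ} (hR : ∀ᵐ y ∂ν, ‖y‖ ≤ R) (θ ζ : E) :
    (cb_L ν θ ζ).re ≤ ν.real univ + ∫ y, (Real.exp ⟪θ, y⟫ - 1 - ⟪θ, y⟫) ∂ν -
      ∫ y, (1 - Real.cos ⟪y, ζ⟫) ∂ν := by
  have hb := cb_int_exp ν hR θ
  have h1 : Integrable (fun y : E => ⟪θ, y⟫) ν :=
    Integrable.of_bound (by fun_prop) (‖θ‖ * R) (hR.mono fun y hy => cb_abs_inner hy)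
  have hc : ∀ {f : E → ℝ}, Integrable f ν → Integrable (fun y => Real.cos ⟪y, ζ⟫ * f y) ν :=
    fun hf => hf.bdd_mul (c := 1) (by fun_prop)
      (Eventually.of_forall fun _ => Real.abs_cos_le_one _)
  have h2 : ∫ y, Real.cos ⟪y, ζ⟫ * ⟪θ, y⟫ ∂ν = 0 := by
    apply cb_odd hsym
    intro y
    simp
  have h3 : Integrable (fun y : E => Real.exp ⟪θ, y⟫ - 1 - ⟪θ, y⟫) ν :=
    (hb.sub (integrable_const _)).sub h1
  have h4 : ∫ y, Real.cos ⟪y, ζ⟫ * Real.exp ⟪θ, y⟫ ∂ν ≤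
      ∫ y, ((Real.exp ⟪θ, y⟫ - 1 - ⟪θ, y⟫) + Real.cos ⟪y, ζ⟫ * ⟪θ, y⟫ + Real.cos ⟪y, ζ⟫) ∂ν := by
    refine integral_mono (hc hb) ((h3.add (hc h1)).add (cb_int_cos ν ζ)) fun y => ?_
    have a1 := Real.add_one_le_exp ⟪θ, y⟫
    have a2 := Real.cos_le_one ⟪y, ζ⟫
    show _ ≤ _
    nlinarith
  have h5 : Integrable
      (fun y : E => (Real.exp ⟪θ, y⟫ - 1 - ⟪θ, y⟫) + Real.cos ⟪y, ζ⟫ * ⟪θ, y⟫) ν := h3.add (hc h1)
  rw [integral_add h5 (cb_int_cos ν ζ), integral_add h3 (hc h1), h2] at h4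
  rw [cb_re_L ν hb, integral_sub (integrable_const _) (cb_int_cos ν ζ)]
  simp only [integral_const, smul_eq_mul, mul_one]
  linarith

theorem cb_psi_meas (ν : Measure E) [SFinite ν] :
    StronglyMeasurable fun ζ : E => ∫ y, (1 - Real.cos ⟪y, ζ⟫) ∂ν := by
  have hc : Continuous fun p : E × E => 1 - Real.cos ⟪p.1, p.2⟫ := by fun_prop
  exact hc.stronglyMeasurable.integral_prod_left'

omit [FiniteDimensional ℝ E] [BorelSpace E] in
theorem cb_exp_psi_le (ν : Measure E) (ζ : E) :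
    Real.exp (-∫ y, (1 - Real.cos ⟪y, ζ⟫) ∂ν) ≤ 1 :=
  Real.exp_le_one_iff.2 (neg_nonpos.2 (integral_nonneg fun _ => sub_nonneg.2 (Real.cos_le_one _)))

theorem cb_int_main (ν : Measure E) [SFinite ν] {ε : ℝ} (hε : 0 < ε) :
    Integrable fun ζ : E =>
      Real.exp (-ε * ‖ζ‖ ^ 2) * Real.exp (-∫ y, (1 - Real.cos ⟪y, ζ⟫) ∂ν) :=
  (cb_gauss_int hε).mul_bdd (c := 1)
    (Real.continuous_exp.comp_stronglyMeasurable (cb_psi_meas ν).neg).aestronglyMeasurable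
    (Eventually.of_forall fun ζ => by
      rw [Real.norm_of_nonneg (Real.exp_pos _).le]
      exact cb_exp_psi_le ν ζ)

/-- The estimate for a finite measure, with a Gaussian factor. -/
theorem cb_fin (ν : Measure E) [IsFiniteMeasure ν]
    (hsym : MeasurePreserving (fun y : E => -y) ν ν) {R : ℝ} (hR : ∀ᵐ y ∂ν, ‖y‖ ≤ R) {ε : ℝ}
    (hε : 0 < ε) (θ z : E) :
    0 ≤ ∫ ζ : E, Real.cos ⟪z, ζ⟫ *
        (Real.exp (-ε * ‖ζ‖ ^ 2) * Real.exp (-∫ y, (1 - Real.cos ⟪y, ζ⟫) ∂ν)) ∧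
      Real.exp ⟪θ, z⟫ * ∫ ζ : E, Real.cos ⟪z, ζ⟫ *
          (Real.exp (-ε * ‖ζ‖ ^ 2) * Real.exp (-∫ y, (1 - Real.cos ⟪y, ζ⟫) ∂ν)) ≤
        Real.exp (ε * ‖θ‖ ^ 2) * Real.exp (∫ y, (Real.exp ⟪θ, y⟫ - 1 - ⟪θ, y⟫) ∂ν) *
          ∫ ζ : E, Real.exp (-ε * ‖ζ‖ ^ 2) * Real.exp (-∫ y, (1 - Real.cos ⟪y, ζ⟫) ∂ν) := by
  have key : ∀ θ : E, HasSum (fun j : ℕ => Real.exp ⟪θ, z⟫ * (cb_u ν ε j z / j.factorial))
      (cb_FI (fun ζ => cb_g ε θ ζ * Complex.exp (cb_L ν θ ζ)) z).re := by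
    intro θ
    have h := cb_hasSum (cb_g_int hε θ) (cb_L_meas ν θ) (cb_norm_L ν θ) z
    simp only [cb_FI_pow ν hε (cb_int_exp ν hR θ)] at h
    have h' := Complex.hasSum_re h
    simp only [Complex.div_natCast_re, Complex.ofReal_re, mul_div_assoc] at h'
    exact h'
  obtain ⟨X, hX⟩ : ∃ X, X = ∫ ζ : E, Real.cos ⟪z, ζ⟫ *
    (Real.exp (-ε * ‖ζ‖ ^ 2) * Real.exp (-∫ y, (1 - Real.cos ⟪y, ζ⟫) ∂ν)) := ⟨_, rfl⟩
  have hi := cb_int_main ν hε
  have hc : Continuous fun ζ : E => cb_e z ζ := by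
    unfold cb_e
    fun_prop
  have e0 : (cb_FI (fun ζ => cb_g ε 0 ζ * Complex.exp (cb_L ν 0 ζ)) z).re =
      Real.exp (ν.real univ) * X := by
    have e1 : ∀ ζ, cb_g ε 0 ζ * Complex.exp (cb_L ν 0 ζ) = (Real.exp (ν.real univ) *
        (Real.exp (-ε * ‖ζ‖ ^ 2) * Real.exp (-∫ y, (1 - Real.cos ⟪y, ζ⟫) ∂ν)) : ℝ) := by
      intro ζ
      rw [cb_L_zero ν hsym, ← Complex.ofReal_exp, sub_eq_add_neg, Real.exp_add, cb_g, smul_zero,
        neg_zero, cb_e, inner_zero_left, norm_zero]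
      push_cast
      simp only [mul_zero, Complex.exp_zero, ne_eq, OfNat.ofNat_ne_zero, not_false_eq_true,
        zero_pow]
      ring
    have h := integral_re ((hi.const_mul (Real.exp (ν.real univ))).ofReal.bdd_mul (c := 1)
      hc.aestronglyMeasurable (Eventually.of_forall fun p => (cb_norm_e _ _).le))
    simp only [RCLike.re_to_complex] at h
    simp only [e1, cb_FI]
    refine Eq.trans h.symm ?_
    rw [hX, ← integral_const_mul]
    congr 1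
    funext ζ
    refine (Complex.re_mul_ofReal _ _).trans ?_
    rw [cb_e_re]
    exact mul_left_comm _ _ _
  have h0 := key 0
  rw [e0] at h0
  simp only [inner_zero_left, Real.exp_zero, one_mul] at h0
  have hl := Real.exp_pos (ν.real univ)
  rw [← hX]
  refine ⟨nonneg_of_mul_nonneg_right (h0.nonneg fun j => div_nonneg (cb_u_nonneg ν hε j z)
    (Nat.cast_nonneg _)) hl, le_of_mul_le_mul_left ?_ hl⟩
  rw [mul_left_comm, (h0.mul_left (Real.exp ⟪θ, z⟫)).unique (key θ), ← mul_assoc,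
    ← integral_const_mul]
  refine (Complex.re_le_norm _).trans (norm_integral_le_of_norm_le (hi.const_mul _)
    (Eventually.of_forall fun ζ => ?_))
  rw [norm_mul, cb_norm_e, one_mul, norm_mul, cb_norm_g, Complex.norm_exp]
  have h1 := Real.exp_le_exp.2 (cb_re_L_le ν hsym hR θ ζ)
  rw [sub_eq_add_neg, Real.exp_add, Real.exp_add] at h1
  refine (mul_le_mul_of_nonneg_left h1 (by positivity)).trans (le_of_eq ?_)
  ring

theorem cb_exp_le {a B : ℝ} (h : |a| ≤ B) : Real.exp a - 1 - a ≤ (Real.exp B + B + 1) * a ^ 2 := by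
  have hB : 0 ≤ B := (abs_nonneg a).trans h
  have h1 := Real.exp_pos B
  rcases le_total |a| 1 with h2 | h2
  · have := (le_abs_self _).trans (Real.abs_exp_sub_one_sub_id_le h2)
    nlinarith [sq_nonneg a]
  · have h3 : 1 ≤ a ^ 2 := by
      rw [← sq_abs]
      nlinarith
    have h4 := Real.exp_le_exp.2 ((le_abs_self a).trans h)
    have h5 := (neg_le_abs a).trans h
    nlinarith

/-- The estimate with a Gaussian factor. -/
theorem cb_eps (ν : Measure E) [SFinite ν] (hsym : MeasurePreserving (fun y : E => -y) ν ν)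
    (A : ℕ → Set E) (hAm : ∀ k, MeasurableSet (A k)) (hAmono : Monotone A)
    (hAsym : ∀ k y, -y ∈ A k ↔ y ∈ A k) (hAfin : ∀ k, ν (A k) ≠ ∞)
    (hAcov : ∀ᵐ y ∂ν, ∃ k, y ∈ A k) (R : ℝ) (hR : ∀ᵐ y ∂ν, ‖y‖ ≤ R)
    (h2 : Integrable (fun y : E => ‖y‖ ^ 2) ν) {ε : ℝ} (hε : 0 < ε) (θ z : E) :
    0 ≤ ∫ ζ : E, Real.cos ⟪z, ζ⟫ *
        (Real.exp (-ε * ‖ζ‖ ^ 2) * Real.exp (-∫ y, (1 - Real.cos ⟪y, ζ⟫) ∂ν)) ∧
      Real.exp ⟪θ, z⟫ * ∫ ζ : E, Real.cos ⟪z, ζ⟫ *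
          (Real.exp (-ε * ‖ζ‖ ^ 2) * Real.exp (-∫ y, (1 - Real.cos ⟪y, ζ⟫) ∂ν)) ≤
        Real.exp (ε * ‖θ‖ ^ 2) * Real.exp (∫ y, (Real.exp ⟪θ, y⟫ - 1 - ⟪θ, y⟫) ∂ν) *
          ∫ ζ : E, Real.exp (-ε * ‖ζ‖ ^ 2) * Real.exp (-∫ y, (1 - Real.cos ⟪y, ζ⟫) ∂ν) := by
  have hfin : ∀ k, IsFiniteMeasure (ν.restrict (A k)) := fun k =>
    ⟨by rw [Measure.restrict_apply_univ]; exact (hAfin k).lt_top⟩
  have hs : ∀ k, MeasurePreserving (fun y : E => -y) (ν.restrict (A k)) (ν.restrict (A k)) := by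
    intro k
    have h := hsym.restrict_preimage_emb (Homeomorph.neg E).measurableEmbedding (A k)
    have e : (fun y : E => -y) ⁻¹' A k = A k := Set.ext fun y => hAsym k y
    rwa [e] at h
  have hk := fun k => haveI := hfin k
    cb_fin (ν.restrict (A k)) (hs k) (ae_restrict_of_ae hR) hε θ z
  have hM : Integrable (fun y : E => Real.exp ⟪θ, y⟫ - 1 - ⟪θ, y⟫) ν := by
    refine (h2.const_mul ((Real.exp (‖θ‖ * R) + ‖θ‖ * R + 1) * ‖θ‖ ^ 2)).mono' (by fun_prop)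
      (hR.mono fun y hy => ?_)
    have a1 := Real.add_one_le_exp ⟪θ, y⟫
    have a2 := cb_abs_inner (θ := θ) hy
    have a3 : ⟪θ, y⟫ ^ 2 ≤ ‖θ‖ ^ 2 * ‖y‖ ^ 2 := by
      rw [← mul_pow, ← sq_abs]
      exact pow_le_pow_left₀ (abs_nonneg _) (abs_real_inner_le_norm θ y) 2
    have a4 := (abs_nonneg _).trans a2
    rw [Real.norm_of_nonneg (by linarith), mul_assoc]
    exact (cb_exp_le a2).trans (mul_le_mul_of_nonneg_left a3 (by positivity))
  have hU : ∀ f : E → ℝ, Integrable f ν →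
      Tendsto (fun k => ∫ y in A k, f y ∂ν) atTop (𝓝 (∫ y, f y ∂ν)) := by
    intro f hf
    have h := tendsto_setIntegral_of_monotone hAm hAmono hf.integrableOn
    rwa [Measure.restrict_eq_self_of_ae_mem (hAcov.mono fun y hy => mem_iUnion.2 hy)] at h
  have hP : ∀ ζ : E, Integrable (fun y : E => 1 - Real.cos ⟪y, ζ⟫) ν := by
    intro ζ
    refine (h2.mul_const (‖ζ‖ ^ 2)).mono' (by fun_prop) (Eventually.of_forall fun y => ?_)
    have a1 := Real.one_sub_sq_div_two_le_cos (x := ⟪y, ζ⟫)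
    have a3 : ⟪y, ζ⟫ ^ 2 ≤ ‖y‖ ^ 2 * ‖ζ‖ ^ 2 := by
      rw [← mul_pow, ← sq_abs]
      exact pow_le_pow_left₀ (abs_nonneg _) (abs_real_inner_le_norm y ζ) 2
    rw [Real.norm_of_nonneg (sub_nonneg.2 (Real.cos_le_one _))]
    nlinarith [sq_nonneg ⟪y, ζ⟫]
  have hlim : ∀ w : E, Tendsto (fun k => ∫ ζ : E, Real.cos ⟪w, ζ⟫ * (Real.exp (-ε * ‖ζ‖ ^ 2) *
      Real.exp (-∫ y in A k, (1 - Real.cos ⟪y, ζ⟫) ∂ν))) atTop (𝓝 (∫ ζ : E, Real.cos ⟪w, ζ⟫ *
        (Real.exp (-ε * ‖ζ‖ ^ 2) * Real.exp (-∫ y, (1 - Real.cos ⟪y, ζ⟫) ∂ν)))) := by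
    intro w
    refine tendsto_integral_of_dominated_convergence (fun ζ => Real.exp (-ε * ‖ζ‖ ^ 2))
      (fun k => AEStronglyMeasurable.mul (by fun_prop) (cb_int_main _ hε).aestronglyMeasurable)
      (cb_gauss_int hε) (fun k => Eventually.of_forall fun ζ => ?_)
      (Eventually.of_forall fun ζ => ?_)
    · rw [norm_mul, Real.norm_of_nonneg (r := _ * _) (by positivity)]
      exact (mul_le_of_le_one_left (by positivity) (Real.abs_cos_le_one _)).trans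
        (mul_le_of_le_one_right (by positivity) (cb_exp_psi_le _ ζ))
    · exact (((Real.continuous_exp.tendsto _).comp (hU _ (hP ζ)).neg).const_mul _).const_mul _
  have h0 := hlim 0
  simp only [inner_zero_left, Real.cos_zero, one_mul] at h0
  exact ⟨ge_of_tendsto' (hlim z) fun k => (hk k).1, le_of_tendsto_of_tendsto'
    ((hlim z).const_mul _) ((((Real.continuous_exp.tendsto _).comp (hU _ hM)).const_mul _).mul h0)
    fun k => (hk k).2⟩

/-- Positivity and exponential tilting for a symmetric Levy measure with bounded support. -/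
theorem core_bound (ν : Measure E) [SFinite ν] (hsym : MeasurePreserving (fun y : E => -y) ν ν)
    (A : ℕ → Set E) (hAm : ∀ k, MeasurableSet (A k)) (hAmono : Monotone A)
    (hAsym : ∀ k y, -y ∈ A k ↔ y ∈ A k) (hAfin : ∀ k, ν (A k) ≠ ∞)
    (hAcov : ∀ᵐ y ∂ν, ∃ k, y ∈ A k) (R : ℝ) (hR : ∀ᵐ y ∂ν, ‖y‖ ≤ R)
    (h2 : Integrable (fun y : E => ‖y‖ ^ 2) ν)
    (hint : Integrable fun ζ : E => Real.exp (-∫ y, (1 - Real.cos ⟪y, ζ⟫) ∂ν)) (θ z : E) :
    0 ≤ ∫ ζ : E, Real.cos ⟪z, ζ⟫ * Real.exp (-∫ y, (1 - Real.cos ⟪y, ζ⟫) ∂ν) ∧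
      Real.exp ⟪θ, z⟫ * ∫ ζ : E, Real.cos ⟪z, ζ⟫ * Real.exp (-∫ y, (1 - Real.cos ⟪y, ζ⟫) ∂ν) ≤
        Real.exp (∫ y, (Real.exp ⟪θ, y⟫ - 1 - ⟪θ, y⟫) ∂ν) *
          ∫ ζ : E, Real.exp (-∫ y, (1 - Real.cos ⟪y, ζ⟫) ∂ν) := by
  have hk := fun ε (hε : 0 < ε) =>
    cb_eps ν hsym A hAm hAmono hAsym hAfin hAcov R hR h2 hε θ z
  have hpos : ∀ᶠ ε : ℝ in 𝓝[>] 0, 0 < ε := self_mem_nhdsWithin
  have hexp : ∀ c : ℝ, Tendsto (fun ε : ℝ => Real.exp (ε * c)) (𝓝[>] 0) (𝓝 1) := by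
    intro c
    have h : Continuous fun ε : ℝ => Real.exp (ε * c) := by fun_prop
    simpa using (h.tendsto 0).mono_left (nhdsWithin_le_nhds (s := Ioi 0))
  have hlim : ∀ w : E, Tendsto (fun ε : ℝ => ∫ ζ : E, Real.cos ⟪w, ζ⟫ *
      (Real.exp (-ε * ‖ζ‖ ^ 2) * Real.exp (-∫ y, (1 - Real.cos ⟪y, ζ⟫) ∂ν))) (𝓝[>] 0)
      (𝓝 (∫ ζ : E, Real.cos ⟪w, ζ⟫ * Real.exp (-∫ y, (1 - Real.cos ⟪y, ζ⟫) ∂ν))) := by
    intro w
    refine tendsto_integral_filter_of_dominated_convergence _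
      (hpos.mono fun ε hε =>
        AEStronglyMeasurable.mul (by fun_prop) (cb_int_main _ hε).aestronglyMeasurable)
      (hpos.mono fun ε hε => Eventually.of_forall fun ζ => ?_) hint
      (Eventually.of_forall fun ζ => ?_)
    · rw [norm_mul, Real.norm_of_nonneg (r := _ * _) (by positivity)]
      refine (mul_le_of_le_one_left (by positivity) (Real.abs_cos_le_one _)).trans
        (mul_le_of_le_one_left (by positivity) (Real.exp_le_one_iff.2 ?_))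
      nlinarith [sq_nonneg ‖ζ‖]
    · have h := ((hexp (-‖ζ‖ ^ 2)).mul_const
        (Real.exp (-∫ y, (1 - Real.cos ⟪y, ζ⟫) ∂ν))).const_mul (Real.cos ⟪w, ζ⟫)
      simpa only [one_mul, mul_neg, neg_mul] using h
  have h0 := hlim 0
  simp only [inner_zero_left, Real.cos_zero, one_mul] at h0
  have h1 := ((hexp (‖θ‖ ^ 2)).mul_const
    (Real.exp (∫ y, (Real.exp ⟪θ, y⟫ - 1 - ⟪θ, y⟫) ∂ν))).mul h0
  rw [one_mul] at h1
  exact ⟨ge_of_tendsto (hlim z) (hpos.mono fun ε hε => (hk ε hε).1), le_of_tendsto_of_tendsto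
    ((hlim z).const_mul _) h1 (hpos.mono fun ε hε => (hk ε hε).2)⟩

end Pool.Agent.Lib.MP_bd80ac_an
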