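import Mathlib

/-! Definitions for the exact asymptotics of the fractional Kolmogorov kernel. -/

set_option autoImplicit false

namespace Pool.Agent.Lib.MP_bd80ac_an

open MeasureTheory Set Filter Topology
open scoped Real ENNReal RealInnerProductSpace

section

variable {E : Type*} [NormedAddCommGroup E] [InnerProductSpace ℝ E] [FiniteDimensional ℝ E]
  [MeasurableSpace E] [BorelSpace E]

/-- The dimension as a real number. -/
noncomputable def dm (E : Type*) [NormedAddCommGroup E] [InnerProductSpace ℝ E] : ℝ :=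
  (Module.finrank ℝ E : ℝ)

/-- Inverse Fourier transform of a real even symbol. -/
noncomputable def FR (φ : E → ℝ) (z : E) : ℝ :=
  ((2 * π) ^ Module.finrank ℝ E)⁻¹ * ∫ ζ, Real.cos ⟪z, ζ⟫ * φ ζ

/-- The isotropic stable density with symbol `exp (-m ‖η‖ ^ α)`. -/
noncomputable def stab (α m : ℝ) (y : E) : ℝ :=
  FR (fun η : E => Real.exp (-(m * ‖η‖ ^ α))) y

/-- The exponent `Φ_T (ψ, ξ)`. -/
noncomputable def Phi (α T : ℝ) (ψ ξ : E) : ℝ := ∫ τ in (0 : ℝ)..T, ‖ξ + τ • ψ‖ ^ α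

/-- The kernel at time `T`, as a real cosine transform. -/
noncomputable def kin (α T : ℝ) (z : E × E) : ℝ :=
  ((2 * π) ^ (2 * Module.finrank ℝ E))⁻¹ *
    ∫ ζ : E × E, Real.cos (⟪z.1, ζ.1⟫ + ⟪z.2, ζ.2⟫) * Real.exp (-Phi α T ζ.1 ζ.2)

/-- The scale of the law of `X - τ V`. -/
noncomputable def mm (α T τ : ℝ) : ℝ := ∫ σ in (0 : ℝ)..T, |σ - τ| ^ α

/-- The constant of the fractional Laplacian of order `α` in dimension `D`. -/
noncomputable def cc (D α : ℝ) : ℝ :=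
  α * 2 ^ (α - 1) * Real.Gamma ((D + α) / 2) / (π ^ (D / 2) * Real.Gamma (1 - α / 2))

/-- The jump density. -/
noncomputable def nn (α : ℝ) (w : E) : ℝ≥0∞ :=
  ENNReal.ofReal (cc (dm E) α * ‖w‖ ^ (-(dm E + α)))

/-- The comparison function. -/
noncomputable def gg (α : ℝ) (y : E) : ℝ≥0∞ := ENNReal.ofReal ((1 + ‖y‖) ^ (-(dm E + α)))

/-- One jump of size at least `r`, isotropic case. -/
noncomputable def S0 (α r : ℝ) (f : E → ℝ≥0∞) (y : E) : ℝ≥0∞ :=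
  ∫⁻ w in {w : E | r ≤ ‖w‖}, nn α w * f (y - w)

/-- One jump of size at least `r`, kinetic case. -/
noncomputable def SS (α T r : ℝ) (f : E × E → ℝ≥0∞) (z : E × E) : ℝ≥0∞ :=
  ∫⁻ τ in Icc (0 : ℝ) T, ∫⁻ w in {w : E | r ≤ ‖w‖}, nn α w * f (z.1 - τ • w, z.2 - w)

/-- The kernel with values in `ℝ≥0∞`. -/
noncomputable def pp (α T : ℝ) (z : E × E) : ℝ≥0∞ := ENNReal.ofReal (kin α T z)

/-- The density of `X - τ V` with values in `ℝ≥0∞`. -/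
noncomputable def qq (α T τ : ℝ) (y : E) : ℝ≥0∞ := ENNReal.ofReal (stab α (mm α T τ) y)

/-- The linear map `(x, v) ↦ x - τ v`. -/
def Tt (τ : ℝ) (z : E × E) : E := z.1 - τ • z.2

/-- Marginal along the direction of the jumps at time `τ`. -/
noncomputable def Mg (τ : ℝ) (f : E × E → ℝ≥0∞) (y : E) : ℝ≥0∞ := ∫⁻ u, f (y + τ • u, u)

/-- The action of one jump on the marginal. -/
noncomputable def mu (α T r τ : ℝ) (h : E → ℝ≥0∞) (y : E) : ℝ≥0∞ :=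
  ∫⁻ σ in Icc (0 : ℝ) T, ∫⁻ w in {w : E | r ≤ ‖w‖}, nn α w * h (y - (σ - τ) • w)

/-- The two jump density off the cone. -/
noncomputable def Hh (α T : ℝ) (z : E × E) : ℝ≥0∞ :=
  ∫⁻ σ in Icc (0 : ℝ) T, ∫⁻ τ in Icc (0 : ℝ) T,
    ENNReal.ofReal (cc (dm E) α ^ 2 * |τ - σ| ^ (dm E + 2 * α) * ‖Tt σ z‖ ^ (-(dm E + α)) *
      ‖Tt τ z‖ ^ (-(dm E + α)))

/-- The one jump equivalent near the cone. -/
noncomputable def F1 (α T : ℝ) (z : E × E) : ℝ≥0∞ :=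
  nn α z.2 * ∫⁻ τ in Icc (0 : ℝ) T, qq α T τ (Tt τ z)

/-- Twice the uniform equivalent. -/
noncomputable def F2 (α T : ℝ) (z : E × E) : ℝ≥0∞ :=
  ∫⁻ σ in Icc (0 : ℝ) T, ∫⁻ τ in Icc (0 : ℝ) T,
    ENNReal.ofReal (|τ - σ| ^ (dm E + 2 * α) * (stab α (mm α T σ) (Tt σ z) / mm α T σ) *
      (stab α (mm α T τ) (Tt τ z) / mm α T τ))

end

/-- What is used about the decomposition into small and large jumps. -/
structure Dec {V : Type*} [Norm V] [MeasurableSpace V] (S : ℝ → (V → ℝ≥0∞) → V → ℝ≥0∞)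
    (p : V → ℝ≥0∞) (P : ℝ → V → ℝ≥0∞) (A a : ℝ) : Prop where
  a_pos : 0 < a
  A_nonneg : 0 ≤ A
  meas : ∀ r, 1 ≤ r → Measurable (P r)
  le0 : ∀ r, 1 ≤ r → ∀ z, P r z ≤ p z
  le1 : ∀ r, 1 ≤ r → ∀ z, S r (P r) z ≤ p z
  le2 : ∀ r, 1 ≤ r → ∀ z, S r (S r (P r)) z ≤ 2 * p z
  ge1 : ∀ r, 1 ≤ r → ∀ z, p z ≤ P r z + S r p z
  ge2 : ∀ r, 1 ≤ r → ∀ z, 2 * p z ≤ 2 * P r z + 2 * S r (P r) z + S r (S r p) z
  decay : ∀ r, 1 ≤ r → ∀ z, P r z ≤ ENNReal.ofReal (A * r ^ (-(a * ‖z‖ / r)))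

/-- Asymptotic equivalence of two families in `ℝ≥0∞`. -/
def Eqv {ι : Type*} (l : Filter ι) (a b : ι → ℝ≥0∞) : Prop :=
  ∀ κ : ℝ, 1 < κ → ∀ᶠ n in l, a n ≤ ENNReal.ofReal κ * b n ∧ b n ≤ ENNReal.ofReal κ * a n

end Pool.Agent.Lib.MP_bd80ac_an
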