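import Pool.Agent.Lib.MP_bd80ac_an.Basic

set_option autoImplicit false

namespace Pool.Agent.Lib.MP_bd80ac_an

open MeasureTheory Set Filter Topology
open scoped Real ENNReal RealInnerProductSpace

variable {E : Type*} [NormedAddCommGroup E] [InnerProductSpace ℝ E] [FiniteDimensional ℝ E]
  [MeasurableSpace E] [BorelSpace E]

theorem mg_gauss_int {ε : ℝ} (hε : 0 < ε) :
    Integrable (fun b : E => Real.exp (-ε * ‖b‖ ^ 2)) := by
  have h := (GaussianFourier.integrable_cexp_neg_mul_sq_norm_add (b := (ε : ℂ))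
    (by simpa using hε) 0 (0 : E)).norm
  refine h.congr (Eventually.of_forall fun b => ?_)
  simp only [zero_mul, add_zero, Complex.norm_exp]
  congr 1
  have : -(ε : ℂ) * (‖b‖ : ℂ) ^ 2 = ((-ε * ‖b‖ ^ 2 : ℝ) : ℂ) := by push_cast; ring
  rw [this, Complex.ofReal_re]

theorem mg_gauss {ε : ℝ} (hε : 0 < ε) (a : ℝ) (ξ : E) :
    ∫ b : E, Real.exp (-ε * ‖b‖ ^ 2) * Real.cos (a + ⟪b, ξ⟫) =
      (π / ε) ^ (Module.finrank ℝ E / 2 : ℝ) * Real.exp (-(‖ξ‖ ^ 2 / (4 * ε))) * Real.cos a := by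
  have hb : 0 < (ε : ℂ).re := by simpa using hε
  have h1 := GaussianFourier.integral_cexp_neg_mul_sq_norm_add hb Complex.I ξ
  have h2 := (GaussianFourier.integrable_cexp_neg_mul_sq_norm_add hb Complex.I ξ).const_mul
    (Complex.exp (a * Complex.I))
  have h3 := integral_re h2
  rw [integral_const_mul, h1] at h3
  have e1 : ∀ b : E, RCLike.re (Complex.exp (a * Complex.I) *
      Complex.exp (-(ε : ℂ) * (‖b‖ : ℂ) ^ 2 + Complex.I * (⟪ξ, b⟫ : ℝ))) =
      Real.exp (-ε * ‖b‖ ^ 2) * Real.cos (a + ⟪b, ξ⟫) := by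
    intro b
    rw [← Complex.exp_add]
    have : a * Complex.I + (-(ε : ℂ) * (‖b‖ : ℂ) ^ 2 + Complex.I * (⟪ξ, b⟫ : ℝ)) =
        ((-ε * ‖b‖ ^ 2 : ℝ) : ℂ) + ((a + ⟪b, ξ⟫ : ℝ) : ℂ) * Complex.I := by
      rw [real_inner_comm]; push_cast; ring
    rw [this, Complex.exp_add, ← Complex.ofReal_exp, RCLike.re_to_complex, Complex.re_ofReal_mul,
      Complex.exp_ofReal_mul_I_re]
  simp only [e1] at h3
  rw [h3]
  have e2 : ((π : ℂ) / ε) ^ (Module.finrank ℝ E / 2 : ℂ) =
      (((π / ε) ^ (Module.finrank ℝ E / 2 : ℝ) : ℝ) : ℂ) := by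
    rw [Complex.ofReal_cpow (by positivity)]; push_cast; rfl
  have e3 : Complex.I ^ 2 * (‖ξ‖ : ℂ) ^ 2 / (4 * ε) = ((-(‖ξ‖ ^ 2 / (4 * ε)) : ℝ) : ℂ) := by
    rw [Complex.I_sq]; push_cast; ring
  rw [e2, e3, ← Complex.ofReal_exp, ← Complex.ofReal_mul, RCLike.re_to_complex, mul_comm,
    Complex.re_ofReal_mul, Complex.exp_ofReal_mul_I_re]

theorem mg_const {s : ℝ} (hs : 0 < s) (n : ℕ) :
    (π / (s ^ 2 / 4)) ^ (n / 2 : ℝ) * s ^ n = (4 * π) ^ (n / 2 : ℝ) := by
  have h1 : s ^ n = (s ^ 2) ^ (n / 2 : ℝ) := by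
    rw [← Real.rpow_natCast, ← Real.rpow_natCast, ← Real.rpow_mul hs.le]
    congr 1; push_cast; ring
  rw [h1, ← Real.mul_rpow (by positivity) (by positivity)]
  congr 1
  field_simp

theorem mg_const2 (n : ℕ) :
    (4 * π) ^ (n / 2 : ℝ) * (π / 1) ^ (n / 2 : ℝ) = (2 * π) ^ n := by
  rw [← Real.mul_rpow (by positivity) (by positivity)]
  have : 4 * π * (π / 1) = (2 * π) ^ 2 := by ring
  rw [this, ← Real.rpow_natCast, ← Real.rpow_mul (by positivity), ← Real.rpow_natCast]
  congr 1; push_cast; ring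

/-- Marginal of a nonnegative cosine transform. -/
theorem marg_gen {U : Type*} [MeasurableSpace U] (μ : Measure U) [SFinite μ] (ω : U → ℝ)
    (hω : Measurable ω) (φ : U → E → ℝ) (hφm : Measurable (Function.uncurry φ))
    (hφi : Integrable (Function.uncurry φ) (μ.prod volume)) (h : U → ℝ) (hh : Integrable h μ)
    (hb : ∀ u ξ, |φ u ξ| ≤ h u) (hc : ∀ u, ContinuousAt (φ u) 0)
    (hpos : ∀ b : E, 0 ≤ ∫ u, (∫ ξ, Real.cos (ω u + ⟪b, ξ⟫) * φ u ξ) ∂μ) :
    ∫⁻ b : E, ENNReal.ofReal (∫ u, (∫ ξ, Real.cos (ω u + ⟪b, ξ⟫) * φ u ξ) ∂μ) =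
      ENNReal.ofReal ((2 * π) ^ Module.finrank ℝ E * ∫ u, Real.cos (ω u) * φ u 0 ∂μ) := by
  set n := Module.finrank ℝ E with hn
  set ν : Measure (U × E) := μ.prod volume with hν
  set f : E → ℝ := fun b => ∫ u, (∫ ξ, Real.cos (ω u + ⟪b, ξ⟫) * φ u ξ) ∂μ with hf
  have hmeas : Measurable fun p : E × (U × E) => Real.cos (ω p.2.1 + ⟪p.1, p.2.2⟫) :=
    Real.measurable_cos.comp ((hω.comp (measurable_fst.comp measurable_snd)).add
      (measurable_fst.inner (measurable_snd.comp measurable_snd)))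
  have hint : ∀ b : E, Integrable (fun z : U × E => Real.cos (ω z.1 + ⟪b, z.2⟫) * φ z.1 z.2) ν := by
    intro b
    refine hφi.bdd_mul (c := 1) ?_ (Eventually.of_forall fun z => Real.abs_cos_le_one _)
    exact (hmeas.comp (measurable_const.prodMk measurable_id)).aestronglyMeasurable
  have hfz : ∀ b, f b = ∫ z, Real.cos (ω z.1 + ⟪b, z.2⟫) * φ z.1 z.2 ∂ν := fun b =>
    (integral_prod _ (hint b)).symm
  have hI : ∀ ε : ℝ, 0 < ε → Integrable (Function.uncurry fun (b : E) (z : U × E) =>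
      Real.exp (-ε * ‖b‖ ^ 2) * (Real.cos (ω z.1 + ⟪b, z.2⟫) * φ z.1 z.2)) (volume.prod ν) := by
    intro ε hε
    have h1 := ((mg_gauss_int (E := E) hε).mul_prod hφi).bdd_mul (c := 1)
      hmeas.aestronglyMeasurable (Eventually.of_forall fun z => Real.abs_cos_le_one _)
    refine h1.congr (Eventually.of_forall fun p => ?_)
    simp only [Function.uncurry]
    ring
  have hIf : ∀ ε : ℝ, 0 < ε → Integrable fun b : E => Real.exp (-ε * ‖b‖ ^ 2) * f b := by
    intro ε hε
    have := (hI ε hε).integral_prod_left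
    refine this.congr (Eventually.of_forall fun b => ?_)
    simp only [Function.uncurry, hfz]
    rw [integral_const_mul]
  -- the scaled integrand
  set G : ℝ → U × E → ℝ := fun s z => Real.cos (ω z.1) * φ z.1 (s • z.2) * Real.exp (-1 * ‖z.2‖ ^ 2)
    with hG
  have hGm : ∀ s, Measurable (G s) := by
    intro s
    refine ((Real.measurable_cos.comp (hω.comp measurable_fst)).mul
      (hφm.comp (measurable_fst.prodMk (measurable_snd.const_smul s)))).mul ?_
    fun_prop
  have hGb : ∀ s z, ‖G s z‖ ≤ h z.1 * Real.exp (-1 * ‖z.2‖ ^ 2) := by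
    intro s z
    simp only [hG, Real.norm_eq_abs, abs_mul, abs_of_pos (Real.exp_pos _)]
    refine mul_le_mul_of_nonneg_right ?_ (Real.exp_pos _).le
    calc |Real.cos (ω z.1)| * |φ z.1 (s • z.2)| ≤ 1 * |φ z.1 (s • z.2)| :=
          mul_le_mul_of_nonneg_right (Real.abs_cos_le_one _) (abs_nonneg _)
      _ ≤ h z.1 := by rw [one_mul]; exact hb _ _
  have hdom : Integrable (fun z : U × E => h z.1 * Real.exp (-1 * ‖z.2‖ ^ 2)) ν :=
    hh.mul_prod (mg_gauss_int one_pos)
  have hGi : ∀ s, Integrable (G s) ν := fun s =>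
    hdom.mono' (hGm s).aestronglyMeasurable (Eventually.of_forall (hGb s))
  have hval : ∀ s : ℝ, 0 < s → ∫ b : E, Real.exp (-(s ^ 2 / 4) * ‖b‖ ^ 2) * f b =
      (4 * π) ^ (n / 2 : ℝ) * ∫ z, G s z ∂ν := by
    intro s hs
    have hε : 0 < s ^ 2 / 4 := by positivity
    have e1 : ∫ b : E, Real.exp (-(s ^ 2 / 4) * ‖b‖ ^ 2) * f b =
        ∫ b : E, ∫ z, Real.exp (-(s ^ 2 / 4) * ‖b‖ ^ 2) *
          (Real.cos (ω z.1 + ⟪b, z.2⟫) * φ z.1 z.2) ∂ν := by
      simp only [hfz, integral_const_mul]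
    have e2 : ∀ z : U × E, ∫ b : E, Real.exp (-(s ^ 2 / 4) * ‖b‖ ^ 2) *
        (Real.cos (ω z.1 + ⟪b, z.2⟫) * φ z.1 z.2) = (π / (s ^ 2 / 4)) ^ (n / 2 : ℝ) *
          (Real.cos (ω z.1) * φ z.1 z.2 * Real.exp (-(‖z.2‖ ^ 2 / (4 * (s ^ 2 / 4))))) := by
      intro z
      simp only [← mul_assoc]
      rw [integral_mul_const, mg_gauss hε]
      ring
    have hi2 : Integrable (fun z : U × E =>
        Real.cos (ω z.1) * φ z.1 z.2 * Real.exp (-(‖z.2‖ ^ 2 / (4 * (s ^ 2 / 4))))) ν := by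
      have := (hI _ hε).integral_prod_right
      simp only [Function.uncurry, e2] at this
      have hne : (π / (s ^ 2 / 4)) ^ (n / 2 : ℝ) ≠ 0 := by positivity
      exact (integrable_const_mul_iff (IsUnit.mk0 _ hne) _).1 this
    rw [e1, integral_integral_swap (hI _ hε)]
    simp only [e2]
    rw [integral_const_mul, integral_prod _ hi2, integral_prod _ (hGi s), ← mg_const hs n,
      mul_assoc, ← integral_const_mul (s ^ n)]
    congr 1
    refine integral_congr_ae (Eventually.of_forall fun u => ?_)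
    have e3 := Measure.integral_comp_smul (volume : Measure E) (fun ξ : E =>
      Real.cos (ω u) * φ u ξ * Real.exp (-(‖ξ‖ ^ 2 / (4 * (s ^ 2 / 4))))) s
    have e4 : ∀ η : E, -(‖s • η‖ ^ 2 / (4 * (s ^ 2 / 4))) = -1 * ‖η‖ ^ 2 := by
      intro η
      rw [norm_smul, Real.norm_eq_abs, abs_of_pos hs]
      field_simp
    simp only [e4] at e3
    simp only [hG]
    rw [e3, abs_of_pos (by positivity), smul_eq_mul, ← mul_assoc, mul_inv_cancel₀ (by positivity),
      one_mul]
  set s : ℕ → ℝ := fun k => 1 / ((k : ℝ) + 1) with hs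
  have hs0 : ∀ k, 0 < s k := fun k => by positivity
  have hst : Tendsto s atTop (𝓝 0) := tendsto_one_div_add_atTop_nhds_zero_nat
  have hlim : Tendsto (fun k => ∫ z, G (s k) z ∂ν) atTop (𝓝 (∫ z, G 0 z ∂ν)) := by
    refine tendsto_integral_of_dominated_convergence _ (fun k => (hGm _).aestronglyMeasurable) hdom
      (fun k => Eventually.of_forall (hGb _)) (Eventually.of_forall fun z => ?_)
    simp only [hG]
    refine Tendsto.mul_const _ (Tendsto.const_mul _ ?_)
    rw [zero_smul]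
    refine (hc z.1).tendsto.comp ?_
    have := hst.smul_const z.2
    rwa [zero_smul] at this
  have hG0 : (4 * π) ^ (n / 2 : ℝ) * ∫ z, G 0 z ∂ν =
      (2 * π) ^ n * ∫ u, Real.cos (ω u) * φ u 0 ∂μ := by
    simp only [hG, zero_smul]
    rw [integral_prod_mul (fun u => Real.cos (ω u) * φ u 0) (fun η : E => Real.exp (-1 * ‖η‖ ^ 2)),
      GaussianFourier.integral_rexp_neg_mul_sq_norm one_pos, ← mg_const2 n]
    ring
  have hR : Tendsto (fun k => ∫⁻ b : E, ENNReal.ofReal (Real.exp (-(s k ^ 2 / 4) * ‖b‖ ^ 2) * f b))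
      atTop (𝓝 (ENNReal.ofReal ((2 * π) ^ n * ∫ u, Real.cos (ω u) * φ u 0 ∂μ))) := by
    have h1 := ENNReal.tendsto_ofReal (hlim.const_mul ((4 * π) ^ (n / 2 : ℝ)))
    rw [hG0] at h1
    refine h1.congr fun k => ?_
    rw [← hval _ (hs0 k), ofReal_integral_eq_lintegral_ofReal (hIf _ (by positivity))
      (Eventually.of_forall fun b => mul_nonneg (Real.exp_pos _).le (hpos b))]
  have hL : Tendsto (fun k => ∫⁻ b : E, ENNReal.ofReal (Real.exp (-(s k ^ 2 / 4) * ‖b‖ ^ 2) * f b))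
      atTop (𝓝 (∫⁻ b : E, ENNReal.ofReal (f b))) := by
    refine lintegral_tendsto_of_tendsto_of_monotone
      (fun k => (hIf _ (by have := hs0 k; positivity)).aemeasurable.ennreal_ofReal)
      (Eventually.of_forall fun b => ?_) (Eventually.of_forall fun b => ?_)
    · intro i j hij
      refine ENNReal.ofReal_le_ofReal (mul_le_mul_of_nonneg_right (Real.exp_le_exp.2 ?_) (hpos b))
      have h1 : s j ≤ s i := Nat.one_div_le_one_div hij
      have h2 : s j ^ 2 ≤ s i ^ 2 := pow_le_pow_left₀ (hs0 j).le h1 2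
      nlinarith [sq_nonneg ‖b‖]
    · refine ENNReal.tendsto_ofReal ?_
      have h1 : Continuous fun t : ℝ => Real.exp (-(t ^ 2 / 4) * ‖b‖ ^ 2) * f b := by fun_prop
      have := (h1.tendsto 0).comp hst
      simpa [Function.comp_def] using this
  exact tendsto_nhds_unique hL hR

theorem stab_mass {α m : ℝ} (h0 : 0 < α) (hm : 0 < m) (hpos : ∀ y : E, 0 ≤ stab α m y) :
    ∫⁻ y : E, ENNReal.ofReal (stab α m y) = 1 := by
  set c : ℝ := ((2 * π) ^ Module.finrank ℝ E)⁻¹ with hc
  have hc0 : 0 < c := by positivity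
  have hcont : Continuous fun ξ : E => c * Real.exp (-(m * ‖ξ‖ ^ α)) :=
    continuous_const.mul (Real.continuous_exp.comp
      (continuous_const.mul (continuous_norm.rpow_const fun _ => Or.inr h0.le)).neg)
  have e1 : ∀ b : E, ∫ _u : Unit, (∫ ξ : E, Real.cos ((0 : ℝ) + ⟪b, ξ⟫) *
      (c * Real.exp (-(m * ‖ξ‖ ^ α)))) ∂(Measure.dirac ()) = stab α m b := by
    intro b
    rw [integral_dirac]
    unfold stab FR
    rw [← integral_const_mul]
    refine integral_congr_ae (Eventually.of_forall fun ξ => ?_)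
    simp only [zero_add]; ring
  have h := marg_gen (E := E) (Measure.dirac ()) (fun _ => 0) measurable_const
    (fun _ ξ => c * Real.exp (-(m * ‖ξ‖ ^ α))) (hcont.measurable.comp measurable_snd)
    (by
      have := (integrable_const (μ := Measure.dirac ()) c).mul_prod
        (integrable_exp_neg (volume : Measure E) hm h0)
      exact this)
    (fun _ => c) (integrable_const _)
    (fun _ ξ => by
      rw [abs_of_pos (by positivity)]
      have : Real.exp (-(m * ‖ξ‖ ^ α)) ≤ 1 := Real.exp_le_one_iff.2 (by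
        have : 0 ≤ m * ‖ξ‖ ^ α := by positivity
        linarith)
      nlinarith)
    (fun _ => hcont.continuousAt) (fun b => by rw [e1]; exact hpos b)
  simp only [e1] at h
  rw [h, integral_dirac]
  simp only [Real.cos_zero, norm_zero, Real.zero_rpow h0.ne', mul_zero, neg_zero, Real.exp_zero,
    mul_one, one_mul, hc]
  rw [mul_inv_cancel₀ (by positivity), ENNReal.ofReal_one]

theorem kin_marg {α T : ℝ} (h0 : 0 < α) (hT : 0 < T) (hpos : ∀ z : E × E, 0 ≤ kin α T z)
    (τ : ℝ) (y : E) : Mg τ (pp α T) y = qq α T τ y := by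
  set n := Module.finrank ℝ E with hn
  set c : ℝ := ((2 * π) ^ (2 * n))⁻¹ with hc
  have hc0 : 0 < c := by positivity
  obtain ⟨b0, hb0, hlow⟩ := phi_lower (E := E) h0 hT
  have hcont : Continuous fun z : E × E => c * Real.exp (-Phi α T z.1 (z.2 - τ • z.1)) := by
    have h1 : Continuous fun z : E × E => (z.1, z.2 - τ • z.1) := by fun_prop
    exact continuous_const.mul (Real.continuous_exp.comp ((continuous_phi h0 T).comp h1).neg)
  have hmp : MeasurePreserving (fun z : E × E => (id z.1, z.2 - τ • z.1))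
      (volume.prod volume) (volume.prod volume) :=
    MeasurePreserving.skew_product (MeasurePreserving.id _) (g := fun ψ ξ : E => ξ - τ • ψ)
      (by fun_prop) (Eventually.of_forall fun ψ => (measurePreserving_sub_right volume _).map_eq)
  have hi0 : Integrable (fun ζ : E × E => Real.exp (-Phi α T ζ.1 ζ.2)) (volume.prod volume) :=
    integrable_exp_phi h0 hT
  have hi1 : Integrable (fun z : E × E => c * Real.exp (-Phi α T z.1 (z.2 - τ • z.1)))
      (volume.prod volume) := (hmp.integrable_comp_of_integrable hi0).const_mul c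
  have e1 : ∀ u : E, ∫ ψ : E, (∫ ξ : E, Real.cos (⟪y, ψ⟫ + ⟪u, ξ⟫) *
      (c * Real.exp (-Phi α T ψ (ξ - τ • ψ)))) = kin α T (y + τ • u, u) := by
    intro u
    unfold kin
    have hi2 : Integrable (fun ζ : E × E => Real.cos (⟪y + τ • u, ζ.1⟫ + ⟪u, ζ.2⟫) *
        Real.exp (-Phi α T ζ.1 ζ.2)) (volume.prod volume) := by
      refine hi0.bdd_mul (c := 1) ?_ (Eventually.of_forall fun z => Real.abs_cos_le_one _)
      exact Continuous.aestronglyMeasurable (by fun_prop)
    rw [Measure.volume_eq_prod, integral_prod _ hi2, ← integral_const_mul]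
    refine integral_congr_ae (Eventually.of_forall fun ψ => ?_)
    simp only
    rw [← integral_const_mul, ← integral_add_right_eq_self _ (τ • ψ)]
    refine integral_congr_ae (Eventually.of_forall fun ξ => ?_)
    simp only [add_sub_cancel_right, inner_add_left, inner_add_right, real_inner_smul_left,
      real_inner_smul_right]
    rw [show ⟪y, ψ⟫ + (⟪u, ξ⟫ + τ * ⟪u, ψ⟫) = ⟪y, ψ⟫ + τ * ⟪u, ψ⟫ + ⟪u, ξ⟫ by ring]
    ring
  have h := marg_gen (E := E) (volume : Measure E) (fun ψ => ⟪y, ψ⟫)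
    (measurable_const.inner measurable_id)
    (fun ψ ξ => c * Real.exp (-Phi α T ψ (ξ - τ • ψ))) hcont.measurable hi1
    (fun ψ => c * Real.exp (-(b0 * ‖ψ‖ ^ α))) ((integrable_exp_neg volume hb0 h0).const_mul c)
    (fun ψ ξ => by
      rw [abs_of_pos (by positivity)]
      refine mul_le_mul_of_nonneg_left (Real.exp_le_exp.2 (neg_le_neg ?_)) hc0.le
      refine le_trans ?_ (hlow ψ (ξ - τ • ψ))
      exact mul_le_mul_of_nonneg_left
        (Real.rpow_le_rpow (norm_nonneg _) (norm_fst_le (ψ, ξ - τ • ψ)) h0.le) hb0.le)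
    (fun ψ => (hcont.comp (Continuous.prodMk_right ψ)).continuousAt)
    (fun b => by rw [e1]; exact hpos _)
  simp only [e1] at h
  unfold Mg pp qq
  rw [h]
  congr 1
  unfold stab FR
  rw [← integral_const_mul, ← integral_const_mul]
  refine integral_congr_ae (Eventually.of_forall fun ψ => ?_)
  have e2 : Phi α T ψ (0 - τ • ψ) = mm α T τ * ‖ψ‖ ^ α := by
    unfold Phi mm
    rw [← intervalIntegral.integral_mul_const]
    refine intervalIntegral.integral_congr fun σ _ => ?_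
    have : 0 - τ • ψ + σ • ψ = (σ - τ) • ψ := by rw [sub_smul]; abel
    rw [this, norm_smul, Real.norm_eq_abs, Real.mul_rpow (abs_nonneg _) (norm_nonneg _)]
  simp only [e2, hc]
  rw [← hn, two_mul n, pow_add]
  field_simp

end Pool.Agent.Lib.MP_bd80ac_an
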