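import Pool.Agent.Lib.MP_bd80ac_an.Inst
import Pool.Agent.Lib.MP_bd80ac_an.Marg

set_option autoImplicit false
set_option linter.unusedSectionVars false

namespace Pool.Agent.Lib.MP_bd80ac_an

open MeasureTheory Set Filter Topology
open scoped Real ENNReal RealInnerProductSpace

variable {E : Type*} [NormedAddCommGroup E] [InnerProductSpace ℝ E] [FiniteDimensional ℝ E]
  [MeasurableSpace E] [BorelSpace E]

theorem is_ptbound (α m : ℝ) (y ζ : E) :
    ‖Real.cos ⟪y, ζ⟫ * Real.exp (-(m * ‖ζ‖ ^ α))‖ ≤ Real.exp (-(m * ‖ζ‖ ^ α)) := by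
  rw [norm_mul, Real.norm_eq_abs, Real.norm_eq_abs, abs_of_pos (Real.exp_pos _)]
  exact mul_le_of_le_one_left (Real.exp_pos _).le (Real.abs_cos_le_one _)

theorem continuous_stab {α m : ℝ} (h0 : 0 < α) (hm : 0 < m) :
    Continuous (stab α m : E → ℝ) := by
  unfold stab FR
  refine continuous_const.mul ?_
  have hc : Continuous fun ζ : E => Real.exp (-(m * ‖ζ‖ ^ α)) :=
    Real.continuous_exp.comp
      ((continuous_norm.rpow_const fun _ => Or.inr h0.le).const_mul m).neg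
  refine continuous_of_dominated (bound := fun ζ : E => Real.exp (-(m * ‖ζ‖ ^ α))) ?_ ?_
    (integrable_exp_neg volume hm h0) ?_
  · intro y
    exact ((by fun_prop : Continuous fun ζ : E => Real.cos ⟪y, ζ⟫).mul hc).aestronglyMeasurable
  · intro y
    exact Eventually.of_forall fun ζ => is_ptbound α m y ζ
  · exact Eventually.of_forall fun ζ => by fun_prop

theorem is_bdd {α m : ℝ} (h0 : 0 < α) (hm : 0 < m) : ∃ B : ℝ, ∀ y : E, stab α m y ≤ B := by
  refine ⟨((2 * π) ^ Module.finrank ℝ E)⁻¹ * ∫ ζ : E, Real.exp (-(m * ‖ζ‖ ^ α)), fun y => ?_⟩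
  unfold stab FR
  refine mul_le_mul_of_nonneg_left ?_ (by positivity)
  refine (le_abs_self _).trans ?_
  rw [← Real.norm_eq_abs]
  exact norm_integral_le_of_norm_le (integrable_exp_neg volume hm h0)
    (Eventually.of_forall fun ζ => is_ptbound α m y ζ)

theorem is_zero_pos {α m : ℝ} (h0 : 0 < α) (hm : 0 < m) : 0 < stab α m (0 : E) := by
  unfold stab FR
  refine mul_pos (by positivity) ?_
  simp only [inner_zero_left, Real.cos_zero, one_mul]
  exact integral_exp_pos (integrable_exp_neg volume hm h0)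

theorem is_cc_pos [Nontrivial E] {α : ℝ} (h0 : 0 < α) (h2 : α < 2) : 0 < cc (dm E) α :=
  cc_pos (lt_of_lt_of_le one_pos one_le_dm) h0 h2

theorem is_measSet (r : ℝ) : MeasurableSet {w : E | r ≤ ‖w‖} :=
  measurableSet_le measurable_const measurable_norm

theorem is_measS (α r : ℝ) {f : E → ℝ≥0∞} (hf : Measurable f) : Measurable (S0 α r f) := by
  unfold S0
  refine Measurable.lintegral_prod_right (f := fun y w : E => nn α w * f (y - w)) ?_
  exact ((measurable_nn α).comp measurable_snd).mul (hf.comp (measurable_fst.sub measurable_snd))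

theorem is_posS [Nontrivial E] {α : ℝ} (h0 : 0 < α) (h2 : α < 2) {r : ℝ} (hr : 0 < r)
    {f : E → ℝ≥0∞} (hf : Measurable f) (y : E) {U : Set E} (hU : IsOpen U) (hne : U.Nonempty)
    (h : ∀ w ∈ U, r ≤ ‖w‖ ∧ 0 < f (y - w)) : 0 < S0 α r f y := by
  unfold S0
  have hm : Measurable fun w : E => nn α w * f (y - w) :=
    (measurable_nn α).mul (hf.comp (measurable_const.sub measurable_id))
  rw [setLIntegral_pos_iff hm]
  refine lt_of_lt_of_le (hU.measure_pos volume hne) (measure_mono fun w hw => ⟨?_, (h w hw).1⟩)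
  have hw0 : 0 < ‖w‖ := lt_of_lt_of_le hr (h w hw).1
  refine mul_ne_zero ?_ (h w hw).2.ne'
  unfold nn
  exact (ENNReal.ofReal_pos.mpr (mul_pos (is_cc_pos h0 h2) (Real.rpow_pos_of_pos hw0 _))).ne'

theorem is_tail [Nontrivial E] {α : ℝ} (h0 : 0 < α) (h2 : α < 2) (B : ℝ) :
    ∃ K : ℝ, 0 ≤ K ∧ ∀ r : ℝ, 0 < r → ∀ f : E → ℝ≥0∞, (∀ u, f u ≤ ENNReal.ofReal B) → ∀ y,
      S0 α r f y ≤ ENNReal.ofReal (K * r ^ (-α)) := by
  obtain ⟨C, hC, htail⟩ := tail_pow (E := E) h0
  have hc := is_cc_pos (E := E) h0 h2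
  refine ⟨max B 0 * cc (dm E) α * C, by positivity, fun r hr f hf y => ?_⟩
  unfold S0
  have h1 : ∀ w : E, nn α w * f (y - w) ≤
      ENNReal.ofReal (max B 0 * cc (dm E) α) * ENNReal.ofReal (‖w‖ ^ (-(dm E + α))) := by
    intro w
    unfold nn
    rw [ENNReal.ofReal_mul hc.le, ENNReal.ofReal_mul (le_max_right _ _), mul_comm, mul_assoc]
    exact mul_le_mul_left ((hf _).trans (ENNReal.ofReal_le_ofReal (le_max_left _ _))) _
  refine (lintegral_mono h1).trans ?_
  rw [lintegral_const_mul' _ _ ENNReal.ofReal_ne_top, mul_assoc _ C,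
    ENNReal.ofReal_mul (p := max B 0 * cc (dm E) α) (by positivity)]
  exact mul_le_mul_right (htail r hr) _

theorem is_S_eq (α r : ℝ) (f : E → ℝ≥0∞) (y : E) :
    S0 α r f y = ∫⁻ u, indicator {w : E | r ≤ ‖w‖} (nn α) (y - u) * f u := by
  unfold S0
  rw [← lintegral_indicator (is_measSet r), ← lintegral_sub_left_eq_self _ y]
  refine lintegral_congr fun u => ?_
  by_cases h : y - u ∈ {w : E | r ≤ ‖w‖}
  · rw [indicator_of_mem h, indicator_of_mem h, sub_sub_cancel]
  · rw [indicator_of_notMem h, indicator_of_notMem h, zero_mul]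

omit [MeasurableSpace E] [BorelSpace E] in
theorem is_norm_top : Tendsto (fun y : E => ‖y‖) (cocompact E) atTop := by
  have : ProperSpace E := FiniteDimensional.proper_real E
  exact tendsto_norm_cocompact_atTop

omit [MeasurableSpace E] [BorelSpace E] in
theorem is_cg : (cocompact E).IsCountablyGenerated := by
  have : ProperSpace E := FiniteDimensional.proper_real E
  rw [← Metric.cobounded_eq_cocompact, ← comap_norm_atTop]
  infer_instance

omit [MeasurableSpace E] [BorelSpace E] in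
theorem is_ratio (u : E) : Tendsto (fun y : E => ‖y - u‖ / ‖y‖) (cocompact E) (𝓝 1) := by
  have h1 : Tendsto (fun y : E => ‖u‖ / ‖y‖) (cocompact E) (𝓝 0) :=
    tendsto_const_nhds.div_atTop is_norm_top
  rw [tendsto_iff_norm_sub_tendsto_zero]
  refine squeeze_zero' (Eventually.of_forall fun y => norm_nonneg _) ?_ h1
  filter_upwards [is_norm_top.eventually_gt_atTop 0] with y hy
  rw [div_sub_one hy.ne', norm_div, norm_norm]
  refine div_le_div_of_nonneg_right ?_ hy.le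
  have := abs_norm_sub_norm_le (y - u) y
  rw [sub_sub_cancel_left, norm_neg] at this
  exact this

theorem is_conv [Nontrivial E] {α : ℝ} (h0 : 0 < α) (h2 : α < 2) {ε : ℝ} (hε : 0 < ε)
    (hε1 : ε < 1) (q : E → ℝ≥0∞) (hq : ∫⁻ u, q u = 1) (hqt : ∀ u, q u ≠ ∞)
    (f : E → E → ℝ≥0∞) (hfm : ∀ᶠ y in cocompact E, Measurable (f y))
    (hfq : ∀ᶠ y in cocompact E, ∀ u, f y u ≤ q u)
    (hlim : ∀ u, Tendsto (fun y => f y u) (cocompact E) (𝓝 (q u))) :
    Tendsto (fun y : E => ENNReal.ofReal (‖y‖ ^ (dm E + α)) * S0 α (ε * ‖y‖) (f y) y)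
      (cocompact E) (𝓝 (ENNReal.ofReal (cc (dm E) α))) := by
  have hc := is_cc_pos (E := E) h0 h2
  have := is_cg (E := E)
  have hβ : 0 ≤ dm E + α := by
    have : 0 ≤ dm E := Nat.cast_nonneg _
    linarith
  have e : ∀ y : E, ENNReal.ofReal (‖y‖ ^ (dm E + α)) * S0 α (ε * ‖y‖) (f y) y =
      ∫⁻ u, ENNReal.ofReal (‖y‖ ^ (dm E + α)) *
        indicator {w : E | ε * ‖y‖ ≤ ‖w‖} (nn α) (y - u) * f y u := by
    intro y
    rw [is_S_eq, ← lintegral_const_mul' _ _ ENNReal.ofReal_ne_top]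
    simp only [mul_assoc]
  simp_rw [e]
  have e2 : ENNReal.ofReal (cc (dm E) α) = ∫⁻ u, ENNReal.ofReal (cc (dm E) α) * q u := by
    rw [lintegral_const_mul' _ _ ENNReal.ofReal_ne_top, hq, mul_one]
  rw [e2]
  have hker : ∀ y w : E, 0 < ‖y‖ → ENNReal.ofReal (‖y‖ ^ (dm E + α)) * nn α w =
      ENNReal.ofReal (cc (dm E) α * (‖w‖ / ‖y‖) ^ (-(dm E + α))) := by
    intro y w hy
    unfold nn
    rw [← ENNReal.ofReal_mul (by positivity), Real.div_rpow (norm_nonneg _) hy.le,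
      Real.rpow_neg hy.le, div_inv_eq_mul]
    congr 1
    ring
  refine tendsto_lintegral_filter_of_dominated_convergence
    (fun u => ENNReal.ofReal (cc (dm E) α * ε ^ (-(dm E + α))) * q u) ?_ ?_ ?_ ?_
  · filter_upwards [hfm] with y hy
    exact ((((measurable_nn α).indicator (is_measSet _)).comp
      (measurable_const.sub measurable_id)).const_mul _).mul hy
  · filter_upwards [hfq, is_norm_top.eventually_gt_atTop 0] with y hy hy0
    refine Eventually.of_forall fun u => mul_le_mul' ?_ (hy u)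
    by_cases h : y - u ∈ {w : E | ε * ‖y‖ ≤ ‖w‖}
    · rw [indicator_of_mem h, hker y _ hy0]
      refine ENNReal.ofReal_le_ofReal (mul_le_mul_of_nonneg_left ?_ hc.le)
      refine Real.rpow_le_rpow_of_nonpos hε ?_ (by linarith)
      rw [le_div_iff₀ hy0]
      exact h
    · rw [indicator_of_notMem h, mul_zero]
      exact zero_le
  · rw [lintegral_const_mul' _ _ ENNReal.ofReal_ne_top, hq, mul_one]
    exact ENNReal.ofReal_ne_top
  · refine Eventually.of_forall fun u => ?_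
    refine ENNReal.Tendsto.mul ?_ (Or.inr (hqt u)) (hlim u) (Or.inr ENNReal.ofReal_ne_top)
    have h1 : Tendsto (fun y : E => cc (dm E) α * (‖y - u‖ / ‖y‖) ^ (-(dm E + α))) (cocompact E)
        (𝓝 (cc (dm E) α * (1 : ℝ) ^ (-(dm E + α)))) :=
      ((is_ratio u).rpow_const (Or.inl one_ne_zero)).const_mul _
    rw [Real.one_rpow, mul_one] at h1
    refine (ENNReal.tendsto_ofReal h1).congr' ?_
    filter_upwards [(is_ratio u).eventually (lt_mem_nhds hε1),
      is_norm_top.eventually_gt_atTop 0] with y hy hy0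
    have h : y - u ∈ {w : E | ε * ‖y‖ ≤ ‖w‖} := by
      rw [lt_div_iff₀ hy0] at hy
      exact hy.le
    rw [indicator_of_mem h, hker y _ hy0]

/-- The small jump part converges to the density when the threshold tends to infinity. -/
theorem is_Plim [Nontrivial E] {α : ℝ} (h0 : 0 < α) (h2 : α < 2) {P : ℝ → E → ℝ≥0∞} {A a : ℝ}
    (hD : Dec (S0 α) (fun y : E => ENNReal.ofReal (stab α 1 y)) P A a) :
    ∃ K : ℝ, 0 ≤ K ∧ ∀ r : ℝ, 1 ≤ r → ∀ u : E,
      ENNReal.ofReal (stab α 1 u - K * r ^ (-α)) ≤ P r u := by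
  obtain ⟨B, hB⟩ := is_bdd (E := E) h0 one_pos
  obtain ⟨K, hK, htail⟩ := is_tail (E := E) h0 h2 B
  refine ⟨K, hK, fun r hr u => ?_⟩
  have hr0 : 0 < r := lt_of_lt_of_le one_pos hr
  rw [ENNReal.ofReal_sub _ (by positivity), tsub_le_iff_right]
  refine (hD.ge1 r hr u).trans (add_le_add le_rfl ?_)
  exact htail r hr0 _ (fun v => ENNReal.ofReal_le_ofReal (hB v)) u

theorem is_pos_one [Nontrivial E] {α : ℝ} (h0 : 0 < α) (h2 : α < 2) (y : E) :
    0 < stab α 1 y := by
  obtain ⟨-, P, A, a, hD⟩ := iso_dec (E := E) h0 h2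
  obtain ⟨K, hK, hP⟩ := is_Plim h0 h2 hD
  have hs0 := is_zero_pos (E := E) h0 one_pos
  have hK0 : Tendsto (fun r : ℝ => K * r ^ (-α)) atTop (𝓝 (K * 0)) :=
    (tendsto_rpow_neg_atTop h0).const_mul K
  rw [mul_zero] at hK0
  obtain ⟨r, hr1, hrK⟩ :=
    ((eventually_ge_atTop (1 : ℝ)).and (hK0.eventually (gt_mem_nhds hs0))).exists
  have hr0 : 0 < r := lt_of_lt_of_le one_pos hr1
  have hopen : IsOpen {u : E | K * r ^ (-α) < stab α 1 u} :=
    isOpen_lt continuous_const (continuous_stab h0 one_pos)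
  obtain ⟨η, hη, hball⟩ := Metric.isOpen_iff.mp hopen 0 hrK
  have hP0 : ∀ u : E, ‖u‖ < η → 0 < P r u := by
    intro u hu
    have h1 : K * r ^ (-α) < stab α 1 u := hball (mem_ball_zero_iff.mpr hu)
    exact lt_of_lt_of_le (ENNReal.ofReal_pos.mpr (sub_pos.mpr h1)) (hP r hr1 u)
  have hS1 : ∀ v : E, r + η ≤ ‖v‖ → 0 < S0 α r (P r) v := by
    intro v hv
    refine is_posS h0 h2 hr0 (hD.meas r hr1) v (U := Metric.ball v η) Metric.isOpen_ball
      (Metric.nonempty_ball.mpr hη) fun w hw => ?_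
    have h1 : ‖v - w‖ < η := by
      rw [← dist_eq_norm, dist_comm]
      exact hw
    refine ⟨?_, hP0 _ h1⟩
    have h3 := norm_sub_norm_le v w
    linarith
  have hS2 : 0 < S0 α r (S0 α r (P r)) y := by
    refine is_posS h0 h2 hr0 (is_measS α r (hD.meas r hr1)) y
      (U := {w : E | r + η + ‖y‖ < ‖w‖}) (isOpen_lt continuous_const continuous_norm) ?_
      fun w hw => ?_
    · exact NormedSpace.exists_lt_norm ℝ E _
    · have h1 : r + η + ‖y‖ < ‖w‖ := hw
      have h3 := norm_sub_norm_le w y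
      rw [norm_sub_rev] at h3
      have h4 := norm_nonneg y
      exact ⟨by linarith, hS1 _ (by linarith)⟩
  have h5 := lt_of_lt_of_le hS2 (hD.le2 r hr1 y)
  by_contra hneg
  rw [ENNReal.ofReal_of_nonpos (not_lt.mp hneg), mul_zero] at h5
  exact lt_irrefl _ h5

theorem stab_pos [Nontrivial E] {α m : ℝ} (h0 : 0 < α) (h2 : α < 2) (hm : 0 < m) (y : E) :
    0 < stab α m y := by
  rw [stab_scale h0 hm]
  exact mul_pos (Real.rpow_pos_of_pos hm _) (is_pos_one h0 h2 _)

theorem is_asym_one [Nontrivial E] {α : ℝ} (h0 : 0 < α) (h2 : α < 2) :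
    Tendsto (fun y : E => ‖y‖ ^ (dm E + α) * stab α 1 y) (cocompact E) (𝓝 (cc (dm E) α)) := by
  obtain ⟨hnn, P, A, a, hD⟩ := iso_dec (E := E) h0 h2
  obtain ⟨K, hK, hP⟩ := is_Plim h0 h2 hD
  have hc := is_cc_pos (E := E) h0 h2
  have ha := hD.a_pos
  have hA := hD.A_nonneg
  have hβ : 0 ≤ dm E + α := by
    have : 0 ≤ dm E := Nat.cast_nonneg _
    linarith
  set β := dm E + α with hβdef
  set ε : ℝ := min (a / (β + 1)) (1 / 2) with hεdef
  have hε : 0 < ε := lt_min (by positivity) (by norm_num)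
  have hε1 : ε < 1 := lt_of_le_of_lt (min_le_right _ _) (by norm_num)
  have hεa : β + 1 ≤ a / ε := by
    have h1 : ε ≤ a / (β + 1) := min_le_left _ _
    rw [le_div_iff₀ (by positivity)] at h1
    rw [le_div_iff₀ hε]
    linarith
  set q : E → ℝ≥0∞ := fun y => ENNReal.ofReal (stab α 1 y) with hq
  have hqm : Measurable q :=
    ENNReal.measurable_ofReal.comp (continuous_stab h0 one_pos).measurable
  have hq1 : ∫⁻ u, q u = 1 := stab_mass h0 one_pos hnn
  have hrtop : Tendsto (fun y : E => ε * ‖y‖) (cocompact E) atTop :=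
    is_norm_top.const_mul_atTop hε
  have hr1 : ∀ᶠ y : E in cocompact E, 1 ≤ ε * ‖y‖ := hrtop.eventually_ge_atTop 1
  have hup := is_conv h0 h2 hε hε1 q hq1 (fun _ => ENNReal.ofReal_ne_top) (fun _ => q)
    (Eventually.of_forall fun _ => hqm) (Eventually.of_forall fun _ _ => le_rfl)
    (fun _ => tendsto_const_nhds)
  have hlow := is_conv h0 h2 hε hε1 q hq1 (fun _ => ENNReal.ofReal_ne_top)
    (fun y => P (ε * ‖y‖)) (hr1.mono fun y hy => hD.meas _ hy)
    (hr1.mono fun y hy u => hD.le0 _ hy u) (fun u => by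
      have h1 : Tendsto (fun y : E => stab α 1 u - K * (ε * ‖y‖) ^ (-α)) (cocompact E)
          (𝓝 (stab α 1 u - K * 0)) :=
        (((tendsto_rpow_neg_atTop h0).comp hrtop).const_mul K).const_sub _
      rw [mul_zero, sub_zero] at h1
      exact tendsto_of_tendsto_of_tendsto_of_le_of_le' (ENNReal.tendsto_ofReal h1)
        tendsto_const_nhds (hr1.mono fun y hy => hP _ hy u) (hr1.mono fun y hy => hD.le0 _ hy u))
  have hsm : Tendsto (fun y : E => ENNReal.ofReal (‖y‖ ^ β) * P (ε * ‖y‖) y) (cocompact E)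
      (𝓝 0) := by
    have h1 : Tendsto (fun y : E => A * ε ^ (-(β + 1)) / ‖y‖) (cocompact E) (𝓝 0) :=
      tendsto_const_nhds.div_atTop is_norm_top
    have h3 := ENNReal.tendsto_ofReal h1
    rw [ENNReal.ofReal_zero] at h3
    refine tendsto_of_tendsto_of_tendsto_of_le_of_le' tendsto_const_nhds h3
      (Eventually.of_forall fun _ => zero_le) ?_
    filter_upwards [hr1, is_norm_top.eventually_gt_atTop 0] with y hy hy0
    refine (mul_le_mul_right (hD.decay _ hy y) _).trans ?_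
    rw [← ENNReal.ofReal_mul (by positivity)]
    refine ENNReal.ofReal_le_ofReal ?_
    have h4 : a * ‖y‖ / (ε * ‖y‖) = a / ε := by field_simp
    have h5 : (ε * ‖y‖) ^ (-(a / ε)) ≤ (ε * ‖y‖) ^ (-(β + 1)) :=
      Real.rpow_le_rpow_of_exponent_le hy (by linarith)
    have h6 : ‖y‖ ^ β * (A * (ε * ‖y‖) ^ (-(β + 1))) = A * ε ^ (-(β + 1)) / ‖y‖ := by
      have h7 : ‖y‖ ^ β * ‖y‖ ^ (-(β + 1)) = ‖y‖⁻¹ := by
        rw [← Real.rpow_add hy0, ← Real.rpow_neg_one]
        congr 1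
        ring
      rw [Real.mul_rpow hε.le hy0.le, div_eq_mul_inv, ← h7]
      ring
    rw [h4, ← h6]
    gcongr
  have hsum := hsm.add hup
  rw [zero_add] at hsum
  have hmain : Tendsto (fun y : E => ENNReal.ofReal (‖y‖ ^ β) * q y) (cocompact E)
      (𝓝 (ENNReal.ofReal (cc (dm E) α))) := by
    refine tendsto_of_tendsto_of_tendsto_of_le_of_le' hlow hsum ?_ ?_
    · exact hr1.mono fun y hy => mul_le_mul_right (hD.le1 _ hy y) _
    · refine hr1.mono fun y hy => ?_
      rw [← mul_add]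
      exact mul_le_mul_right (hD.ge1 _ hy y) _
  have h8 := (ENNReal.tendsto_toReal ENNReal.ofReal_ne_top).comp hmain
  rw [ENNReal.toReal_ofReal hc.le] at h8
  refine h8.congr fun y => ?_
  rw [Function.comp_apply, ENNReal.toReal_mul, ENNReal.toReal_ofReal (by positivity), hq,
    ENNReal.toReal_ofReal (hnn y)]

/-- The classical tail of the isotropic stable density. -/
theorem stab_asym [Nontrivial E] {α m : ℝ} (h0 : 0 < α) (h2 : α < 2) (hm : 0 < m) :
    Tendsto (fun y : E => ‖y‖ ^ (dm E + α) * (stab α m y / m)) (cocompact E)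
      (𝓝 (cc (dm E) α)) := by
  have hs0 : 0 < m ^ (-(1 / α)) := Real.rpow_pos_of_pos hm _
  have hsm : Tendsto (fun y : E => m ^ (-(1 / α)) • y) (cocompact E) (cocompact E) :=
    (Homeomorph.smulOfNeZero (α := E) (m ^ (-(1 / α))) hs0.ne').isClosedEmbedding.tendsto_cocompact
  refine ((is_asym_one h0 h2).comp hsm).congr fun y => ?_
  rw [Function.comp_apply, stab_scale h0 hm, norm_smul, Real.norm_eq_abs, abs_of_pos hs0,
    Real.mul_rpow hs0.le (norm_nonneg _), ← Real.rpow_mul hm.le]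
  have e : -(1 / α) * (dm E + α) = -(dm E / α) + -1 := by
    field_simp
    ring
  rw [e, Real.rpow_add hm, Real.rpow_neg_one]
  ring

theorem is_two_sided {X : Type*} [TopologicalSpace X] {g : X → ℝ} (hg : Continuous g)
    (hpos : ∀ x, 0 < g x) {c : ℝ} (hc : 0 < c) (hl : Tendsto g (cocompact X) (𝓝 c)) :
    ∃ c₁ c₂ : ℝ, 0 < c₁ ∧ 0 < c₂ ∧ ∀ x, c₁ ≤ g x ∧ g x ≤ c₂ := by
  have h1 : ∀ᶠ x in cocompact X, c / 2 < g x ∧ g x < 2 * c :=
    (hl.eventually (lt_mem_nhds (by linarith))).and (hl.eventually (gt_mem_nhds (by linarith)))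
  obtain ⟨K, hK, hKs⟩ := mem_cocompact.mp h1
  obtain ⟨a, ha, hlow⟩ := hK.exists_forall_le' hg.continuousOn (a := 0) fun x _ => hpos x
  obtain ⟨b, hb⟩ := (hK.image hg).bddAbove
  refine ⟨min a (c / 2), max b (2 * c), lt_min ha (by linarith),
    lt_of_lt_of_le (by linarith) (le_max_right _ _), fun x => ?_⟩
  by_cases hx : x ∈ K
  · exact ⟨(min_le_left _ _).trans (hlow x hx), (hb ⟨x, hx, rfl⟩).trans (le_max_left _ _)⟩
  · have := hKs hx
    exact ⟨(min_le_right _ _).trans this.1.le, this.2.le.trans (le_max_right _ _)⟩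

theorem is_bounds_one [Nontrivial E] {α : ℝ} (h0 : 0 < α) (h2 : α < 2) :
    ∃ c₁ c₂ : ℝ, 0 < c₁ ∧ 0 < c₂ ∧ ∀ y : E,
      c₁ * (1 + ‖y‖) ^ (-(dm E + α)) ≤ stab α 1 y ∧
        stab α 1 y ≤ c₂ * (1 + ‖y‖) ^ (-(dm E + α)) := by
  have hc := is_cc_pos (E := E) h0 h2
  have hg : Continuous fun y : E => (1 + ‖y‖) ^ (dm E + α) * stab α 1 y :=
    ((continuous_const.add continuous_norm).rpow_const
      fun y => Or.inl (show (1 + ‖y‖ : ℝ) ≠ 0 by positivity)).mul (continuous_stab h0 one_pos)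
  have hl : Tendsto (fun y : E => (1 + ‖y‖) ^ (dm E + α) * stab α 1 y) (cocompact E)
      (𝓝 (cc (dm E) α)) := by
    have h1 : Tendsto (fun y : E => 1 / ‖y‖ + 1) (cocompact E) (𝓝 (0 + 1)) :=
      (tendsto_const_nhds.div_atTop is_norm_top).add_const 1
    rw [zero_add] at h1
    have h3 := (h1.rpow_const (p := dm E + α) (Or.inl one_ne_zero)).mul (is_asym_one h0 h2)
    rw [Real.one_rpow, one_mul] at h3
    refine h3.congr' ?_
    filter_upwards [is_norm_top.eventually_gt_atTop 0] with y hy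
    rw [← mul_assoc, ← Real.mul_rpow (by positivity) hy.le]
    congr 2
    field_simp
  obtain ⟨c₁, c₂, h1, h3, h⟩ := is_two_sided hg
    (fun y => mul_pos (by positivity) (is_pos_one h0 h2 y)) hc hl
  refine ⟨c₁, c₂, h1, h3, fun y => ?_⟩
  have hp : 0 < (1 + ‖y‖) ^ (dm E + α) := by positivity
  rw [Real.rpow_neg (by positivity), ← div_eq_mul_inv, ← div_eq_mul_inv, div_le_iff₀ hp,
    le_div_iff₀ hp, mul_comm]
  exact h y

theorem stab_bounds [Nontrivial E] {α T : ℝ} (h0 : 0 < α) (h2 : α < 2) (hT : 0 < T) :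
    ∃ C₁ C₂ : ℝ, 0 < C₁ ∧ 0 < C₂ ∧ ∀ τ ∈ Icc (0 : ℝ) T, ∀ y : E,
      C₁ * (1 + ‖y‖) ^ (-(dm E + α)) ≤ stab α (mm α T τ) y ∧
        stab α (mm α T τ) y ≤ C₂ * (1 + ‖y‖) ^ (-(dm E + α)) := by
  obtain ⟨c₁, c₂, hc₁, hc₂, h⟩ := is_bounds_one (E := E) h0 h2
  have hD : 0 ≤ dm E := Nat.cast_nonneg _
  have hβ : 0 ≤ dm E + α := by linarith
  have hlc : Continuous fun τ => mm α T τ ^ (-(1 / α)) :=
    (continuous_mm h0 T).rpow_const fun τ => Or.inl (mm_pos h0 hT τ).ne'
  have hlp : ∀ τ, 0 < mm α T τ ^ (-(1 / α)) := fun τ => Real.rpow_pos_of_pos (mm_pos h0 hT τ) _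
  obtain ⟨a, ha, hlow⟩ := (isCompact_Icc (a := (0 : ℝ)) (b := T)).exists_forall_le'
    hlc.continuousOn (a := 0) fun x _ => hlp x
  obtain ⟨b, hb⟩ := ((isCompact_Icc (a := (0 : ℝ)) (b := T)).image hlc).bddAbove
  set l := min a 1 with hl
  set L := max b 1 with hL
  have hl0 : 0 < l := lt_min ha one_pos
  have hl1 : l ≤ 1 := min_le_right _ _
  have hL1 : 1 ≤ L := le_max_right _ _
  have hL0 : 0 < L := lt_of_lt_of_le one_pos hL1
  refine ⟨l ^ dm E * (c₁ * L ^ (-(dm E + α))), L ^ dm E * (c₂ * l ^ (-(dm E + α))),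
    by positivity, by positivity, fun τ hτ y => ?_⟩
  have hm := mm_pos h0 hT τ
  set s := mm α T τ ^ (-(1 / α)) with hs
  have hs0 : 0 < s := hlp τ
  have hls : l ≤ s := (min_le_left _ _).trans (hlow τ hτ)
  have hsL : s ≤ L := (hb ⟨τ, hτ, rfl⟩).trans (le_max_left _ _)
  have e : mm α T τ ^ (-(dm E / α)) = s ^ dm E := by
    rw [hs, ← Real.rpow_mul hm.le]
    congr 1
    ring
  have hy := norm_nonneg y
  have hn : ‖s • y‖ = s * ‖y‖ := by rw [norm_smul, Real.norm_eq_abs, abs_of_pos hs0]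
  have h1 : l * (1 + ‖y‖) ≤ 1 + s * ‖y‖ := by nlinarith
  have h3 : 1 + s * ‖y‖ ≤ L * (1 + ‖y‖) := by nlinarith
  have h4 : (1 + s * ‖y‖) ^ (-(dm E + α)) ≤ l ^ (-(dm E + α)) * (1 + ‖y‖) ^ (-(dm E + α)) := by
    rw [← Real.mul_rpow hl0.le (by positivity)]
    exact Real.rpow_le_rpow_of_nonpos (by positivity) h1 (by linarith)
  have h5 : L ^ (-(dm E + α)) * (1 + ‖y‖) ^ (-(dm E + α)) ≤ (1 + s * ‖y‖) ^ (-(dm E + α)) := by
    rw [← Real.mul_rpow hL0.le (by positivity)]
    exact Real.rpow_le_rpow_of_nonpos (by positivity) h3 (by linarith)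
  have h6 : l ^ dm E ≤ s ^ dm E := Real.rpow_le_rpow hl0.le hls hD
  have h7 : s ^ dm E ≤ L ^ dm E := Real.rpow_le_rpow hs0.le hsL hD
  obtain ⟨h8, h9⟩ := h (s • y)
  rw [hn] at h8 h9
  rw [stab_scale h0 hm, e, ← hs, mul_assoc, mul_assoc, mul_assoc, mul_assoc]
  constructor
  · exact mul_le_mul h6 ((mul_le_mul_of_nonneg_left h5 hc₁.le).trans h8) (by positivity)
      (by positivity)
  · exact mul_le_mul h7 (h9.trans (mul_le_mul_of_nonneg_left h4 hc₂.le))
      (is_pos_one h0 h2 _).le (by positivity)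

theorem continuous_stab_mm {α T : ℝ} (h0 : 0 < α) (hT : 0 < T) :
    Continuous fun x : ℝ × E => stab α (mm α T x.1) x.2 := by
  have e : (fun x : ℝ × E => stab α (mm α T x.1) x.2) = fun x : ℝ × E =>
      mm α T x.1 ^ (-(dm E / α)) * stab α 1 (mm α T x.1 ^ (-(1 / α)) • x.2) :=
    funext fun x => stab_scale h0 (mm_pos h0 hT x.1) x.2
  rw [e]
  have hc : ∀ p : ℝ, Continuous fun x : ℝ × E => mm α T x.1 ^ p := fun p =>
    ((continuous_mm h0 T).comp continuous_fst).rpow_const fun x => Or.inl (mm_pos h0 hT x.1).ne'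
  exact (hc _).mul ((continuous_stab h0 one_pos).comp ((hc _).smul continuous_snd))

end Pool.Agent.Lib.MP_bd80ac_an
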