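import Pool.Agent.Lib.MP_bd80ac_an.Two
import Pool.Agent.Lib.MP_bd80ac_an.Iso

set_option autoImplicit false

namespace Pool.Agent.Lib.MP_bd80ac_an

open MeasureTheory Set Filter Topology
open scoped Real ENNReal RealInnerProductSpace

variable {E : Type*} [NormedAddCommGroup E] [InnerProductSpace ℝ E] [FiniteDimensional ℝ E]
  [MeasurableSpace E] [BorelSpace E]

theorem cc_pos' [Nontrivial E] {α : ℝ} (h0 : 0 < α) (h2 : α < 2) : 0 < cc (dm E) α :=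
  cc_pos (lt_of_lt_of_le one_pos one_le_dm) h0 h2

theorem measurable_pp {α T : ℝ} (h0 : 0 < α) (hT : 0 < T) :
    Measurable (pp α T : E × E → ℝ≥0∞) :=
  ENNReal.measurable_ofReal.comp (continuous_kin h0 hT).measurable

theorem measurable_qq {α T : ℝ} (h0 : 0 < α) (hT : 0 < T) :
    Measurable fun x : ℝ × E => qq α T x.1 x.2 :=
  ENNReal.measurable_ofReal.comp (continuous_stab_mm h0 hT).measurable

theorem measurable_qq_Tt {α T : ℝ} (h0 : 0 < α) (hT : 0 < T) (z : E × E) :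
    Measurable fun τ : ℝ => qq α T τ (Tt τ z) :=
  (measurable_qq h0 hT).comp (f := fun τ : ℝ => (τ, Tt τ z))
    (measurable_id.prodMk (measurable_Tt.comp (f := fun τ : ℝ => (τ, z)) (by fun_prop)))

theorem measurable_gg_Tt (α : ℝ) (z : E × E) : Measurable fun τ : ℝ => gg α (Tt τ z) :=
  (measurable_gg α).comp (measurable_Tt.comp (f := fun τ : ℝ => (τ, z)) (by fun_prop))

theorem pp_marg [Nontrivial E] {α T : ℝ} (h0 : 0 < α) (h2 : α < 2) (hT : 0 < T) (τ : ℝ) :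
    Mg τ (pp α T : E × E → ℝ≥0∞) = qq α T τ :=
  funext fun y => kin_marg h0 hT (kin_dec h0 h2 hT).1 τ y

theorem qq_mass [Nontrivial E] {α T : ℝ} (h0 : 0 < α) (h2 : α < 2) (hT : 0 < T) (τ : ℝ) :
    ∫⁻ y : E, qq α T τ y = 1 :=
  stab_mass h0 (mm_pos h0 hT τ) fun y => (stab_pos h0 h2 (mm_pos h0 hT τ) y).le

theorem pp_mass [Nontrivial E] {α T : ℝ} (h0 : 0 < α) (h2 : α < 2) (hT : 0 < T) :
    ∫⁻ z : E × E, pp α T z = 1 := by
  rw [← lint_Mg 0 (measurable_pp h0 hT), pp_marg h0 h2 hT, qq_mass h0 h2 hT]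

theorem qq_bounds [Nontrivial E] {α T : ℝ} (h0 : 0 < α) (h2 : α < 2) (hT : 0 < T) :
    ∃ C₁ C₂ : ℝ, 0 < C₁ ∧ 0 < C₂ ∧ ∀ τ ∈ Icc (0 : ℝ) T, ∀ y : E,
      gg α y ≤ ENNReal.ofReal C₁ * qq α T τ y ∧ qq α T τ y ≤ ENNReal.ofReal C₂ * gg α y := by
  obtain ⟨C₁, C₂, h1, h2', h⟩ := stab_bounds (E := E) h0 h2 hT
  refine ⟨C₁⁻¹, C₂, by positivity, h2', fun τ hτ y => ⟨?_, ?_⟩⟩
  · unfold gg qq
    rw [← ENNReal.ofReal_mul (by positivity)]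
    refine ENNReal.ofReal_le_ofReal ?_
    rw [le_inv_mul_iff₀ h1]
    exact (h τ hτ y).1
  · unfold gg qq
    rw [← ENNReal.ofReal_mul h2'.le]
    exact ENNReal.ofReal_le_ofReal (h τ hτ y).2

theorem dctI {ι : Type*} {l : Filter ι} [l.IsCountablyGenerated] (T : ℝ)
    (F : ι → ℝ × ℝ → ℝ≥0∞) (f : ℝ × ℝ → ℝ≥0∞) (hF : ∀ n, Measurable (F n)) (hf : Measurable f)
    (B : ℝ≥0∞) (hB : B ≠ ∞)
    (hb : ∀ᶠ n in l, ∀ σ ∈ Icc (0 : ℝ) T, ∀ τ ∈ Icc (0 : ℝ) T, F n (σ, τ) ≤ B)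
    (hl : ∀ σ ∈ Icc (0 : ℝ) T, ∀ τ ∈ Icc (0 : ℝ) T,
      Tendsto (fun n => F n (σ, τ)) l (𝓝 (f (σ, τ)))) :
    Tendsto (fun n => ∫⁻ σ in Icc (0 : ℝ) T, ∫⁻ τ in Icc (0 : ℝ) T, F n (σ, τ)) l
      (𝓝 (∫⁻ σ in Icc (0 : ℝ) T, ∫⁻ τ in Icc (0 : ℝ) T, f (σ, τ))) := by
  have hmem : ∀ᵐ x ∂((volume.restrict (Icc (0 : ℝ) T)).prod (volume.restrict (Icc (0 : ℝ) T))),
      x ∈ Icc (0 : ℝ) T ×ˢ Icc (0 : ℝ) T := by
    rw [Measure.prod_restrict]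
    exact ae_restrict_mem (measurableSet_Icc.prod measurableSet_Icc)
  simp only [← lintegral_prod _ (hF _).aemeasurable, ← lintegral_prod _ hf.aemeasurable]
  refine tendsto_lintegral_filter_of_dominated_convergence (fun _ => B)
    (Eventually.of_forall hF) ?_ ?_ ?_
  · filter_upwards [hb] with n hn
    filter_upwards [hmem] with x hx using hn _ hx.1 _ hx.2
  · rw [lintegral_const]
    exact ENNReal.mul_ne_top hB (measure_ne_top _ _)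
  · filter_upwards [hmem] with x hx using hl _ hx.1 _ hx.2

omit [FiniteDimensional ℝ E] [MeasurableSpace E] [BorelSpace E] in
theorem off_cone {T : ℝ} (hT : 0 < T) {z₀ : E × E} (hoff : ∀ τ ∈ Icc (0 : ℝ) T, Tt τ z₀ ≠ 0) :
    ∃ δ : ℝ, 0 < δ ∧ ∀ y : E × E, ‖y - z₀‖ ≤ δ → ∀ τ ∈ Icc (0 : ℝ) T, δ ≤ ‖Tt τ y‖ := by
  have hc : Continuous fun τ : ℝ => ‖Tt τ z₀‖ :=
    (continuous_Tt.comp (f := fun τ : ℝ => (τ, z₀)) (by fun_prop)).norm
  obtain ⟨τ₀, hτ₀, hmin⟩ := isCompact_Icc.exists_isMinOn (nonempty_Icc.mpr hT.le) hc.continuousOn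
  have hpos : 0 < ‖Tt τ₀ z₀‖ := norm_pos_iff.mpr (hoff τ₀ hτ₀)
  refine ⟨‖Tt τ₀ z₀‖ / (2 + T), by positivity, fun y hy τ hτ => ?_⟩
  have h1 : ‖Tt τ₀ z₀‖ ≤ ‖Tt τ z₀‖ := hmin hτ
  have h2 := norm_Tt_le hτ (y - z₀)
  rw [Tt_sub] at h2
  have h3 : ‖Tt τ z₀‖ ≤ ‖Tt τ y‖ + ‖Tt τ y - Tt τ z₀‖ := by
    simpa using norm_sub_le (Tt τ y) (Tt τ y - Tt τ z₀)
  have h4 : (1 + T) * ‖y - z₀‖ ≤ (1 + T) * (‖Tt τ₀ z₀‖ / (2 + T)) := by gcongr
  have h5 : ‖Tt τ₀ z₀‖ = (2 + T) * (‖Tt τ₀ z₀‖ / (2 + T)) := by field_simp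
  linarith

omit [FiniteDimensional ℝ E] [MeasurableSpace E] [BorelSpace E] in
theorem Hint_le {α T δ σ τ : ℝ} (h0 : 0 < α) (hδ : 0 < δ) (hσ : σ ∈ Icc (0 : ℝ) T)
    (hτ : τ ∈ Icc (0 : ℝ) T) {y : E × E} (hy : ∀ τ ∈ Icc (0 : ℝ) T, δ ≤ ‖Tt τ y‖) :
    ENNReal.ofReal (cc (dm E) α ^ 2 * |τ - σ| ^ (dm E + 2 * α) * ‖Tt σ y‖ ^ (-(dm E + α)) *
      ‖Tt τ y‖ ^ (-(dm E + α))) ≤
    ENNReal.ofReal (cc (dm E) α ^ 2 * T ^ (dm E + 2 * α) * δ ^ (-(dm E + α)) *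
      δ ^ (-(dm E + α))) := by
  have hD := dm_nonneg (E := E)
  have hT : 0 ≤ T := hσ.1.trans hσ.2
  have hle : |τ - σ| ≤ T := abs_le.mpr ⟨by linarith [hτ.1, hσ.2], by linarith [hτ.2, hσ.1]⟩
  refine ENNReal.ofReal_le_ofReal ?_
  have h1 := Real.rpow_le_rpow_of_nonpos hδ (hy σ hσ) (show -(dm E + α) ≤ 0 by linarith)
  have h2 := Real.rpow_le_rpow_of_nonpos hδ (hy τ hτ) (show -(dm E + α) ≤ 0 by linarith)
  gcongr

omit [FiniteDimensional ℝ E] [MeasurableSpace E] [BorelSpace E] in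
theorem Hh_le {α T δ : ℝ} (h0 : 0 < α) (hδ : 0 < δ) : ∃ B : ℝ≥0∞, B ≠ ∞ ∧
    ∀ y : E × E, (∀ τ ∈ Icc (0 : ℝ) T, δ ≤ ‖Tt τ y‖) → Hh α T y ≤ B := by
  refine ⟨ENNReal.ofReal (cc (dm E) α ^ 2 * T ^ (dm E + 2 * α) * δ ^ (-(dm E + α)) *
      δ ^ (-(dm E + α))) * volume (Icc (0 : ℝ) T) * volume (Icc (0 : ℝ) T), ?_, fun y hy => ?_⟩
  · exact ENNReal.mul_ne_top (ENNReal.mul_ne_top ENNReal.ofReal_ne_top measure_Icc_lt_top.ne)
      measure_Icc_lt_top.ne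
  · unfold Hh
    rw [← setLIntegral_const]
    refine setLIntegral_mono' measurableSet_Icc fun σ hσ => ?_
    rw [← setLIntegral_const]
    exact setLIntegral_mono' measurableSet_Icc fun τ hτ => Hint_le h0 hδ hσ hτ hy

omit [FiniteDimensional ℝ E] [MeasurableSpace E] [BorelSpace E] in
theorem Hh_smul (α T : ℝ) {N : ℝ} (hN : 0 < N) (y : E × E) :
    Hh α T (N⁻¹ • y) = ENNReal.ofReal (N ^ (2 * (dm E + α))) * Hh α T y := by
  unfold Hh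
  rw [← lintegral_const_mul' _ _ ENNReal.ofReal_ne_top]
  refine lintegral_congr fun σ => ?_
  rw [← lintegral_const_mul' _ _ ENNReal.ofReal_ne_top]
  refine lintegral_congr fun τ => ?_
  rw [← ENNReal.ofReal_mul (by positivity), Tt_smul, Tt_smul, norm_smul, norm_smul, norm_inv,
    Real.norm_of_nonneg hN.le, Real.mul_rpow (by positivity) (norm_nonneg _),
    Real.mul_rpow (by positivity) (norm_nonneg _), Real.inv_rpow hN.le, ← Real.rpow_neg hN.le,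
    neg_neg, two_mul (dm E + α), Real.rpow_add hN (dm E + α)]
  congr 1
  ring

theorem Hh_tendsto {α T : ℝ} (h0 : 0 < α) (hT : 0 < T) {ι : Type*} {l : Filter ι}
    [l.IsCountablyGenerated] {y : ι → E × E} {z₀ : E × E} (hy : Tendsto y l (𝓝 z₀))
    (hoff : ∀ τ ∈ Icc (0 : ℝ) T, Tt τ z₀ ≠ 0) :
    Tendsto (fun n => Hh α T (y n)) l (𝓝 (Hh α T z₀)) := by
  obtain ⟨δ, hδ, hδ'⟩ := off_cone hT hoff
  have hm := fun u : E × E => (measurable_Hint (E := E) α).comp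
    (f := fun x : ℝ × ℝ => (u, x.1, x.2)) (by fun_prop)
  refine dctI T _ _ (fun n => hm (y n)) (hm z₀) (ENNReal.ofReal (cc (dm E) α ^ 2 *
    T ^ (dm E + 2 * α) * δ ^ (-(dm E + α)) * δ ^ (-(dm E + α)))) ENNReal.ofReal_ne_top ?_ ?_
  · have := (tendsto_iff_norm_sub_tendsto_zero.mp hy).eventually (ge_mem_nhds hδ)
    filter_upwards [this] with n hn σ hσ τ hτ using Hint_le h0 hδ hσ hτ (hδ' _ hn)
  · intro σ hσ τ hτ
    have hT' : ∀ t ∈ Icc (0 : ℝ) T, Tendsto (fun n => ‖Tt t (y n)‖ ^ (-(dm E + α))) l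
        (𝓝 (‖Tt t z₀‖ ^ (-(dm E + α)))) := fun t ht =>
      (((continuous_Tt.comp (f := fun u : E × E => (t, u)) (by fun_prop)).tendsto z₀).comp
        hy).norm.rpow_const (Or.inl (norm_ne_zero_iff.mpr (hoff t ht)))
    exact ENNReal.tendsto_ofReal ((tendsto_const_nhds.mul (hT' σ hσ)).mul (hT' τ hτ))

theorem tendsto_ofReal_rpow {ι : Type*} {l : Filter ι} {r : ι → ℝ} (hr : Tendsto r l atTop)
    (C : ℝ) {γ : ℝ} (hγ : 0 < γ) :
    Tendsto (fun n => ENNReal.ofReal (C * r n ^ (-γ))) l (𝓝 0) := by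
  have := ENNReal.tendsto_ofReal (((tendsto_rpow_neg_atTop hγ).comp hr).const_mul C)
  simpa using this

/-- The small jump part converges pointwise to the kernel. -/
theorem P_tendsto [Nontrivial E] {α T : ℝ} (h0 : 0 < α) (h2 : α < 2) (hT : 0 < T)
    {P : ℝ → E × E → ℝ≥0∞} {A a : ℝ} (hd : Dec (SS α T) (pp α T) P A a) {ι : Type*}
    {l : Filter ι} {r : ι → ℝ} (hr : Tendsto r l atTop) (u : E × E) :
    Tendsto (fun n => P (r n) u) l (𝓝 (pp α T u)) := by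
  obtain ⟨C, hC, hS⟩ := SS_le_const (E := E) h0 (cc_pos' h0 h2).le hT
  obtain ⟨B, hB⟩ := kin_bdd (E := E) h0 hT
  have h1 : Tendsto (fun n => pp α T u - ENNReal.ofReal B * ENNReal.ofReal (C * r n ^ (-α))) l
      (𝓝 (pp α T u)) := by
    have := ENNReal.Tendsto.sub (tendsto_const_nhds (x := pp α T u))
      (ENNReal.Tendsto.const_mul (a := ENNReal.ofReal B) (tendsto_ofReal_rpow hr C h0)
        (Or.inr ENNReal.ofReal_ne_top)) (Or.inl ENNReal.ofReal_ne_top)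
    simpa using this
  refine tendsto_of_tendsto_of_tendsto_of_le_of_le' h1 tendsto_const_nhds ?_ ?_
  · filter_upwards [hr.eventually_ge_atTop 1] with n hn
    rw [tsub_le_iff_right]
    refine (hd.ge1 _ hn u).trans (add_le_add le_rfl ?_)
    exact hS _ (by linarith) _ _ _ fun τ _ w => ENNReal.ofReal_le_ofReal (hB _)
  · filter_upwards [hr.eventually_ge_atTop 1] with n hn using hd.le0 _ hn u

end Pool.Agent.Lib.MP_bd80ac_an
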