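import Pool.Agent.Lib.MP_bd80ac_an.Ray

set_option autoImplicit false

namespace Pool.Agent.Lib.MP_bd80ac_an

open MeasureTheory Set Filter Topology
open scoped Real ENNReal RealInnerProductSpace

variable {E : Type*} [NormedAddCommGroup E] [InnerProductSpace ℝ E] [FiniteDimensional ℝ E]
  [MeasurableSpace E] [BorelSpace E]

theorem Eqv.symm {ι : Type*} {l : Filter ι} {a b : ι → ℝ≥0∞} (h : Eqv l a b) : Eqv l b a :=
  fun κ hκ => (h κ hκ).mono fun _ hn => hn.symm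

theorem Eqv.tendsto {ι : Type*} {l : Filter ι} {a b c : ι → ℝ≥0∞} (h : Eqv l a b) {L : ℝ≥0∞}
    (hL : L ≠ ∞) (hb : Tendsto (fun n => c n * b n) l (𝓝 L)) :
    Tendsto (fun n => c n * a n) l (𝓝 L) := by
  have key : ∀ x y : ℝ≥0∞, x ≠ ∞ → x < y → ∃ κ : ℝ, 1 < κ ∧ ENNReal.ofReal κ * x < y := by
    intro x y hx hxy
    have h1 : Tendsto (fun κ : ℝ => ENNReal.ofReal κ * x) (𝓝 1) (𝓝 x) := by
      simpa using ENNReal.Tendsto.mul_const (b := x)
        (ENNReal.tendsto_ofReal (tendsto_id (x := 𝓝 (1 : ℝ)))) (Or.inr hx)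
    obtain ⟨κ, h2, h3⟩ := (((h1.eventually (gt_mem_nhds hxy)).filter_mono
      nhdsWithin_le_nhds).and (self_mem_nhdsWithin (s := Ioi (1 : ℝ)))).exists
    exact ⟨κ, h3, h2⟩
  refine tendsto_order.mpr ⟨fun x hx => ?_, fun y hy => ?_⟩
  · obtain ⟨κ, hκ, h1⟩ := key x L hx.ne_top hx
    filter_upwards [h κ hκ, hb.eventually (lt_mem_nhds h1)] with n h2 h3
    have h4 : ENNReal.ofReal κ * x < ENNReal.ofReal κ * (c n * a n) :=
      h3.trans_le ((mul_le_mul_right h2.2 _).trans (le_of_eq (mul_left_comm _ _ _)))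
    exact lt_of_mul_lt_mul_left' h4
  · obtain ⟨κ, hκ, h1⟩ := key L y hL hy
    have h5 := ENNReal.Tendsto.const_mul (a := ENNReal.ofReal κ) hb (Or.inr ENNReal.ofReal_ne_top)
    filter_upwards [h κ hκ, h5.eventually (gt_mem_nhds h1)] with n h2 h3
    exact lt_of_le_of_lt ((mul_le_mul_right h2.1 _).trans (le_of_eq (mul_left_comm _ _ _))) h3

theorem lint2_ne_zero {T : ℝ} (hT : 0 < T) (f : ℝ × ℝ → ℝ≥0∞) (hf : Measurable f)
    (hpos : ∀ σ ∈ Icc (0 : ℝ) T, ∀ τ ∈ Icc (0 : ℝ) T, τ ≠ σ → f (σ, τ) ≠ 0) :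
    ∫⁻ σ in Icc (0 : ℝ) T, ∫⁻ τ in Icc (0 : ℝ) T, f (σ, τ) ≠ 0 := by
  intro h
  have hne : (ae (volume.restrict (Icc (0 : ℝ) T))).NeBot := by
    rw [ae_restrict_neBot, Real.volume_Icc]
    simpa using hT
  rw [lintegral_eq_zero_iff (Measurable.lintegral_prod_right' hf)] at h
  obtain ⟨σ, h1, hσ⟩ := (h.and (ae_restrict_mem measurableSet_Icc)).exists
  have hm : Measurable fun τ : ℝ => f (σ, τ) := hf.comp (by fun_prop)
  have h2 := (lintegral_eq_zero_iff hm).mp h1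
  obtain ⟨τ, ⟨h3, hτ⟩, h4⟩ := ((h2.and (ae_restrict_mem measurableSet_Icc)).and
    (ae_restrict_of_ae (Measure.ae_ne volume σ))).exists
  exact hpos σ hσ τ hτ h4 h3

theorem lint2_toReal {T : ℝ} (hT : 0 < T) (k : ℝ × ℝ → ℝ) (hk : Measurable k) (h0 : ∀ x, 0 ≤ k x)
    (hfin : ∫⁻ σ in Icc (0 : ℝ) T, ∫⁻ τ in Icc (0 : ℝ) T, ENNReal.ofReal (k (σ, τ)) ≠ ∞) :
    ∫ σ in (0 : ℝ)..T, ∫ τ in (0 : ℝ)..T, k (σ, τ) =
      (∫⁻ σ in Icc (0 : ℝ) T, ∫⁻ τ in Icc (0 : ℝ) T, ENNReal.ofReal (k (σ, τ))).toReal := by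
  have hm : Measurable fun x => ENNReal.ofReal (k x) := ENNReal.measurable_ofReal.comp hk
  rw [← lintegral_prod _ hm.aemeasurable] at hfin ⊢
  have hi : Integrable k ((volume.restrict (Icc (0 : ℝ) T)).prod
      (volume.restrict (Icc (0 : ℝ) T))) :=
    (lintegral_ofReal_ne_top_iff_integrable hk.aestronglyMeasurable (ae_of_all _ h0)).mp hfin
  simp only [intervalIntegral.integral_of_le hT.le, ← integral_Icc_eq_integral_Ioc]
  rw [← integral_prod _ hi, integral_eq_lintegral_of_nonneg_ae (ae_of_all _ h0)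
    hk.aestronglyMeasurable]

theorem F2_ne_top [Nontrivial E] {α T : ℝ} (h0 : 0 < α) (h2 : α < 2) (hT : 0 < T) (z : E × E) :
    F2 α T z ≠ ∞ := by
  have hD := dm_nonneg (E := E)
  obtain ⟨C, hC, hQ⟩ := Q_bound (E := E) h0 h2 hT
  refine ne_top_of_le_ne_top (b := ENNReal.ofReal (T ^ (dm E + 2 * α) * C * C) *
    volume (Icc (0 : ℝ) T) * volume (Icc (0 : ℝ) T)) (ENNReal.mul_ne_top
      (ENNReal.mul_ne_top ENNReal.ofReal_ne_top measure_Icc_lt_top.ne) measure_Icc_lt_top.ne) ?_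
  rw [F2, ← setLIntegral_const]
  refine setLIntegral_mono' measurableSet_Icc fun σ hσ => ?_
  rw [← setLIntegral_const]
  refine setLIntegral_mono' measurableSet_Icc fun τ hτ => ENNReal.ofReal_le_ofReal ?_
  have hb : ∀ t ∈ Icc (0 : ℝ) T, stab α (mm α T t) (Tt t z) / mm α T t ≤ C := fun t ht =>
    ((hQ t ht).2 _).trans (mul_le_of_le_one_right hC.le (Real.rpow_le_one_of_one_le_of_nonpos
      (le_add_of_nonneg_right (norm_nonneg _)) (by linarith)))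
  have hle : |τ - σ| ≤ T := abs_le.mpr ⟨by linarith [hτ.1, hσ.2], by linarith [hτ.2, hσ.1]⟩
  have q1 := Q_nonneg (E := E) h0 h2 hT τ (Tt τ z)
  have q2 := Q_nonneg (E := E) h0 h2 hT σ (Tt σ z)
  have := hb σ hσ
  have := hb τ hτ
  gcongr

theorem F2_ne_zero [Nontrivial E] {α T : ℝ} (h0 : 0 < α) (h2 : α < 2) (hT : 0 < T) (z : E × E) :
    F2 α T z ≠ 0 := by
  refine lint2_ne_zero hT _ (ENNReal.measurable_ofReal.comp (measurable_Fint h0 hT z)) ?_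
  intro σ _ τ _ hne
  have hs : 0 < |τ - σ| := abs_pos.mpr (sub_ne_zero.mpr hne)
  have q := fun t => div_pos (stab_pos h0 h2 (mm_pos h0 hT t) (Tt t z)) (mm_pos h0 hT t)
  exact (ENNReal.ofReal_pos.mpr (mul_pos (mul_pos (by positivity) (q σ)) (q τ))).ne'

theorem Hh_ne_zero [Nontrivial E] {α T : ℝ} (h0 : 0 < α) (h2 : α < 2) (hT : 0 < T) {z : E × E}
    (hoff : ∀ τ ∈ Icc (0 : ℝ) T, Tt τ z ≠ 0) : Hh α T z ≠ 0 := by
  refine lint2_ne_zero hT _ ((measurable_Hint (E := E) α).comp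
    (f := fun x : ℝ × ℝ => (z, x.1, x.2)) (by fun_prop)) ?_
  intro σ hσ τ hτ hne
  have hs : 0 < |τ - σ| := abs_pos.mpr (sub_ne_zero.mpr hne)
  have hc := cc_pos' (E := E) h0 h2
  have q1 := norm_pos_iff.mpr (hoff σ hσ)
  have q2 := norm_pos_iff.mpr (hoff τ hτ)
  exact (ENNReal.ofReal_pos.mpr (by positivity)).ne'

omit [FiniteDimensional ℝ E] [MeasurableSpace E] [BorelSpace E] in
theorem Hh_ne_top {α T : ℝ} (h0 : 0 < α) (hT : 0 < T) {z : E × E}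
    (hoff : ∀ τ ∈ Icc (0 : ℝ) T, Tt τ z ≠ 0) : Hh α T z ≠ ∞ := by
  obtain ⟨δ, hδ0, hδ⟩ := off_cone hT hoff
  obtain ⟨B, hB, h⟩ := Hh_le (E := E) (T := T) h0 hδ0
  exact ne_top_of_le_ne_top hB (h _ (hδ _ (by simpa using hδ0.le)))

theorem unif_seq [Nontrivial E] {α T : ℝ} (h0 : 0 < α) (h2 : α < 2) (hT : 0 < T) {N : ℕ → ℝ}
    {z : ℕ → E × E} {z₀ : E × E} (hN : Tendsto N atTop atTop)
    (hz : Tendsto (fun n => (N n)⁻¹ • z n) atTop (𝓝 z₀)) (hz₀ : z₀ ≠ 0) :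
    Tendsto (fun n => (2 * pp α T (z n)).toReal / (F2 α T (z n)).toReal) atTop (𝓝 1) := by
  by_cases hoff : ∀ τ ∈ Icc (0 : ℝ) T, Tt τ z₀ ≠ 0
  · have h1 := (ENNReal.tendsto_toReal (Hh_ne_top h0 hT hoff)).comp (regimeA h0 h2 hT hN hz hoff)
    have h3 := (ENNReal.tendsto_toReal (Hh_ne_top h0 hT hoff)).comp (regimeFA h0 h2 hT hN hz hoff)
    have hne : (Hh α T z₀).toReal ≠ 0 :=
      (ENNReal.toReal_pos (Hh_ne_zero h0 h2 hT hoff) (Hh_ne_top h0 hT hoff)).ne'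
    have h4 := h1.div h3 hne
    rw [div_self hne] at h4
    refine h4.congr' ?_
    filter_upwards [hN.eventually_gt_atTop 0] with n hn
    simp only [Function.comp, Pi.div_apply]
    rw [ENNReal.toReal_mul, ENNReal.toReal_mul (b := F2 α T (z n)),
      ENNReal.toReal_ofReal (by positivity), mul_div_mul_left _ _ (by positivity)]
  · push Not at hoff
    obtain ⟨τ₀, hτ₀, hon⟩ := hoff
    have hv : z₀.2 ≠ 0 := by
      intro h
      refine hz₀ (Prod.ext ?_ h)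
      simpa [Tt, h] using hon
    have h1 : Tendsto (fun n => (F2 α T (z n))⁻¹ * F2 α T (z n)) atTop (𝓝 1) := by
      simp only [ENNReal.inv_mul_cancel (F2_ne_zero h0 h2 hT _) (F2_ne_top h0 h2 hT _)]
      exact tendsto_const_nhds
    have h3 := (regimeFB h0 h2 hT hN hz hτ₀ hon hv).symm.tendsto ENNReal.one_ne_top h1
    simp only [← mul_assoc] at h3
    have h4 := (ENNReal.tendsto_toReal ENNReal.one_ne_top).comp
      ((regimeB h0 h2 hT hN hz hτ₀ hon hv).tendsto ENNReal.one_ne_top h3)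
    refine h4.congr fun n => ?_
    simp only [Function.comp, ENNReal.toReal_mul, ENNReal.toReal_inv]
    ring

theorem unif [Nontrivial E] {α T : ℝ} (h0 : 0 < α) (h2 : α < 2) (hT : 0 < T) :
    Tendsto (fun z : E × E => (2 * pp α T z).toReal / (F2 α T z).toReal) (cocompact (E × E))
      (𝓝 1) := by
  have hcg : (cocompact (E × E)).IsCountablyGenerated := by
    rw [← Metric.cobounded_eq_cocompact, ← comap_norm_atTop]
    infer_instance
  refine tendsto_of_subseq_tendsto fun z hz => ?_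
  have hN : Tendsto (fun n => ‖z n‖) atTop atTop := by
    rwa [← Metric.cobounded_eq_cocompact, ← tendsto_norm_atTop_iff_cobounded] at hz
  obtain ⟨z₀, hz₀, φ, hφ, hlim⟩ := (isCompact_sphere (0 : E × E) 1).tendsto_subseq'
    (x := fun n => ‖z n‖⁻¹ • z n) (Eventually.frequently (by
      filter_upwards [hN.eventually_gt_atTop 0] with n hn
      rw [mem_sphere_zero_iff_norm, norm_smul, norm_inv, norm_norm, inv_mul_cancel₀ hn.ne']))
  refine ⟨φ, unif_seq h0 h2 hT (hN.comp hφ.tendsto_atTop) hlim ?_⟩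
  rintro rfl
  simp at hz₀

theorem ray_off [Nontrivial E] {α T : ℝ} (h0 : 0 < α) (h2 : α < 2) (hT : 0 < T) (z₀ : E × E)
    (hoff : ∀ τ ∈ Icc (0 : ℝ) T, Tt τ z₀ ≠ 0) :
    Tendsto (fun R : ℝ => R ^ (2 * (dm E + α)) * kin α T (R • z₀)) atTop
      (𝓝 ((Hh α T z₀).toReal / 2)) := by
  have hz : Tendsto (fun R : ℝ => R⁻¹ • R • z₀) atTop (𝓝 z₀) := by
    refine tendsto_const_nhds.congr' ?_
    filter_upwards [eventually_gt_atTop 0] with R hR
    rw [inv_smul_smul₀ hR.ne']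
  have h1 := ((ENNReal.tendsto_toReal (Hh_ne_top h0 hT hoff)).comp
    (regimeA (N := fun R : ℝ => R) h0 h2 hT tendsto_id hz hoff)).div_const 2
  refine h1.congr' ?_
  filter_upwards [eventually_gt_atTop 0] with R hR
  simp only [Function.comp, ENNReal.toReal_mul, pp]
  rw [ENNReal.toReal_ofReal (by positivity), ENNReal.toReal_ofReal ((kin_dec h0 h2 hT).1 _)]
  simp only [ENNReal.toReal_ofNat]
  ring

omit [MeasurableSpace E] [BorelSpace E] in
theorem kap_pos [Nontrivial E] {α : ℝ} (h0 : 0 < α) : 0 < kap (dm E) α := by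
  have hD := one_le_dm (E := E)
  have : 0 ≤ (dm E - 1) / α := div_nonneg (by linarith) h0.le
  exact div_pos (Real.Gamma_pos_of_pos (by positivity))
    (mul_pos (by positivity) (Real.Gamma_pos_of_pos (by positivity)))

theorem ray_on [Nontrivial E] {α T : ℝ} (h0 : 0 < α) (h2 : α < 2) (hT : 0 < T) {τ₀ : ℝ}
    (hτ₀ : τ₀ ∈ Icc (0 : ℝ) T) (v : E) (hv : v ≠ 0) :
    Tendsto (fun R : ℝ => R ^ (dm E + α + 1) * kin α T (R • ((τ₀ • v, v) : E × E))) atTop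
      (𝓝 ((if 0 < τ₀ ∧ τ₀ < T then 1 else 1 / 2) * (cc (dm E) α * ‖v‖ ^ (-(dm E + α + 1)) *
        (mm α T τ₀ ^ (-((dm E - 1) / α)) * kap (dm E) α)))) := by
  have hc := cc_pos' (E := E) h0 h2
  have hv' : 0 < ‖v‖ := norm_pos_iff.mpr hv
  have hk := kap_pos (E := E) h0
  have hm := mm_pos h0 hT τ₀
  have hz : Tendsto (fun R : ℝ => R⁻¹ • R • ((τ₀ • v, v) : E × E)) atTop (𝓝 (τ₀ • v, v)) := by
    refine tendsto_const_nhds.congr' ?_
    filter_upwards [eventually_gt_atTop 0] with R hR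
    rw [inv_smul_smul₀ hR.ne']
  have hθ : (0 : ℝ) ≤ if 0 < τ₀ ∧ τ₀ < T then 1 else 1 / 2 := by split_ifs <;> norm_num
  have h1 := ENNReal.Tendsto.const_mul (a := nn α v) (ray_W h0 h2 hT hτ₀ v hv)
    (Or.inr (nn_ne_top α v))
  rw [ray_J h0 h2 hT hτ₀ v hv, nn, ← ENNReal.ofReal_mul (by positivity)] at h1
  have h3 : Tendsto (fun R : ℝ => ENNReal.ofReal (R ^ (dm E + α + 1)) *
      F1 α T (R • ((τ₀ • v, v) : E × E))) atTop _ := h1.congr' (by
    filter_upwards [eventually_gt_atTop 0] with R hR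
    rw [F1, ← mul_assoc, ← mul_assoc, nn, ← ENNReal.ofReal_mul (by positivity),
      ← ENNReal.ofReal_mul (by positivity), Prod.smul_snd, norm_smul, Real.norm_of_nonneg hR.le,
      Real.mul_rpow hR.le hv'.le, Real.rpow_add hR (dm E + α), Real.rpow_one, Real.rpow_neg hR.le]
    congr 2
    have : R ^ (dm E + α) ≠ 0 := by positivity
    field_simp)
  have h4 := (ENNReal.tendsto_toReal ENNReal.ofReal_ne_top).comp
    ((regimeB (N := fun R : ℝ => R) h0 h2 hT tendsto_id hz hτ₀ (by simp [Tt]) hv).tendsto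
      ENNReal.ofReal_ne_top h3)
  rw [ENNReal.toReal_ofReal (by positivity)] at h4
  refine (h4.congr' ?_).trans_eq ?_
  · filter_upwards [eventually_gt_atTop 0] with R hR
    simp only [Function.comp, ENNReal.toReal_mul, pp]
    rw [ENNReal.toReal_ofReal (by positivity), ENNReal.toReal_ofReal ((kin_dec h0 h2 hT).1 _)]
  · rw [neg_add (dm E + α), Real.rpow_add hv', Real.rpow_neg_one]
    congr 1
    ring

theorem cexp_int {α T : ℝ} (h0 : 0 < α) (hT : 0 < T) (x v : E) :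
    ∫ ζ : E × E, Complex.exp (Complex.I * ((⟪x, ζ.1⟫ + ⟪v, ζ.2⟫ : ℝ) : ℂ)) *
        ((Real.exp (-Phi α T ζ.1 ζ.2) : ℝ) : ℂ) =
      ((∫ ζ : E × E, Real.cos (⟪x, ζ.1⟫ + ⟪v, ζ.2⟫) * Real.exp (-Phi α T ζ.1 ζ.2) : ℝ) : ℂ) := by
  have hi := integrable_exp_phi (E := E) h0 hT
  have h1 : Integrable fun ζ : E × E =>
      Real.cos (⟪x, ζ.1⟫ + ⟪v, ζ.2⟫) * Real.exp (-Phi α T ζ.1 ζ.2) :=
    hi.bdd_mul (c := 1) (by fun_prop) (ae_of_all _ fun _ => Real.abs_cos_le_one _)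
  have h2 : Integrable fun ζ : E × E =>
      Real.sin (⟪x, ζ.1⟫ + ⟪v, ζ.2⟫) * Real.exp (-Phi α T ζ.1 ζ.2) :=
    hi.bdd_mul (c := 1) (by fun_prop) (ae_of_all _ fun _ => Real.abs_sin_le_one _)
  have h3 : ∫ ζ : E × E, Real.sin (⟪x, ζ.1⟫ + ⟪v, ζ.2⟫) * Real.exp (-Phi α T ζ.1 ζ.2) = 0 := by
    have : (volume : Measure (E × E)).IsAddHaarMeasure := Measure.prod.instIsAddHaarMeasure _ _
    have h4 := integral_neg_eq_self (fun ζ : E × E =>
      Real.sin (⟪x, ζ.1⟫ + ⟪v, ζ.2⟫) * Real.exp (-Phi α T ζ.1 ζ.2)) volume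
    have h5 : ∀ ζ : E × E, Phi α T (-ζ.1) (-ζ.2) = Phi α T ζ.1 ζ.2 := fun ζ => by
      simp only [Phi, smul_neg, ← neg_add, norm_neg]
    simp only [Prod.fst_neg, Prod.snd_neg, inner_neg_right, ← neg_add, Real.sin_neg, h5, neg_mul,
      integral_neg] at h4
    linarith
  have e : ∀ ζ : E × E, Complex.exp (Complex.I * ((⟪x, ζ.1⟫ + ⟪v, ζ.2⟫ : ℝ) : ℂ)) *
      ((Real.exp (-Phi α T ζ.1 ζ.2) : ℝ) : ℂ) =
      ((Real.cos (⟪x, ζ.1⟫ + ⟪v, ζ.2⟫) * Real.exp (-Phi α T ζ.1 ζ.2) : ℝ) : ℂ) +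
        ((Real.sin (⟪x, ζ.1⟫ + ⟪v, ζ.2⟫) * Real.exp (-Phi α T ζ.1 ζ.2) : ℝ) : ℂ) * Complex.I := by
    intro ζ
    rw [mul_comm Complex.I, Complex.exp_mul_I, ← Complex.ofReal_cos, ← Complex.ofReal_sin,
      Complex.ofReal_mul, Complex.ofReal_mul]
    ring
  simp only [e]
  rw [integral_add h1.ofReal (h2.ofReal.mul_const _), integral_mul_const, integral_complex_ofReal,
    integral_complex_ofReal, h3]
  simp

end Pool.Agent.Lib.MP_bd80ac_an
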