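import Pool.Agent.Lib.MP_bd80ac_an.Defs

set_option autoImplicit false

namespace Pool.Agent.Lib.MP_bd80ac_an

open MeasureTheory Set Filter Topology
open scoped Real ENNReal RealInnerProductSpace

variable {E : Type*} [NormedAddCommGroup E] [InnerProductSpace ℝ E] [FiniteDimensional ℝ E]
  [MeasurableSpace E] [BorelSpace E]

theorem cc_pos {D α : ℝ} (hD : 0 < D) (h0 : 0 < α) (h2 : α < 2) : 0 < cc D α := by
  have h1 : 0 < Real.Gamma ((D + α) / 2) := Real.Gamma_pos_of_pos (by linarith)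
  have h3 : 0 < Real.Gamma (1 - α / 2) := Real.Gamma_pos_of_pos (by linarith)
  have h4 := Real.pi_pos
  unfold cc
  positivity

theorem lk_gamma_int {a r : ℝ} (ha : 0 < a) (hr : 0 < r) :
    IntegrableOn (fun t : ℝ => t ^ (a - 1) * Real.exp (-(r * t))) (Ioi 0) := by
  have h := integrableOn_rpow_mul_exp_neg_mul_rpow (p := 1) (s := a - 1) (b := r)
    (by linarith) one_pos hr
  simpa only [Real.rpow_one, neg_mul] using h

/-- The Gamma integral in `ℝ≥0∞`. -/
theorem lk_gamma {a r : ℝ} (ha : 0 < a) (hr : 0 < r) :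
    ∫⁻ t in Ioi (0 : ℝ), ENNReal.ofReal (t ^ (a - 1) * Real.exp (-(r * t))) =
      ENNReal.ofReal (r ^ (-a) * Real.Gamma a) := by
  rw [← ofReal_integral_eq_lintegral_ofReal (lk_gamma_int ha hr),
    Real.integral_rpow_mul_exp_neg_mul_Ioi ha hr, one_div, Real.inv_rpow hr.le,
    Real.rpow_neg hr.le]
  filter_upwards [ae_restrict_mem measurableSet_Ioi] with t ht
  have : (0 : ℝ) < t := ht
  positivity

/-- The Gamma integral after the substitution `t = 1 / b`. -/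
theorem lk_gamma_inv {s u : ℝ} (hs : s < 1) (hu : 0 < u) :
    ∫⁻ b in Ioi (0 : ℝ), ENNReal.ofReal (b ^ (s - 2) * Real.exp (-(u / b))) =
      ENNReal.ofReal (u ^ (s - 1) * Real.Gamma (1 - s)) := by
  have hs' : 0 < 1 - s := by linarith
  set g : ℝ → ℝ := fun t => t ^ (1 - s - 1) * Real.exp (-(u * t)) with hg
  have h1 : ∀ b ∈ Ioi (0 : ℝ), (|(-1 : ℝ)| * b ^ ((-1 : ℝ) - 1)) • g (b ^ (-1 : ℝ)) =
      b ^ (s - 2) * Real.exp (-(u / b)) := by
    intro b hb
    have hb' : (0 : ℝ) < b := hb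
    simp only [hg, smul_eq_mul, abs_neg, abs_one, one_mul]
    rw [← Real.rpow_mul hb'.le, ← mul_assoc, ← Real.rpow_add hb', Real.rpow_neg_one,
      ← div_eq_mul_inv]
    congr 2
    ring
  have h2 : IntegrableOn (fun b : ℝ => b ^ (s - 2) * Real.exp (-(u / b))) (Ioi 0) :=
    ((integrableOn_Ioi_comp_rpow_iff g (p := -1) (by norm_num)).2
      (lk_gamma_int hs' hu)).congr_fun h1 measurableSet_Ioi
  rw [← ofReal_integral_eq_lintegral_ofReal h2, ← setIntegral_congr_fun measurableSet_Ioi h1,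
    integral_comp_rpow_Ioi g (by norm_num), hg, Real.integral_rpow_mul_exp_neg_mul_Ioi hs' hu,
    one_div, Real.inv_rpow hu.le, ← Real.rpow_neg hu.le, neg_sub]
  filter_upwards [ae_restrict_mem measurableSet_Ioi] with t ht
  have : (0 : ℝ) < t := ht
  positivity

theorem lk_one_sub_exp {a b : ℝ} (ha : 0 ≤ a) (hb : 0 < b) :
    ∫⁻ u in Ioc (0 : ℝ) a, ENNReal.ofReal (b⁻¹ * Real.exp (-(u / b))) =
      ENNReal.ofReal (1 - Real.exp (-(a / b))) := by
  have hc : Continuous fun u : ℝ => b⁻¹ * Real.exp (-(u / b)) := by fun_prop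
  have h1 : ∫ u in (0 : ℝ)..a, b⁻¹ * Real.exp (-(u / b)) = 1 - Real.exp (-(a / b)) := by
    have hd : ∀ u ∈ uIcc (0 : ℝ) a, HasDerivAt (fun u : ℝ => -Real.exp (-(u / b)))
        (b⁻¹ * Real.exp (-(u / b))) u := by
      intro u _
      have h := (((hasDerivAt_id u).div_const b).neg.exp).neg
      refine h.congr_deriv ?_
      simp only [Pi.neg_apply, id, one_div]
      ring
    rw [intervalIntegral.integral_eq_sub_of_hasDerivAt hd (hc.intervalIntegrable _ _)]
    simp only [zero_div, neg_zero, Real.exp_zero]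
    ring
  rw [← ofReal_integral_eq_lintegral_ofReal (hc.integrableOn_Icc.mono_set Ioc_subset_Icc_self),
    ← intervalIntegral.integral_of_le ha, h1]
  exact Eventually.of_forall fun u => by positivity

/-- The one dimensional subordinator integral. -/
theorem lk_sub {s a : ℝ} (h0 : 0 < s) (hs : s < 1) (ha : 0 ≤ a) :
    ∫⁻ b in Ioi (0 : ℝ), ENNReal.ofReal (b ^ (s - 1) * (1 - Real.exp (-(a / b)))) =
      ENNReal.ofReal (a ^ s / s * Real.Gamma (1 - s)) := by
  have hG : 0 < Real.Gamma (1 - s) := Real.Gamma_pos_of_pos (by linarith)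
  have h1 : ∫⁻ b in Ioi (0 : ℝ), ENNReal.ofReal (b ^ (s - 1) * (1 - Real.exp (-(a / b)))) =
      ∫⁻ b in Ioi (0 : ℝ), ∫⁻ u in Ioc (0 : ℝ) a,
        ENNReal.ofReal (b ^ (s - 2) * Real.exp (-(u / b))) := by
    refine setLIntegral_congr_fun measurableSet_Ioi fun b hb => ?_
    have hb' : (0 : ℝ) < b := hb
    rw [ENNReal.ofReal_mul (by positivity), ← lk_one_sub_exp ha hb',
      ← lintegral_const_mul' _ _ ENNReal.ofReal_ne_top]
    refine lintegral_congr fun u => ?_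
    rw [← ENNReal.ofReal_mul (by positivity), ← mul_assoc, ← Real.rpow_neg_one,
      ← Real.rpow_add hb']
    congr 3
    ring
  rw [h1, lintegral_lintegral_swap (by fun_prop)]
  have h2 : ∫⁻ u in Ioc (0 : ℝ) a, ∫⁻ b in Ioi (0 : ℝ),
      ENNReal.ofReal (b ^ (s - 2) * Real.exp (-(u / b))) =
      ∫⁻ u in Ioc (0 : ℝ) a, ENNReal.ofReal (u ^ (s - 1) * Real.Gamma (1 - s)) :=
    setLIntegral_congr_fun measurableSet_Ioc fun u hu => lk_gamma_inv hs hu.1
  have h3 : IntervalIntegrable (fun u : ℝ => u ^ (s - 1)) volume 0 a :=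
    intervalIntegral.intervalIntegrable_rpow' (by linarith)
  rw [h2, ← ofReal_integral_eq_lintegral_ofReal (h3.mul_const _).1,
    ← intervalIntegral.integral_of_le ha, intervalIntegral.integral_mul_const,
    integral_rpow (Or.inl (by linarith)), sub_add_cancel, Real.zero_rpow h0.ne', sub_zero]
  filter_upwards [ae_restrict_mem measurableSet_Ioc] with t ht
  have : (0 : ℝ) < t := ht.1
  positivity

/-- The Gaussian integral against `1 - cos`. -/
theorem lk_gauss {b : ℝ} (hb : 0 < b) (ξ : E) :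
    ∫⁻ w : E, ENNReal.ofReal (Real.exp (-(‖w‖ ^ 2 * b)) * (1 - Real.cos ⟪w, ξ⟫)) =
      ENNReal.ofReal ((π / b) ^ (dm E / 2) * (1 - Real.exp (-(‖ξ‖ ^ 2 / 4 / b)))) := by
  have hb' : 0 < (b : ℂ).re := hb
  have key : ∀ η : E, Integrable (fun w : E => Real.exp (-(‖w‖ ^ 2 * b)) * Real.cos ⟪w, η⟫) ∧
      ∫ w : E, Real.exp (-(‖w‖ ^ 2 * b)) * Real.cos ⟪w, η⟫ =
        (π / b) ^ (dm E / 2) * Real.exp (-(‖η‖ ^ 2 / 4 / b)) := by
    intro η
    have h1 := GaussianFourier.integrable_cexp_neg_mul_sq_norm_add hb' Complex.I η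
    have h2 := GaussianFourier.integral_cexp_neg_mul_sq_norm_add hb' Complex.I η
    have h3 : ∀ w : E, (Complex.exp (-(b : ℂ) * (‖w‖ : ℂ) ^ 2 + Complex.I * (⟪η, w⟫ : ℝ))).re =
        Real.exp (-(‖w‖ ^ 2 * b)) * Real.cos ⟪w, η⟫ := by
      intro w
      rw [Complex.exp_re, real_inner_comm]
      congr 2
      · simp [← Complex.ofReal_pow, mul_comm]
      · simp [← Complex.ofReal_pow]
    have h4 := h1.re
    simp only [RCLike.re_to_complex, h3] at h4
    refine ⟨h4, ?_⟩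
    have h5 := integral_re h1
    simp only [RCLike.re_to_complex, h3] at h5
    rw [h5, h2]
    have h6 : ((π : ℂ) / b) ^ ((Module.finrank ℝ E : ℂ) / 2) =
        (((π / b) ^ (dm E / 2) : ℝ) : ℂ) := by
      rw [Complex.ofReal_cpow (by positivity)]
      simp [dm]
    have h7 : Complex.I ^ 2 * (‖η‖ : ℂ) ^ 2 / (4 * b) = ((-(‖η‖ ^ 2 / 4 / b) : ℝ) : ℂ) := by
      rw [Complex.I_sq]
      push_cast
      ring
    rw [h6, h7, ← Complex.ofReal_exp, ← Complex.ofReal_mul, Complex.ofReal_re]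
  obtain ⟨a1, a2⟩ := key 0
  obtain ⟨b1, b2⟩ := key ξ
  simp only [inner_zero_right, Real.cos_zero, mul_one, norm_zero, ne_eq, OfNat.ofNat_ne_zero,
    not_false_eq_true, zero_pow, zero_div, neg_zero, Real.exp_zero] at a1 a2
  simp only [mul_sub, mul_one]
  have c1 : Integrable fun w : E => Real.exp (-(‖w‖ ^ 2 * b)) -
      Real.exp (-(‖w‖ ^ 2 * b)) * Real.cos ⟪w, ξ⟫ := a1.sub b1
  rw [← ofReal_integral_eq_lintegral_ofReal c1, integral_sub a1 b1, a2, b2]
  refine Eventually.of_forall fun w => ?_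
  have h1 := Real.cos_le_one ⟪w, ξ⟫
  have h2 := Real.exp_pos (-(‖w‖ ^ 2 * b))
  simp only [Pi.zero_apply]
  nlinarith

/-- The Levy-Khintchine formula for the isotropic stable symbol. -/
theorem lk [Nontrivial E] {α : ℝ} (h0 : 0 < α) (h2 : α < 2) (ξ : E) :
    ∫⁻ w : E, nn α w * ENNReal.ofReal (1 - Real.cos ⟪w, ξ⟫) = ENNReal.ofReal (‖ξ‖ ^ α) := by
  have hD : 0 < dm E := by
    unfold dm
    exact_mod_cast Module.finrank_pos
  have hp : 0 < (dm E + α) / 2 := by linarith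
  have hG : 0 < Real.Gamma ((dm E + α) / 2) := Real.Gamma_pos_of_pos hp
  have hG' : 0 < Real.Gamma (1 - α / 2) := Real.Gamma_pos_of_pos (by linarith)
  have hc := cc_pos hD h0 h2
  have hπ := Real.pi_pos
  set K : ℝ := cc (dm E) α / Real.Gamma ((dm E + α) / 2) with hK
  have hK0 : 0 < K := by positivity
  have h1 : ∀ w : E, nn α w * ENNReal.ofReal (1 - Real.cos ⟪w, ξ⟫) =
      ENNReal.ofReal K * ∫⁻ b in Ioi (0 : ℝ), ENNReal.ofReal (b ^ ((dm E + α) / 2 - 1)) *
        ENNReal.ofReal (Real.exp (-(‖w‖ ^ 2 * b)) * (1 - Real.cos ⟪w, ξ⟫)) := by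
    intro w
    rcases eq_or_ne w 0 with rfl | hw
    · simp
    have hw' : 0 < ‖w‖ := norm_pos_iff.2 hw
    have h3 : ∫⁻ b in Ioi (0 : ℝ), ENNReal.ofReal (b ^ ((dm E + α) / 2 - 1)) *
        ENNReal.ofReal (Real.exp (-(‖w‖ ^ 2 * b)) * (1 - Real.cos ⟪w, ξ⟫)) =
        ∫⁻ b in Ioi (0 : ℝ), ENNReal.ofReal (b ^ ((dm E + α) / 2 - 1) *
          Real.exp (-(‖w‖ ^ 2 * b))) * ENNReal.ofReal (1 - Real.cos ⟪w, ξ⟫) := by
      refine setLIntegral_congr_fun measurableSet_Ioi fun b hb => ?_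
      have hb' : (0 : ℝ) < b := hb
      rw [ENNReal.ofReal_mul (Real.exp_pos _).le, ENNReal.ofReal_mul (by positivity), mul_assoc]
    rw [h3, lintegral_mul_const' _ _ ENNReal.ofReal_ne_top, lk_gamma hp (by positivity),
      ← mul_assoc, ← ENNReal.ofReal_mul hK0.le, nn]
    congr 2
    rw [← Real.rpow_natCast, ← Real.rpow_mul hw'.le, hK]
    have h4 : ((2 : ℕ) : ℝ) * -((dm E + α) / 2) = -(dm E + α) := by
      push_cast
      ring
    rw [h4]
    field_simp
  simp only [h1]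
  rw [lintegral_const_mul' _ _ ENNReal.ofReal_ne_top, lintegral_lintegral_swap (by fun_prop)]
  have h3 : ∫⁻ b in Ioi (0 : ℝ), ∫⁻ w : E, ENNReal.ofReal (b ^ ((dm E + α) / 2 - 1)) *
        ENNReal.ofReal (Real.exp (-(‖w‖ ^ 2 * b)) * (1 - Real.cos ⟪w, ξ⟫)) =
      ∫⁻ b in Ioi (0 : ℝ), ENNReal.ofReal (π ^ (dm E / 2)) *
        ENNReal.ofReal (b ^ (α / 2 - 1) * (1 - Real.exp (-(‖ξ‖ ^ 2 / 4 / b)))) := by
    refine setLIntegral_congr_fun measurableSet_Ioi fun b hb => ?_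
    have hb' : (0 : ℝ) < b := hb
    rw [lintegral_const_mul' _ _ ENNReal.ofReal_ne_top, lk_gauss hb',
      ← ENNReal.ofReal_mul (by positivity), ← ENNReal.ofReal_mul (by positivity),
      Real.div_rpow hπ.le hb'.le, ← mul_assoc, ← mul_assoc]
    congr 2
    have h4 : (dm E + α) / 2 - 1 = (α / 2 - 1) + dm E / 2 := by ring
    have h5 : 0 < b ^ (dm E / 2) := by positivity
    rw [h4, Real.rpow_add hb']
    field_simp
  rw [h3, lintegral_const_mul' _ _ ENNReal.ofReal_ne_top,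
    lk_sub (by linarith) (by linarith) (by positivity), ← ENNReal.ofReal_mul (by positivity),
    ← ENNReal.ofReal_mul hK0.le]
  congr 1
  have h4 : (‖ξ‖ ^ 2 / 4) ^ (α / 2) = ‖ξ‖ ^ α / (2 * 2 ^ (α - 1)) := by
    have h5 : ‖ξ‖ ^ 2 / 4 = (‖ξ‖ / 2) ^ (2 : ℝ) := by
      rw [Real.rpow_two]
      ring
    rw [h5, ← Real.rpow_mul (by positivity), mul_div_cancel₀ _ two_ne_zero,
      Real.div_rpow (norm_nonneg _) zero_le_two, Real.rpow_sub_one two_ne_zero]
    congr 1
    field_simp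
  have h6 : (0 : ℝ) < 2 ^ (α - 1) := by positivity
  have h7 : (0 : ℝ) < π ^ (dm E / 2) := by positivity
  rw [h4, hK, cc]
  generalize Real.Gamma (1 - α / 2) = G' at hG'
  generalize Real.Gamma ((dm E + α) / 2) = G at hG
  field_simp

end Pool.Agent.Lib.MP_bd80ac_an
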