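import Pool.Agent.Lib.MP_bd80ac_an.Core
import Pool.Agent.Lib.MP_bd80ac_an.LK
import Pool.Agent.Lib.MP_bd80ac_an.Basic

set_option autoImplicit false

namespace Pool.Agent.Lib.MP_bd80ac_an

open MeasureTheory Set Filter Topology
open scoped Real ENNReal RealInnerProductSpace

variable {E : Type*} [NormedAddCommGroup E] [InnerProductSpace ℝ E] [FiniteDimensional ℝ E]
  [MeasurableSpace E] [BorelSpace E]

theorem in_set (α : ℝ) {s : Set E} (hs : MeasurableSet s) (g : E → ℝ≥0∞) :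
    ∫⁻ w in s, g w ∂(volume.withDensity (nn α)) = ∫⁻ w in s, nn α w * g w :=
  setLIntegral_withDensity_eq_setLIntegral_mul_non_measurable _ (measurable_nn α) g hs
    (Eventually.of_forall fun _ => ENNReal.ofReal_lt_top)

theorem in_univ (α : ℝ) (g : E → ℝ≥0∞) :
    ∫⁻ w, g w ∂(volume.withDensity (nn α)) = ∫⁻ w, nn α w * g w := by
  simpa using in_set α MeasurableSet.univ g

omit [InnerProductSpace ℝ E] [FiniteDimensional ℝ E] in
theorem in_meas_ge (r : ℝ) : MeasurableSet {w : E | r ≤ ‖w‖} :=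
  measurableSet_le measurable_const measurable_norm

omit [InnerProductSpace ℝ E] [FiniteDimensional ℝ E] in
theorem in_meas_lt (r : ℝ) : MeasurableSet {w : E | ‖w‖ < r} :=
  measurableSet_lt measurable_norm measurable_const

theorem in_tail [Nontrivial E] {α δ r : ℝ} (h0 : 0 < α) (h2 : α < 2) (hδ : δ < α) (hr : 0 < r) :
    ∫⁻ w in {w : E | r ≤ ‖w‖}, nn α w * ENNReal.ofReal (‖w‖ ^ δ) ≠ ∞ := by
  have hD : 0 < dm E := lt_of_lt_of_le one_pos one_le_dm
  have hc := cc_pos hD h0 h2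
  obtain ⟨C, -, hC⟩ := tail_pow (E := E) (γ := α - δ) (by linarith)
  have h1 : ∫⁻ w in {w : E | r ≤ ‖w‖}, nn α w * ENNReal.ofReal (‖w‖ ^ δ) =
      ∫⁻ w in {w : E | r ≤ ‖w‖}, ENNReal.ofReal (cc (dm E) α) *
        ENNReal.ofReal (‖w‖ ^ (-(dm E + (α - δ)))) := by
    refine setLIntegral_congr_fun (in_meas_ge r) fun w hw => ?_
    have hw' : 0 < ‖w‖ := lt_of_lt_of_le hr hw
    rw [nn, ← ENNReal.ofReal_mul (by positivity), ← ENNReal.ofReal_mul hc.le, mul_assoc,
      ← Real.rpow_add hw']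
    congr 3
    ring
  rw [h1, lintegral_const_mul' _ _ ENNReal.ofReal_ne_top]
  exact ENNReal.mul_ne_top ENNReal.ofReal_ne_top
    (ne_top_of_le_ne_top ENNReal.ofReal_ne_top (hC r hr))

theorem in_tail0 [Nontrivial E] {α r : ℝ} (h0 : 0 < α) (h2 : α < 2) (hr : 0 < r) :
    ∫⁻ w in {w : E | r ≤ ‖w‖}, nn α w * 1 ≠ ∞ := by
  simpa using in_tail (E := E) (δ := 0) h0 h2 h0 hr

theorem in_small [Nontrivial E] {α : ℝ} (h0 : 0 < α) (h2 : α < 2) :
    ∫⁻ w in {w : E | ‖w‖ < 1}, nn α w * ENNReal.ofReal (‖w‖ ^ 2) ≠ ∞ := by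
  have hD : 0 < dm E := lt_of_lt_of_le one_pos one_le_dm
  have hc := cc_pos hD h0 h2
  have hC := small_pow (E := E) (γ := 2 - α) (by linarith)
  have h1 : ∫⁻ w in {w : E | ‖w‖ < 1}, nn α w * ENNReal.ofReal (‖w‖ ^ 2) ≤
      ∫⁻ w in {w : E | ‖w‖ < 1}, ENNReal.ofReal (cc (dm E) α) *
        ENNReal.ofReal (‖w‖ ^ (2 - α - dm E)) := by
    refine lintegral_mono fun w => ?_
    rcases eq_or_ne w 0 with rfl | hw
    · simp
    have hw' : 0 < ‖w‖ := norm_pos_iff.2 hw
    rw [nn, ← ENNReal.ofReal_mul (by positivity), ← ENNReal.ofReal_mul hc.le, mul_assoc,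
      ← Real.rpow_two, ← Real.rpow_add hw']
    refine le_of_eq ?_
    congr 3
    ring
  rw [lintegral_const_mul' _ _ ENNReal.ofReal_ne_top] at h1
  exact ne_top_of_le_ne_top (ENNReal.mul_ne_top ENNReal.ofReal_ne_top hC) h1

theorem in_sym (α : ℝ) : MeasurePreserving (fun y : E => -y) (volume.withDensity (nn α))
    (volume.withDensity (nn α)) := by
  refine ⟨measurable_neg, Measure.ext_of_lintegral _ fun f hf => ?_⟩
  rw [lintegral_map hf measurable_neg, in_univ, in_univ,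
    ← lintegral_neg_eq_self fun w : E => nn α w * f w]
  simp only [nn, norm_neg]

theorem in_pos [Nontrivial E] {α : ℝ} (h0 : 0 < α) :
    ∀ᵐ w : E ∂(volume.withDensity (nn α)), 0 < ‖w‖ := by
  have hD : 0 < dm E := lt_of_lt_of_le one_pos one_le_dm
  rw [ae_withDensity_iff (measurable_nn α)]
  refine Eventually.of_forall fun w hw => norm_pos_iff.2 ?_
  rintro rfl
  refine hw ?_
  rw [nn, norm_zero, Real.zero_rpow (by linarith), mul_zero, ENNReal.ofReal_zero]

theorem iso_dec [Nontrivial E] {α : ℝ} (h0 : 0 < α) (h2 : α < 2) :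
    (∀ y : E, 0 ≤ stab α 1 y) ∧ ∃ (P : ℝ → E → ℝ≥0∞) (A a : ℝ),
      Dec (S0 α) (fun y : E => ENNReal.ofReal (stab α 1 y)) P A a := by
  have h := levy_facts (volume.withDensity (nn α : E → ℝ≥0∞)) (fun y => ‖y‖) measurable_norm
    (in_sym α) (fun y => norm_neg y) 1 one_pos
    ((in_pos h0).mono fun w hw => ⟨hw, (one_mul _).ge⟩)
    (fun r hr => by
      rw [← setLIntegral_one, in_set α (in_meas_ge r)]
      exact in_tail0 h0 h2 hr)
    (α / 2) (by linarith)
    (by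
      rw [in_set α (in_meas_ge 1)]
      exact in_tail h0 h2 (by linarith) one_pos)
    (by
      rw [in_set α (in_meas_lt 1)]
      exact in_small h0 h2)
    (fun ζ => 1 * ‖ζ‖ ^ α) (fun ζ => by positivity)
    (fun ζ => by rw [in_univ, lk h0 h2, one_mul])
    (integrable_exp_neg volume one_pos h0)
  have hS : (fun (r : ℝ) (f : E → ℝ≥0∞) (z : E) =>
      ∫⁻ y in {y : E | r ≤ ‖y‖}, f (z - y) ∂(volume.withDensity (nn α))) = S0 α := by
    funext r f z
    exact in_set α (in_meas_ge r) _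
  rw [hS] at h
  exact h

/-- The jump of size `w` at time `τ`. -/
def inJ (q : ℝ × E) : WithLp 2 (E × E) := WithLp.toLp 2 (q.1 • q.2, q.2)

theorem in_meas_J : Measurable (inJ : ℝ × E → WithLp 2 (E × E)) :=
  (WithLp.measurable_toLp 2 _).comp ((measurable_fst.smul measurable_snd).prodMk measurable_snd)

/-- The kinetic jump measure. -/
noncomputable def inNu (α T : ℝ) : Measure (WithLp 2 (E × E)) :=
  ((volume.restrict (Icc (0 : ℝ) T)).prod (volume.withDensity (nn α))).map inJ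

theorem in_sfin (α T : ℝ) : SFinite (inNu α T : Measure (WithLp 2 (E × E))) := by
  unfold inNu
  infer_instance

theorem in_kin_set (α T : ℝ) {s : Set E} (hs : MeasurableSet s) {g : WithLp 2 (E × E) → ℝ≥0∞}
    (hg : Measurable g) :
    ∫⁻ y in {y : WithLp 2 (E × E) | (WithLp.ofLp y).2 ∈ s}, g y ∂(inNu α T) =
      ∫⁻ τ in Icc (0 : ℝ) T, ∫⁻ w in s, nn α w * g (WithLp.toLp 2 (τ • w, w)) := by
  have h1 : MeasurableSet {y : WithLp 2 (E × E) | (WithLp.ofLp y).2 ∈ s} :=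
    (measurable_snd.comp (WithLp.measurable_ofLp 2 _)) hs
  have h2 : inJ ⁻¹' {y : WithLp 2 (E × E) | (WithLp.ofLp y).2 ∈ s} = univ ×ˢ s := by
    ext q
    simp [inJ]
  rw [inNu, setLIntegral_map h1 hg in_meas_J, h2, ← Measure.prod_restrict,
    Measure.restrict_univ, lintegral_prod (fun q => g (inJ q)) (hg.comp in_meas_J).aemeasurable]
  refine lintegral_congr fun τ => ?_
  exact in_set α hs _

theorem in_kin_univ (α T : ℝ) {g : WithLp 2 (E × E) → ℝ≥0∞} (hg : Measurable g) :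
    ∫⁻ y, g y ∂(inNu α T) =
      ∫⁻ τ in Icc (0 : ℝ) T, ∫⁻ w : E, nn α w * g (WithLp.toLp 2 (τ • w, w)) := by
  simpa using in_kin_set α T MeasurableSet.univ hg

theorem in_const_ne (T : ℝ) {c : ℝ≥0∞} (hc : c ≠ ∞) : ∫⁻ _ in Icc (0 : ℝ) T, c ≠ ∞ := by
  rw [setLIntegral_const]
  exact ENNReal.mul_ne_top hc measure_Icc_lt_top.ne

theorem in_kin_sym (α T : ℝ) : MeasurePreserving (fun y : WithLp 2 (E × E) => -y)
    (inNu α T) (inNu α T) := by
  refine ⟨measurable_neg, ?_⟩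
  have h1 := (MeasurePreserving.id (volume.restrict (Icc (0 : ℝ) T))).prod (in_sym (E := E) α)
  have h2 : (fun y : WithLp 2 (E × E) => -y) ∘ inJ = inJ ∘ Prod.map id fun y : E => -y := by
    funext q
    simp only [Function.comp_apply, inJ, Prod.map_fst, id, Prod.map_snd, smul_neg]
    rfl
  rw [inNu, Measure.map_map measurable_neg in_meas_J, h2, ← Measure.map_map in_meas_J h1.measurable,
    h1.map_eq]

theorem in_kin_norm [Nontrivial E] {α T : ℝ} (h0 : 0 < α) :
    ∀ᵐ y : WithLp 2 (E × E) ∂(inNu α T),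
      0 < ‖(WithLp.ofLp y).2‖ ∧ ‖y‖ ≤ (1 + T) * ‖(WithLp.ofLp y).2‖ := by
  have hm : Measurable fun y : WithLp 2 (E × E) => ‖(WithLp.ofLp y).2‖ :=
    (measurable_snd.comp (WithLp.measurable_ofLp 2 _)).norm
  have hm' : MeasurableSet {y : WithLp 2 (E × E) |
      0 < ‖(WithLp.ofLp y).2‖ ∧ ‖y‖ ≤ (1 + T) * ‖(WithLp.ofLp y).2‖} :=
    (measurableSet_lt measurable_const hm).inter
      (measurableSet_le measurable_norm (hm.const_mul _))
  rw [inNu, ae_map_iff in_meas_J.aemeasurable hm']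
  have h1 := (Measure.quasiMeasurePreserving_fst (μ := volume.restrict (Icc (0 : ℝ) T))
    (ν := volume.withDensity (nn α : E → ℝ≥0∞))).ae (ae_restrict_mem measurableSet_Icc)
  have h2 := (Measure.quasiMeasurePreserving_snd (μ := volume.restrict (Icc (0 : ℝ) T))
    (ν := volume.withDensity (nn α : E → ℝ≥0∞))).ae (in_pos h0)
  filter_upwards [h1, h2] with q hq1 hq2
  refine ⟨hq2, ?_⟩
  have h3 : ‖inJ q‖ ^ 2 = ‖q.1 • q.2‖ ^ 2 + ‖q.2‖ ^ 2 := WithLp.prod_norm_sq_eq_of_L2 _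
  have h4 : (WithLp.ofLp (inJ q)).2 = q.2 := rfl
  rw [norm_smul, Real.norm_of_nonneg hq1.1] at h3
  have hT : 0 ≤ T := hq1.1.trans hq1.2
  rw [h4]
  refine (pow_le_pow_iff_left₀ (norm_nonneg _) (by positivity) two_ne_zero).1 ?_
  have h5 : q.1 ^ 2 ≤ T ^ 2 := pow_le_pow_left₀ hq1.1 hq1.2 2
  have h6 : 0 ≤ ‖q.2‖ ^ 2 := by positivity
  rw [h3, mul_pow, mul_pow]
  nlinarith [mul_nonneg hT h6, mul_le_mul_of_nonneg_right h5 h6]

theorem in_kin_psi [Nontrivial E] {α T : ℝ} (h0 : 0 < α) (h2 : α < 2) (hT : 0 < T)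
    (ζ : WithLp 2 (E × E)) :
    ENNReal.ofReal (Phi α T (WithLp.ofLp ζ).1 (WithLp.ofLp ζ).2) =
      ∫⁻ y, ENNReal.ofReal (1 - Real.cos ⟪y, ζ⟫) ∂(inNu α T) := by
  have hc : Continuous fun τ : ℝ => ‖(WithLp.ofLp ζ).2 + τ • (WithLp.ofLp ζ).1‖ ^ α :=
    Continuous.rpow_const (by fun_prop) fun _ => Or.inr h0.le
  rw [in_kin_univ α T (by fun_prop), Phi, intervalIntegral.integral_of_le hT.le,
    ← integral_Icc_eq_integral_Ioc, ofReal_integral_eq_lintegral_ofReal hc.integrableOn_Icc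
      (Eventually.of_forall fun τ => by positivity)]
  refine lintegral_congr fun τ => ?_
  rw [← lk h0 h2]
  refine lintegral_congr fun w => ?_
  rw [WithLp.prod_inner_apply, inner_add_right, real_inner_smul_left, real_inner_smul_right,
    add_comm]

theorem in_FR (α T : ℝ) (z : E × E) :
    FR (fun ζ : WithLp 2 (E × E) => Real.exp (-Phi α T (WithLp.ofLp ζ).1 (WithLp.ofLp ζ).2))
      (WithLp.toLp 2 z) = kin α T z := by
  have h1 : Module.finrank ℝ (WithLp 2 (E × E)) = 2 * Module.finrank ℝ E := by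
    rw [(WithLp.linearEquiv 2 ℝ (E × E)).finrank_eq, Module.finrank_prod, two_mul]
  rw [FR, kin, h1, ← (WithLp.volume_preserving_toLp E E).integral_comp
    (MeasurableEquiv.toLp 2 (E × E)).measurableEmbedding]
  rfl

theorem continuous_kin {α T : ℝ} (h0 : 0 < α) (hT : 0 < T) :
    Continuous (kin α T : E × E → ℝ) := by
  have hc := continuous_phi (E := E) h0 T
  refine continuous_const.mul (continuous_of_dominated (bound := fun ζ : E × E =>
    Real.exp (-Phi α T ζ.1 ζ.2)) (fun z => Continuous.aestronglyMeasurable (by fun_prop))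
    (fun z => Eventually.of_forall fun ζ => ?_) (integrable_exp_phi h0 hT)
    (Eventually.of_forall fun ζ => by fun_prop))
  rw [norm_mul, Real.norm_of_nonneg (Real.exp_pos _).le]
  exact mul_le_of_le_one_left (Real.exp_pos _).le (Real.abs_cos_le_one _)

theorem kin_bdd {α T : ℝ} (h0 : 0 < α) (hT : 0 < T) : ∃ B : ℝ, ∀ z : E × E, kin α T z ≤ B := by
  refine ⟨((2 * π) ^ (2 * Module.finrank ℝ E))⁻¹ * ∫ ζ : E × E, Real.exp (-Phi α T ζ.1 ζ.2),
    fun z => ?_⟩
  have hπ := Real.pi_pos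
  refine mul_le_mul_of_nonneg_left ((le_abs_self _).trans ?_) (by positivity)
  rw [← Real.norm_eq_abs]
  refine norm_integral_le_of_norm_le (integrable_exp_phi (E := E) h0 hT)
    (Eventually.of_forall fun ζ => ?_)
  rw [norm_mul, Real.norm_of_nonneg (Real.exp_pos _).le]
  exact mul_le_of_le_one_left (Real.exp_pos _).le (Real.abs_cos_le_one _)

theorem kin_dec [Nontrivial E] {α T : ℝ} (h0 : 0 < α) (h2 : α < 2) (hT : 0 < T) :
    (∀ z : E × E, 0 ≤ kin α T z) ∧ ∃ (P : ℝ → E × E → ℝ≥0∞) (A a : ℝ),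
      Dec (SS α T) (pp α T) P A a := by
  have := in_sfin (E := E) α T
  have hm : Measurable fun y : WithLp 2 (E × E) => ‖(WithLp.ofLp y).2‖ :=
    (measurable_snd.comp (WithLp.measurable_ofLp 2 _)).norm
  obtain ⟨hpos, P, A, a, hd⟩ := levy_facts (inNu α T : Measure (WithLp 2 (E × E)))
    (fun y => ‖(WithLp.ofLp y).2‖) hm (in_kin_sym α T) (fun y => norm_neg (WithLp.ofLp y).2)
    (1 + T) (by linarith) (in_kin_norm h0)
    (fun r hr => by
      rw [← setLIntegral_one]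
      exact (in_kin_set α T (in_meas_ge r) measurable_const).trans_ne
        (in_const_ne T (in_tail0 h0 h2 hr)))
    (α / 2) (by linarith)
    ((in_kin_set α T (in_meas_ge 1) (hm.pow_const _).ennreal_ofReal).trans_ne
      (in_const_ne T (in_tail h0 h2 (by linarith) one_pos)))
    ((in_kin_set α T (in_meas_lt 1) (hm.pow_const _).ennreal_ofReal).trans_ne
      (in_const_ne T (in_small h0 h2)))
    (fun ζ => Phi α T (WithLp.ofLp ζ).1 (WithLp.ofLp ζ).2) (fun ζ => phi_nonneg α hT.le _ _)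
    (in_kin_psi h0 h2 hT)
    ((WithLp.volume_preserving_ofLp E E).integrable_comp_of_integrable (integrable_exp_phi h0 hT))
  set S : ℝ → (WithLp 2 (E × E) → ℝ≥0∞) → WithLp 2 (E × E) → ℝ≥0∞ := fun r f z =>
    ∫⁻ y in {y : WithLp 2 (E × E) | r ≤ ‖(WithLp.ofLp y).2‖}, f (z - y) ∂(inNu α T) with hS
  set p : WithLp 2 (E × E) → ℝ≥0∞ := fun z => ENNReal.ofReal (FR (fun ζ : WithLp 2 (E × E) =>
    Real.exp (-Phi α T (WithLp.ofLp ζ).1 (WithLp.ofLp ζ).2)) z) with hp
  have hp1 : pp α T = fun z : E × E => p (WithLp.toLp 2 z) := by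
    funext z
    rw [hp, pp, ← in_FR]
  have hp2 : Measurable p := by
    have : p = fun z => pp α T (WithLp.ofLp z) := by
      funext z
      rw [hp1]
    rw [this]
    exact ((continuous_kin h0 hT).measurable.ennreal_ofReal).comp (WithLp.measurable_ofLp 2 _)
  have hS1 : ∀ (r : ℝ) (f : WithLp 2 (E × E) → ℝ≥0∞), Measurable f → Measurable (S r f) :=
    fun r f hf => (hf.comp (measurable_fst.sub measurable_snd)).lintegral_prod_right'
  have hS2 : ∀ (r : ℝ) (f : WithLp 2 (E × E) → ℝ≥0∞), Measurable f →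
      SS α T r (fun z => f (WithLp.toLp 2 z)) = fun z => S r f (WithLp.toLp 2 z) := by
    intro r f hf
    funext z
    exact (in_kin_set α T (in_meas_ge r) (g := fun y => f (WithLp.toLp 2 z - y))
      (hf.comp (measurable_const.sub measurable_id))).symm
  refine ⟨fun z => in_FR α T z ▸ hpos _, fun r z => P r (WithLp.toLp 2 z), A, a, hd.a_pos,
    hd.A_nonneg, fun r hr => (hd.meas r hr).comp (WithLp.measurable_toLp 2 _), fun r hr z => ?_,
    fun r hr z => ?_, fun r hr z => ?_, fun r hr z => ?_, fun r hr z => ?_, fun r hr z => ?_⟩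
  · rw [hp1]
    exact hd.le0 r hr _
  · rw [hp1, hS2 r _ (hd.meas r hr)]
    exact hd.le1 r hr _
  · rw [hp1, hS2 r _ (hd.meas r hr), hS2 r _ (hS1 r _ (hd.meas r hr))]
    exact hd.le2 r hr _
  · rw [hp1, hS2 r _ hp2]
    exact hd.ge1 r hr _
  · rw [hp1, hS2 r _ hp2, hS2 r _ (hd.meas r hr), hS2 r _ (hS1 r _ hp2)]
    exact hd.ge2 r hr _
  · refine (hd.decay r hr _).trans (ENNReal.ofReal_le_ofReal ?_)
    have h1 : ‖z‖ ≤ ‖WithLp.toLp 2 z‖ :=
      max_le (WithLp.norm_fst_le _ (WithLp.toLp 2 z)) (WithLp.norm_snd_le _ (WithLp.toLp 2 z))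
    refine mul_le_mul_of_nonneg_left (Real.rpow_le_rpow_of_exponent_le hr (neg_le_neg ?_))
      hd.A_nonneg
    have := hd.a_pos
    gcongr

end Pool.Agent.Lib.MP_bd80ac_an
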