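import Pool.Agent.Lib.MP_bd80ac_an.Ops

set_option autoImplicit false

namespace Pool.Agent.Lib.MP_bd80ac_an

open MeasureTheory Set Filter Topology
open scoped Real ENNReal RealInnerProductSpace

variable {E : Type*} [NormedAddCommGroup E] [InnerProductSpace ℝ E] [FiniteDimensional ℝ E]
  [MeasurableSpace E] [BorelSpace E]

omit [FiniteDimensional ℝ E] [MeasurableSpace E] [BorelSpace E] in
theorem dm_nonneg : 0 ≤ dm E := Nat.cast_nonneg _

omit [FiniteDimensional ℝ E] [MeasurableSpace E] [BorelSpace E] in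
theorem gg_ne_top (α : ℝ) (y : E) : gg α y ≠ ∞ := ENNReal.ofReal_ne_top

omit [FiniteDimensional ℝ E] [MeasurableSpace E] [BorelSpace E] in
theorem gg_le_of_le {α k : ℝ} (hβ : 0 ≤ dm E + α) (hk : 0 < k) {y y' : E}
    (h : 1 + ‖y‖ ≤ k * (1 + ‖y'‖)) : gg α y' ≤ ENNReal.ofReal (k ^ (dm E + α)) * gg α y := by
  unfold gg
  rw [← ENNReal.ofReal_mul (by positivity)]
  refine ENNReal.ofReal_le_ofReal ?_
  have h1 : (1 + ‖y'‖) ^ (-(dm E + α)) ≤ ((1 + ‖y‖) / k) ^ (-(dm E + α)) :=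
    Real.rpow_le_rpow_of_nonpos (by positivity) (by rwa [div_le_iff₀' hk]) (by linarith)
  refine h1.trans (le_of_eq ?_)
  rw [Real.div_rpow (by positivity) hk.le, Real.rpow_neg hk.le, div_inv_eq_mul, mul_comm]

omit [FiniteDimensional ℝ E] [MeasurableSpace E] [BorelSpace E] in
theorem gg_le_rpow {α k : ℝ} (hβ : 0 ≤ dm E + α) (hk : 0 < k) {y : E} (h : k ≤ ‖y‖) :
    gg α y ≤ ENNReal.ofReal (k ^ (-(dm E + α))) :=
  ENNReal.ofReal_le_ofReal (Real.rpow_le_rpow_of_nonpos hk (by linarith) (by linarith))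

omit [FiniteDimensional ℝ E] [MeasurableSpace E] [BorelSpace E] in
theorem mu_point {α r s : ℝ} (h0 : 0 < α) (hc : 0 ≤ cc (dm E) α) (hr : 0 < r) (h : E → ℝ≥0∞)
    (B : ℝ≥0∞) (hB : ∀ y, h y ≤ B * gg α y) (y w : E) (hw : r ≤ ‖w‖) :
    nn α w * h (y - s • w) ≤
      B * (ENNReal.ofReal (2 ^ (dm E + α)) * gg α y) * nn α w +
        (if s ≠ 0 ∧ |s| ≤ 2 * ‖y‖ / r then
          ENNReal.ofReal (cc (dm E) α * (2 * |s|) ^ (dm E + α)) * gg α y else 0) *
          h (y - s • w) := by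
  have hβ : 0 ≤ dm E + α := by have := dm_nonneg (E := E); linarith
  by_cases hcase : 1 + ‖y‖ ≤ 2 * (1 + ‖y - s • w‖)
  · refine le_trans ?_ le_self_add
    rw [mul_comm]
    refine mul_le_mul_left ((hB _).trans ?_) _
    exact mul_le_mul_right (gg_le_of_le hβ two_pos hcase) _
  · refine le_trans ?_ le_add_self
    refine mul_le_mul_left ?_ _
    have h1 : ‖y‖ ≤ ‖y - s • w‖ + ‖s • w‖ := by
      simpa using norm_add_le (y - s • w) (s • w)
    have h2 : ‖s • w‖ ≤ ‖y‖ + ‖y - s • w‖ := by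
      simpa using norm_sub_le y (y - s • w)
    rw [norm_smul, Real.norm_eq_abs] at h1 h2
    have h3 := norm_nonneg (y - s • w)
    have h4 := norm_nonneg y
    have hs : s ≠ 0 := by
      rintro rfl
      simp only [abs_zero, zero_mul, add_zero] at h1
      linarith
    have hs' : 0 < |s| := abs_pos.mpr hs
    have h5 : |s| ≤ 2 * ‖y‖ / r := by
      rw [le_div_iff₀ hr]
      nlinarith [mul_le_mul_of_nonneg_left hw hs'.le]
    rw [if_pos ⟨hs, h5⟩]
    have h6 : (1 + ‖y‖) / (2 * |s|) ≤ ‖w‖ := by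
      rw [div_le_iff₀ (by positivity)]
      nlinarith
    refine (nn_le hc hβ (by positivity) h6).trans (le_of_eq ?_)
    unfold gg
    rw [← ENNReal.ofReal_mul (by positivity), Real.div_rpow (by positivity) (by positivity),
      Real.rpow_neg (x := 2 * |s|) (by positivity), div_inv_eq_mul]
    congr 1
    ring

theorem mu_le [Nontrivial E] {α T : ℝ} (h0 : 0 < α) (hc : 0 ≤ cc (dm E) α) (hT : 0 < T) :
    ∃ C : ℝ, 0 ≤ C ∧ ∀ r : ℝ, 0 < r → ∀ τ ∈ Icc (0 : ℝ) T, ∀ h : E → ℝ≥0∞,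
      ∀ B M : ℝ≥0∞, (∀ y, h y ≤ B * gg α y) → ∫⁻ y, h y ≤ M → ∀ y,
        mu α T r τ h y ≤ ENNReal.ofReal C * gg α y *
          (B * ENNReal.ofReal (r ^ (-α)) + M * ENNReal.ofReal (min 1 (‖y‖ / r))) := by
  obtain ⟨C₀, hC₀, htail⟩ := nn_tail (E := E) h0 hc
  have hβ : 0 ≤ dm E + α := by have := dm_nonneg (E := E); linarith
  set K : ℝ := 2 ^ (dm E + α) with hK
  have hK0 : 0 ≤ K := by positivity
  set K₁ : ℝ := K * C₀ * T with hK₁
  set K₂ : ℝ := cc (dm E) α * K * T ^ α with hK₂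
  have hK₁0 : 0 ≤ K₁ := by positivity
  have hK₂0 : 0 ≤ K₂ := by positivity
  refine ⟨K₁ + K₂ * (T + 4), by positivity, fun r hr τ hτ h B M hB hM y => ?_⟩
  set J : Set ℝ := Icc (τ - 2 * ‖y‖ / r) (τ + 2 * ‖y‖ / r) with hJ
  have hin : ∀ σ ∈ Icc (0 : ℝ) T, ∫⁻ w in {w : E | r ≤ ‖w‖}, nn α w * h (y - (σ - τ) • w) ≤
      B * (ENNReal.ofReal K * gg α y) * ENNReal.ofReal (C₀ * r ^ (-α)) +
        J.indicator (fun _ => ENNReal.ofReal K₂ * gg α y * M) σ := by
    intro σ hσ
    refine (setLIntegral_mono' (measurableSet_far r) fun w hw =>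
      mu_point (s := σ - τ) h0 hc hr h B hB y w hw).trans ?_
    rw [lintegral_add_left ((measurable_nn α).const_mul _), lintegral_const_mul _ (measurable_nn α)]
    refine add_le_add (mul_le_mul_right (htail r hr) _) ?_
    split_ifs with hs
    · have hσJ : σ ∈ J := by
        have := abs_le.mp hs.2
        constructor <;> linarith [this.1, this.2]
      rw [indicator_of_mem hσJ]
      refine (setLIntegral_le_lintegral _ _).trans ?_
      rw [lintegral_const_mul' _ _ (ENNReal.mul_ne_top ENNReal.ofReal_ne_top (gg_ne_top α y)),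
        lint_scale h y hs.1]
      have hs' : 0 < |σ - τ| := abs_pos.mpr hs.1
      have hle : |σ - τ| ≤ T := abs_le.mpr ⟨by linarith [hσ.1, hτ.2], by linarith [hσ.2, hτ.1]⟩
      have h1 : ENNReal.ofReal (cc (dm E) α * (2 * |σ - τ|) ^ (dm E + α)) *
          ENNReal.ofReal (|σ - τ| ^ (-dm E)) ≤ ENNReal.ofReal K₂ := by
        rw [← ENNReal.ofReal_mul (by positivity)]
        refine ENNReal.ofReal_le_ofReal ?_
        rw [Real.mul_rpow (by norm_num) hs'.le, hK₂, mul_assoc, mul_assoc, mul_assoc,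
          ← Real.rpow_add hs', show dm E + α + -dm E = α by ring]
        gcongr
      calc _ = ENNReal.ofReal (cc (dm E) α * (2 * |σ - τ|) ^ (dm E + α)) *
            ENNReal.ofReal (|σ - τ| ^ (-dm E)) * gg α y * ∫⁻ w, h w := by ring
        _ ≤ _ := by gcongr
    · simp
  unfold mu
  refine (setLIntegral_mono' measurableSet_Icc hin).trans ?_
  rw [lintegral_add_left measurable_const, setLIntegral_const, Real.volume_Icc, sub_zero,
    lintegral_indicator_const measurableSet_Icc, Measure.restrict_apply measurableSet_Icc]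
  have hvol : volume (J ∩ Icc (0 : ℝ) T) ≤ ENNReal.ofReal ((T + 4) * min 1 (‖y‖ / r)) := by
    rcases le_total 1 (‖y‖ / r) with h1 | h1
    · rw [min_eq_left h1]
      refine (measure_mono inter_subset_right).trans ?_
      rw [Real.volume_Icc]
      exact ENNReal.ofReal_le_ofReal (by linarith)
    · rw [min_eq_right h1]
      refine (measure_mono inter_subset_left).trans ?_
      rw [hJ, Real.volume_Icc]
      refine ENNReal.ofReal_le_ofReal ?_
      have : 0 ≤ ‖y‖ / r := by positivity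
      have e : 2 * ‖y‖ / r = 2 * (‖y‖ / r) := by ring
      rw [e]
      nlinarith
  have e1 : B * (ENNReal.ofReal K * gg α y) * ENNReal.ofReal (C₀ * r ^ (-α)) * ENNReal.ofReal T =
      ENNReal.ofReal K₁ * gg α y * (B * ENNReal.ofReal (r ^ (-α))) := by
    rw [hK₁, ENNReal.ofReal_mul (by positivity), ENNReal.ofReal_mul (by positivity),
      ENNReal.ofReal_mul hK0]
    ring
  have e2 : ENNReal.ofReal K₂ * gg α y * M * ENNReal.ofReal ((T + 4) * min 1 (‖y‖ / r)) =
      ENNReal.ofReal (K₂ * (T + 4)) * gg α y * (M * ENNReal.ofReal (min 1 (‖y‖ / r))) := by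
    rw [ENNReal.ofReal_mul (p := T + 4) (by positivity), ENNReal.ofReal_mul (q := T + 4) hK₂0]
    ring
  rw [e1, mul_add]
  refine add_le_add ?_ ((mul_le_mul_right hvol _).trans (e2.le.trans ?_))
  · gcongr
    exact le_add_of_nonneg_right (by positivity)
  · gcongr
    exact le_add_of_nonneg_left hK₁0

end Pool.Agent.Lib.MP_bd80ac_an
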