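import Pool.Agent.Lib.MP_bd80ac_an.Basic

set_option autoImplicit false

namespace Pool.Agent.Lib.MP_bd80ac_an

open MeasureTheory Set Filter Topology
open scoped Real ENNReal RealInnerProductSpace

variable {E : Type*} [NormedAddCommGroup E] [InnerProductSpace ℝ E] [FiniteDimensional ℝ E]
  [MeasurableSpace E] [BorelSpace E]

omit [InnerProductSpace ℝ E] [FiniteDimensional ℝ E] in
theorem measurableSet_far (r : ℝ) : MeasurableSet {w : E | r ≤ ‖w‖} :=
  measurableSet_le measurable_const measurable_norm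

omit [FiniteDimensional ℝ E] [MeasurableSpace E] [BorelSpace E] in
theorem continuous_Tt : Continuous fun x : ℝ × (E × E) => Tt x.1 x.2 := by
  unfold Tt
  fun_prop

omit [FiniteDimensional ℝ E] [MeasurableSpace E] [BorelSpace E] in
theorem Tt_sub (τ : ℝ) (z u : E × E) : Tt τ (z - u) = Tt τ z - Tt τ u := by
  simp only [Tt, Prod.fst_sub, Prod.snd_sub, smul_sub]
  abel

omit [FiniteDimensional ℝ E] [MeasurableSpace E] [BorelSpace E] in
theorem Tt_smul (τ c : ℝ) (z : E × E) : Tt τ (c • z) = c • Tt τ z := by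
  simp only [Tt, Prod.smul_fst, Prod.smul_snd, smul_sub, smul_comm τ c]

omit [FiniteDimensional ℝ E] [MeasurableSpace E] [BorelSpace E] in
theorem norm_Tt_le {T τ : ℝ} (hτ : τ ∈ Icc (0 : ℝ) T) (z : E × E) :
    ‖Tt τ z‖ ≤ (1 + T) * ‖z‖ := by
  have h1 : ‖z.1‖ ≤ ‖z‖ := norm_fst_le z
  have h2 : ‖z.2‖ ≤ ‖z‖ := norm_snd_le z
  calc ‖Tt τ z‖ ≤ ‖z.1‖ + ‖τ • z.2‖ := norm_sub_le _ _
    _ = ‖z.1‖ + τ * ‖z.2‖ := by rw [norm_smul, Real.norm_of_nonneg hτ.1]
    _ ≤ ‖z‖ + T * ‖z‖ := by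
      gcongr
      · exact hτ.1.trans hτ.2
      · exact hτ.2
    _ = (1 + T) * ‖z‖ := by ring

omit [FiniteDimensional ℝ E] [MeasurableSpace E] [BorelSpace E] in
theorem nn_ne_top (α : ℝ) (w : E) : nn α w ≠ ∞ := ENNReal.ofReal_ne_top

theorem measurable_SS (α T r : ℝ) {f : E × E → ℝ≥0∞} (hf : Measurable f) :
    Measurable (SS α T r f) := by
  unfold SS
  refine Measurable.lintegral_prod_right' (f := fun x : (E × E) × ℝ =>
    ∫⁻ w in {w : E | r ≤ ‖w‖}, nn α w * f (x.1.1 - x.2 • w, x.1.2 - w)) ?_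
  refine Measurable.lintegral_prod_right' (f := fun x : ((E × E) × ℝ) × E =>
    nn α x.2 * f (x.1.1.1 - x.1.2 • x.2, x.1.1.2 - x.2)) ?_
  exact ((measurable_nn α).comp measurable_snd).mul (hf.comp (by fun_prop))

theorem measurable_Mg {f : E × E → ℝ≥0∞} (hf : Measurable f) :
    Measurable fun x : ℝ × E => Mg x.1 f x.2 := by
  unfold Mg
  refine Measurable.lintegral_prod_right' (f := fun x : (ℝ × E) × E =>
    f (x.1.2 + x.1.1 • x.2, x.2)) ?_
  exact hf.comp (by fun_prop)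

theorem measurable_Mg' (τ : ℝ) {f : E × E → ℝ≥0∞} (hf : Measurable f) : Measurable (Mg τ f) :=
  (measurable_Mg hf).comp (measurable_const.prodMk measurable_id)

theorem SS_mono (α T r : ℝ) {f g : E × E → ℝ≥0∞} (h : ∀ z, f z ≤ g z) (z : E × E) :
    SS α T r f z ≤ SS α T r g z := by
  unfold SS
  gcongr with τ w
  exact h _

theorem SS_add (α T r : ℝ) {f : E × E → ℝ≥0∞} (hf : Measurable f) (g : E × E → ℝ≥0∞)
    (z : E × E) : SS α T r (fun u => f u + g u) z = SS α T r f z + SS α T r g z := by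
  unfold SS
  rw [← lintegral_add_left]
  · refine lintegral_congr fun τ => ?_
    rw [← lintegral_add_left]
    · simp only [mul_add]
    · exact (measurable_nn α).mul (hf.comp (by fun_prop))
  · refine Measurable.lintegral_prod_right' (f := fun x : ℝ × E =>
      nn α x.2 * f (z.1 - x.1 • x.2, z.2 - x.2)) ?_
    exact ((measurable_nn α).comp measurable_snd).mul (hf.comp (by fun_prop))

theorem Mg_mono (τ : ℝ) {f g : E × E → ℝ≥0∞} (h : ∀ z, f z ≤ g z) (y : E) :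
    Mg τ f y ≤ Mg τ g y := lintegral_mono fun _ => h _

theorem Mg_add (τ : ℝ) {f : E × E → ℝ≥0∞} (hf : Measurable f) (g : E × E → ℝ≥0∞) (y : E) :
    Mg τ (fun u => f u + g u) y = Mg τ f y + Mg τ g y := by
  unfold Mg
  rw [← lintegral_add_left]
  exact hf.comp (by fun_prop)

theorem lint_jump (τ : ℝ) (f : E × E → ℝ≥0∞) (z : E × E) :
    ∫⁻ w, f (z.1 - τ • w, z.2 - w) = Mg τ f (Tt τ z) := by
  unfold Mg
  rw [← lintegral_sub_left_eq_self (fun u => f (Tt τ z + τ • u, u)) z.2]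
  refine lintegral_congr fun w => ?_
  congr 2
  simp only [Tt, smul_sub]
  abel

omit [FiniteDimensional ℝ E] [MeasurableSpace E] [BorelSpace E] in
theorem nn_le {α r : ℝ} (hc : 0 ≤ cc (dm E) α) (hβ : 0 ≤ dm E + α) (hr : 0 < r) {w : E}
    (hw : r ≤ ‖w‖) : nn α w ≤ ENNReal.ofReal (cc (dm E) α * r ^ (-(dm E + α))) := by
  unfold nn
  refine ENNReal.ofReal_le_ofReal (mul_le_mul_of_nonneg_left ?_ hc)
  exact Real.rpow_le_rpow_of_nonpos hr hw (by linarith)

omit [FiniteDimensional ℝ E] [MeasurableSpace E] [BorelSpace E] in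
theorem le_nn {α r : ℝ} (hc : 0 ≤ cc (dm E) α) (hβ : 0 ≤ dm E + α) {w : E} (hw0 : 0 < ‖w‖)
    (hw : ‖w‖ ≤ r) : ENNReal.ofReal (cc (dm E) α * r ^ (-(dm E + α))) ≤ nn α w := by
  unfold nn
  refine ENNReal.ofReal_le_ofReal (mul_le_mul_of_nonneg_left ?_ hc)
  exact Real.rpow_le_rpow_of_nonpos hw0 hw (by linarith)

theorem SS_le_Mg {α T r : ℝ} (hc : 0 ≤ cc (dm E) α) (hβ : 0 ≤ dm E + α) (hr : 0 < r)
    (f : E × E → ℝ≥0∞) (z : E × E) :
    SS α T r f z ≤ ENNReal.ofReal (cc (dm E) α * r ^ (-(dm E + α))) *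
      ∫⁻ τ in Icc (0 : ℝ) T, Mg τ f (Tt τ z) := by
  unfold SS
  rw [← lintegral_const_mul' _ _ ENNReal.ofReal_ne_top]
  refine lintegral_mono fun τ => ?_
  rw [← lint_jump, ← lintegral_const_mul' _ _ ENNReal.ofReal_ne_top]
  refine le_trans ?_ (setLIntegral_le_lintegral {w : E | r ≤ ‖w‖} _)
  refine setLIntegral_mono' (measurableSet_far r) fun w hw => ?_
  exact mul_le_mul_left (nn_le hc hβ hr hw) _

theorem Mg_SS (α T r τ : ℝ) {f : E × E → ℝ≥0∞} (hf : Measurable f) (y : E) :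
    Mg τ (SS α T r f) y = mu α T r τ (Mg τ f) y := by
  unfold Mg SS mu
  have hm : Measurable fun x : (E × ℝ) × E =>
      nn α x.2 * f (y + τ • x.1.1 - x.1.2 • x.2, x.1.1 - x.2) :=
    ((measurable_nn α).comp measurable_snd).mul (hf.comp (by fun_prop))
  rw [lintegral_lintegral_swap (Measurable.lintegral_prod_right' hm).aemeasurable]
  refine lintegral_congr fun σ => ?_
  rw [lintegral_lintegral_swap]
  · refine lintegral_congr fun w => ?_
    rw [lintegral_const_mul' _ _ (nn_ne_top α w)]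
    congr 1
    rw [← lintegral_add_right_eq_self _ w]
    refine lintegral_congr fun u => ?_
    congr 2
    · simp only [smul_add, sub_smul]
      abel
    · simp
  · exact (hm.comp (f := fun x : E × E => ((x.1, σ), x.2)) (by fun_prop)).aemeasurable

theorem lint_Mg (τ : ℝ) {f : E × E → ℝ≥0∞} (hf : Measurable f) :
    ∫⁻ y, Mg τ f y = ∫⁻ z, f z := by
  unfold Mg
  have hm : Measurable (Function.uncurry fun y u : E => f (y + τ • u, u)) :=
    hf.comp (f := fun x : E × E => (x.1 + τ • x.2, x.2)) (by fun_prop)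
  rw [lintegral_lintegral_swap hm.aemeasurable, Measure.volume_eq_prod,
    lintegral_prod_symm _ hf.aemeasurable]
  refine lintegral_congr fun u => ?_
  exact lintegral_add_right_eq_self (fun y => f (y, u)) (τ • u)

theorem nn_tail [Nontrivial E] {α : ℝ} (h0 : 0 < α) (hc : 0 ≤ cc (dm E) α) :
    ∃ C : ℝ, 0 ≤ C ∧ ∀ r : ℝ, 0 < r →
      ∫⁻ w in {w : E | r ≤ ‖w‖}, nn α w ≤ ENNReal.ofReal (C * r ^ (-α)) := by
  obtain ⟨C, hC, h⟩ := tail_pow (E := E) h0
  refine ⟨cc (dm E) α * C, mul_nonneg hc hC, fun r hr => ?_⟩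
  unfold nn
  simp only [ENNReal.ofReal_mul hc, mul_assoc]
  rw [lintegral_const_mul' _ _ ENNReal.ofReal_ne_top]
  exact mul_le_mul_right (h r hr) _

theorem SS_le_const [Nontrivial E] {α T : ℝ} (h0 : 0 < α) (hc : 0 ≤ cc (dm E) α) (hT : 0 < T) :
    ∃ C : ℝ, 0 ≤ C ∧ ∀ r : ℝ, 0 < r → ∀ (f : E × E → ℝ≥0∞) (z : E × E) (B : ℝ≥0∞),
      (∀ τ ∈ Icc (0 : ℝ) T, ∀ w, f (z.1 - τ • w, z.2 - w) ≤ B) →
        SS α T r f z ≤ B * ENNReal.ofReal (C * r ^ (-α)) := by
  obtain ⟨C, hC, h⟩ := nn_tail (E := E) h0 hc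
  refine ⟨T * C, by positivity, fun r hr f z B hB => ?_⟩
  unfold SS
  calc _ ≤ ∫⁻ _ in Icc (0 : ℝ) T, B * ENNReal.ofReal (C * r ^ (-α)) := by
        refine setLIntegral_mono' measurableSet_Icc fun τ hτ => ?_
        calc _ ≤ ∫⁻ w in {w : E | r ≤ ‖w‖}, B * nn α w := by
              refine lintegral_mono fun w => ?_
              rw [mul_comm]
              exact mul_le_mul_left (hB τ hτ w) _
          _ = B * ∫⁻ w in {w : E | r ≤ ‖w‖}, nn α w := lintegral_const_mul _ (measurable_nn α)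
          _ ≤ _ := mul_le_mul_right (h r hr) _
    _ = _ := by
        rw [setLIntegral_const, Real.volume_Icc, sub_zero, mul_assoc, mul_assoc T,
          ENNReal.ofReal_mul hT.le, mul_comm (ENNReal.ofReal T)]

end Pool.Agent.Lib.MP_bd80ac_an
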