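import Pool.Agent.Lib.MP_bd80ac_an.RegF2

set_option autoImplicit false

namespace Pool.Agent.Lib.MP_bd80ac_an

open MeasureTheory Set Filter Topology
open scoped Real ENNReal RealInnerProductSpace

variable {E : Type*} [NormedAddCommGroup E] [InnerProductSpace ℝ E] [FiniteDimensional ℝ E]
  [MeasurableSpace E] [BorelSpace E]

theorem exp_int {α m : ℝ} (h0 : 0 < α) (hm : 0 < m) :
    ∫ w : E, Real.exp (-(m * ‖w‖ ^ α)) =
      m ^ (-(dm E / α)) * (π ^ (dm E / 2) / Real.Gamma (dm E / 2 + 1) *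
        Real.Gamma (dm E / α + 1)) := by
  have hD := dm_nonneg (E := E)
  have h1 := measure_unitBall_eq_integral_div_gamma (volume : Measure E) h0
  have h2 := measure_unitBall_eq_integral_div_gamma (volume : Measure E) two_pos
  have h3 := GaussianFourier.integral_rexp_neg_mul_sq_norm (V := E) one_pos
  have g1 : 0 < Real.Gamma (dm E / α + 1) := Real.Gamma_pos_of_pos (by positivity)
  have g2 : 0 < Real.Gamma (dm E / 2 + 1) := Real.Gamma_pos_of_pos (by positivity)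
  simp only [neg_mul, one_mul, div_one] at h3
  simp only [Real.rpow_two] at h2
  rw [h3, h1] at h2
  replace h2 := (ENNReal.ofReal_eq_ofReal_iff
    (div_nonneg (integral_nonneg fun _ => (Real.exp_pos _).le) g1.le)
    (div_nonneg (by positivity) g2.le)).mp h2
  have h4 := stab_scale (E := E) h0 hm 0
  simp only [stab, FR, smul_zero, inner_zero_left, Real.cos_zero, one_mul] at h4
  rw [mul_left_comm, mul_right_inj' (by positivity)] at h4
  rw [h4]
  congr 1
  exact (div_eq_iff g1.ne').mp h2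

/-- The constant of the line integral. -/
noncomputable def kap (D α : ℝ) : ℝ :=
  Real.Gamma ((D - 1) / α + 1) / ((4 * π) ^ ((D - 1) / 2) * Real.Gamma ((D + 1) / 2))

theorem line_unit [Nontrivial E] {α m : ℝ} (h0 : 0 < α) (h2 : α < 2) (hm : 0 < m) (e : E)
    (he : ‖e‖ = 1) : ∫⁻ u : ℝ, ENNReal.ofReal (stab α m (u • e)) =
      ENNReal.ofReal (m ^ (-((dm E - 1) / α)) * kap (dm E) α) := by
  have he0 : e ≠ 0 := by rintro rfl; simp at he
  obtain ⟨k, hk⟩ : ∃ k, Module.finrank ℝ E = k + 1 :=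
    ⟨_, (Nat.succ_pred_eq_of_pos Module.finrank_pos).symm⟩
  have hk' : Module.finrank ℝ (ℝ ∙ e)ᗮ = k := by
    have : Fact (Module.finrank ℝ E = k + 1) := ⟨hk⟩
    exact Submodule.finrank_orthogonal_span_singleton he0
  have hΘ : MeasurePreserving (fun x : (ℝ ∙ e)ᗮ × ℝ => x.2 • e + (x.1 : E))
      (volume.prod volume) volume := by
    have a1 := (ℝ ∙ e).orthogonalDecomposition.symm.measurePreserving
    have a2 := WithLp.volume_preserving_toLp (ℝ ∙ e) (ℝ ∙ e)ᗮ
    have a3 := (LinearIsometryEquiv.toSpanUnitSingleton (𝕜 := ℝ) e he).measurePreserving.prod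
      (MeasurePreserving.id (volume : Measure (ℝ ∙ e)ᗮ))
    have a4 := Measure.measurePreserving_swap (μ := (volume : Measure (ℝ ∙ e)ᗮ))
      (ν := (volume : Measure ℝ))
    exact (a1.comp a2).comp (a3.comp a4)
  have hin : ∀ w : (ℝ ∙ e)ᗮ, ⟪e, (w : E)⟫ = 0 := fun w =>
    Submodule.inner_right_of_mem_orthogonal (Submodule.mem_span_singleton_self e) w.2
  have hnorm : ∀ (w : (ℝ ∙ e)ᗮ) (ξ : ℝ), ‖w‖ ≤ ‖ξ • e + (w : E)‖ := by
    intro w ξ
    refine (abs_le_of_sq_le_sq' ?_ (norm_nonneg _)).2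
    rw [norm_add_sq_real, real_inner_smul_left, hin, Submodule.coe_norm]
    nlinarith [sq_nonneg ‖ξ • e‖]
  have hint := integrable_exp_neg (volume : Measure E) hm h0
  have hcont : Continuous fun y : E => Real.exp (-(m * ‖y‖ ^ α)) :=
    ((continuous_norm.rpow_const fun _ => Or.inr h0.le).const_mul m).neg.rexp
  have hI : ∀ u : ℝ, stab α m (u • e) = ((2 * π) ^ Module.finrank ℝ E)⁻¹ *
      ∫ w : (ℝ ∙ e)ᗮ, ∫ ξ : ℝ, Real.cos (0 + ⟪u, ξ⟫) *
        Real.exp (-(m * ‖ξ • e + (w : E)‖ ^ α)) := by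
    intro u
    have hi : Integrable fun y : E => Real.cos ⟪u • e, y⟫ * Real.exp (-(m * ‖y‖ ^ α)) :=
      hint.bdd_mul (c := 1) (by fun_prop) (ae_of_all _ fun _ => Real.abs_cos_le_one _)
    rw [stab, FR, ← hΘ.map_eq, integral_map hΘ.measurable.aemeasurable
      (by rw [hΘ.map_eq]; exact hi.aestronglyMeasurable)]
    congr 1
    refine (integral_prod _ (hΘ.integrable_comp_of_integrable hi)).trans ?_
    refine integral_congr_ae (ae_of_all _ fun w => integral_congr_ae (ae_of_all _ fun ξ => ?_))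
    simp only [Function.comp, inner_add_right, real_inner_smul_left, real_inner_smul_right, hin,
      real_inner_self_eq_norm_sq, he]
    simp [mul_comm]
  have hpi : (0 : ℝ) < ((2 * π) ^ Module.finrank ℝ E)⁻¹ := by positivity
  have key := marg_gen (E := ℝ) (volume : Measure (ℝ ∙ e)ᗮ) (fun _ => 0) measurable_const
    (fun w ξ => Real.exp (-(m * ‖ξ • e + (w : E)‖ ^ α))) (hcont.measurable.comp hΘ.measurable)
    (hΘ.integrable_comp_of_integrable hint) (fun w => Real.exp (-(m * ‖w‖ ^ α)))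
    (integrable_exp_neg volume hm h0) (fun w ξ => by
      rw [abs_of_pos (Real.exp_pos _)]
      have := hnorm w ξ
      gcongr) (fun w => (hcont.comp (by fun_prop)).continuousAt) (fun u => by
      have := (stab_pos h0 h2 hm (u • e)).le
      rw [hI] at this
      exact nonneg_of_mul_nonneg_right this hpi)
  simp only [hI, ENNReal.ofReal_mul hpi.le]
  rw [lintegral_const_mul' _ _ ENNReal.ofReal_ne_top, key, ← ENNReal.ofReal_mul hpi.le]
  congr 1
  simp only [Real.cos_zero, one_mul, zero_smul, zero_add, Module.finrank_self, pow_one]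
  have h5 := exp_int (E := (ℝ ∙ e)ᗮ) h0 hm
  simp only [Submodule.coe_norm] at h5
  have d1 : dm (ℝ ∙ e)ᗮ = k := by rw [dm, hk']
  have d2 : dm E = k + 1 := by rw [dm, hk]; push_cast; ring
  rw [h5, d1, d2, hk, kap, add_sub_cancel_right, show ((k : ℝ) + 1 + 1) / 2 = k / 2 + 1 by ring]
  have g2 : 0 < Real.Gamma ((k : ℝ) / 2 + 1) := Real.Gamma_pos_of_pos (by positivity)
  have e1 : (2 * π) ^ k = (4 * π) ^ ((k : ℝ) / 2) * π ^ ((k : ℝ) / 2) := by
    rw [← Real.mul_rpow (by positivity) (by positivity),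
      show 4 * π * π = (2 * π) ^ (2 : ℝ) by rw [Real.rpow_two]; ring,
      ← Real.rpow_mul (by positivity), ← Real.rpow_natCast]
    congr 1
    ring
  rw [pow_succ, e1]
  field_simp

theorem dm_real : dm ℝ = 1 := by simp [dm]

theorem line_int [Nontrivial E] {α m : ℝ} (h0 : 0 < α) (h2 : α < 2) (hm : 0 < m) (v : E)
    (hv : v ≠ 0) : ∫⁻ u : ℝ, ENNReal.ofReal (stab α m (u • v)) =
      ENNReal.ofReal (‖v‖⁻¹ * (m ^ (-((dm E - 1) / α)) * kap (dm E) α)) := by
  have hv' : 0 < ‖v‖ := norm_pos_iff.mpr hv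
  have h1 := lint_scale (fun u : ℝ => ENNReal.ofReal (stab α m (u • ‖v‖⁻¹ • v))) 0
    (c := -‖v‖) (by linarith)
  rw [line_unit h0 h2 hm _ (by rw [norm_smul, norm_inv, norm_norm, inv_mul_cancel₀ hv'.ne']),
    dm_real, abs_neg, abs_of_pos hv', Real.rpow_neg_one, ← ENNReal.ofReal_mul (by positivity)] at h1
  rw [← h1]
  refine lintegral_congr fun u => ?_
  simp only [smul_eq_mul, neg_mul, zero_sub, neg_neg, smul_smul]
  congr 3
  field_simp

theorem stab_neg (α m : ℝ) (y : E) : stab α m (-y) = stab α m y := by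
  simp [stab, FR]

theorem half_line (f : ℝ → ℝ≥0∞) (hf : ∀ u, f (-u) = f u) :
    2 * ∫⁻ u in Ioi (0 : ℝ), f u = ∫⁻ u, f u ∧ 2 * ∫⁻ u in Iio (0 : ℝ), f u = ∫⁻ u, f u := by
  have h1 : ∫⁻ u in Iio (0 : ℝ), f u = ∫⁻ u in Ioi (0 : ℝ), f u := by
    rw [← lintegral_indicator measurableSet_Iio, ← lintegral_indicator measurableSet_Ioi,
      ← lintegral_neg_eq_self]
    refine lintegral_congr fun u => ?_
    by_cases hu : 0 < u
    · rw [indicator_of_mem (show -u ∈ Iio 0 from neg_lt_zero.mpr hu),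
        indicator_of_mem (show u ∈ Ioi 0 from hu), hf]
    · rw [indicator_of_notMem (show -u ∉ Iio 0 from fun h => hu (neg_lt_zero.mp h)),
        indicator_of_notMem (show u ∉ Ioi 0 from hu)]
  have h2 := lintegral_add_compl (μ := volume) f (measurableSet_Iio (a := (0 : ℝ)))
  rw [compl_Iio, ← setLIntegral_congr (Ioi_ae_eq_Ici (a := (0 : ℝ))), h1, ← two_mul] at h2
  exact ⟨h2, by rw [h1, h2]⟩

theorem ray_W [Nontrivial E] {α T : ℝ} (h0 : 0 < α) (h2 : α < 2) (hT : 0 < T) {τ₀ : ℝ}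
    (hτ₀ : τ₀ ∈ Icc (0 : ℝ) T) (v : E) (hv : v ≠ 0) :
    Tendsto (fun R : ℝ => ENNReal.ofReal R *
        ∫⁻ τ in Icc (0 : ℝ) T, qq α T τ (Tt τ (R • ((τ₀ • v, v) : E × E)))) atTop
      (𝓝 (∫⁻ u in {u : ℝ | (0 < u ∧ 0 < τ₀) ∨ (u < 0 ∧ τ₀ < T)}, qq α T τ₀ (u • v))) := by
  have hD := one_le_dm (E := E)
  have hv' : 0 < ‖v‖ := norm_pos_iff.mpr hv
  obtain ⟨C₁, C₂, -, hC₂, hq⟩ := qq_bounds (E := E) h0 h2 hT
  have hJ : MeasurableSet {u : ℝ | (0 < u ∧ 0 < τ₀) ∨ (u < 0 ∧ τ₀ < T)} := by measurability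
  have hS : ∀ R : ℝ, MeasurableSet {u : ℝ | τ₀ - u / R ∈ Icc (0 : ℝ) T} := fun R =>
    measurableSet_Icc.preimage (by fun_prop)
  rw [← lintegral_indicator hJ]
  have key : Tendsto (fun R : ℝ => ∫⁻ u : ℝ, {u : ℝ | τ₀ - u / R ∈ Icc (0 : ℝ) T}.indicator
      (fun u => qq α T (τ₀ - u / R) (u • v)) u) atTop (𝓝 (∫⁻ u : ℝ,
      {u : ℝ | (0 < u ∧ 0 < τ₀) ∨ (u < 0 ∧ τ₀ < T)}.indicator (fun u => qq α T τ₀ (u • v)) u)) := by
    refine tendsto_lintegral_filter_of_dominated_convergence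
      (fun u => ENNReal.ofReal C₂ * gg α (u • v)) (Eventually.of_forall fun R => ?_)
      (Eventually.of_forall fun R => ae_of_all _ fun u => ?_) ?_ ?_
    · exact ((measurable_qq h0 hT).comp (f := fun u : ℝ => (τ₀ - u / R, u • v))
        (by fun_prop)).indicator (hS R)
    · by_cases hu : u ∈ {u : ℝ | τ₀ - u / R ∈ Icc (0 : ℝ) T}
      · simp only [indicator_of_mem hu]
        exact (hq _ hu _).2
      · simp only [indicator_of_notMem hu]
        exact zero_le
    · rw [lintegral_const_mul' _ _ ENNReal.ofReal_ne_top]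
      refine ENNReal.mul_ne_top ENNReal.ofReal_ne_top ?_
      have h1 := lint_scale (fun u : ℝ => ENNReal.ofReal ((1 + ‖u‖) ^ (-(dm E + α)))) 0
        (c := ‖v‖) hv'.ne'
      have h3 := finite_integral_one_add_norm (μ := (volume : Measure ℝ)) (r := dm E + α)
        (by simp; linarith)
      refine ne_of_eq_of_ne (Eq.trans (lintegral_congr fun u => ?_) h1)
        (ENNReal.mul_ne_top ENNReal.ofReal_ne_top h3.ne)
      rw [gg, zero_sub, norm_neg, norm_smul, norm_smul, norm_norm, mul_comm]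
    · filter_upwards [Measure.ae_ne volume (0 : ℝ)] with u hu
      have h1 : Tendsto (fun R : ℝ => τ₀ - u / R) atTop (𝓝 τ₀) := by
        simpa using (tendsto_const_nhds (x := τ₀)).sub
          ((tendsto_const_nhds (x := u)).div_atTop tendsto_id)
      by_cases hJu : u ∈ {u : ℝ | (0 < u ∧ 0 < τ₀) ∨ (u < 0 ∧ τ₀ < T)}
      · rw [indicator_of_mem hJu]
        have h3 : Tendsto (fun R : ℝ => qq α T (τ₀ - u / R) (u • v)) atTop
            (𝓝 (qq α T τ₀ (u • v))) := by
          have := ((continuous_stab_mm h0 hT).tendsto (τ₀, u • v)).comp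
            (h1.prodMk_nhds (tendsto_const_nhds (x := u • v)))
          simp only [Function.comp_def] at this
          exact ENNReal.tendsto_ofReal this
        refine h3.congr' ?_
        have h4 : ∀ᶠ R : ℝ in atTop, u ∈ {u : ℝ | τ₀ - u / R ∈ Icc (0 : ℝ) T} := by
          rcases hJu with h | h
          · filter_upwards [h1.eventually (Ici_mem_nhds h.2), eventually_gt_atTop 0] with R a b
            exact ⟨a, by linarith [div_pos h.1 b, hτ₀.2]⟩
          · filter_upwards [h1.eventually (Iic_mem_nhds h.2), eventually_gt_atTop 0] with R a b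
            exact ⟨by linarith [div_neg_of_neg_of_pos h.1 b, hτ₀.1], a⟩
        filter_upwards [h4] with R hR
        exact (indicator_of_mem (s := {u : ℝ | τ₀ - u / R ∈ Icc (0 : ℝ) T}) hR
          (fun u => qq α T (τ₀ - u / R) (u • v))).symm
      · rw [indicator_of_notMem hJu]
        refine tendsto_const_nhds.congr' ?_
        filter_upwards [eventually_gt_atTop 0] with R hR
        refine (indicator_of_notMem (fun h => hJu ?_) _).symm
        rcases lt_or_gt_of_ne hu with h5 | h5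
        · exact Or.inr ⟨h5, by linarith [div_neg_of_neg_of_pos h5 hR, h.2]⟩
        · exact Or.inl ⟨h5, by linarith [div_pos h5 hR, h.1]⟩
  refine key.congr' ?_
  filter_upwards [eventually_gt_atTop 0] with R hR
  have h1 := lint_scale (fun u : ℝ => {u : ℝ | τ₀ - u / R ∈ Icc (0 : ℝ) T}.indicator
    (fun u => qq α T (τ₀ - u / R) (u • v)) u) (R * τ₀) (c := R) hR.ne'
  rw [dm_real, abs_of_pos hR, Real.rpow_neg_one] at h1
  rw [← lintegral_indicator measurableSet_Icc]
  have h3 : ∫⁻ τ : ℝ, (Icc (0 : ℝ) T).indicator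
      (fun τ => qq α T τ (Tt τ (R • ((τ₀ • v, v) : E × E)))) τ =
      ∫⁻ τ : ℝ, {u : ℝ | τ₀ - u / R ∈ Icc (0 : ℝ) T}.indicator
        (fun u => qq α T (τ₀ - u / R) (u • v)) (R * τ₀ - R • τ) := by
    refine lintegral_congr fun τ => ?_
    have e1 : τ₀ - (R * τ₀ - R • τ) / R = τ := by
      rw [smul_eq_mul]
      field_simp
      ring
    have e2 : Tt τ (R • ((τ₀ • v, v) : E × E)) = (R * τ₀ - R • τ) • v := by
      simp only [Tt, Prod.smul_fst, Prod.smul_snd, smul_eq_mul]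
      module
    simp only [indicator, mem_ofPred_eq, e1, e2]
  rw [h3, h1, ← mul_assoc, ← ENNReal.ofReal_mul hR.le, mul_inv_cancel₀ hR.ne',
    ENNReal.ofReal_one, one_mul]

theorem ray_J [Nontrivial E] {α T : ℝ} (h0 : 0 < α) (h2 : α < 2) (hT : 0 < T) {τ₀ : ℝ}
    (hτ₀ : τ₀ ∈ Icc (0 : ℝ) T) (v : E) (hv : v ≠ 0) :
    ∫⁻ u in {u : ℝ | (0 < u ∧ 0 < τ₀) ∨ (u < 0 ∧ τ₀ < T)}, qq α T τ₀ (u • v) =
      ENNReal.ofReal ((if 0 < τ₀ ∧ τ₀ < T then 1 else 1 / 2) *
        (‖v‖⁻¹ * (mm α T τ₀ ^ (-((dm E - 1) / α)) * kap (dm E) α))) := by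
  have h1 := line_int h0 h2 (mm_pos h0 hT τ₀) v hv
  have h3 := half_line (fun u : ℝ => ENNReal.ofReal (stab α (mm α T τ₀) (u • v)))
    (fun u => by simp only [neg_smul, stab_neg])
  have h4 : ∀ X : ℝ≥0∞, 2 * X = ENNReal.ofReal
      (‖v‖⁻¹ * (mm α T τ₀ ^ (-((dm E - 1) / α)) * kap (dm E) α)) → X = ENNReal.ofReal
      (1 / 2 * (‖v‖⁻¹ * (mm α T τ₀ ^ (-((dm E - 1) / α)) * kap (dm E) α))) := by
    intro X hX
    rw [ENNReal.ofReal_mul (by norm_num), ← hX, ← mul_assoc, ← ENNReal.ofReal_ofNat 2,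
      ← ENNReal.ofReal_mul (by norm_num)]
    norm_num
  rw [h1] at h3
  split_ifs with hc
  · rw [one_mul, ← h1]
    refine Eq.trans (setLIntegral_congr ?_) (setLIntegral_univ _)
    filter_upwards [Measure.ae_ne volume (0 : ℝ)] with u hu
    refine propext ⟨fun _ => trivial, fun _ => ?_⟩
    rcases lt_or_gt_of_ne hu with h5 | h5
    · exact Or.inr ⟨h5, hc.2⟩
    · exact Or.inl ⟨h5, hc.1⟩
  · rcases eq_or_lt_of_le hτ₀.1 with h5 | h5
    · have : {u : ℝ | (0 < u ∧ 0 < τ₀) ∨ (u < 0 ∧ τ₀ < T)} = Iio 0 := by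
        ext u
        simp [← h5, hT]
      rw [this]
      exact h4 _ h3.2
    · have h6 : ¬τ₀ < T := fun h => hc ⟨h5, h⟩
      have : {u : ℝ | (0 < u ∧ 0 < τ₀) ∨ (u < 0 ∧ τ₀ < T)} = Ioi 0 := by
        ext u
        simp [h5, h6]
      rw [this]
      exact h4 _ h3.1

end Pool.Agent.Lib.MP_bd80ac_an
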