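import Pool.Agent.Lib.MP_bd80ac_an.Facts

set_option autoImplicit false

namespace Pool.Agent.Lib.MP_bd80ac_an

open MeasureTheory Set Filter Topology
open scoped Real ENNReal RealInnerProductSpace

variable {E : Type*} [NormedAddCommGroup E] [InnerProductSpace ℝ E] [FiniteDimensional ℝ E]
  [MeasurableSpace E] [BorelSpace E]

omit [FiniteDimensional ℝ E] [MeasurableSpace E] [BorelSpace E] in
theorem ra_far {T δ N : ℝ} {z₀ z u : E × E} (hN : 0 < N)
    (hδ : ∀ y : E × E, ‖y - z₀‖ ≤ δ → ∀ τ ∈ Icc (0 : ℝ) T, δ ≤ ‖Tt τ y‖)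
    (hz : ‖N⁻¹ • z - z₀‖ ≤ δ / 2) (hu : ‖u‖ ≤ δ / 2 * N) :
    (∀ τ ∈ Icc (0 : ℝ) T, δ ≤ ‖Tt τ (N⁻¹ • (z - u))‖) ∧
      ∀ τ ∈ Icc (0 : ℝ) T, δ * N ≤ ‖Tt τ (z - u)‖ := by
  have h1 : ‖N⁻¹ • (z - u) - z₀‖ ≤ δ := by
    have e : N⁻¹ • (z - u) - z₀ = N⁻¹ • z - z₀ - N⁻¹ • u := by rw [smul_sub]; abel
    have h2 : ‖N⁻¹ • u‖ ≤ δ / 2 := by
      rw [norm_smul, norm_inv, Real.norm_of_nonneg hN.le, ← div_eq_inv_mul, div_le_iff₀ hN]
      exact hu
    rw [e]
    linarith [norm_sub_le (N⁻¹ • z - z₀) (N⁻¹ • u)]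
  refine ⟨hδ _ h1, fun τ hτ => ?_⟩
  have h3 := hδ _ h1 τ hτ
  rwa [Tt_smul, norm_smul, norm_inv, Real.norm_of_nonneg hN.le, ← div_eq_inv_mul,
    le_div_iff₀ hN] at h3

theorem ra_main [Nontrivial E] {α T : ℝ} (h0 : 0 < α) (h2 : α < 2) (hT : 0 < T) {ι : Type*}
    {l : Filter ι} [l.IsCountablyGenerated] {N : ι → ℝ} {z : ι → E × E} {z₀ : E × E}
    (hN : Tendsto N l atTop) (hz : Tendsto (fun n => (N n)⁻¹ • z n) l (𝓝 z₀))
    (hoff : ∀ τ ∈ Icc (0 : ℝ) T, Tt τ z₀ ≠ 0) {δ ε : ℝ} (hδ0 : 0 < δ)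
    (hδ : ∀ y : E × E, ‖y - z₀‖ ≤ δ → ∀ τ ∈ Icc (0 : ℝ) T, δ ≤ ‖Tt τ y‖) (hε : 0 < ε)
    (hεδ : ε * T ≤ δ) (g : ι → E × E → ℝ≥0∞) (hgm : ∀ᶠ n in l, Measurable (g n))
    (hgle : ∀ᶠ n in l, ∀ u, g n u ≤ pp α T u)
    (hgl : ∀ u, Tendsto (fun n => g n u) l (𝓝 (pp α T u))) :
    Tendsto (fun n => ENNReal.ofReal (N n ^ (2 * (dm E + α))) * SS α T (ε * N n)
      (SS α T (ε * N n) ({u : E × E | ‖u‖ ≤ δ / 2 * N n}.indicator (g n))) (z n)) l
      (𝓝 (Hh α T z₀)) := by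
  obtain ⟨B, hB, hHB⟩ := Hh_le (E := E) (T := T) h0 hδ0
  have hball : ∀ n, MeasurableSet {u : E × E | ‖u‖ ≤ δ / 2 * N n} := fun n =>
    measurableSet_le measurable_norm measurable_const
  have hz' := (tendsto_iff_norm_sub_tendsto_zero.mp hz).eventually (ge_mem_nhds (half_pos hδ0))
  have hH0 : Hh α T z₀ ≤ B := hHB _ (hδ _ (by simpa using hδ0.le))
  have key : Tendsto (fun n => ∫⁻ u, {u : E × E | ‖u‖ ≤ δ / 2 * N n}.indicator (g n) u *
      Hh α T ((N n)⁻¹ • (z n - u))) l (𝓝 (∫⁻ u : E × E, pp α T u * Hh α T z₀)) := by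
    refine tendsto_lintegral_filter_of_dominated_convergence (fun u => pp α T u * B) ?_ ?_ ?_ ?_
    · filter_upwards [hgm] with n hn
      exact (hn.indicator (hball n)).mul ((measurable_Hh α T).comp (by fun_prop))
    · filter_upwards [hgle, hz', hN.eventually_gt_atTop 0] with n hn hzn hN0
      refine ae_of_all _ fun u => ?_
      by_cases hu : u ∈ {u : E × E | ‖u‖ ≤ δ / 2 * N n}
      · simp only [indicator_of_mem hu]
        exact mul_le_mul' (hn u) (hHB _ (ra_far hN0 hδ hzn hu).1)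
      · simp [indicator_of_notMem hu]
    · rw [lintegral_mul_const _ (measurable_pp h0 hT), pp_mass h0 h2 hT, one_mul]
      exact hB
    · refine ae_of_all _ fun u => ?_
      have h1 : Tendsto (fun n => (N n)⁻¹ • (z n - u)) l (𝓝 z₀) := by
        have := hz.sub ((tendsto_inv_atTop_zero.comp hN).smul_const u)
        simpa [smul_sub] using this
      have h3 : Tendsto (fun n => {u : E × E | ‖u‖ ≤ δ / 2 * N n}.indicator (g n) u) l
          (𝓝 (pp α T u)) := by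
        refine (hgl u).congr' ?_
        filter_upwards [(hN.const_mul_atTop (half_pos hδ0)).eventually_ge_atTop ‖u‖] with n hn
        exact (indicator_of_mem (s := {u : E × E | ‖u‖ ≤ δ / 2 * N n}) hn _).symm
      exact ENNReal.Tendsto.mul h3 (Or.inr (ne_top_of_le_ne_top hB hH0))
        (Hh_tendsto h0 hT h1 hoff) (Or.inr ENNReal.ofReal_ne_top)
  rw [lintegral_mul_const _ (measurable_pp h0 hT), pp_mass h0 h2 hT, one_mul] at key
  refine key.congr' ?_
  filter_upwards [hgm, hz', hN.eventually_gt_atTop 0] with n hn hzn hN0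
  rw [SS_SS_eq (cc_pos' h0 h2).le (by positivity) (hn.indicator (hball n)),
    ← lintegral_const_mul' _ _ ENNReal.ofReal_ne_top]
  · refine lintegral_congr fun u => ?_
    rw [Hh_smul α T hN0]
    ring
  · intro u hu τ hτ
    have hu' : u ∈ {u : E × E | ‖u‖ ≤ δ / 2 * N n} := mem_of_indicator_ne_zero hu
    refine le_trans ?_ ((ra_far hN0 hδ hzn hu').2 τ hτ)
    nlinarith

theorem ra_tail [Nontrivial E] {α T : ℝ} (h0 : 0 < α) (h2 : α < 2) (hT : 0 < T) {ι : Type*}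
    {l : Filter ι} [l.IsCountablyGenerated] {R : ι → ℝ} (hR : Tendsto R l atTop) :
    Tendsto (fun n => ∫⁻ u, {u : E × E | ‖u‖ ≤ R n}ᶜ.indicator (pp α T) u) l (𝓝 0) := by
  have h := tendsto_lintegral_filter_of_dominated_convergence (μ := (volume : Measure (E × E)))
    (l := l) (F := fun n u => {u : E × E | ‖u‖ ≤ R n}ᶜ.indicator (pp α T) u) (f := fun _ => 0)
    (pp α T) (Eventually.of_forall fun n => (measurable_pp h0 hT).indicator
      (measurableSet_le measurable_norm measurable_const).compl)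
    (Eventually.of_forall fun n => ae_of_all _ fun u => indicator_le_self _ _ u)
    (by rw [pp_mass h0 h2 hT]; exact ENNReal.one_ne_top) ?_
  · simpa using h
  · refine ae_of_all _ fun u => tendsto_const_nhds.congr' ?_
    filter_upwards [hR.eventually_ge_atTop ‖u‖] with n hn
    exact (indicator_of_notMem (s := {u : E × E | ‖u‖ ≤ R n}ᶜ) (fun h => h hn) _).symm

theorem ra_err [Nontrivial E] {α T : ℝ} (h0 : 0 < α) (h2 : α < 2) (hT : 0 < T) {ι : Type*}
    {l : Filter ι} [l.IsCountablyGenerated] {N : ι → ℝ} {z : ι → E × E}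
    (hN : Tendsto N l atTop) {δ ε η : ℝ} (hδ0 : 0 < δ) (hε : 0 < ε) (hη : 0 < η)
    (hz : ∀ᶠ n in l, ∀ τ ∈ Icc (0 : ℝ) T, δ * N n ≤ ‖Tt τ (z n)‖) :
    Tendsto (fun n => ENNReal.ofReal (N n ^ (2 * (dm E + α))) * SS α T (ε * N n)
      (SS α T (ε * N n) ({u : E × E | ‖u‖ ≤ η * N n}ᶜ.indicator (pp α T))) (z n)) l (𝓝 0) := by
  have hc := (cc_pos' (E := E) h0 h2).le
  have hβ : 0 ≤ dm E + α := by have := dm_nonneg (E := E); linarith
  obtain ⟨C, hC, hmu⟩ := mu_le (E := E) h0 hc hT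
  obtain ⟨C₁, C₂, -, hC₂, hq⟩ := qq_bounds (E := E) h0 h2 hT
  set K : ℝ≥0∞ := ENNReal.ofReal (cc (dm E) α * ε ^ (-(dm E + α)) * δ ^ (-(dm E + α))) *
    (ENNReal.ofReal C * volume (Icc (0 : ℝ) T)) with hK
  have hKne : K ≠ ∞ := ENNReal.mul_ne_top ENNReal.ofReal_ne_top
    (ENNReal.mul_ne_top ENNReal.ofReal_ne_top measure_Icc_lt_top.ne)
  have h1 : Tendsto (fun n => K * (ENNReal.ofReal C₂ * ENNReal.ofReal (1 * (ε * N n) ^ (-α)) +
      ∫⁻ u, {u : E × E | ‖u‖ ≤ η * N n}ᶜ.indicator (pp α T) u)) l (𝓝 0) := by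
    have := ENNReal.Tendsto.const_mul (a := K) ((ENNReal.Tendsto.const_mul (a := ENNReal.ofReal C₂)
      (tendsto_ofReal_rpow (hN.const_mul_atTop hε) 1 h0) (Or.inr ENNReal.ofReal_ne_top)).add
      (ra_tail (E := E) h0 h2 hT (hN.const_mul_atTop hη))) (Or.inr hKne)
    simpa using this
  refine tendsto_of_tendsto_of_tendsto_of_le_of_le' tendsto_const_nhds h1
    (Eventually.of_forall fun _ => zero_le) ?_
  filter_upwards [hz, hN.eventually_gt_atTop 0] with n hzn hN0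
  set f : E × E → ℝ≥0∞ := {u : E × E | ‖u‖ ≤ η * N n}ᶜ.indicator (pp α T) with hf
  have hfm : Measurable f := (measurable_pp h0 hT).indicator
    (measurableSet_le measurable_norm measurable_const).compl
  have hr : 0 < ε * N n := by positivity
  set X : ℝ≥0∞ := ENNReal.ofReal C₂ * ENNReal.ofReal (1 * (ε * N n) ^ (-α)) + ∫⁻ u, f u with hX
  have h3 : ∀ τ ∈ Icc (0 : ℝ) T, Mg τ (SS α T (ε * N n) f) (Tt τ (z n)) ≤
      ENNReal.ofReal C * ENNReal.ofReal ((δ * N n) ^ (-(dm E + α))) * X := by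
    intro τ hτ
    rw [Mg_SS _ _ _ _ hfm]
    refine (hmu _ hr τ hτ (Mg τ f) (ENNReal.ofReal C₂) (∫⁻ u, f u) (fun y => ?_)
      (lint_Mg τ hfm).le _).trans ?_
    · refine (Mg_mono τ (fun u => indicator_le_self _ _ u) y).trans ?_
      rw [pp_marg h0 h2 hT]
      exact (hq τ hτ y).2
    · rw [hX, one_mul]
      gcongr
      · exact gg_le_rpow hβ (by positivity) (hzn τ hτ)
      · refine mul_le_of_le_one_right' ?_
        rw [← ENNReal.ofReal_one]
        exact ENNReal.ofReal_le_ofReal (min_le_left _ _)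
  refine (mul_le_mul_right ((SS_le_Mg hc hβ hr _ _).trans (mul_le_mul_right
    (setLIntegral_mono' measurableSet_Icc h3) _)) _).trans (le_of_eq ?_)
  rw [setLIntegral_const, hK]
  have e : ENNReal.ofReal (cc (dm E) α * ε ^ (-(dm E + α)) * δ ^ (-(dm E + α))) =
      ENNReal.ofReal (N n ^ (2 * (dm E + α))) *
        ENNReal.ofReal (cc (dm E) α * (ε * N n) ^ (-(dm E + α))) *
        ENNReal.ofReal ((δ * N n) ^ (-(dm E + α))) := by
    rw [← ENNReal.ofReal_mul (by positivity), ← ENNReal.ofReal_mul (by positivity),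
      Real.mul_rpow hε.le hN0.le, Real.mul_rpow hδ0.le hN0.le, two_mul (dm E + α),
      Real.rpow_add hN0 (dm E + α), Real.rpow_neg hN0.le]
    congr 1
    have : N n ^ (dm E + α) ≠ 0 := by positivity
    field_simp
  rw [e]
  ring

theorem ra_small {ι : Type*} {l : Filter ι} {N : ι → ℝ} (hN : Tendsto N l atTop) {ε : ℝ}
    (hε : 0 < ε) (A γ : ℝ) :
    Tendsto (fun n => ENNReal.ofReal (N n ^ γ) * ENNReal.ofReal (A * (ε * N n) ^ (-(γ + 1)))) l
      (𝓝 0) := by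
  refine (tendsto_ofReal_rpow hN (A * ε ^ (-(γ + 1))) one_pos).congr' ?_
  filter_upwards [hN.eventually_gt_atTop 0] with n hn
  rw [← ENNReal.ofReal_mul (by positivity), Real.mul_rpow hε.le hn.le,
    show N n ^ (-1 : ℝ) = N n ^ γ * N n ^ (-(γ + 1)) by
      rw [← Real.rpow_add hn]; congr 1; ring]
  congr 1
  ring

/-- Asymptotics of the kernel off the cone. -/
theorem regimeA [Nontrivial E] {α T : ℝ} (h0 : 0 < α) (h2 : α < 2) (hT : 0 < T) {ι : Type*}
    {l : Filter ι} [l.IsCountablyGenerated] {N : ι → ℝ} {z : ι → E × E} {z₀ : E × E}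
    (hN : Tendsto N l atTop) (hz : Tendsto (fun n => (N n)⁻¹ • z n) l (𝓝 z₀))
    (hoff : ∀ τ ∈ Icc (0 : ℝ) T, Tt τ z₀ ≠ 0) :
    Tendsto (fun n => ENNReal.ofReal (N n ^ (2 * (dm E + α))) * (2 * pp α T (z n))) l
      (𝓝 (Hh α T z₀)) := by
  have hc := (cc_pos' (E := E) h0 h2).le
  have hβ : 0 ≤ dm E + α := by have := dm_nonneg (E := E); linarith
  obtain ⟨-, P, A, a, hd⟩ := kin_dec (E := E) h0 h2 hT
  obtain ⟨δ, hδ0, hδ⟩ := off_cone hT hoff
  obtain ⟨L, hL, hdec⟩ := hd.decay1 (K := 2 * (dm E + α) + 1) (by linarith)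
  obtain ⟨C, hC, hS⟩ := SS_le_const (E := E) h0 hc hT
  obtain ⟨ε, hε, hε1, hε2⟩ : ∃ ε : ℝ, 0 < ε ∧ ε * T ≤ δ ∧ (1 + T) * (L * ε) ≤ δ := by
    refine ⟨δ / (T + (1 + T) * L), by positivity, ?_, ?_⟩
    · rw [div_mul_eq_mul_div, div_le_iff₀ (by positivity)]
      nlinarith [mul_pos (add_pos one_pos hT) hL]
    · rw [← mul_assoc, ← mul_div_assoc, div_le_iff₀ (by positivity)]
      nlinarith [mul_pos (add_pos one_pos hT) hL]
  have hr := hN.const_mul_atTop hε
  have hz' := (tendsto_iff_norm_sub_tendsto_zero.mp hz).eventually (ge_mem_nhds (half_pos hδ0))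
  have hfar : ∀ᶠ n in l, ∀ τ ∈ Icc (0 : ℝ) T, δ * N n ≤ ‖Tt τ (z n)‖ := by
    filter_upwards [hz', hN.eventually_gt_atTop 0] with n hn hN0
    simpa using (ra_far (u := 0) hN0 hδ hn (by simp; positivity)).2
  have hlow := ra_main h0 h2 hT hN hz hoff hδ0 hδ hε hε1 (fun n => P (ε * N n))
    ((hr.eventually_ge_atTop 1).mono fun n hn => hd.meas _ hn)
    ((hr.eventually_ge_atTop 1).mono fun n hn => hd.le0 _ hn) (P_tendsto h0 h2 hT hd hr)
  have hup := ra_main h0 h2 hT hN hz hoff hδ0 hδ hε hε1 (fun _ => pp α T)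
    (Eventually.of_forall fun _ => measurable_pp h0 hT) (Eventually.of_forall fun _ _ => le_rfl)
    (fun _ => tendsto_const_nhds)
  have herr := ra_err h0 h2 hT hN hδ0 hε (half_pos hδ0) hfar
  have hsm := ENNReal.Tendsto.const_mul (a := 2 + 2 * ENNReal.ofReal C)
    (ra_small hN hε A (2 * (dm E + α))) (Or.inr (by finiteness))
  have hall := (hsm.add hup).add herr
  rw [mul_zero, zero_add, add_zero] at hall
  refine tendsto_of_tendsto_of_tendsto_of_le_of_le' hlow hall ?_ ?_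
  · filter_upwards [hr.eventually_ge_atTop 1] with n hn
    refine mul_le_mul_right (le_trans ?_ (hd.le2 _ hn _)) _
    exact SS_mono _ _ _ (SS_mono _ _ _ fun u => indicator_le_self _ _ u) _
  · filter_upwards [hr.eventually_ge_atTop 1, hfar, hN.eventually_gt_atTop 0] with n hn hzn hN0
    have hP : ∀ τ ∈ Icc (0 : ℝ) T, ∀ w : E, P (ε * N n) ((z n).1 - τ • w, (z n).2 - w) ≤
        ENNReal.ofReal (A * (ε * N n) ^ (-(2 * (dm E + α) + 1))) := by
      intro τ hτ w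
      refine hdec _ hn _ ?_
      have h1 := norm_Tt_le hτ ((z n).1 - τ • w, (z n).2 - w)
      have e : Tt τ ((z n).1 - τ • w, (z n).2 - w) = Tt τ (z n) := by
        simp only [Tt, smul_sub]
        abel
      rw [e] at h1
      have h3 := hzn τ hτ
      refine le_of_mul_le_mul_left ?_ (add_pos one_pos hT)
      nlinarith [mul_le_mul_of_nonneg_right hε2 hN0.le]
    have h1 : P (ε * N n) (z n) ≤ ENNReal.ofReal (A * (ε * N n) ^ (-(2 * (dm E + α) + 1))) := by
      simpa using hP 0 ⟨le_rfl, hT.le⟩ 0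
    have h3 : SS α T (ε * N n) (P (ε * N n)) (z n) ≤
        ENNReal.ofReal (A * (ε * N n) ^ (-(2 * (dm E + α) + 1))) * ENNReal.ofReal C := by
      refine (hS _ (by positivity) _ _ _ hP).trans (mul_le_mul_right ?_ _)
      refine ENNReal.ofReal_le_ofReal (mul_le_of_le_one_right hC ?_)
      exact Real.rpow_le_one_of_one_le_of_nonpos hn (by linarith)
    have hball : MeasurableSet {u : E × E | ‖u‖ ≤ δ / 2 * N n} :=
      measurableSet_le measurable_norm measurable_const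
    have hm := (measurable_pp (E := E) h0 hT).indicator hball
    have h4 : SS α T (ε * N n) (SS α T (ε * N n) (pp α T)) (z n) =
        SS α T (ε * N n) (SS α T (ε * N n)
          ({u : E × E | ‖u‖ ≤ δ / 2 * N n}.indicator (pp α T))) (z n) +
        SS α T (ε * N n) (SS α T (ε * N n)
          ({u : E × E | ‖u‖ ≤ δ / 2 * N n}ᶜ.indicator (pp α T))) (z n) := by
      rw [← SS_add _ _ _ (measurable_SS _ _ _ hm)]
      congr 1
      funext u
      rw [← SS_add _ _ _ hm]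
      congr 1
      funext u
      exact (indicator_self_add_compl_apply _ _ u).symm
    refine (mul_le_mul_right (hd.ge2 _ hn _) _).trans ?_
    rw [h4, mul_add, mul_add _ (SS _ _ _ _ _), ← add_assoc]
    refine add_le_add (add_le_add ?_ le_rfl) le_rfl
    calc _ ≤ ENNReal.ofReal (N n ^ (2 * (dm E + α))) *
          (2 * ENNReal.ofReal (A * (ε * N n) ^ (-(2 * (dm E + α) + 1))) +
            2 * (ENNReal.ofReal (A * (ε * N n) ^ (-(2 * (dm E + α) + 1))) * ENNReal.ofReal C)) := by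
          gcongr
      _ = _ := by ring

end Pool.Agent.Lib.MP_bd80ac_an
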