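import Pool.Agent.Lib.MP_bd80ac_an.RegB0

set_option autoImplicit false

namespace Pool.Agent.Lib.MP_bd80ac_an

open MeasureTheory Set Filter Topology
open scoped Real ENNReal RealInnerProductSpace

variable {E : Type*} [NormedAddCommGroup E] [InnerProductSpace ℝ E] [FiniteDimensional ℝ E]
  [MeasurableSpace E] [BorelSpace E]

omit [FiniteDimensional ℝ E] [MeasurableSpace E] [BorelSpace E] in
theorem rb_norm {ι : Type*} {l : Filter ι} {N : ι → ℝ} {z : ι → E × E} {z₀ : E × E}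
    (hN : Tendsto N l atTop) (hz : Tendsto (fun n => (N n)⁻¹ • z n) l (𝓝 z₀)) (hv : z₀.2 ≠ 0) :
    ∀ᶠ n in l, ‖z₀.2‖ / 2 * N n ≤ ‖(z n).2‖ ∧ ‖(z n).2‖ ≤ 2 * ‖z₀.2‖ * N n := by
  have hv' : 0 < ‖z₀.2‖ := norm_pos_iff.mpr hv
  have h1 := ((continuous_snd.tendsto z₀).comp hz).norm
  filter_upwards [h1.eventually (Icc_mem_nhds (half_lt_self hv') (lt_two_mul_self hv')),
    hN.eventually_gt_atTop 0] with n hn hN0
  simp only [Function.comp, Prod.smul_snd, norm_smul, norm_inv, Real.norm_of_nonneg hN0.le,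
    ← div_eq_inv_mul] at hn
  exact ⟨(le_div_iff₀ hN0).mp hn.1, (div_le_iff₀ hN0).mp hn.2⟩

theorem F1_ne_top [Nontrivial E] {α T : ℝ} (h0 : 0 < α) (h2 : α < 2) (hT : 0 < T) (z : E × E) :
    F1 α T z ≠ ∞ := by
  have hβ : 0 ≤ dm E + α := by have := dm_nonneg (E := E); linarith
  obtain ⟨C₁, C₂, -, hC₂, hq⟩ := qq_bounds (E := E) h0 h2 hT
  refine ENNReal.mul_ne_top (nn_ne_top α _) (ne_top_of_le_ne_top
    (b := ENNReal.ofReal C₂ * volume (Icc (0 : ℝ) T))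
    (ENNReal.mul_ne_top ENNReal.ofReal_ne_top measure_Icc_lt_top.ne) ?_)
  rw [← setLIntegral_const]
  refine setLIntegral_mono' measurableSet_Icc fun τ hτ => (hq τ hτ _).2.trans ?_
  refine mul_le_of_le_one_right' ?_
  rw [← ENNReal.ofReal_one]
  exact ENNReal.ofReal_le_ofReal (Real.rpow_le_one_of_one_le_of_nonpos
    (le_add_of_nonneg_right (norm_nonneg _)) (by linarith))

theorem rb_scale [Nontrivial E] {α T : ℝ} (h0 : 0 < α) (h2 : α < 2) (hT : 0 < T) {ι : Type*}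
    {l : Filter ι} {N : ι → ℝ} {z : ι → E × E} {z₀ : E × E} (hN : Tendsto N l atTop)
    (hz : Tendsto (fun n => (N n)⁻¹ • z n) l (𝓝 z₀)) (hv : z₀.2 ≠ 0) {X : ι → ℝ≥0∞}
    (hX : Sm l X (fun n => GG α T (z n))) :
    Sm l (fun n => ENNReal.ofReal (N n ^ (-(dm E + α))) * X n) (fun n => F1 α T (z n)) := by
  have hc := cc_pos' (E := E) h0 h2
  have hβ : 0 ≤ dm E + α := by have := dm_nonneg (E := E); linarith
  have hv' : 0 < ‖z₀.2‖ := norm_pos_iff.mpr hv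
  obtain ⟨C₁, C₂, hC₁, -, hq⟩ := qq_bounds (E := E) h0 h2 hT
  refine hX.scale (K := ENNReal.ofReal ((cc (dm E) α * (2 * ‖z₀.2‖) ^ (-(dm E + α)))⁻¹) *
    ENNReal.ofReal C₁) (ENNReal.mul_ne_top ENNReal.ofReal_ne_top ENNReal.ofReal_ne_top) ?_
  filter_upwards [rb_norm hN hz hv, hN.eventually_gt_atTop 0] with n hn hN0
  have h1 : GG α T (z n) ≤ ENNReal.ofReal C₁ * ∫⁻ τ in Icc (0 : ℝ) T, qq α T τ (Tt τ (z n)) := by
    rw [← lintegral_const_mul' _ _ ENNReal.ofReal_ne_top]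
    exact setLIntegral_mono' measurableSet_Icc fun τ hτ => (hq τ hτ _).1
  have h3 : ENNReal.ofReal (N n ^ (-(dm E + α))) ≤
      ENNReal.ofReal ((cc (dm E) α * (2 * ‖z₀.2‖) ^ (-(dm E + α)))⁻¹) * nn α (z n).2 := by
    refine le_trans (le_of_eq ?_) (mul_le_mul_right (le_nn hc.le hβ
      (lt_of_lt_of_le (by positivity) hn.1) hn.2) _)
    rw [← ENNReal.ofReal_mul (by positivity),
      Real.mul_rpow (x := 2 * ‖z₀.2‖) (by positivity) hN0.le]
    congr 1
    field_simp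
  refine (mul_le_mul' h3 h1).trans (le_of_eq ?_)
  rw [F1]
  ring

theorem rb_tail {α T r R : ℝ} {p P : E × E → ℝ≥0∞} (hp : Measurable p) (hP : Measurable P)
    (hge : ∀ z, p z ≤ P z + SS α T r p z) (τ : ℝ) (y : E) :
    Mg τ ({u : E × E | R ≤ ‖u.2‖}.indicator p) y ≤
      (∫⁻ u in {u : E | R ≤ ‖u‖}, P (y + τ • u, u)) + mu α T r τ (Mg τ p) y := by
  have hs : MeasurableSet {u : E × E | R ≤ ‖u.2‖} :=
    measurableSet_le measurable_const (by fun_prop)
  rw [← Mg_SS _ _ _ _ hp, ← lintegral_indicator (measurableSet_far R)]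
  refine le_trans (Mg_mono τ (g := fun u => {u : E × E | R ≤ ‖u.2‖}.indicator P u +
    SS α T r p u) (fun u => ?_) y) (le_of_eq ?_)
  · by_cases hu : u ∈ {u : E × E | R ≤ ‖u.2‖}
    · simp only [indicator_of_mem hu]
      exact hge u
    · simp [indicator_of_notMem hu]
  · rw [Mg_add τ (hP.indicator hs)]
    rfl

theorem rb_up_point {α T r η : ℝ} (hc : 0 ≤ cc (dm E) α) (hβ : 0 ≤ dm E + α) (hr : 0 < r)
    (hη : η < 1) {p : E × E → ℝ≥0∞} (hp : Measurable p) (z : E × E) (hv : 0 < ‖z.2‖) :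
    SS α T r p z ≤ ENNReal.ofReal ((1 - η) ^ (-(dm E + α))) *
        (nn α z.2 * ∫⁻ τ in Icc (0 : ℝ) T, Mg τ p (Tt τ z)) +
      ENNReal.ofReal (cc (dm E) α * r ^ (-(dm E + α))) * ∫⁻ τ in Icc (0 : ℝ) T,
        Mg τ ({u : E × E | η * ‖z.2‖ ≤ ‖u.2‖}.indicator p) (Tt τ z) := by
  have h1η : 0 < 1 - η := by linarith
  have hm : Measurable fun τ : ℝ => Mg τ p (Tt τ z) :=
    (measurable_Mg hp).comp (f := fun τ : ℝ => (τ, Tt τ z))
      (measurable_id.prodMk (measurable_Tt.comp (f := fun τ : ℝ => (τ, z)) (by fun_prop)))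
  have hK : ENNReal.ofReal ((1 - η) ^ (-(dm E + α))) * nn α z.2 ≠ ∞ :=
    ENNReal.mul_ne_top ENNReal.ofReal_ne_top (nn_ne_top α _)
  rw [← mul_assoc, ← lintegral_const_mul' _ _ hK, ← lintegral_const_mul' _ _ ENNReal.ofReal_ne_top,
    ← lintegral_add_left (hm.const_mul _)]
  refine lintegral_mono fun τ => ?_
  have hm2 : Measurable fun w : E => p (z.1 - τ • w, z.2 - w) := hp.comp (by fun_prop)
  rw [← lint_jump, ← lint_jump, ← lintegral_const_mul' _ _ hK,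
    ← lintegral_const_mul' _ _ ENNReal.ofReal_ne_top, ← lintegral_add_left (hm2.const_mul _)]
  refine le_trans ?_ (setLIntegral_le_lintegral {w : E | r ≤ ‖w‖} _)
  refine setLIntegral_mono' (measurableSet_far r) fun w hw => ?_
  by_cases hu : (z.1 - τ • w, z.2 - w) ∈ {u : E × E | η * ‖z.2‖ ≤ ‖u.2‖}
  · rw [indicator_of_mem hu]
    exact le_trans (mul_le_mul_left (nn_le hc hβ hr hw) _) le_add_self
  · refine le_trans (mul_le_mul_left ?_ _) le_self_add
    have h1 : ‖z.2 - w‖ < η * ‖z.2‖ := not_le.mp hu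
    have h3 : (1 - η) * ‖z.2‖ ≤ ‖w‖ := by
      have := norm_add_le (z.2 - w) w
      rw [sub_add_cancel] at this
      linarith
    refine (nn_le hc hβ (by positivity) h3).trans (le_of_eq ?_)
    rw [nn, ← ENNReal.ofReal_mul (by positivity), Real.mul_rpow h1η.le hv.le]
    congr 1
    ring

theorem rb_lo_point {α T r η : ℝ} (hc : 0 ≤ cc (dm E) α) (hβ : 0 ≤ dm E + α) (hr : 0 < r)
    (hη : 0 < η) (P : E × E → ℝ≥0∞) (z : E × E) (hv : 0 < ‖z.2‖) (hrv : r ≤ (1 - η) * ‖z.2‖) :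
    nn α z.2 * ∫⁻ τ in Icc (0 : ℝ) T,
        Mg τ ({u : E × E | η * ‖z.2‖ ≤ ‖u.2‖}ᶜ.indicator P) (Tt τ z) ≤
      ENNReal.ofReal ((1 + η) ^ (dm E + α)) * SS α T r P z := by
  rw [SS, ← lintegral_const_mul' _ _ (nn_ne_top α _),
    ← lintegral_const_mul' _ _ ENNReal.ofReal_ne_top]
  refine lintegral_mono fun τ => ?_
  rw [← lint_jump, ← lintegral_const_mul' _ _ (nn_ne_top α _),
    ← lintegral_const_mul' _ _ ENNReal.ofReal_ne_top, ← lintegral_indicator (measurableSet_far r)]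
  refine lintegral_mono fun w => ?_
  by_cases hu : (z.1 - τ • w, z.2 - w) ∈ {u : E × E | η * ‖z.2‖ ≤ ‖u.2‖}ᶜ
  · have h1 : ‖z.2 - w‖ < η * ‖z.2‖ := not_le.mp hu
    have h3 : r ≤ ‖w‖ := by
      have := norm_add_le (z.2 - w) w
      rw [sub_add_cancel] at this
      linarith
    have h4 : ‖w‖ ≤ (1 + η) * ‖z.2‖ := by
      have := norm_sub_le z.2 (z.2 - w)
      rw [sub_sub_cancel] at this
      linarith
    have hw : w ∈ {w : E | r ≤ ‖w‖} := h3
    simp only [indicator_of_mem hu, indicator_of_mem hw]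
    rw [← mul_assoc]
    refine mul_le_mul_left (le_trans (le_of_eq ?_)
      (mul_le_mul_right (le_nn hc hβ (hr.trans_le h3) h4) _)) _
    rw [nn, ← ENNReal.ofReal_mul (by positivity), Real.mul_rpow (by positivity) hv.le,
      Real.rpow_neg (x := 1 + η) (by positivity)]
    congr 1
    have : (1 + η) ^ (dm E + α) ≠ 0 := by positivity
    field_simp
  · simp [indicator_of_notMem hu]

theorem rb_eta {β κ : ℝ} (hκ : 1 < κ) :
    ∃ η : ℝ, 0 < η ∧ η < 1 ∧ (1 - η) ^ (-β) ≤ κ ∧ (1 + η) ^ β ≤ κ := by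
  have h1 : Tendsto (fun η : ℝ => (1 - η) ^ (-β)) (𝓝 0) (𝓝 1) := by
    have : Tendsto (fun η : ℝ => 1 - η) (𝓝 0) (𝓝 (1 - 0)) := tendsto_const_nhds.sub tendsto_id
    simpa using this.rpow_const (p := -β) (Or.inl (by norm_num))
  have h2 : Tendsto (fun η : ℝ => (1 + η) ^ β) (𝓝 0) (𝓝 1) := by
    have : Tendsto (fun η : ℝ => 1 + η) (𝓝 0) (𝓝 (1 + 0)) := tendsto_const_nhds.add tendsto_id
    simpa using this.rpow_const (p := β) (Or.inl (by norm_num))
  obtain ⟨η, ⟨h3, h4⟩, h5⟩ := ((((h1.eventually (ge_mem_nhds hκ)).and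
    (h2.eventually (ge_mem_nhds hκ))).filter_mono nhdsWithin_le_nhds).and
    (Ioo_mem_nhdsGT (show (0 : ℝ) < 1 from one_pos))).exists
  exact ⟨η, h5.1, h5.2, h3, h4⟩

/-- Asymptotics of the kernel near the cone. -/
theorem regimeB [Nontrivial E] {α T : ℝ} (h0 : 0 < α) (h2 : α < 2) (hT : 0 < T) {ι : Type*}
    {l : Filter ι} {N : ι → ℝ} {z : ι → E × E} {z₀ : E × E}
    (hN : Tendsto N l atTop) (hz : Tendsto (fun n => (N n)⁻¹ • z n) l (𝓝 z₀)) {τ₀ : ℝ}
    (hτ₀ : τ₀ ∈ Icc (0 : ℝ) T) (hon : Tt τ₀ z₀ = 0) (hv : z₀.2 ≠ 0) :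
    Eqv l (fun n => pp α T (z n)) (fun n => F1 α T (z n)) := by
  have hc := cc_pos' (E := E) h0 h2
  have hβ : 0 < dm E + α := by have := dm_nonneg (E := E); linarith
  have hv' : 0 < ‖z₀.2‖ := norm_pos_iff.mpr hv
  obtain ⟨-, P, A, a, hd⟩ := kin_dec (E := E) h0 h2 hT
  obtain ⟨L₁, hL₁, hdec1⟩ := hd.decay1 (K := dm E + α + (dm E + α)) (by linarith)
  obtain ⟨L₂, A₂, hL₂, hA₂, hdec2⟩ := hd.decay2 hβ
  have hG := rb_G h0 hT hN hz hτ₀ hon
  have hpm := measurable_pp (E := E) h0 hT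
  have hnorm := rb_norm hN hz hv
  have hε : ∀ η : ℝ, 0 < η → η < 1 → ∃ ε : ℝ, 0 < ε ∧ L₁ * ε ≤ ‖z₀.2‖ / 2 ∧
      L₂ * ε ≤ η * (‖z₀.2‖ / 2) ∧ ε ≤ (1 - η) * (‖z₀.2‖ / 2) := by
    intro η h1 h3
    have h4 : 0 < 1 - η := by linarith
    refine ⟨min (‖z₀.2‖ / 2 / L₁) (min (η * (‖z₀.2‖ / 2) / L₂) ((1 - η) * (‖z₀.2‖ / 2))),
      by positivity, ?_, ?_, (min_le_right _ _).trans (min_le_right _ _)⟩
    · rw [← le_div_iff₀' hL₁]
      exact min_le_left _ _
    · rw [← le_div_iff₀' hL₂]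
      exact (min_le_right _ _).trans (min_le_left _ _)
  have hErr : ∀ ε : ℝ, 0 < ε → Sm l (fun n => ENNReal.ofReal (A₂ * ε ^ (-(dm E + α))) *
      volume (Icc (0 : ℝ) T) * ENNReal.ofReal (N n ^ (-(dm E + α))) +
      ∫⁻ τ in Icc (0 : ℝ) T, mu α T (ε * N n) τ (qq α T τ) (Tt τ (z n)))
      (fun n => GG α T (z n)) := fun ε hε =>
    (hG.const_mul (ENNReal.mul_ne_top ENNReal.ofReal_ne_top measure_Icc_lt_top.ne)).add
      (rb_mu h0 h2 hT hN hG hε)
  have hint : ∀ ε η : ℝ, 0 < ε → L₂ * ε ≤ η * (‖z₀.2‖ / 2) → 0 < η → ∀ᶠ n in l,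
      ∫⁻ τ in Icc (0 : ℝ) T, ((∫⁻ u in {u : E | η * ‖(z n).2‖ ≤ ‖u‖},
        P (ε * N n) (Tt τ (z n) + τ • u, u)) + mu α T (ε * N n) τ (qq α T τ) (Tt τ (z n))) ≤
      ENNReal.ofReal (A₂ * ε ^ (-(dm E + α))) * volume (Icc (0 : ℝ) T) *
        ENNReal.ofReal (N n ^ (-(dm E + α))) +
      ∫⁻ τ in Icc (0 : ℝ) T, mu α T (ε * N n) τ (qq α T τ) (Tt τ (z n)) := by
    intro ε η hε hε2 hη
    filter_upwards [hnorm, (hN.const_mul_atTop hε).eventually_ge_atTop 3,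
      hN.eventually_gt_atTop 0] with n hn hr hN0
    calc _ ≤ ∫⁻ τ in Icc (0 : ℝ) T, (ENNReal.ofReal (A₂ * (ε * N n) ^ (-(dm E + α))) +
          mu α T (ε * N n) τ (qq α T τ) (Tt τ (z n))) := by
          refine lintegral_mono fun τ => add_le_add (le_trans (lintegral_mono_set ?_)
            (hdec2 _ hr τ _)) le_rfl
          intro u hu
          have hu' : η * ‖(z n).2‖ ≤ ‖u‖ := hu
          change L₂ * (ε * N n) ≤ ‖u‖
          nlinarith [mul_le_mul_of_nonneg_right hε2 hN0.le, mul_le_mul_of_nonneg_left hn.1 hη.le]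
      _ = _ := by
          rw [lintegral_add_left measurable_const, setLIntegral_const, Real.mul_rpow hε.le hN0.le,
            ← mul_assoc, ENNReal.ofReal_mul (by positivity)]
          ring
  refine eqv_of_approx (fun n => F1_ne_top h0 h2 hT _) (fun κ hκ => ?_) (fun κ hκ => ?_)
  · obtain ⟨η, hη0, hη1, hηa, -⟩ := rb_eta (β := dm E + α) hκ
    obtain ⟨ε, hε0, hε1, hε2, -⟩ := hε η hη0 hη1
    refine ⟨_, rb_scale h0 h2 hT hN hz hv ((hG.const_mul
      (K := ENNReal.ofReal (A * ε ^ (-(dm E + α + (dm E + α))))) ENNReal.ofReal_ne_top).add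
      ((hErr ε hε0).const_mul (K := ENNReal.ofReal (cc (dm E) α * ε ^ (-(dm E + α))))
        ENNReal.ofReal_ne_top)), ?_⟩
    filter_upwards [hnorm, (hN.const_mul_atTop hε0).eventually_ge_atTop 1,
      hN.eventually_gt_atTop 0, hint ε η hε0 hε2 hη0] with n hn hr hN0 hi
    have hvn : 0 < ‖(z n).2‖ := lt_of_lt_of_le (by positivity) hn.1
    have h1 := hdec1 _ hr (z n) (by
      nlinarith [mul_le_mul_of_nonneg_right hε1 hN0.le, norm_snd_le (z n), hn.1])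
    have h3 := rb_up_point (T := T) hc.le hβ.le (show 0 < ε * N n by positivity) hη1 hpm (z n) hvn
    have h4 : ∫⁻ τ in Icc (0 : ℝ) T,
        Mg τ ({u : E × E | η * ‖(z n).2‖ ≤ ‖u.2‖}.indicator (pp α T)) (Tt τ (z n)) ≤ _ :=
      le_trans (lintegral_mono fun τ => by
        have := rb_tail (R := η * ‖(z n).2‖) hpm (hd.meas _ hr) (hd.ge1 _ hr) τ (Tt τ (z n))
        rwa [pp_marg h0 h2 hT] at this) hi
    simp only [pp_marg h0 h2 hT] at h3
    refine (hd.ge1 _ hr _).trans ((add_le_add h1 (h3.trans (add_le_add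
      (mul_le_mul_left (ENNReal.ofReal_le_ofReal hηa) _) (mul_le_mul_right h4 _)))).trans
      (le_of_eq ?_))
    have e1 : ENNReal.ofReal (A * (ε * N n) ^ (-(dm E + α + (dm E + α)))) =
        ENNReal.ofReal (N n ^ (-(dm E + α))) *
          (ENNReal.ofReal (A * ε ^ (-(dm E + α + (dm E + α)))) *
            ENNReal.ofReal (N n ^ (-(dm E + α)))) := by
      have hA := hd.A_nonneg
      rw [← ENNReal.ofReal_mul (by positivity), ← ENNReal.ofReal_mul (by positivity),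
        Real.mul_rpow hε0.le hN0.le, neg_add (dm E + α), Real.rpow_add hN0]
      congr 1
      ring
    have e2 : ENNReal.ofReal (cc (dm E) α * (ε * N n) ^ (-(dm E + α))) =
        ENNReal.ofReal (N n ^ (-(dm E + α))) *
          ENNReal.ofReal (cc (dm E) α * ε ^ (-(dm E + α))) := by
      rw [← ENNReal.ofReal_mul (by positivity), Real.mul_rpow hε0.le hN0.le]
      congr 1
      ring
    rw [e1, e2, F1]
    ring
  · obtain ⟨η, hη0, hη1, -, hηb⟩ := rb_eta (β := dm E + α) hκ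
    obtain ⟨ε, hε0, -, hε2, hε3⟩ := hε η hη0 hη1
    refine ⟨_, rb_scale h0 h2 hT hN hz hv ((hErr ε hε0).const_mul
      (K := ENNReal.ofReal (cc (dm E) α * (‖z₀.2‖ / 2) ^ (-(dm E + α))))
        ENNReal.ofReal_ne_top), ?_⟩
    filter_upwards [hnorm, (hN.const_mul_atTop hε0).eventually_ge_atTop 1,
      hN.eventually_gt_atTop 0, hint ε η hε0 hε2 hη0] with n hn hr hN0 hi
    have hvn : 0 < ‖(z n).2‖ := lt_of_lt_of_le (by positivity) hn.1
    have hs : MeasurableSet {u : E × E | η * ‖(z n).2‖ ≤ ‖u.2‖} :=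
      measurableSet_le measurable_const (by fun_prop)
    have hPm := hd.meas _ hr
    have h3 := rb_lo_point (T := T) hc.le hβ.le (show 0 < ε * N n by positivity) hη0
      (P (ε * N n)) (z n) hvn (by
        nlinarith [mul_le_mul_of_nonneg_right hε3 hN0.le,
          mul_le_mul_of_nonneg_left hn.1 (sub_pos.mpr hη1).le])
    have hm : Measurable fun τ : ℝ => Mg τ ({u : E × E | η * ‖(z n).2‖ ≤ ‖u.2‖}ᶜ.indicator
        (P (ε * N n))) (Tt τ (z n)) :=
      (measurable_Mg (hPm.indicator hs.compl)).comp (f := fun τ : ℝ => (τ, Tt τ (z n)))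
        (measurable_id.prodMk (measurable_Tt.comp (f := fun τ : ℝ => (τ, z n)) (by fun_prop)))
    have h4 : ∫⁻ τ in Icc (0 : ℝ) T, qq α T τ (Tt τ (z n)) ≤
        (∫⁻ τ in Icc (0 : ℝ) T, Mg τ ({u : E × E | η * ‖(z n).2‖ ≤ ‖u.2‖}ᶜ.indicator
          (P (ε * N n))) (Tt τ (z n))) +
        ∫⁻ τ in Icc (0 : ℝ) T, ((∫⁻ u in {u : E | η * ‖(z n).2‖ ≤ ‖u‖},
          P (ε * N n) (Tt τ (z n) + τ • u, u)) +
          mu α T (ε * N n) τ (qq α T τ) (Tt τ (z n))) := by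
      rw [← lintegral_add_left hm]
      refine lintegral_mono fun τ => ?_
      rw [← pp_marg h0 h2 hT, ← Mg_SS _ _ _ _ hpm, ← lintegral_indicator (measurableSet_far _)]
      refine le_trans (Mg_mono τ (g := fun u =>
        {u : E × E | η * ‖(z n).2‖ ≤ ‖u.2‖}ᶜ.indicator (P (ε * N n)) u +
        ({u : E × E | η * ‖(z n).2‖ ≤ ‖u.2‖}.indicator (P (ε * N n)) u +
          SS α T (ε * N n) (pp α T) u)) (fun u => ?_) _) (le_of_eq ?_)
      · rw [← add_assoc, indicator_compl_add_self_apply]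
        exact hd.ge1 _ hr u
      · rw [Mg_add τ (hPm.indicator hs.compl), Mg_add τ (hPm.indicator hs)]
        rfl
    have h5 : nn α (z n).2 ≤ ENNReal.ofReal (N n ^ (-(dm E + α))) *
        ENNReal.ofReal (cc (dm E) α * (‖z₀.2‖ / 2) ^ (-(dm E + α))) := by
      refine (nn_le hc.le hβ.le (by positivity) hn.1).trans (le_of_eq ?_)
      rw [← ENNReal.ofReal_mul (by positivity), Real.mul_rpow (by positivity) hN0.le]
      congr 1
      ring
    rw [F1]
    refine (mul_le_mul_right (h4.trans (add_le_add le_rfl hi)) _).trans ?_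
    rw [mul_add, ← mul_assoc (ENNReal.ofReal (N n ^ (-(dm E + α))))]
    exact add_le_add (h3.trans (mul_le_mul' (ENNReal.ofReal_le_ofReal hηb) (hd.le1 _ hr _)))
      (mul_le_mul_left h5 _)

end Pool.Agent.Lib.MP_bd80ac_an
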