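import Pool.Agent.Lib.MP_bd80ac_an.Facts

set_option autoImplicit false

namespace Pool.Agent.Lib.MP_bd80ac_an

open MeasureTheory Set Filter Topology
open scoped Real ENNReal RealInnerProductSpace

variable {E : Type*} [NormedAddCommGroup E] [InnerProductSpace ℝ E] [FiniteDimensional ℝ E]
  [MeasurableSpace E] [BorelSpace E]

/-- `X` is negligible compared with `G`. -/
def Sm {ι : Type*} (l : Filter ι) (X G : ι → ℝ≥0∞) : Prop :=
  ∀ c : ℝ, 0 < c → ∀ᶠ n in l, X n ≤ ENNReal.ofReal c * G n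

theorem Sm.add {ι : Type*} {l : Filter ι} {X Y G : ι → ℝ≥0∞} (hX : Sm l X G) (hY : Sm l Y G) :
    Sm l (fun n => X n + Y n) G := by
  intro c hc
  filter_upwards [hX (c / 2) (half_pos hc), hY (c / 2) (half_pos hc)] with n h1 h2
  refine (add_le_add h1 h2).trans (le_of_eq ?_)
  rw [← add_mul, ← ENNReal.ofReal_add (half_pos hc).le (half_pos hc).le, add_halves]

theorem Sm.mono {ι : Type*} {l : Filter ι} {X Y G : ι → ℝ≥0∞} (hY : Sm l Y G)
    (h : ∀ᶠ n in l, X n ≤ Y n) : Sm l X G := by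
  intro c hc
  filter_upwards [hY c hc, h] with n h1 h2 using h2.trans h1

theorem Sm.const_mul {ι : Type*} {l : Filter ι} {X G : ι → ℝ≥0∞} (hX : Sm l X G) {K : ℝ≥0∞}
    (hK : K ≠ ∞) : Sm l (fun n => K * X n) G := by
  intro c hc
  have h0 : 0 < K.toReal + 1 := by positivity
  filter_upwards [hX (c / (K.toReal + 1)) (by positivity)] with n hn
  refine (mul_le_mul_right hn _).trans ?_
  rw [← mul_assoc]
  refine mul_le_mul_left ?_ _
  rw [← ENNReal.ofReal_toReal hK, ← ENNReal.ofReal_mul ENNReal.toReal_nonneg,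
    ENNReal.toReal_ofReal ENNReal.toReal_nonneg]
  refine ENNReal.ofReal_le_ofReal ?_
  rw [← mul_div_assoc, div_le_iff₀ h0]
  nlinarith [ENNReal.toReal_nonneg (a := K)]

theorem Sm.scale {ι : Type*} {l : Filter ι} {X G F a : ι → ℝ≥0∞} (hX : Sm l X G) {K : ℝ≥0∞}
    (hK : K ≠ ∞) (h : ∀ᶠ n in l, a n * G n ≤ K * F n) : Sm l (fun n => a n * X n) F := by
  intro c hc
  have h0 : 0 < K.toReal + 1 := by positivity
  filter_upwards [hX (c / (K.toReal + 1)) (by positivity), h] with n hn h2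
  refine (mul_le_mul_right hn _).trans ?_
  rw [mul_left_comm]
  refine (mul_le_mul_right h2 _).trans ?_
  rw [← mul_assoc]
  refine mul_le_mul_left ?_ _
  rw [← ENNReal.ofReal_toReal hK, ← ENNReal.ofReal_mul (by positivity),
    ENNReal.toReal_ofReal ENNReal.toReal_nonneg]
  refine ENNReal.ofReal_le_ofReal ?_
  rw [div_mul_eq_mul_div, div_le_iff₀ h0]
  nlinarith [ENNReal.toReal_nonneg (a := K)]

theorem Sm.of_tendsto {ι : Type*} {l : Filter ι} {e : ι → ℝ≥0∞} (G : ι → ℝ≥0∞)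
    (he : Tendsto e l (𝓝 0)) : Sm l (fun n => e n * G n) G := by
  intro c hc
  filter_upwards [he.eventually (ge_mem_nhds (ENNReal.ofReal_pos.mpr hc))] with n hn
  exact mul_le_mul_left hn _

theorem Sm.of_approx {ι : Type*} {l : Filter ι} {X G : ι → ℝ≥0∞}
    (h : ∀ θ : ℝ, 0 < θ → ∃ Y : ι → ℝ≥0∞, Sm l Y G ∧
      ∀ᶠ n in l, X n ≤ ENNReal.ofReal θ * G n + Y n) : Sm l X G := by
  intro c hc
  obtain ⟨Y, hY, hXY⟩ := h (c / 2) (half_pos hc)
  filter_upwards [hY (c / 2) (half_pos hc), hXY] with n h1 h2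
  refine h2.trans ((add_le_add le_rfl h1).trans (le_of_eq ?_))
  rw [← add_mul, ← ENNReal.ofReal_add (half_pos hc).le (half_pos hc).le, add_halves]

theorem eqv_of_approx {ι : Type*} {l : Filter ι} {p F : ι → ℝ≥0∞} (hF : ∀ n, F n ≠ ∞)
    (hup : ∀ κ : ℝ, 1 < κ → ∃ Y : ι → ℝ≥0∞, Sm l Y F ∧
      ∀ᶠ n in l, p n ≤ ENNReal.ofReal κ * F n + Y n)
    (hlo : ∀ κ : ℝ, 1 < κ → ∃ Y : ι → ℝ≥0∞, Sm l Y F ∧
      ∀ᶠ n in l, F n ≤ ENNReal.ofReal κ * p n + Y n) : Eqv l p F := by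
  intro κ hκ
  obtain ⟨Y, hY, h1⟩ := hup ((1 + κ) / 2) (by linarith)
  obtain ⟨Z, hZ, h2⟩ := hlo ((1 + κ) / 2) (by linarith)
  have hc : 0 < (κ - 1) / (2 * κ) := div_pos (by linarith) (by linarith)
  filter_upwards [hY ((κ - 1) / 2) (by linarith), h1, hZ _ hc, h2] with n a1 a2 a3 a4
  constructor
  · refine a2.trans ((add_le_add le_rfl a1).trans (le_of_eq ?_))
    rw [← add_mul, ← ENNReal.ofReal_add (by linarith) (by linarith)]
    congr 2
    ring
  · by_cases hp : p n = ∞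
    · rw [hp, ENNReal.mul_top (by simp; linarith)]
      exact le_top
    have a5 := a4.trans (add_le_add le_rfl a3)
    lift F n to NNReal using hF n with f
    lift p n to NNReal using hp with q
    rw [← ENNReal.ofReal_coe_nnreal, ← ENNReal.ofReal_coe_nnreal,
      ← ENNReal.ofReal_mul (by linarith), ← ENNReal.ofReal_mul hc.le,
      ← ENNReal.ofReal_add (by positivity) (by positivity),
      ENNReal.ofReal_le_ofReal_iff (by positivity)] at a5
    rw [← ENNReal.ofReal_coe_nnreal, ← ENNReal.ofReal_coe_nnreal,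
      ← ENNReal.ofReal_mul (by linarith)]
    refine ENNReal.ofReal_le_ofReal ?_
    have e : (κ - 1) / (2 * κ) * (f : ℝ) = f - (1 + κ) / (2 * κ) * f := by
      field_simp
      ring
    rw [e] at a5
    have h3 : (1 + κ) / (2 * κ) * (f : ℝ) ≤ (1 + κ) / 2 * q := by linarith
    rw [div_mul_eq_mul_div, div_le_iff₀ (by linarith)] at h3
    refine le_of_mul_le_mul_left ?_ (show 0 < 1 + κ by linarith)
    linarith

/-- The comparison integral along the segment. -/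
noncomputable def GG (α T : ℝ) (z : E × E) : ℝ≥0∞ := ∫⁻ τ in Icc (0 : ℝ) T, gg α (Tt τ z)

omit [MeasurableSpace E] [BorelSpace E] in
theorem rb_G [Nontrivial E] {α T : ℝ} (h0 : 0 < α) (hT : 0 < T) {ι : Type*} {l : Filter ι}
    {N : ι → ℝ} {z : ι → E × E} {z₀ : E × E} (hN : Tendsto N l atTop)
    (hz : Tendsto (fun n => (N n)⁻¹ • z n) l (𝓝 z₀)) {τ₀ : ℝ} (hτ₀ : τ₀ ∈ Icc (0 : ℝ) T)
    (hon : Tt τ₀ z₀ = 0) :
    Sm l (fun n => ENNReal.ofReal (N n ^ (-(dm E + α)))) (fun n => GG α T (z n)) := by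
  intro c hc
  have hD := one_le_dm (E := E)
  set β := dm E + α with hβ
  set M : ℝ := 2 + ‖z₀.2‖ with hM
  have hM0 : 0 < M := by positivity
  obtain ⟨κ, hκ, hκT, hκc⟩ : ∃ κ : ℝ, 0 < κ ∧ κ ≤ T ∧ 1 ≤ c * (κ * (κ * M) ^ (-β)) := by
    have h1 : Tendsto (fun κ : ℝ => c * M ^ (-β) * κ ^ (1 - β)) (𝓝[>] 0) atTop :=
      (tendsto_rpow_neg_nhdsGT_zero (by linarith)).const_mul_atTop (by positivity)
    obtain ⟨κ, h2, h3⟩ := ((h1.eventually_ge_atTop 1).and (Ioc_mem_nhdsGT hT)).exists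
    refine ⟨κ, h3.1, h3.2, h2.trans (le_of_eq ?_)⟩
    rw [Real.mul_rpow h3.1.le hM0.le, sub_eq_add_neg, Real.rpow_add h3.1, Real.rpow_one]
    ring
  obtain ⟨a, ha0, haT, ha⟩ : ∃ a : ℝ, 0 ≤ a ∧ a + κ ≤ T ∧ ∀ τ ∈ Icc a (a + κ), |τ - τ₀| ≤ κ := by
    rcases le_total (τ₀ + κ) T with h | h
    · exact ⟨τ₀, hτ₀.1, h, fun τ hτ => abs_le.mpr ⟨by linarith [hτ.1], by linarith [hτ.2]⟩⟩
    · exact ⟨T - κ, by linarith, by linarith,
        fun τ hτ => abs_le.mpr ⟨by linarith [hτ.1, hτ₀.2], by linarith [hτ.2]⟩⟩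
  have hz' := (tendsto_iff_norm_sub_tendsto_zero.mp hz).eventually
    (ge_mem_nhds (show 0 < κ / (1 + T) by positivity))
  filter_upwards [hz', hN.eventually_ge_atTop κ⁻¹, hN.eventually_gt_atTop 0] with n hn hN1 hN0
  have hb : ∀ τ ∈ Icc a (a + κ), ENNReal.ofReal ((κ * M * N n) ^ (-β)) ≤ gg α (Tt τ (z n)) := by
    intro τ hτ
    have hτI : τ ∈ Icc (0 : ℝ) T := ⟨ha0.trans hτ.1, hτ.2.trans haT⟩
    refine ENNReal.ofReal_le_ofReal (Real.rpow_le_rpow_of_nonpos (by positivity) ?_ (by linarith))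
    have h1 := norm_Tt_le hτI ((N n)⁻¹ • z n - z₀)
    have h2 : (1 + T) * ‖(N n)⁻¹ • z n - z₀‖ ≤ κ := by rwa [le_div_iff₀' (by positivity)] at hn
    have h3 : Tt τ z₀ = (τ₀ - τ) • z₀.2 := by
      have : z₀.1 = τ₀ • z₀.2 := sub_eq_zero.mp hon
      rw [Tt, this, sub_smul]
    have h4 : ‖Tt τ z₀‖ ≤ κ * ‖z₀.2‖ := by
      rw [h3, norm_smul, Real.norm_eq_abs, abs_sub_comm]
      gcongr
      exact ha τ hτ
    have h5 : ‖Tt τ ((N n)⁻¹ • z n)‖ ≤ κ + κ * ‖z₀.2‖ := by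
      rw [Tt_sub] at h1
      have := norm_add_le (Tt τ ((N n)⁻¹ • z n) - Tt τ z₀) (Tt τ z₀)
      rw [sub_add_cancel] at this
      linarith
    rw [Tt_smul, norm_smul, norm_inv, Real.norm_of_nonneg hN0.le, ← div_eq_inv_mul,
      div_le_iff₀ hN0] at h5
    have h6 : 1 ≤ κ * N n := by rwa [inv_le_iff_one_le_mul₀' hκ] at hN1
    rw [hM]
    nlinarith
  have h7 : ENNReal.ofReal ((κ * M * N n) ^ (-β)) * ENNReal.ofReal κ ≤ GG α T (z n) := by
    calc _ = ∫⁻ _ in Icc a (a + κ), ENNReal.ofReal ((κ * M * N n) ^ (-β)) := by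
          rw [setLIntegral_const, Real.volume_Icc, add_sub_cancel_left]
      _ ≤ ∫⁻ τ in Icc a (a + κ), gg α (Tt τ (z n)) := setLIntegral_mono' measurableSet_Icc hb
      _ ≤ _ := lintegral_mono_set (Icc_subset_Icc ha0 haT)
  refine le_trans ?_ (mul_le_mul_right h7 _)
  rw [← ENNReal.ofReal_mul (by positivity), ← ENNReal.ofReal_mul hc.le]
  refine ENNReal.ofReal_le_ofReal ?_
  rw [Real.mul_rpow (by positivity) hN0.le]
  have : 0 < N n ^ (-β) := by positivity
  nlinarith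

theorem rb_mu [Nontrivial E] {α T : ℝ} (h0 : 0 < α) (h2 : α < 2) (hT : 0 < T) {ι : Type*}
    {l : Filter ι} {N : ι → ℝ} {z : ι → E × E} (hN : Tendsto N l atTop)
    (hG : Sm l (fun n => ENNReal.ofReal (N n ^ (-(dm E + α)))) (fun n => GG α T (z n))) {ε : ℝ}
    (hε : 0 < ε) :
    Sm l (fun n => ∫⁻ τ in Icc (0 : ℝ) T, mu α T (ε * N n) τ (qq α T τ) (Tt τ (z n)))
      (fun n => GG α T (z n)) := by
  have hc := (cc_pos' (E := E) h0 h2).le
  have hβ : 0 ≤ dm E + α := by have := dm_nonneg (E := E); linarith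
  obtain ⟨C, hC, hmu⟩ := mu_le (E := E) h0 hc hT
  obtain ⟨C₁, C₂, -, hC₂, hq⟩ := qq_bounds (E := E) h0 h2 hT
  have h1 : Sm l (fun n => ∫⁻ τ in Icc (0 : ℝ) T, gg α (Tt τ (z n)) *
      ENNReal.ofReal (min 1 (‖Tt τ (z n)‖ / (ε * N n)))) (fun n => GG α T (z n)) := by
    refine Sm.of_approx fun θ hθ => ⟨_, hG.const_mul (K := ENNReal.ofReal ((θ * ε) ^ (-(dm E + α))) *
      volume (Icc (0 : ℝ) T)) (ENNReal.mul_ne_top ENNReal.ofReal_ne_top measure_Icc_lt_top.ne), ?_⟩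
    filter_upwards [hN.eventually_gt_atTop 0] with n hn
    calc _ ≤ ∫⁻ τ in Icc (0 : ℝ) T, (ENNReal.ofReal θ * gg α (Tt τ (z n)) +
          ENNReal.ofReal ((θ * ε * N n) ^ (-(dm E + α)))) := by
          refine lintegral_mono fun τ => ?_
          rcases le_total ‖Tt τ (z n)‖ (θ * ε * N n) with h | h
          · refine le_trans ?_ le_self_add
            rw [mul_comm]
            refine mul_le_mul_left (ENNReal.ofReal_le_ofReal ((min_le_right _ _).trans ?_)) _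
            rw [div_le_iff₀ (by positivity)]
            linarith
          · refine le_trans ?_ le_add_self
            refine (mul_le_of_le_one_right' ?_).trans (gg_le_rpow hβ (by positivity) h)
            rw [← ENNReal.ofReal_one]
            exact ENNReal.ofReal_le_ofReal (min_le_left _ _)
      _ = _ := by
          rw [lintegral_add_right _ measurable_const,
            lintegral_const_mul' _ _ ENNReal.ofReal_ne_top, setLIntegral_const,
            Real.mul_rpow (by positivity) hn.le, ENNReal.ofReal_mul (by positivity), GG]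
          ring
  have h3 := Sm.of_tendsto (fun n => GG α T (z n)) (ENNReal.Tendsto.const_mul
    (a := ENNReal.ofReal C₂) (tendsto_ofReal_rpow (hN.const_mul_atTop hε) 1 h0)
      (Or.inr ENNReal.ofReal_ne_top) |>.trans_eq (by simp))
  refine ((h3.add h1).const_mul (K := ENNReal.ofReal C) ENNReal.ofReal_ne_top).mono ?_
  filter_upwards [hN.eventually_gt_atTop 0] with n hn
  refine (setLIntegral_mono' measurableSet_Icc fun τ hτ => hmu (ε * N n) (by positivity) τ hτ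
    (qq α T τ) (ENNReal.ofReal C₂) 1 (fun y => (hq τ hτ y).2) (qq_mass h0 h2 hT τ).le _).trans
    (le_of_eq ?_)
  rw [GG, ← lintegral_const_mul _ (measurable_gg_Tt α (z n)),
    ← lintegral_add_left ((measurable_gg_Tt α (z n)).const_mul _),
    ← lintegral_const_mul' _ _ ENNReal.ofReal_ne_top]
  refine lintegral_congr fun τ => ?_
  simp only [one_mul]
  ring

end Pool.Agent.Lib.MP_bd80ac_an
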