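import Pool.Agent.Lib.MP_bd80ac_an.RegA
import Pool.Agent.Lib.MP_bd80ac_an.RegB

set_option autoImplicit false

namespace Pool.Agent.Lib.MP_bd80ac_an

open MeasureTheory Set Filter Topology
open scoped Real ENNReal RealInnerProductSpace

variable {E : Type*} [NormedAddCommGroup E] [InnerProductSpace ℝ E] [FiniteDimensional ℝ E]
  [MeasurableSpace E] [BorelSpace E]

theorem mm_lower {α T : ℝ} (h0 : 0 < α) (hT : 0 < T) :
    ∃ m₀ : ℝ, 0 < m₀ ∧ ∀ τ ∈ Icc (0 : ℝ) T, m₀ ≤ mm α T τ := by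
  obtain ⟨τ₀, -, h⟩ := isCompact_Icc.exists_isMinOn (nonempty_Icc.mpr hT.le)
    (continuous_mm h0 T).continuousOn
  exact ⟨_, mm_pos h0 hT τ₀, fun τ hτ => h hτ⟩

theorem lint_mm {α T : ℝ} (h0 : 0 < α) (hT : 0 < T) (τ : ℝ) :
    ∫⁻ σ in Icc (0 : ℝ) T, ENNReal.ofReal (|σ - τ| ^ α) = ENNReal.ofReal (mm α T τ) := by
  have hc : Continuous fun σ : ℝ => |σ - τ| ^ α :=
    (by fun_prop : Continuous fun σ : ℝ => |σ - τ|).rpow_const fun _ => Or.inr h0.le
  rw [mm, intervalIntegral.integral_of_le hT.le, ← integral_Icc_eq_integral_Ioc,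
    ofReal_integral_eq_lintegral_ofReal hc.integrableOn_Icc (ae_of_all _ fun _ => by positivity)]

theorem Q_bound [Nontrivial E] {α T : ℝ} (h0 : 0 < α) (h2 : α < 2) (hT : 0 < T) :
    ∃ C : ℝ, 0 < C ∧ ∀ τ ∈ Icc (0 : ℝ) T, (mm α T τ)⁻¹ ≤ C ∧ ∀ y : E,
      stab α (mm α T τ) y / mm α T τ ≤ C * (1 + ‖y‖) ^ (-(dm E + α)) := by
  obtain ⟨C₁, C₂, -, hC₂, hq⟩ := stab_bounds (E := E) h0 h2 hT
  obtain ⟨m₀, hm₀, hm⟩ := mm_lower h0 hT
  refine ⟨(1 + C₂) * m₀⁻¹, by positivity, fun τ hτ => ⟨?_, fun y => ?_⟩⟩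
  · have := inv_anti₀ hm₀ (hm τ hτ)
    nlinarith [mul_pos hC₂ (inv_pos.mpr hm₀)]
  · calc _ ≤ C₂ * (1 + ‖y‖) ^ (-(dm E + α)) / m₀ := by
          gcongr
          · exact (hq τ hτ y).2
          · exact hm τ hτ
      _ = C₂ * m₀⁻¹ * (1 + ‖y‖) ^ (-(dm E + α)) := by ring
      _ ≤ _ := by gcongr; linarith

theorem Q_nonneg [Nontrivial E] {α T : ℝ} (h0 : 0 < α) (h2 : α < 2) (hT : 0 < T) (τ : ℝ) (y : E) :
    0 ≤ stab α (mm α T τ) y / mm α T τ :=
  (div_pos (stab_pos h0 h2 (mm_pos h0 hT τ) y) (mm_pos h0 hT τ)).le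

theorem Q_tendsto [Nontrivial E] {α m : ℝ} (h0 : 0 < α) (h2 : α < 2) (hm : 0 < m) {ι : Type*}
    {l : Filter ι} {N : ι → ℝ} {y : ι → E} {y₀ : E} (hN : Tendsto N l atTop)
    (hy : Tendsto (fun n => (N n)⁻¹ • y n) l (𝓝 y₀)) (hy₀ : y₀ ≠ 0) :
    Tendsto (fun n => N n ^ (dm E + α) * (stab α m (y n) / m)) l
      (𝓝 (‖y₀‖ ^ (-(dm E + α)) * cc (dm E) α)) := by
  have hpos : 0 < ‖y₀‖ := norm_pos_iff.mpr hy₀
  have e : ∀ᶠ n in l, ‖y n‖ = N n * ‖(N n)⁻¹ • y n‖ := by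
    filter_upwards [hN.eventually_gt_atTop 0] with n hn
    rw [norm_smul, norm_inv, Real.norm_of_nonneg hn.le, mul_inv_cancel_left₀ hn.ne']
  have h1 : Tendsto y l (cocompact E) := by
    rw [← Metric.cobounded_eq_cocompact, ← tendsto_norm_atTop_iff_cobounded]
    exact (hN.atTop_mul_pos hpos hy.norm).congr' (e.mono fun n hn => hn.symm)
  have h3 := (hy.norm.rpow_const (p := -(dm E + α)) (Or.inl hpos.ne')).mul
    ((stab_asym h0 h2 hm).comp h1)
  refine h3.congr' ?_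
  filter_upwards [e, hN.eventually_gt_atTop 0, hy.norm.eventually (lt_mem_nhds hpos)]
    with n hn hN0 hp
  simp only [Function.comp]
  rw [hn, Real.mul_rpow hN0.le hp.le, Real.rpow_neg hp.le]
  have : ‖(N n)⁻¹ • y n‖ ^ (dm E + α) ≠ 0 := by positivity
  generalize ‖(N n)⁻¹ • y n‖ ^ (dm E + α) = s at *
  field_simp

theorem measurable_Q {α T : ℝ} (h0 : 0 < α) (hT : 0 < T) (z : E × E) :
    Measurable fun τ : ℝ => stab α (mm α T τ) (Tt τ z) / mm α T τ :=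
  ((continuous_stab_mm h0 hT).measurable.comp (f := fun τ : ℝ => (τ, Tt τ z))
    (measurable_id.prodMk (measurable_Tt.comp (f := fun τ : ℝ => (τ, z)) (by fun_prop)))).div
    (continuous_mm h0 T).measurable

theorem measurable_Fint {α T : ℝ} (h0 : 0 < α) (hT : 0 < T) (z : E × E) :
    Measurable fun x : ℝ × ℝ => |x.2 - x.1| ^ (dm E + 2 * α) *
      (stab α (mm α T x.1) (Tt x.1 z) / mm α T x.1) *
      (stab α (mm α T x.2) (Tt x.2 z) / mm α T x.2) :=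
  ((((by fun_prop : Measurable fun x : ℝ × ℝ => |x.2 - x.1|).pow_const _).mul
    ((measurable_Q h0 hT z).comp measurable_fst)).mul ((measurable_Q h0 hT z).comp measurable_snd))

omit [FiniteDimensional ℝ E] [MeasurableSpace E] [BorelSpace E] in
theorem Tt_tendsto {ι : Type*} {l : Filter ι} {N : ι → ℝ} {z : ι → E × E} {z₀ : E × E}
    (hz : Tendsto (fun n => (N n)⁻¹ • z n) l (𝓝 z₀)) (σ : ℝ) :
    Tendsto (fun n => (N n)⁻¹ • Tt σ (z n)) l (𝓝 (Tt σ z₀)) := by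
  simp only [← Tt_smul]
  exact ((continuous_Tt.comp (f := fun u : E × E => (σ, u)) (by fun_prop)).tendsto z₀).comp hz

/-- Asymptotics of the uniform equivalent off the cone. -/
theorem regimeFA [Nontrivial E] {α T : ℝ} (h0 : 0 < α) (h2 : α < 2) (hT : 0 < T) {ι : Type*}
    {l : Filter ι} [l.IsCountablyGenerated] {N : ι → ℝ} {z : ι → E × E} {z₀ : E × E}
    (hN : Tendsto N l atTop) (hz : Tendsto (fun n => (N n)⁻¹ • z n) l (𝓝 z₀))
    (hoff : ∀ τ ∈ Icc (0 : ℝ) T, Tt τ z₀ ≠ 0) :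
    Tendsto (fun n => ENNReal.ofReal (N n ^ (2 * (dm E + α))) * F2 α T (z n)) l
      (𝓝 (Hh α T z₀)) := by
  have hD := dm_nonneg (E := E)
  obtain ⟨δ, hδ0, hδ⟩ := off_cone hT hoff
  obtain ⟨C, hC, hQ⟩ := Q_bound (E := E) h0 h2 hT
  have hz' := (tendsto_iff_norm_sub_tendsto_zero.mp hz).eventually (ge_mem_nhds (half_pos hδ0))
  have hm := (measurable_Hint (E := E) α).comp
    (f := fun x : ℝ × ℝ => (z₀, x.1, x.2)) (by fun_prop)
  have key := dctI (l := l) T (fun n x => ENNReal.ofReal (|x.2 - x.1| ^ (dm E + 2 * α) *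
      (N n ^ (dm E + α) * (stab α (mm α T x.1) (Tt x.1 (z n)) / mm α T x.1)) *
      (N n ^ (dm E + α) * (stab α (mm α T x.2) (Tt x.2 (z n)) / mm α T x.2)))) _
    (fun n => ENNReal.measurable_ofReal.comp
      ((((by fun_prop : Measurable fun x : ℝ × ℝ => |x.2 - x.1|).pow_const _).mul
        (((measurable_Q h0 hT (z n)).comp measurable_fst).const_mul _)).mul
        (((measurable_Q h0 hT (z n)).comp measurable_snd).const_mul _))) hm
    (ENNReal.ofReal (T ^ (dm E + 2 * α) * (C * δ ^ (-(dm E + α))) * (C * δ ^ (-(dm E + α)))))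
    ENNReal.ofReal_ne_top ?_ ?_
  · refine key.congr' ?_
    filter_upwards [hN.eventually_gt_atTop 0] with n hn
    rw [F2, ← lintegral_const_mul' _ _ ENNReal.ofReal_ne_top]
    refine lintegral_congr fun σ => ?_
    rw [← lintegral_const_mul' _ _ ENNReal.ofReal_ne_top]
    refine lintegral_congr fun τ => ?_
    rw [← ENNReal.ofReal_mul (by positivity), two_mul (dm E + α), Real.rpow_add hn (dm E + α)]
    congr 1
    ring
  · filter_upwards [hz', hN.eventually_gt_atTop 0] with n hn hN0 σ hσ τ hτ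
    have hfar : ∀ t ∈ Icc (0 : ℝ) T, δ * N n ≤ ‖Tt t (z n)‖ := by
      simpa using (ra_far (u := 0) hN0 hδ hn (by simp; positivity)).2
    have hb : ∀ t ∈ Icc (0 : ℝ) T, N n ^ (dm E + α) *
        (stab α (mm α T t) (Tt t (z n)) / mm α T t) ≤ C * δ ^ (-(dm E + α)) := by
      intro t ht
      have h1 : (1 + ‖Tt t (z n)‖) ^ (-(dm E + α)) ≤ (δ * N n) ^ (-(dm E + α)) :=
        Real.rpow_le_rpow_of_nonpos (by positivity) (by linarith [hfar t ht]) (by linarith)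
      calc _ ≤ N n ^ (dm E + α) * (C * (δ * N n) ^ (-(dm E + α))) := by
            gcongr
            exact ((hQ t ht).2 _).trans (by gcongr)
        _ = _ := by
            rw [Real.mul_rpow hδ0.le hN0.le, Real.rpow_neg hN0.le]
            have : N n ^ (dm E + α) ≠ 0 := by positivity
            field_simp
    have hle : |τ - σ| ≤ T := abs_le.mpr ⟨by linarith [hτ.1, hσ.2], by linarith [hτ.2, hσ.1]⟩
    have := Q_nonneg (E := E) h0 h2 hT τ (Tt τ (z n))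
    refine ENNReal.ofReal_le_ofReal ?_
    refine mul_le_mul (mul_le_mul ?_ (hb σ hσ) ?_ (by positivity)) (hb τ hτ) (by positivity)
      (by positivity)
    · gcongr
    · have := Q_nonneg (E := E) h0 h2 hT σ (Tt σ (z n))
      positivity
  · intro σ hσ τ hτ
    have h1 := fun t (ht : t ∈ Icc (0 : ℝ) T) =>
      Q_tendsto h0 h2 (mm_pos h0 hT t) hN (Tt_tendsto hz t) (hoff t ht)
    refine (ENNReal.tendsto_ofReal (((tendsto_const_nhds (x := |τ - σ| ^ (dm E + 2 * α))).mul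
      (h1 σ hσ)).mul (h1 τ hτ))).trans_eq ?_
    simp only [Function.comp]
    congr 2
    ring

theorem avg_eqv {ι : Type*} {l : Filter ι} {T τ₀ b : ℝ} (hb : 0 < b) (a B : ι → ℝ → ℝ≥0∞)
    (ha : ∀ n, Measurable (a n)) (hfin : ∀ n, ∫⁻ τ in Icc (0 : ℝ) T, a n τ ≠ ∞) (K : ℝ≥0∞)
    (hK : K ≠ ∞) (hB : ∀ n, ∀ τ ∈ Icc (0 : ℝ) T, B n τ ≤ K)
    (hl : Tendsto (fun x : ι × ℝ => B x.1 x.2) (l ×ˢ 𝓝[Icc (0 : ℝ) T] τ₀) (𝓝 (ENNReal.ofReal b)))
    (hconc : ∀ θ : ℝ, 0 < θ → Sm l (fun n => ∫⁻ τ in Icc (0 : ℝ) T,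
      {τ : ℝ | θ ≤ |τ - τ₀|}.indicator (a n) τ) (fun n => ∫⁻ τ in Icc (0 : ℝ) T, a n τ)) :
    Eqv l (fun n => ∫⁻ τ in Icc (0 : ℝ) T, a n τ * B n τ)
      (fun n => ENNReal.ofReal b * ∫⁻ τ in Icc (0 : ℝ) T, a n τ) := by
  have hconc' : ∀ θ : ℝ, 0 < θ → Sm l (fun n => ∫⁻ τ in Icc (0 : ℝ) T,
      {τ : ℝ | θ ≤ |τ - τ₀|}.indicator (a n) τ)
      (fun n => ENNReal.ofReal b * ∫⁻ τ in Icc (0 : ℝ) T, a n τ) := by
    intro θ hθ
    have := (hconc θ hθ).scale (a := fun _ => 1) (K := ENNReal.ofReal b⁻¹)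
      (F := fun n => ENNReal.ofReal b * ∫⁻ τ in Icc (0 : ℝ) T, a n τ) ENNReal.ofReal_ne_top
      (Eventually.of_forall fun n => by
        rw [← mul_assoc, ← ENNReal.ofReal_mul (by positivity), inv_mul_cancel₀ hb.ne',
          ENNReal.ofReal_one])
    simpa only [one_mul] using this
  have hnear : ∀ {S : Set ℝ≥0∞}, S ∈ 𝓝 (ENNReal.ofReal b) → ∃ θ : ℝ, 0 < θ ∧
      ∀ᶠ n in l, ∀ τ ∈ Icc (0 : ℝ) T, |τ - τ₀| < θ → B n τ ∈ S := by
    intro S hS
    obtain ⟨pa, hpa, pb, hpb, h⟩ := eventually_prod_iff.mp (hl.eventually hS)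
    obtain ⟨θ, hθ, h1⟩ := Metric.mem_nhdsWithin_iff.mp hpb
    exact ⟨θ, hθ, hpa.mono fun n hn τ hτ hd => h hn (h1 ⟨hd, hτ⟩)⟩
  have hs : ∀ θ : ℝ, MeasurableSet {τ : ℝ | θ ≤ |τ - τ₀|} := fun θ =>
    measurableSet_le measurable_const (by fun_prop)
  refine eqv_of_approx (fun n => ENNReal.mul_ne_top ENNReal.ofReal_ne_top (hfin n))
    (fun κ hκ => ?_) (fun κ hκ => ?_)
  · obtain ⟨θ, hθ, h⟩ := hnear (Iic_mem_nhds
      (show ENNReal.ofReal b < ENNReal.ofReal (κ * b) from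
        (ENNReal.ofReal_lt_ofReal_iff (by positivity)).mpr (by nlinarith)))
    refine ⟨_, (hconc' θ hθ).const_mul hK, h.mono fun n hn => ?_⟩
    rw [← mul_assoc, ← ENNReal.ofReal_mul (by linarith),
      ← lintegral_const_mul' _ _ ENNReal.ofReal_ne_top, ← lintegral_const_mul' _ _ hK,
      ← lintegral_add_left ((ha n).const_mul _)]
    refine setLIntegral_mono' measurableSet_Icc fun τ hτ => ?_
    rw [mul_comm]
    by_cases hc : τ ∈ {τ : ℝ | θ ≤ |τ - τ₀|}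
    · rw [indicator_of_mem hc]
      exact le_trans (mul_le_mul_left (hB n τ hτ) _) le_add_self
    · exact le_trans (mul_le_mul_left (hn τ hτ (not_le.mp hc)) _) le_self_add
  · obtain ⟨θ, hθ, h⟩ := hnear (Ici_mem_nhds
      (show ENNReal.ofReal (b / κ) < ENNReal.ofReal b from
        (ENNReal.ofReal_lt_ofReal_iff hb).mpr (div_lt_self hb hκ)))
    refine ⟨_, (hconc' θ hθ).const_mul (K := ENNReal.ofReal b) ENNReal.ofReal_ne_top,
      h.mono fun n hn => ?_⟩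
    rw [← lintegral_const_mul' _ _ ENNReal.ofReal_ne_top,
      ← lintegral_const_mul' _ _ ENNReal.ofReal_ne_top,
      ← lintegral_const_mul' _ _ ENNReal.ofReal_ne_top,
      ← lintegral_add_right _ (((ha n).indicator (hs θ)).const_mul _)]
    refine setLIntegral_mono' measurableSet_Icc fun τ hτ => ?_
    by_cases hc : τ ∈ {τ : ℝ | θ ≤ |τ - τ₀|}
    · rw [indicator_of_mem hc]
      exact le_add_self
    · refine le_trans ?_ le_self_add
      rw [mul_comm (a n τ), ← mul_assoc]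
      refine mul_le_mul_left (le_trans (le_of_eq ?_)
        (mul_le_mul_right (hn τ hτ (not_le.mp hc)) _)) _
      rw [← ENNReal.ofReal_mul (by linarith)]
      congr 1
      field_simp

end Pool.Agent.Lib.MP_bd80ac_an
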