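import Pool.Agent.Lib.MP_bd80ac_an.RegF

set_option autoImplicit false

namespace Pool.Agent.Lib.MP_bd80ac_an

open MeasureTheory Set Filter Topology
open scoped Real ENNReal RealInnerProductSpace

variable {E : Type*} [NormedAddCommGroup E] [InnerProductSpace ℝ E] [FiniteDimensional ℝ E]
  [MeasurableSpace E] [BorelSpace E]

/-- Weight used to break the symmetry of the double integral. -/
noncomputable def om (z : E × E) (σ τ : ℝ) : ℝ :=
  if ‖Tt τ z‖ < ‖Tt σ z‖ then 2 else if ‖Tt τ z‖ = ‖Tt σ z‖ then 1 else 0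

omit [FiniteDimensional ℝ E] [MeasurableSpace E] [BorelSpace E] in
theorem om_add (z : E × E) (σ τ : ℝ) : om z σ τ + om z τ σ = 2 := by
  unfold om
  rcases lt_trichotomy ‖Tt τ z‖ ‖Tt σ z‖ with h | h | h
  · simp [h, h.not_gt, h.ne']
  · simp [h]
    norm_num
  · simp [h, h.not_gt, h.ne']

omit [FiniteDimensional ℝ E] [MeasurableSpace E] [BorelSpace E] in
theorem om_nonneg (z : E × E) (σ τ : ℝ) : 0 ≤ om z σ τ := by
  unfold om
  split_ifs <;> norm_num

theorem measurable_om (z : E × E) : Measurable fun x : ℝ × ℝ => om z x.1 x.2 := by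
  have h : Measurable fun τ : ℝ => ‖Tt τ z‖ :=
    (measurable_Tt.comp (f := fun τ : ℝ => (τ, z)) (by fun_prop)).norm
  exact Measurable.ite (measurableSet_lt (h.comp measurable_snd) (h.comp measurable_fst))
    measurable_const (Measurable.ite
      (measurableSet_eq_fun (h.comp measurable_snd) (h.comp measurable_fst))
      measurable_const measurable_const)

/-- The inner integrand. -/
noncomputable def Bint (α T : ℝ) (z : E × E) (σ τ : ℝ) : ℝ :=
  om z σ τ * (‖z.2‖ ^ (dm E + α) * |τ - σ| ^ (dm E + 2 * α) *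
    (stab α (mm α T σ) (Tt σ z) / mm α T σ) * (mm α T τ)⁻¹)

theorem measurable_Bint {α T : ℝ} (h0 : 0 < α) (hT : 0 < T) (z : E × E) (τ : ℝ) :
    Measurable fun σ : ℝ => Bint α T z σ τ :=
  ((measurable_om z).comp (f := fun σ : ℝ => (σ, τ)) (by fun_prop)).mul
    (((((by fun_prop : Measurable fun σ : ℝ => |τ - σ|).pow_const _).const_mul _).mul
      (measurable_Q h0 hT z)).mul_const _)

theorem F2_eq [Nontrivial E] {α T : ℝ} (h0 : 0 < α) (h2 : α < 2) (hT : 0 < T) (z : E × E)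
    (hv : 0 < ‖z.2‖) : F2 α T z = ENNReal.ofReal (‖z.2‖ ^ (-(dm E + α))) *
      ∫⁻ τ in Icc (0 : ℝ) T, qq α T τ (Tt τ z) *
        ∫⁻ σ in Icc (0 : ℝ) T, ENNReal.ofReal (Bint α T z σ τ) := by
  set k : ℝ → ℝ → ℝ := fun σ τ => |τ - σ| ^ (dm E + 2 * α) *
    (stab α (mm α T σ) (Tt σ z) / mm α T σ) * (stab α (mm α T τ) (Tt τ z) / mm α T τ) with hk
  have hkm : Measurable fun x : ℝ × ℝ => k x.1 x.2 := measurable_Fint h0 hT z
  have hk0 : ∀ σ τ, 0 ≤ k σ τ := fun σ τ =>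
    mul_nonneg (mul_nonneg (by positivity) (Q_nonneg h0 h2 hT _ _)) (Q_nonneg h0 h2 hT _ _)
  have hks : ∀ σ τ, k σ τ = k τ σ := fun σ τ => by
    simp only [hk, abs_sub_comm τ σ]
    ring
  have hm1 : Measurable (Function.uncurry fun σ τ : ℝ => ENNReal.ofReal (om z σ τ * k σ τ)) :=
    ENNReal.measurable_ofReal.comp ((measurable_om z).mul hkm)
  have h1 : 2 * F2 α T z = 2 * ∫⁻ τ in Icc (0 : ℝ) T, ∫⁻ σ in Icc (0 : ℝ) T,
      ENNReal.ofReal (om z σ τ * k σ τ) := by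
    have e1 : ∫⁻ τ in Icc (0 : ℝ) T, ∫⁻ σ in Icc (0 : ℝ) T, ENNReal.ofReal (om z σ τ * k σ τ) =
        ∫⁻ σ in Icc (0 : ℝ) T, ∫⁻ τ in Icc (0 : ℝ) T, ENNReal.ofReal (om z τ σ * k σ τ) := by
      simp only [hks]
    conv_rhs => rw [two_mul]
    nth_rewrite 2 [e1]
    rw [← lintegral_lintegral_swap hm1.aemeasurable,
      ← lintegral_add_left (Measurable.lintegral_prod_right hm1), F2,
      ← lintegral_const_mul' _ _ (by simp)]
    refine lintegral_congr fun σ => ?_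
    have hm2 : Measurable fun τ : ℝ => ENNReal.ofReal (om z σ τ * k σ τ) :=
      hm1.comp (f := fun τ : ℝ => (σ, τ)) (by fun_prop)
    rw [← lintegral_add_left hm2, ← lintegral_const_mul' _ _ (by simp)]
    refine lintegral_congr fun τ => ?_
    rw [← ENNReal.ofReal_add (mul_nonneg (om_nonneg _ _ _) (hk0 _ _))
      (mul_nonneg (om_nonneg _ _ _) (hk0 _ _)), ← add_mul, om_add,
      ENNReal.ofReal_mul (p := 2) (by norm_num), ENNReal.ofReal_ofNat]
  rw [(ENNReal.mul_right_inj (by simp) (by simp)).mp h1,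
    ← lintegral_const_mul' _ _ ENNReal.ofReal_ne_top]
  refine lintegral_congr fun τ => ?_
  rw [qq, ← mul_assoc, ← ENNReal.ofReal_mul (by positivity),
    ← lintegral_const_mul' _ _ ENNReal.ofReal_ne_top]
  refine lintegral_congr fun σ => ?_
  have hs := (stab_pos h0 h2 (mm_pos h0 hT τ) (Tt τ z)).le
  rw [← ENNReal.ofReal_mul (by positivity), Bint, Real.rpow_neg hv.le]
  congr 1
  have : ‖z.2‖ ^ (dm E + α) ≠ 0 := by positivity
  simp only [hk]
  field_simp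

theorem Bint_le [Nontrivial E] {α T : ℝ} (h0 : 0 < α) (h2 : α < 2) (hT : 0 < T) :
    ∃ K : ℝ, ∀ z : E × E, ∀ σ ∈ Icc (0 : ℝ) T, ∀ τ ∈ Icc (0 : ℝ) T, Bint α T z σ τ ≤ K := by
  have hD := dm_nonneg (E := E)
  obtain ⟨C, hC, hQ⟩ := Q_bound (E := E) h0 h2 hT
  refine ⟨2 * (2 ^ (dm E + α) * T ^ α * C * C), fun z σ hσ τ hτ => ?_⟩
  by_cases hc : ‖Tt τ z‖ ≤ ‖Tt σ z‖
  · have hom : om z σ τ ≤ 2 := by linarith [om_add z σ τ, om_nonneg z τ σ]
    have hQ0 := Q_nonneg (E := E) h0 h2 hT σ (Tt σ z)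
    have hm := mm_pos h0 hT τ
    refine mul_le_mul hom (mul_le_mul ?_ (hQ τ hτ).1 (by positivity) (by positivity))
      (by positivity) (by norm_num)
    have hle : |τ - σ| ≤ T := abs_le.mpr ⟨by linarith [hτ.1, hσ.2], by linarith [hτ.2, hσ.1]⟩
    have h1 : ‖z.2‖ * |τ - σ| ≤ 2 * (1 + ‖Tt σ z‖) := by
      have e : (τ - σ) • z.2 = Tt σ z - Tt τ z := by
        simp only [Tt, sub_smul]
        abel
      have := norm_sub_le (Tt σ z) (Tt τ z)
      rw [← e, norm_smul, Real.norm_eq_abs] at this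
      linarith
    have h3 : ‖z.2‖ ^ (dm E + α) * |τ - σ| ^ (dm E + 2 * α) =
        (‖z.2‖ * |τ - σ|) ^ (dm E + α) * |τ - σ| ^ α := by
      rw [Real.mul_rpow (norm_nonneg _) (abs_nonneg _), mul_assoc,
        ← Real.rpow_add_of_nonneg (abs_nonneg _) (by linarith) h0.le]
      congr 2
      ring
    calc _ ≤ (2 * (1 + ‖Tt σ z‖)) ^ (dm E + α) * T ^ α *
          (C * (1 + ‖Tt σ z‖) ^ (-(dm E + α))) := by
          rw [h3]
          gcongr
          exact (hQ σ hσ).2 _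
      _ = _ := by
          rw [Real.mul_rpow (by norm_num) (by positivity), Real.rpow_neg (by positivity)]
          have : (1 + ‖Tt σ z‖) ^ (dm E + α) ≠ 0 := by positivity
          field_simp
  · have h1 := not_le.mp hc
    rw [Bint, om, if_neg h1.not_gt, if_neg h1.ne', zero_mul]
    positivity

theorem B_tendsto [Nontrivial E] {α T : ℝ} (h0 : 0 < α) (h2 : α < 2) (hT : 0 < T) {ι : Type*}
    {l : Filter ι} [l.IsCountablyGenerated] {N : ι → ℝ} {z : ι → E × E} {z₀ : E × E}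
    (hN : Tendsto N l atTop) (hz : Tendsto (fun n => (N n)⁻¹ • z n) l (𝓝 z₀)) {τ₀ : ℝ}
    (hon : Tt τ₀ z₀ = 0) (hv : z₀.2 ≠ 0) :
    Tendsto (fun x : ι × ℝ => ∫⁻ σ in Icc (0 : ℝ) T, ENNReal.ofReal (Bint α T (z x.1) σ x.2))
      (l ×ˢ 𝓝[Icc (0 : ℝ) T] τ₀) (𝓝 (ENNReal.ofReal (2 * cc (dm E) α))) := by
  have hD := dm_nonneg (E := E)
  have hc := cc_pos' (E := E) h0 h2
  have hv' : 0 < ‖z₀.2‖ := norm_pos_iff.mpr hv
  have hm := mm_pos h0 hT τ₀
  obtain ⟨K, hK⟩ := Bint_le (E := E) h0 h2 hT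
  have hlim : ∫⁻ σ in Icc (0 : ℝ) T, ENNReal.ofReal (2 * cc (dm E) α * (mm α T τ₀)⁻¹ *
      |σ - τ₀| ^ α) = ENNReal.ofReal (2 * cc (dm E) α) := by
    simp only [ENNReal.ofReal_mul (show 0 ≤ 2 * cc (dm E) α * (mm α T τ₀)⁻¹ by positivity)]
    rw [lintegral_const_mul' _ _ ENNReal.ofReal_ne_top, lint_mm h0 hT,
      ← ENNReal.ofReal_mul (by positivity), inv_mul_cancel_right₀ hm.ne']
  rw [← hlim]
  have hτ : Tendsto (fun x : ι × ℝ => x.2) (l ×ˢ 𝓝[Icc (0 : ℝ) T] τ₀) (𝓝 τ₀) :=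
    tendsto_snd.mono_right nhdsWithin_le_nhds
  refine tendsto_lintegral_filter_of_dominated_convergence (fun _ => ENNReal.ofReal K)
    (Eventually.of_forall fun x => ENNReal.measurable_ofReal.comp
      (measurable_Bint h0 hT (z x.1) x.2)) ?_ ?_ ?_
  · filter_upwards [tendsto_snd.eventually self_mem_nhdsWithin] with x hx
    filter_upwards [ae_restrict_mem measurableSet_Icc] with σ hσ
    exact ENNReal.ofReal_le_ofReal (hK _ σ hσ _ hx)
  · rw [lintegral_const]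
    exact ENNReal.mul_ne_top ENNReal.ofReal_ne_top (measure_ne_top _ _)
  · filter_upwards [ae_restrict_of_ae (Measure.ae_ne volume τ₀)] with σ hσ
    have hs : 0 < |σ - τ₀| := abs_pos.mpr (sub_ne_zero.mpr hσ)
    have e : Tt σ z₀ = (τ₀ - σ) • z₀.2 := by
      have : z₀.1 = τ₀ • z₀.2 := sub_eq_zero.mp hon
      rw [Tt, this, sub_smul]
    have en : ‖Tt σ z₀‖ = |σ - τ₀| * ‖z₀.2‖ := by
      rw [e, norm_smul, Real.norm_eq_abs, abs_sub_comm]
    have hne : Tt σ z₀ ≠ 0 := norm_pos_iff.mp (by rw [en]; positivity)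
    have h1 := (Q_tendsto h0 h2 (mm_pos h0 hT σ) hN (Tt_tendsto hz σ) hne).comp
      (tendsto_fst (f := l) (g := 𝓝[Icc (0 : ℝ) T] τ₀))
    have h3 := ((((continuous_snd.tendsto z₀).comp hz).norm.rpow_const (p := dm E + α)
      (Or.inl hv'.ne'))).comp (tendsto_fst (f := l) (g := 𝓝[Icc (0 : ℝ) T] τ₀))
    have h4 := (hτ.sub_const σ).abs.rpow_const (p := dm E + 2 * α) (Or.inr (by linarith))
    have h5 := (((continuous_mm h0 T).tendsto τ₀).comp hτ).inv₀ hm.ne'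
    have h6 : ∀ᶠ x : ι × ℝ in l ×ˢ 𝓝[Icc (0 : ℝ) T] τ₀, ‖Tt x.2 ((N x.1)⁻¹ • z x.1)‖ <
        ‖Tt σ ((N x.1)⁻¹ • z x.1)‖ := by
      have a1 := ((continuous_Tt.tendsto (τ₀, z₀)).comp
        (hτ.prodMk_nhds (hz.comp tendsto_fst))).norm
      have a2 := ((continuous_Tt.tendsto (σ, z₀)).comp (tendsto_const_nhds.prodMk_nhds
        (hz.comp (tendsto_fst (f := l) (g := 𝓝[Icc (0 : ℝ) T] τ₀))))).norm
      refine a1.eventually_lt a2 ?_
      simp only [hon, norm_zero]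
      exact norm_pos_iff.mpr hne
    refine ENNReal.tendsto_ofReal ((((((h3.mul h4).mul h1).mul h5).const_mul 2).congr' ?_).trans_eq
      ?_)
    · filter_upwards [h6, tendsto_fst.eventually (hN.eventually_gt_atTop 0)] with x hx hN0
      rw [Tt_smul, Tt_smul, norm_smul, norm_smul] at hx
      have hx' := lt_of_mul_lt_mul_left hx (norm_nonneg _)
      simp only [Function.comp, Bint, om, if_pos hx', Prod.smul_snd, norm_smul, norm_inv,
        Real.norm_of_nonneg hN0.le]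
      rw [Real.mul_rpow (by positivity) (norm_nonneg _), Real.inv_rpow hN0.le]
      have : N x.1 ^ (dm E + α) ≠ 0 := by positivity
      field_simp
    · rw [en, Real.mul_rpow hs.le hv'.le, Real.rpow_neg hv'.le, abs_sub_comm τ₀ σ,
        show dm E + 2 * α = α + (dm E + α) by ring, Real.rpow_add hs α, Real.rpow_neg hs.le]
      have a1 : ‖z₀.2‖ ^ (dm E + α) ≠ 0 := by positivity
      have a2 : |σ - τ₀| ^ (dm E + α) ≠ 0 := by positivity
      congr 1
      field_simp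

theorem W_ne_top [Nontrivial E] {α T : ℝ} (h0 : 0 < α) (h2 : α < 2) (hT : 0 < T) (z : E × E) :
    ∫⁻ τ in Icc (0 : ℝ) T, qq α T τ (Tt τ z) ≠ ∞ := by
  have hβ : 0 ≤ dm E + α := by have := dm_nonneg (E := E); linarith
  obtain ⟨C₁, C₂, -, hC₂, hq⟩ := qq_bounds (E := E) h0 h2 hT
  refine ne_top_of_le_ne_top (b := ENNReal.ofReal C₂ * volume (Icc (0 : ℝ) T))
    (ENNReal.mul_ne_top ENNReal.ofReal_ne_top measure_Icc_lt_top.ne) ?_
  rw [← setLIntegral_const]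
  refine setLIntegral_mono' measurableSet_Icc fun τ hτ => (hq τ hτ _).2.trans ?_
  refine mul_le_of_le_one_right' ?_
  rw [← ENNReal.ofReal_one]
  exact ENNReal.ofReal_le_ofReal (Real.rpow_le_one_of_one_le_of_nonpos
    (le_add_of_nonneg_right (norm_nonneg _)) (by linarith))

theorem conc [Nontrivial E] {α T : ℝ} (h0 : 0 < α) (h2 : α < 2) (hT : 0 < T) {ι : Type*}
    {l : Filter ι} {N : ι → ℝ} {z : ι → E × E} {z₀ : E × E}
    (hN : Tendsto N l atTop) (hz : Tendsto (fun n => (N n)⁻¹ • z n) l (𝓝 z₀)) {τ₀ : ℝ}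
    (hτ₀ : τ₀ ∈ Icc (0 : ℝ) T) (hon : Tt τ₀ z₀ = 0) (hv : z₀.2 ≠ 0) {θ : ℝ} (hθ : 0 < θ) :
    Sm l (fun n => ∫⁻ τ in Icc (0 : ℝ) T,
        {τ : ℝ | θ ≤ |τ - τ₀|}.indicator (fun τ => qq α T τ (Tt τ (z n))) τ)
      (fun n => ∫⁻ τ in Icc (0 : ℝ) T, qq α T τ (Tt τ (z n))) := by
  have hβ : 0 ≤ dm E + α := by have := dm_nonneg (E := E); linarith
  have hv' : 0 < ‖z₀.2‖ := norm_pos_iff.mpr hv
  obtain ⟨C₁, C₂, -, hC₂, hq⟩ := qq_bounds (E := E) h0 h2 hT
  have h1 := ((rb_G h0 hT hN hz hτ₀ hon).const_mul (K := ENNReal.ofReal C₂ *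
    ENNReal.ofReal ((θ * ‖z₀.2‖ / 2) ^ (-(dm E + α))) * volume (Icc (0 : ℝ) T))
    (ENNReal.mul_ne_top (ENNReal.mul_ne_top ENNReal.ofReal_ne_top ENNReal.ofReal_ne_top)
      measure_Icc_lt_top.ne)).scale (a := fun _ => 1) (K := ENNReal.ofReal C₁)
    (F := fun n => ∫⁻ τ in Icc (0 : ℝ) T, qq α T τ (Tt τ (z n))) ENNReal.ofReal_ne_top
    (Eventually.of_forall fun n => by
      rw [one_mul, ← lintegral_const_mul' _ _ ENNReal.ofReal_ne_top]
      exact setLIntegral_mono' measurableSet_Icc fun τ hτ => (hq τ hτ _).1)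
  refine h1.mono ?_
  have hz' := (tendsto_iff_norm_sub_tendsto_zero.mp hz).eventually
    (ge_mem_nhds (show 0 < θ * ‖z₀.2‖ / 2 / (1 + T) by positivity))
  filter_upwards [hz', hN.eventually_gt_atTop 0] with n hn hN0
  calc _ ≤ ∫⁻ _ in Icc (0 : ℝ) T, ENNReal.ofReal C₂ *
        ENNReal.ofReal ((θ * ‖z₀.2‖ / 2 * N n) ^ (-(dm E + α))) := by
        refine setLIntegral_mono' measurableSet_Icc fun τ hτ => ?_
        by_cases hc : τ ∈ {τ : ℝ | θ ≤ |τ - τ₀|}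
        · rw [indicator_of_mem hc]
          refine (hq τ hτ _).2.trans (mul_le_mul_right (gg_le_rpow hβ (by positivity) ?_) _)
          have a1 := norm_Tt_le hτ ((N n)⁻¹ • z n - z₀)
          have a2 : (1 + T) * ‖(N n)⁻¹ • z n - z₀‖ ≤ θ * ‖z₀.2‖ / 2 := by
            rwa [le_div_iff₀' (by positivity)] at hn
          have a3 : Tt τ z₀ = (τ₀ - τ) • z₀.2 := by
            have : z₀.1 = τ₀ • z₀.2 := sub_eq_zero.mp hon
            rw [Tt, this, sub_smul]
          have a4 : θ * ‖z₀.2‖ ≤ ‖Tt τ z₀‖ := by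
            rw [a3, norm_smul, Real.norm_eq_abs, abs_sub_comm]
            exact mul_le_mul_of_nonneg_right hc hv'.le
          have a5 : θ * ‖z₀.2‖ / 2 ≤ ‖Tt τ ((N n)⁻¹ • z n)‖ := by
            rw [Tt_sub] at a1
            have := norm_sub_le (Tt τ ((N n)⁻¹ • z n)) (Tt τ ((N n)⁻¹ • z n) - Tt τ z₀)
            rw [sub_sub_cancel] at this
            linarith
          rwa [Tt_smul, norm_smul, norm_inv, Real.norm_of_nonneg hN0.le, ← div_eq_inv_mul,
            le_div_iff₀ hN0] at a5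
        · simp [indicator_of_notMem hc]
    _ = _ := by
        rw [setLIntegral_const, Real.mul_rpow (by positivity) hN0.le,
          ENNReal.ofReal_mul (by positivity)]
        ring

/-- Asymptotics of the uniform equivalent near the cone. -/
theorem regimeFB [Nontrivial E] {α T : ℝ} (h0 : 0 < α) (h2 : α < 2) (hT : 0 < T) {ι : Type*}
    {l : Filter ι} [l.IsCountablyGenerated] {N : ι → ℝ} {z : ι → E × E} {z₀ : E × E}
    (hN : Tendsto N l atTop) (hz : Tendsto (fun n => (N n)⁻¹ • z n) l (𝓝 z₀)) {τ₀ : ℝ}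
    (hτ₀ : τ₀ ∈ Icc (0 : ℝ) T) (hon : Tt τ₀ z₀ = 0) (hv : z₀.2 ≠ 0) :
    Eqv l (fun n => F2 α T (z n)) (fun n => 2 * F1 α T (z n)) := by
  have hc := cc_pos' (E := E) h0 h2
  have hv' : 0 < ‖z₀.2‖ := norm_pos_iff.mpr hv
  obtain ⟨K, hK⟩ := Bint_le (E := E) h0 h2 hT
  have key := avg_eqv (l := l) (T := T) (τ₀ := τ₀) (b := 2 * cc (dm E) α) (by positivity)
    (fun n τ => qq α T τ (Tt τ (z n)))
    (fun n τ => ∫⁻ σ in Icc (0 : ℝ) T, ENNReal.ofReal (Bint α T (z n) σ τ))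
    (fun n => measurable_qq_Tt h0 hT (z n)) (fun n => W_ne_top h0 h2 hT (z n))
    (ENNReal.ofReal K * volume (Icc (0 : ℝ) T))
    (ENNReal.mul_ne_top ENNReal.ofReal_ne_top measure_Icc_lt_top.ne)
    (fun n τ hτ => by
      rw [← setLIntegral_const]
      exact setLIntegral_mono' measurableSet_Icc fun σ hσ =>
        ENNReal.ofReal_le_ofReal (hK _ σ hσ τ hτ))
    (B_tendsto h0 h2 hT hN hz hon hv) (fun θ hθ => conc h0 h2 hT hN hz hτ₀ hon hv hθ)
  intro κ hκ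
  filter_upwards [key κ hκ, rb_norm hN hz hv, hN.eventually_gt_atTop 0] with n hn hnorm hN0
  have hvn : 0 < ‖(z n).2‖ := lt_of_lt_of_le (by positivity) hnorm.1
  have e : 2 * F1 α T (z n) = ENNReal.ofReal (‖(z n).2‖ ^ (-(dm E + α))) *
      (ENNReal.ofReal (2 * cc (dm E) α) * ∫⁻ τ in Icc (0 : ℝ) T, qq α T τ (Tt τ (z n))) := by
    rw [F1, nn, ENNReal.ofReal_mul hc.le, ENNReal.ofReal_mul (by norm_num), ENNReal.ofReal_ofNat]
    ring
  rw [e, F2_eq h0 h2 hT _ hvn]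
  exact ⟨(mul_le_mul_right hn.1 _).trans (le_of_eq (mul_left_comm _ _ _)),
    (mul_le_mul_right hn.2 _).trans (le_of_eq (mul_left_comm _ _ _))⟩

end Pool.Agent.Lib.MP_bd80ac_an
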