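import Pool.Agent.Lib.MP_bd80ac_an.Mu

set_option autoImplicit false

namespace Pool.Agent.Lib.MP_bd80ac_an

open MeasureTheory Set Filter Topology
open scoped Real ENNReal RealInnerProductSpace

variable {E : Type*} [NormedAddCommGroup E] [InnerProductSpace ℝ E] [FiniteDimensional ℝ E]
  [MeasurableSpace E] [BorelSpace E]

theorem measurable_Tt : Measurable fun x : ℝ × (E × E) => Tt x.1 x.2 := continuous_Tt.measurable

theorem two_jump_fix (a : E → ℝ≥0∞) (ha : Measurable a) {f : E × E → ℝ≥0∞} (hf : Measurable f)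
    (z : E × E) {σ τ : ℝ} (h : σ - τ ≠ 0) :
    ∫⁻ w₁, a w₁ * ∫⁻ w₂, a w₂ * f (z.1 - σ • w₁ - τ • w₂, z.2 - w₁ - w₂) =
      ∫⁻ u : E × E, f u * (ENNReal.ofReal (|σ - τ| ^ (-dm E)) *
        (a ((σ - τ)⁻¹ • Tt τ (z - u)) * a (-((σ - τ)⁻¹ • Tt σ (z - u))))) := by
  have h1 : ∀ w₁, a w₁ * ∫⁻ w₂, a w₂ * f (z.1 - σ • w₁ - τ • w₂, z.2 - w₁ - w₂) =
      ∫⁻ u₂, a w₁ * (a (z.2 - w₁ - u₂) * f (z.1 - σ • w₁ - τ • (z.2 - w₁ - u₂), u₂)) := by
    intro w₁
    have hm0 : Measurable fun u₂ : E =>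
        a (z.2 - w₁ - u₂) * f (z.1 - σ • w₁ - τ • (z.2 - w₁ - u₂), u₂) :=
      (ha.comp (by fun_prop)).mul (hf.comp (by fun_prop))
    rw [lintegral_const_mul _ hm0, ← lintegral_sub_left_eq_self _ (z.2 - w₁)]
    simp only [sub_sub_cancel]
  simp only [h1]
  have hm : Measurable (Function.uncurry fun w₁ u₂ : E =>
      a w₁ * (a (z.2 - w₁ - u₂) * f (z.1 - σ • w₁ - τ • (z.2 - w₁ - u₂), u₂))) :=
    (ha.comp measurable_fst).mul ((ha.comp (f := fun x : E × E => z.2 - x.1 - x.2)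
      (by fun_prop)).mul (hf.comp (f := fun x : E × E =>
        (z.1 - σ • x.1 - τ • (z.2 - x.1 - x.2), x.2)) (by fun_prop)))
  have hT : ∀ t : ℝ, Measurable fun u : E × E => Tt t (z - u) := fun t =>
    measurable_Tt.comp (f := fun u : E × E => (t, z - u)) (by fun_prop)
  have hm2 : Measurable fun u : E × E => f u * (ENNReal.ofReal (|σ - τ| ^ (-dm E)) *
      (a ((σ - τ)⁻¹ • Tt τ (z - u)) * a (-((σ - τ)⁻¹ • Tt σ (z - u))))) :=
    hf.mul (((ha.comp ((hT τ).const_smul _)).mul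
      (ha.comp ((hT σ).const_smul _).neg)).const_mul _)
  rw [lintegral_lintegral_swap hm.aemeasurable, Measure.volume_eq_prod,
    lintegral_prod_symm _ hm2.aemeasurable]
  refine lintegral_congr fun u₂ => ?_
  have h2 := lint_scale (fun u₁ : E => f (u₁, u₂) * (a ((σ - τ)⁻¹ • Tt τ (z - (u₁, u₂))) *
    a (-((σ - τ)⁻¹ • Tt σ (z - (u₁, u₂)))))) (Tt τ z + τ • u₂) h
  rw [← lintegral_const_mul' _ _ ENNReal.ofReal_ne_top] at h2
  refine Eq.trans ?_ (h2.trans (lintegral_congr fun u₁ => by ring))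
  refine lintegral_congr fun w₁ => ?_
  have e1 : Tt τ (z - (Tt τ z + τ • u₂ - (σ - τ) • w₁, u₂)) = (σ - τ) • w₁ := by
    simp only [Tt, Prod.fst_sub, Prod.snd_sub, smul_sub]
    abel
  have e2 : Tt σ (z - (Tt τ z + τ • u₂ - (σ - τ) • w₁, u₂)) = (σ - τ) • (-(z.2 - w₁ - u₂)) := by
    simp only [Tt, Prod.fst_sub, Prod.snd_sub]
    module
  have e3 : Tt τ z + τ • u₂ - (σ - τ) • w₁ = z.1 - σ • w₁ - τ • (z.2 - w₁ - u₂) := by
    simp only [Tt]
    module
  rw [e1, e2, inv_smul_smul₀ h, inv_smul_smul₀ h, neg_neg, e3]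
  ring

theorem measurable_Hint (α : ℝ) : Measurable fun x : (E × E) × ℝ × ℝ =>
    ENNReal.ofReal (cc (dm E) α ^ 2 * |x.2.2 - x.2.1| ^ (dm E + 2 * α) *
      ‖Tt x.2.1 x.1‖ ^ (-(dm E + α)) * ‖Tt x.2.2 x.1‖ ^ (-(dm E + α))) := by
  have h1 : Measurable fun x : (E × E) × ℝ × ℝ => Tt x.2.1 x.1 :=
    measurable_Tt.comp (f := fun x : (E × E) × ℝ × ℝ => (x.2.1, x.1)) (by fun_prop)
  have h2 : Measurable fun x : (E × E) × ℝ × ℝ => Tt x.2.2 x.1 :=
    measurable_Tt.comp (f := fun x : (E × E) × ℝ × ℝ => (x.2.2, x.1)) (by fun_prop)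
  refine ENNReal.measurable_ofReal.comp ?_
  refine Measurable.mul (Measurable.mul (Measurable.const_mul ?_ _) ?_) ?_
  · exact (by fun_prop : Measurable fun x : (E × E) × ℝ × ℝ => |x.2.2 - x.2.1|).pow_const _
  · exact h1.norm.pow_const _
  · exact h2.norm.pow_const _

theorem measurable_Hh (α T : ℝ) : Measurable (Hh α T : E × E → ℝ≥0∞) := by
  unfold Hh
  refine Measurable.lintegral_prod_right' (f := fun x : (E × E) × ℝ => ∫⁻ τ in Icc (0 : ℝ) T,
    ENNReal.ofReal (cc (dm E) α ^ 2 * |τ - x.2| ^ (dm E + 2 * α) * ‖Tt x.2 x.1‖ ^ (-(dm E + α)) *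
      ‖Tt τ x.1‖ ^ (-(dm E + α)))) ?_
  refine Measurable.lintegral_prod_right' (f := fun x : ((E × E) × ℝ) × ℝ =>
    ENNReal.ofReal (cc (dm E) α ^ 2 * |x.2 - x.1.2| ^ (dm E + 2 * α) *
      ‖Tt x.1.2 x.1.1‖ ^ (-(dm E + α)) * ‖Tt x.2 x.1.1‖ ^ (-(dm E + α)))) ?_
  exact (measurable_Hint α).comp (f := fun x : ((E × E) × ℝ) × ℝ => (x.1.1, x.1.2, x.2))
    (by fun_prop)

theorem SS_SS_eq {α T r : ℝ} (hc : 0 ≤ cc (dm E) α) (hr : 0 < r) {f : E × E → ℝ≥0∞}
    (hf : Measurable f) (z : E × E)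
    (hsupp : ∀ u, f u ≠ 0 → ∀ τ ∈ Icc (0 : ℝ) T, r * T ≤ ‖Tt τ (z - u)‖) :
    SS α T r (SS α T r f) z = ∫⁻ u, f u * Hh α T (z - u) := by
  set a : E → ℝ≥0∞ := {w : E | r ≤ ‖w‖}.indicator (nn α) with ha
  have ham : Measurable a := (measurable_nn α).indicator (measurableSet_far r)
  have hane : ∀ w, a w ≠ ∞ := fun w =>
    ne_top_of_le_ne_top (nn_ne_top α w) (indicator_le_self _ _ w)
  have hset : ∀ F : E → ℝ≥0∞, ∫⁻ w in {w : E | r ≤ ‖w‖}, nn α w * F w = ∫⁻ w, a w * F w := by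
    intro F
    rw [← lintegral_indicator (measurableSet_far r)]
    refine lintegral_congr fun w => ?_
    rw [ha, indicator_mul_left]
  have hk := (measurable_Hint (E := E) α).comp
    (f := fun x : (ℝ × ℝ) × (E × E) => (z - x.2, x.1.1, x.1.2)) (by fun_prop)
  have hstep : ∀ σ ∈ Icc (0 : ℝ) T, ∫⁻ w in {w : E | r ≤ ‖w‖},
      nn α w * SS α T r f (z.1 - σ • w, z.2 - w) =
      ∫⁻ u, f u * ∫⁻ τ in Icc (0 : ℝ) T, ENNReal.ofReal (cc (dm E) α ^ 2 *
        |τ - σ| ^ (dm E + 2 * α) * ‖Tt σ (z - u)‖ ^ (-(dm E + α)) *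
        ‖Tt τ (z - u)‖ ^ (-(dm E + α))) := by
    intro σ hσ
    have hm : Measurable fun x : (E × ℝ) × E =>
        a x.2 * f (z.1 - σ • x.1.1 - x.1.2 • x.2, z.2 - x.1.1 - x.2) :=
      (ham.comp measurable_snd).mul (hf.comp (by fun_prop))
    have hkσ := hk.comp (f := fun x : (E × E) × ℝ => ((σ, x.2), x.1)) (by fun_prop)
    calc _ = ∫⁻ w₁, ∫⁻ τ in Icc (0 : ℝ) T,
            a w₁ * ∫⁻ w₂, a w₂ * f (z.1 - σ • w₁ - τ • w₂, z.2 - w₁ - w₂) := by
          rw [hset]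
          refine lintegral_congr fun w₁ => ?_
          rw [lintegral_const_mul' _ _ (hane w₁)]
          simp only [SS, hset]
      _ = ∫⁻ τ in Icc (0 : ℝ) T, ∫⁻ w₁,
            a w₁ * ∫⁻ w₂, a w₂ * f (z.1 - σ • w₁ - τ • w₂, z.2 - w₁ - w₂) :=
          lintegral_lintegral_swap ((ham.comp measurable_fst).mul
            (Measurable.lintegral_prod_right' hm)).aemeasurable
      _ = ∫⁻ τ in Icc (0 : ℝ) T, ∫⁻ u, f u * ENNReal.ofReal (cc (dm E) α ^ 2 *
            |τ - σ| ^ (dm E + 2 * α) * ‖Tt σ (z - u)‖ ^ (-(dm E + α)) *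
            ‖Tt τ (z - u)‖ ^ (-(dm E + α))) := by
          refine lintegral_congr_ae ?_
          filter_upwards [ae_restrict_mem measurableSet_Icc,
            ae_restrict_of_ae (Measure.ae_ne volume σ)] with τ hτ hne
          have hs : σ - τ ≠ 0 := sub_ne_zero.mpr hne.symm
          have hs' : 0 < |σ - τ| := abs_pos.mpr hs
          have hle : |σ - τ| ≤ T :=
            abs_le.mpr ⟨by linarith [hσ.1, hτ.2], by linarith [hσ.2, hτ.1]⟩
          rw [two_jump_fix a ham hf z hs]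
          refine lintegral_congr fun u => ?_
          by_cases hu : f u = 0
          · simp [hu]
          congr 1
          have hfar : ∀ t ∈ Icc (0 : ℝ) T, r ≤ ‖(σ - τ)⁻¹ • Tt t (z - u)‖ := by
            intro t ht
            rw [norm_smul, norm_inv, Real.norm_eq_abs, ← div_eq_inv_mul, le_div_iff₀ hs']
            exact (mul_le_mul_of_nonneg_left hle hr.le).trans (hsupp u hu t ht)
          have m1 : (σ - τ)⁻¹ • Tt τ (z - u) ∈ {w : E | r ≤ ‖w‖} := hfar τ hτ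
          have m2 : -((σ - τ)⁻¹ • Tt σ (z - u)) ∈ {w : E | r ≤ ‖w‖} := by
            have := hfar σ hσ
            rwa [← norm_neg] at this
          rw [ha, indicator_of_mem m1, indicator_of_mem m2]
          unfold nn
          rw [← ENNReal.ofReal_mul (by positivity), ← ENNReal.ofReal_mul (by positivity)]
          congr 1
          rw [norm_neg, norm_smul, norm_smul, norm_inv, Real.norm_eq_abs,
            Real.mul_rpow (by positivity) (norm_nonneg _),
            Real.mul_rpow (by positivity) (norm_nonneg _), Real.inv_rpow hs'.le,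
            ← Real.rpow_neg hs'.le, neg_neg, abs_sub_comm τ σ,
            show dm E + 2 * α = -dm E + (dm E + α) + (dm E + α) by ring,
            Real.rpow_add hs' (-dm E + (dm E + α)), Real.rpow_add hs' (-dm E)]
          ring
      _ = _ := by
          rw [← lintegral_lintegral_swap ((hf.comp measurable_fst).mul hkσ).aemeasurable]
          refine lintegral_congr fun u => ?_
          exact lintegral_const_mul _ (hkσ.comp (f := fun τ : ℝ => (u, τ)) (by fun_prop))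
  have hk2 : Measurable fun x : ℝ × (E × E) => ∫⁻ τ in Icc (0 : ℝ) T,
      ENNReal.ofReal (cc (dm E) α ^ 2 * |τ - x.1| ^ (dm E + 2 * α) *
        ‖Tt x.1 (z - x.2)‖ ^ (-(dm E + α)) * ‖Tt τ (z - x.2)‖ ^ (-(dm E + α))) :=
    Measurable.lintegral_prod_right' (hk.comp
      (f := fun x : (ℝ × (E × E)) × ℝ => ((x.1.1, x.2), x.1.2)) (by fun_prop))
  rw [SS, setLIntegral_congr_fun measurableSet_Icc hstep,
    lintegral_lintegral_swap ((hf.comp measurable_snd).mul hk2).aemeasurable]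
  refine lintegral_congr fun u => ?_
  exact lintegral_const_mul _ (hk2.comp (f := fun σ : ℝ => (σ, u)) (by fun_prop))

theorem Dec.decay1 {V : Type*} [SeminormedAddCommGroup V] [MeasurableSpace V]
    {S : ℝ → (V → ℝ≥0∞) → V → ℝ≥0∞} {p : V → ℝ≥0∞} {P : ℝ → V → ℝ≥0∞} {A a : ℝ}
    (h : Dec S p P A a) {K : ℝ} (hK : 0 < K) : ∃ L : ℝ, 0 < L ∧ ∀ r, 1 ≤ r → ∀ z, L * r ≤ ‖z‖ →
      P r z ≤ ENNReal.ofReal (A * r ^ (-K)) := by
  have ha := h.a_pos
  refine ⟨K / a, by positivity, fun r hr z hz => (h.decay r hr z).trans ?_⟩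
  refine ENNReal.ofReal_le_ofReal (mul_le_mul_of_nonneg_left ?_ h.A_nonneg)
  refine Real.rpow_le_rpow_of_exponent_le hr (neg_le_neg ?_)
  rw [le_div_iff₀ (by linarith)]
  rw [div_mul_eq_mul_div, div_le_iff₀' ha] at hz
  exact hz

theorem Dec.decay2 {S : ℝ → (E × E → ℝ≥0∞) → E × E → ℝ≥0∞} {p : E × E → ℝ≥0∞}
    {P : ℝ → E × E → ℝ≥0∞} {A a : ℝ} (h : Dec S p P A a) {K : ℝ} (hK : 0 < K) :
    ∃ L A' : ℝ, 0 < L ∧ 0 ≤ A' ∧ ∀ r, 3 ≤ r → ∀ (τ : ℝ) (y : E),
      ∫⁻ u in {u : E | L * r ≤ ‖u‖}, P r (y + τ • u, u) ≤ ENNReal.ofReal (A' * r ^ (-K)) := by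
  have ha := h.a_pos
  have hA := h.A_nonneg
  have hD := dm_nonneg (E := E)
  have hint := integrable_exp_neg (volume : Measure E) (b := a / 2) (α := 1) (by positivity) one_pos
  have hI0 : 0 ≤ ∫ w : E, Real.exp (-(a / 2 * ‖w‖ ^ (1 : ℝ))) :=
    integral_nonneg fun _ => (Real.exp_pos _).le
  refine ⟨2 * (K + dm E) / a, A * ∫ w : E, Real.exp (-(a / 2 * ‖w‖ ^ (1 : ℝ))), by positivity,
    by positivity, fun r hr τ y => ?_⟩
  have hr0 : 0 < r := by linarith
  have hs := lint_scale (fun w : E => ENNReal.ofReal (Real.exp (-(a / 2 * ‖w‖ ^ (1 : ℝ))))) 0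
    (c := r⁻¹) (by positivity)
  rw [← ofReal_integral_eq_lintegral_ofReal hint (ae_of_all _ fun _ => (Real.exp_pos _).le)] at hs
  calc _ ≤ ∫⁻ u in {u : E | 2 * (K + dm E) / a * r ≤ ‖u‖}, ENNReal.ofReal (A * r ^ (-(K + dm E))) *
          ENNReal.ofReal (Real.exp (-(a / 2 * ‖(0 : E) - r⁻¹ • u‖ ^ (1 : ℝ)))) := by
        refine setLIntegral_mono' (measurableSet_far _) fun u hu => ?_
        refine (h.decay r (by linarith) _).trans ?_
        rw [← ENNReal.ofReal_mul (by positivity), mul_assoc]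
        refine ENNReal.ofReal_le_ofReal (mul_le_mul_of_nonneg_left ?_ hA)
        have h1 : ‖u‖ ≤ ‖(y + τ • u, u)‖ := norm_snd_le (y + τ • u, u)
        have h2 : 2 * (K + dm E) * r ≤ a * ‖u‖ := by
          have : 2 * (K + dm E) / a * r ≤ ‖u‖ := hu
          rwa [div_mul_eq_mul_div, div_le_iff₀' ha] at this
        have h3 : Real.exp 1 ≤ r := by linarith [Real.exp_one_lt_d9]
        have h4 : Real.exp (-(a / 2 * ‖(0 : E) - r⁻¹ • u‖ ^ (1 : ℝ))) =
            Real.exp 1 ^ (-(a * ‖u‖ / (2 * r))) := by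
          rw [Real.exp_one_rpow, Real.rpow_one, zero_sub, norm_neg, norm_smul, norm_inv,
            Real.norm_of_nonneg hr0.le]
          congr 2
          field_simp
        have h5 : r ^ (-(a * ‖u‖ / (2 * r))) ≤ Real.exp 1 ^ (-(a * ‖u‖ / (2 * r))) :=
          Real.rpow_le_rpow_of_nonpos (Real.exp_pos 1) h3 (neg_nonpos.mpr (by positivity))
        rw [h4]
        refine le_trans ?_ (mul_le_mul_of_nonneg_left h5 (by positivity))
        rw [← Real.rpow_add hr0]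
        refine Real.rpow_le_rpow_of_exponent_le (by linarith) ?_
        have h6 : K + dm E ≤ a * ‖u‖ / (2 * r) := by
          rw [le_div_iff₀ (by positivity)]
          linarith
        have h7 : a * ‖u‖ / (2 * r) + a * ‖u‖ / (2 * r) ≤ a * ‖(y + τ • u, u)‖ / r := by
          rw [← add_div, div_le_div_iff₀ (by positivity) hr0]
          nlinarith [mul_le_mul_of_nonneg_left h1 (mul_pos ha hr0).le]
        linarith
    _ ≤ _ := by
        refine (setLIntegral_le_lintegral _ _).trans (le_of_eq ?_)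
        rw [lintegral_const_mul' _ _ ENNReal.ofReal_ne_top, hs,
          ← ENNReal.ofReal_mul (by positivity), ← ENNReal.ofReal_mul (by positivity)]
        congr 1
        rw [abs_of_pos (by positivity), Real.inv_rpow hr0.le, ← Real.rpow_neg hr0.le, neg_neg,
          show -K = -(K + dm E) + dm E by ring, Real.rpow_add hr0]
        ring

end Pool.Agent.Lib.MP_bd80ac_an
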